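import Pool.Agent.X120.GS.Rel
import Pool.Agent.Y123.GN.E8

/-!
# Subtorsors over all number fields of bounded degree at geometric sequences
-/

set_option autoImplicit false

open Matrix Module PowerSeries Filter

namespace Pool.Agent.X120.GS

open Pool.Agent.TH127.PT Pool.Agent.Y123.ST Pool.Agent.Y123.SR Pool.Agent.Y123.GN Pool.Agent.Y113 Pool.Agent.Y113.GG
  Pool.Agent.Y120.R Pool.Agent.Y120.GH

/-- the period matrices as polynomials in all variables -/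
noncomputable def soM {k : ℕ} {ρ n : Fin k → ℕ} (P : ∀ i, Fin (n i) → Fin (n i) → MvPolynomial (Fin (ρ i)) ℂ) :
    ∀ i, Fin (n i) → Fin (n i) → MvPolynomial (Option (Fin (ρ i))) ℂ := fun i a b => MvPolynomial.rename some (P i a b)

/-- stability at one tuple from the relations -/
theorem stab_of {k r d D m : ℕ} {ρ n : Fin k → ℕ} {h : ∀ i, Fin (ρ i) → ℚ⟦X⟧} (hm : r + ∑ i, n i ≤ m)
    (hd : ∀ (B₀ : Type) [Fintype B₀] [DecidableEq B₀] (k : ℕ) (n : Fin k → ℕ),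
    Fintype.card (IG B₀ n) ≤ m → ∀ (r : Fin k → ℕ) (h : ∀ i, Fin (r i) → ℚ⟦X⟧)
    (P : ∀ i, Fin (n i) → Fin (n i) → MvPolynomial (Option (Fin (r i))) ℂ) (t : Fin k → ℕ) (C₀ : Matrix B₀ B₀ ℂ),
    (∀ g : ∀ i, (Matrix (Fin (n i)) (Fin (n i)) ℂ)ˣ, (∀ i, g i ∈ Gs (h i) (P i)) →
      Rl ⊥ d (EG C₀ fun i => pM (h i) (P i) (t i : ℝ)) (EG 1 (fun i => (g i : Matrix (Fin (n i)) (Fin (n i)) ℂ)) *
        EG C₀ fun i => pM (h i) (P i) (t i : ℝ))) → GoodU D C₀ h P t)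
    (P : ∀ i, Fin (n i) → Fin (n i) → MvPolynomial (Option (Fin (ρ i))) ℂ) (C₀ : Matrix (Fin r) (Fin r) ℂ) (t : Fin k → ℕ)
    {W : Submodule ℚ ℂ} (hKW : ∀ x ∈ (⊥ : Subfield ℂ), x ∈ W) (hW3 : ∀ b : Fin r × Fin r, C₀ b.1 b.2 ∈ W)
    (hcon : ¬ ∃ F : MvPolynomial (Σ i, Fin (n i) × Fin (n i)) ℂ, F.totalDegree ≤ d ∧
        (∀ s, F.coeff s ∈ W ^ (d + 1)) ∧
        MvPolynomial.eval (pn h (fun i (v : Fin (n i) × Fin (n i)) => P i v.1 v.2) fun i => (t i : ℝ)) F = 0 ∧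
        ∃ q' : ∀ i, Fin (n i) × Fin (n i) → MvPolynomial (Option (Fin (ρ i))) ℂ,
          (∀ i, Sat (h i) (fun v : Fin (n i) × Fin (n i) => P i v.1 v.2) (q' i)) ∧
          MvPolynomial.eval (pn h q' fun i => (t i : ℝ)) F ≠ 0) : GoodU D C₀ h P t := by
  classical
  have h1W : (1 : ℂ) ∈ W := hKW 1 (⊥ : Subfield ℂ).one_mem
  have hval : ∀ i (g : Matrix (Fin (n i)) (Fin (n i)) ℂ) (v : Fin (n i) × Fin (n i)),
      MvPolynomial.aeval (p1 (h i) (t i : ℝ)) (tl (P i) g v) = (g * pM (h i) (P i) (t i : ℝ)) v.1 v.2 := fun i g v =>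
    tl_eval (h i) (P i) g _ v
  have hrel : ∀ g : ∀ i, (Matrix (Fin (n i)) (Fin (n i)) ℂ)ˣ, (∀ i, g i ∈ Gs (h i) (P i)) →
      ∀ F : MvPolynomial (Σ i, Fin (n i) × Fin (n i)) ℂ, F.totalDegree ≤ d → (∀ s, F.coeff s ∈ W ^ (d + 1)) →
      MvPolynomial.aeval (fun v : Σ i, Fin (n i) × Fin (n i) => pM (h v.1) (P v.1) (t v.1 : ℝ) v.2.1 v.2.2) F = 0 →
      MvPolynomial.aeval (fun v : Σ i, Fin (n i) × Fin (n i) =>
        ((g v.1 : Matrix (Fin (n v.1)) (Fin (n v.1)) ℂ) * pM (h v.1) (P v.1) (t v.1 : ℝ)) v.2.1 v.2.2) F = 0 := by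
    intro g hg F hFd hFV hF0
    by_contra hne
    refine hcon ⟨F, hFd, hFV, ?_, fun i => tl (P i) (g i), fun i => Prs_sat (hg i).1, ?_⟩
    · rw [MvPolynomial.aeval_eq_eval] at hF0
      exact hF0
    · intro h2
      apply hne
      rw [MvPolynomial.aeval_eq_eval]
      refine Eq.trans ?_ h2
      congr 2
      funext v
      exact (hval v.1 (g v.1) v.2).symm
  have hRl : ∀ g : ∀ i, (Matrix (Fin (n i)) (Fin (n i)) ℂ)ˣ, (∀ i, g i ∈ Gs (h i) (P i)) →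
      Rl ⊥ d (EG C₀ fun i => pM (h i) (P i) (t i : ℝ)) (EG 1 (fun i => (g i : Matrix (Fin (n i)) (Fin (n i)) ℂ)) *
        EG C₀ fun i => pM (h i) (P i) (t i : ℝ)) := by
      intro g hg
      refine Rl_of hKW (PhiG_DC h1W fun a b => hW3 (a, b))
        (y := fun v : Σ i, Fin (n i) × Fin (n i) => pM (h v.1) (P v.1) (t v.1 : ℝ) v.2.1 v.2.2)
        (y' := fun v : Σ i, Fin (n i) × Fin (n i) =>
          ((g v.1 : Matrix (Fin (n v.1)) (Fin (n v.1)) ℂ) * pM (h v.1) (P v.1) (t v.1 : ℝ)) v.2.1 v.2.2)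
        (fun F h2 h3 h4 => hrel g hg F h2 h3 h4) (fun b => PhiG_eval C₀ _ b) fun b => ?_
      rw [EG_mul, Matrix.one_mul]
      exact PhiG_eval C₀ _ b
  have hcardm : Fintype.card (IG (Fin r) n) ≤ m := by
    rw [card_IG, Fintype.card_fin]
    exact hm
  exact hd (Fin r) k n hcardm ρ h P t C₀ hRl

/-- **The counting theorem for all number fields of degree at most `D` at once.** -/
theorem all_mainS (k D e r : ℕ) (ρ n : Fin k → ℕ) (h : ∀ i, Fin (ρ i) → ℚ⟦X⟧) {b : Fin k → ℕ} (hb : ∀ i, 2 ≤ b i)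
    (hF : ∀ i δ, FamG δ (h i) (b i)) :
    ∃ C : ℝ, 0 ≤ C ∧ ∀ P : ∀ i, Fin (n i) → Fin (n i) → MvPolynomial (Fin (ρ i)) ℂ,
    (∀ i a b, (P i a b).totalDegree ≤ e) → ∀ C₀ : Matrix (Fin r) (Fin r) ℂ, ∀ T : ℕ, 2 ≤ T →
    ∀ S : Finset (Fin k → ℕ), (∀ t ∈ S, (∀ i, 1 ≤ t i ∧ t i ≤ T) ∧ ¬ GoodU D C₀ h (soM P) (tp b t)) →
    (S.card : ℝ) * T ≤ C * (T : ℝ) ^ k * Real.log T := by
  classical
  obtain ⟨d, hd1, hd⟩ := stabU (r + ∑ i, n i) D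
  obtain ⟨C, hC, hmain⟩ := gxS (ν := fun i => Fin (n i) × Fin (n i)) (h := h) d e
    ((1 + r * r + 1) ^ (d + 1)) hb (fun i => hF i _)
  refine ⟨C, hC, ?_⟩
  intro P hP C₀ T hT S hS
  obtain ⟨hbf, hb1⟩ := bot_fin
  obtain ⟨W, hW1, hW2, hKW, hW3⟩ := exists_W' (⊥ : Subfield ℂ) (fun b : Fin r × Fin r => C₀ b.1 b.2)
  obtain ⟨hp1, hp2⟩ := finrank_pow_le W (d + 1)
  have hWD : Module.finrank ℚ W ≤ 1 + r * r + 1 := by
    refine hW2.trans ?_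
    rw [Fintype.card_prod, Fintype.card_fin]
    omega
  refine hmain (fun i v => P i v.1 v.2) (fun i v => hP i v.1 v.2) (W ^ (d + 1)) (hp2.trans (Nat.pow_le_pow_left hWD _))
    T hT S fun t ht => ?_
  obtain ⟨hbox, hnot⟩ := hS t ht
  refine ⟨hbox, ?_⟩
  by_contra hcon
  apply hnot
  exact stab_of le_rfl hd (soM P) C₀ (tp b t) hKW hW3 hcon

end Pool.Agent.X120.GS
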