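import Pool.Agent.X120.GS.Degb

/-!
# The counting theorem for degenerating families and coefficients in spaces of bounded dimension
-/

set_option autoImplicit false

open Matrix Module PowerSeries Filter

namespace Pool.Agent.X120.GS

open Pool.Agent.TH127.PT Pool.Agent.Y123.ST Pool.Agent.Y123.SR Pool.Agent.Y123.GN Pool.Agent.Y113 Pool.Agent.Y113.GG
  Pool.Agent.Y120.R Pool.Agent.Y120.GH

section
variable {k : ℕ} {n : Fin k → ℕ}

/-- the generic entries, multiplied by constants -/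
noncomputable def PhiV (ℓ : ∀ i, Matrix (Fin (n i)) (Fin (n i)) ℂ) (v : Σ i, Fin (n i) × Fin (n i)) :
    MvPolynomial (Σ i, Fin (n i) × Fin (n i)) ℂ :=
  ∑ l, MvPolynomial.C (ℓ v.1 v.2.1 l) * MvPolynomial.X (⟨v.1, (l, v.2.2)⟩ : Σ i, Fin (n i) × Fin (n i))

theorem PhiV_DC {W : Submodule ℚ ℂ} {ℓ : ∀ i, Matrix (Fin (n i)) (Fin (n i)) ℂ} (hℓ : ∀ i a b, ℓ i a b ∈ W)
    (v : Σ i, Fin (n i) × Fin (n i)) : DC 1 W (PhiV ℓ v) :=
  DC.sum _ fun l _ => DCaX (hℓ v.1 v.2.1 l) _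

theorem PhiV_eval (ℓ : ∀ i, Matrix (Fin (n i)) (Fin (n i)) ℂ) (X : ∀ i, Matrix (Fin (n i)) (Fin (n i)) ℂ)
    (v : Σ i, Fin (n i) × Fin (n i)) : (ℓ v.1 * X v.1) v.2.1 v.2.2 =
      MvPolynomial.aeval (fun v : Σ i, Fin (n i) × Fin (n i) => X v.1 v.2.1 v.2.2) (PhiV ℓ v) := by
  unfold PhiV
  rw [map_sum, Matrix.mul_apply]
  refine Finset.sum_congr rfl fun l _ => ?_
  rw [map_mul, MvPolynomial.aeval_C, MvPolynomial.aeval_X]
  rfl

theorem aeval_comp' {B σ : Type} (Φ : B → MvPolynomial σ ℂ) (P : MvPolynomial B ℂ) (z : σ → ℂ) :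
    MvPolynomial.aeval z (MvPolynomial.aeval Φ P) = MvPolynomial.aeval (fun b => MvPolynomial.aeval z (Φ b)) P := by
  induction P using MvPolynomial.induction_on with
  | C a => simp
  | add p q hp hq => rw [map_add, map_add, hp, hq, map_add]
  | mul_X p b hp => rw [map_mul, map_mul, hp, MvPolynomial.aeval_X, map_mul, MvPolynomial.aeval_X]

/-- relations with coefficients in `V` are stable under the group -/
def GoodC {r : Fin k → ℕ} (d : ℕ) (V : Submodule ℚ ℂ) (ℓ : ∀ i, Matrix (Fin (n i)) (Fin (n i)) ℂ)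
    (h : ∀ i, Fin (r i) → ℚ⟦X⟧)
    (P : ∀ i, Fin (n i) → Fin (n i) → MvPolynomial (Option (Fin (r i))) ℂ) (t : Fin k → ℕ) : Prop :=
  ∀ F : MvPolynomial (Σ i, Fin (n i) × Fin (n i)) ℂ, F.totalDegree ≤ d → (∀ s, F.coeff s ∈ V) →
    MvPolynomial.aeval (fun v : Σ i, Fin (n i) × Fin (n i) => (ℓ v.1 * pM (h v.1) (P v.1) (t v.1 : ℝ)) v.2.1 v.2.2) F = 0 →
    ∀ g : ∀ i, (Matrix (Fin (n i)) (Fin (n i)) ℂ)ˣ, (∀ i, g i ∈ Gs (h i) (P i)) →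
      MvPolynomial.aeval (fun v : Σ i, Fin (n i) × Fin (n i) => (ℓ v.1 * ((g v.1 : Matrix (Fin (n v.1)) (Fin (n v.1)) ℂ) *
        pM (h v.1) (P v.1) (t v.1 : ℝ))) v.2.1 v.2.2) F = 0

theorem rel_ofV {r : Fin k → ℕ} {d : ℕ} {h : ∀ i, Fin (r i) → ℚ⟦X⟧} {V W : Submodule ℚ ℂ} (hW1 : (1 : ℂ) ∈ W)
    (P : ∀ i, Fin (n i) → Fin (n i) → MvPolynomial (Option (Fin (r i))) ℂ)
    (ℓ : ∀ i, Matrix (Fin (n i)) (Fin (n i)) ℂ) (t : Fin k → ℕ) (hℓ : ∀ i a b, ℓ i a b ∈ W)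
    (hcon : ¬ ∃ F : MvPolynomial (Σ i, Fin (n i) × Fin (n i)) ℂ, F.totalDegree ≤ d ∧
        (∀ s, F.coeff s ∈ V * W ^ d) ∧
        MvPolynomial.eval (pn h (fun i (v : Fin (n i) × Fin (n i)) => P i v.1 v.2) fun i => (t i : ℝ)) F = 0 ∧
        ∃ q' : ∀ i, Fin (n i) × Fin (n i) → MvPolynomial (Option (Fin (r i))) ℂ,
          (∀ i, Sat (h i) (fun v : Fin (n i) × Fin (n i) => P i v.1 v.2) (q' i)) ∧
          MvPolynomial.eval (pn h q' fun i => (t i : ℝ)) F ≠ 0) : GoodC d V ℓ h P t := by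
  classical
  have hval : ∀ i (g : Matrix (Fin (n i)) (Fin (n i)) ℂ) (v : Fin (n i) × Fin (n i)),
      MvPolynomial.aeval (p1 (h i) (t i : ℝ)) (tl (P i) g v) = (g * pM (h i) (P i) (t i : ℝ)) v.1 v.2 := fun i g v =>
    tl_eval (h i) (P i) g _ v
  have hrel : ∀ g : ∀ i, (Matrix (Fin (n i)) (Fin (n i)) ℂ)ˣ, (∀ i, g i ∈ Gs (h i) (P i)) →
      ∀ F : MvPolynomial (Σ i, Fin (n i) × Fin (n i)) ℂ, F.totalDegree ≤ d → (∀ s, F.coeff s ∈ V * W ^ d) →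
      MvPolynomial.aeval (fun v : Σ i, Fin (n i) × Fin (n i) => pM (h v.1) (P v.1) (t v.1 : ℝ) v.2.1 v.2.2) F = 0 →
      MvPolynomial.aeval (fun v : Σ i, Fin (n i) × Fin (n i) =>
        ((g v.1 : Matrix (Fin (n v.1)) (Fin (n v.1)) ℂ) * pM (h v.1) (P v.1) (t v.1 : ℝ)) v.2.1 v.2.2) F = 0 := by
    intro g hg F hFd hFV hF0
    by_contra hne
    refine hcon ⟨F, hFd, hFV, ?_, fun i => tl (P i) (g i), fun i => Prs_sat (hg i).1, ?_⟩
    · rw [MvPolynomial.aeval_eq_eval] at hF0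
      exact hF0
    · intro h2
      apply hne
      rw [MvPolynomial.aeval_eq_eval]
      refine Eq.trans ?_ h2
      congr 2
      funext v
      exact (hval v.1 (g v.1) v.2).symm
  intro F hFd hFV hF0 g hg
  have hDC : DC d (V * W ^ d) (MvPolynomial.aeval (PhiV ℓ) F) := DC.subst' hW1 _ (PhiV_DC hℓ) ⟨hFd, hFV⟩
  have e1 : ∀ X : ∀ i, Matrix (Fin (n i)) (Fin (n i)) ℂ,
      MvPolynomial.aeval (fun v : Σ i, Fin (n i) × Fin (n i) => (ℓ v.1 * X v.1) v.2.1 v.2.2) F =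
      MvPolynomial.aeval (fun v : Σ i, Fin (n i) × Fin (n i) => X v.1 v.2.1 v.2.2)
        (MvPolynomial.aeval (PhiV ℓ) F) := by
    intro X
    rw [aeval_comp']
    have h5 : (fun v : Σ i, Fin (n i) × Fin (n i) => (ℓ v.1 * X v.1) v.2.1 v.2.2) =
        fun v => MvPolynomial.aeval (fun v : Σ i, Fin (n i) × Fin (n i) => X v.1 v.2.1 v.2.2) (PhiV ℓ v) :=
      funext fun v => PhiV_eval _ X v
    rw [h5]
  have h1 := e1 fun i => pM (h i) (P i) (t i : ℝ)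
  have h2 := e1 fun i => (g i : Matrix (Fin (n i)) (Fin (n i)) ℂ) * pM (h i) (P i) (t i : ℝ)
  beta_reduce at h1 h2
  rw [h2]
  refine hrel g hg _ hDC.1 hDC.2 ?_
  rw [← h1]
  exact hF0

/-- **The counting theorem for degenerating families and coefficients in a space of bounded dimension.** -/
theorem rel_degV (k D d e e' : ℕ) (ρ n : Fin k → ℕ) (h : ∀ i, Fin (ρ i) → ℚ⟦X⟧) {b : Fin k → ℕ} (hb : ∀ i, 2 ≤ b i)
    (hF : ∀ i δ, FamG δ (h i) (b i)) :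
    ∃ C : ℝ, 0 ≤ C ∧ ∀ P : ∀ i, Fin (n i) → Fin (n i) → MvPolynomial (Fin (ρ i)) ℂ,
    (∀ i a b, (P i a b).totalDegree ≤ e) → ∀ Λ : ∀ i, Matrix (Fin (n i)) (Fin (n i)) (Polynomial ℂ),
    (∀ i a b, (Λ i a b).natDegree ≤ e') → ∀ (V : Submodule ℚ ℂ) [Module.Finite ℚ V], Module.finrank ℚ V ≤ D →
    ∀ T : ℕ, 2 ≤ T →
    ∀ S : Finset (Fin k → ℕ), (∀ t ∈ S, (∀ i, 1 ≤ t i ∧ t i ≤ T) ∧ ¬ GoodC d V (lamT Λ b t) h (soM P) (tp b t)) →
    (S.card : ℝ) * T ≤ C * (T : ℝ) ^ k * Real.log T := by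
  classical
  set ι : Type := (Σ i, Fin (n i) × Fin (n i) × Fin (e' + 1)) with hι
  obtain ⟨C, hC, hmain⟩ := gxS (ν := fun i => Fin (n i) × Fin (n i)) (h := h) d e
    (D * (1 + Fintype.card ι + 1) ^ d) hb (fun i => hF i _)
  refine ⟨C, hC, ?_⟩
  intro P hP Λ hΛ V _ hV T hT S hS
  obtain ⟨hbf, hb1⟩ := bot_fin
  obtain ⟨W, hW1, hW2, hKW, hW3⟩ := exists_W' (⊥ : Subfield ℂ)
    (fun v : Σ i, Fin (n i) × Fin (n i) × Fin (e' + 1) => (Λ v.1 v.2.1 v.2.2.1).coeff v.2.2.2 *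
      ((Real.log (b v.1) : ℝ) : ℂ) ^ (v.2.2.2 : ℕ))
  have hW1' : (1 : ℂ) ∈ W := hKW 1 (⊥ : Subfield ℂ).one_mem
  obtain ⟨hp1, hp2⟩ := finrank_pow_le W d
  have hWD : Module.finrank ℚ W ≤ 1 + Fintype.card ι + 1 := by
    refine hW2.trans ?_
    have h9 : Module.finrank ℚ (⊥ : Subfield ℂ) ≤ 1 := by omega
    exact Nat.add_le_add_right (Nat.add_le_add_right h9 _) 1
  obtain ⟨hq1, hq2⟩ := finrank_mul_le V (W ^ d)
  refine hmain (fun i v => P i v.1 v.2) (fun i v => hP i v.1 v.2) (V * W ^ d)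
    (hq2.trans (Nat.mul_le_mul hV (hp2.trans (Nat.pow_le_pow_left hWD _))))
    T hT S fun t ht => ?_
  obtain ⟨hbox, hnot⟩ := hS t ht
  refine ⟨hbox, ?_⟩
  by_contra hcon
  apply hnot
  have hΛW : ∀ i a c, lamT Λ b t i a c ∈ W := by
    intro i a c
    show Polynomial.eval ((t i : ℂ) * ((Real.log (b i) : ℝ) : ℂ)) (Λ i a c) ∈ W
    rw [Polynomial.eval_eq_sum_range' (Nat.lt_succ_of_le (hΛ i a c))]
    refine Submodule.sum_mem _ fun j hj => ?_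
    have hj' : j < e' + 1 := Finset.mem_range.1 hj
    have h1 := hW3 ⟨i, a, c, ⟨j, hj'⟩⟩
    have h2 : (Λ i a c).coeff j * ((t i : ℂ) * ((Real.log (b i) : ℝ) : ℂ)) ^ j =
        ((t i : ℚ) ^ j) • ((Λ i a c).coeff j * ((Real.log (b i) : ℝ) : ℂ) ^ j) := by
      rw [mul_pow, Algebra.smul_def]
      simp only [eq_ratCast, Rat.cast_pow, Rat.cast_natCast]
      ring
    rw [h2]
    exact Submodule.smul_mem _ _ h1
  exact rel_ofV hW1' (soM P) (lamT Λ b t) (tp b t) hΛW hcon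

end

end Pool.Agent.X120.GS
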