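import Pool.Agent.X120.GS.TT

/-!
# The first fundamental theorem for products of symplectic groups of arbitrary forms
-/

set_option autoImplicit false

open Matrix Module

namespace Pool.Agent.X120.GS.TT

open Pool.Agent.H204R3.SP Pool.Agent.H204R3.GP Pool.Agent.W437.HD

variable {κ : Type} [Fintype κ] [DecidableEq κ] {k : ℕ} {n : Fin k → ℕ}

/-- symplectic bases in terms of matrices -/
theorem exists_frame {n : ℕ} {B : Matrix (Fin n) (Fin n) ℂ} (hB : IsUnit B) (hBt : Bᵀ = -B) :
    ∃ (R : Type) (_ : Fintype R) (_ : DecidableEq R) (inv : R → R) (jj : R → ℂ) (Φ : Matrix R (Fin n) ℂ)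
      (Ψ : Matrix (Fin n) R ℂ), (∀ x, inv (inv x) = x) ∧ (∀ x, jj (inv x) = -jj x) ∧ (∀ x, jj x ≠ 0) ∧
      Φ * Ψ = 1 ∧ Ψ * Φ = 1 ∧ Φ * B * Φᵀ = Matrix.of fun x y => JJ inv jj x y := by
  classical
  have halt : ∀ v : Fin n → ℂ, v ⬝ᵥ (B *ᵥ v) = 0 := by
    intro v
    have h1 : v ⬝ᵥ (B *ᵥ v) = v ⬝ᵥ (Bᵀ *ᵥ v) := by
      rw [Matrix.mulVec_transpose, dotProduct_comm v (v ᵥ* B), ← Matrix.dotProduct_mulVec]
    rw [hBt, Matrix.neg_mulVec, dotProduct_neg] at h1
    linear_combination (1 / 2 : ℂ) * h1
  obtain ⟨R, h1, h2, e, inv, jj, h3, h4, h5, h6, h7⟩ := exists_darboux (finrank ℂ (Fin n → ℂ)) (Fin n → ℂ)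
    (Matrix.toLinearMap₂' ℂ B) (fun v => by rw [Matrix.toLinearMap₂'_apply']; exact halt v) (fun u hu => by
      have h1 : B *ᵥ u = 0 := by
        funext i
        have h2 := hu (Pi.single i 1)
        rw [Matrix.toLinearMap₂'_apply', single_one_dotProduct] at h2
        exact h2
      obtain ⟨b, hb⟩ := hB
      have h3 : ((b⁻¹ : (Matrix (Fin n) (Fin n) ℂ)ˣ) : Matrix (Fin n) (Fin n) ℂ) *ᵥ (B *ᵥ u) = u := by
        rw [← hb, mulVec_mulVec, Units.inv_mul, one_mulVec]
      rw [← h3, h1, mulVec_zero]) le_rfl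
  have hΨΦ : (Matrix.of fun (j : Fin n) x => e.repr (Pi.single j 1) x) * (Matrix.of fun x (j : Fin n) => e x j) =
      (1 : Matrix (Fin n) (Fin n) ℂ) := by
    ext i j
    rw [Matrix.mul_apply]
    have h1 := congrFun (e.sum_repr (Pi.single i 1)) j
    rw [Finset.sum_apply] at h1
    rw [Matrix.one_apply]
    have h2 : (Pi.single i (1 : ℂ) : Fin n → ℂ) j = if i = j then 1 else 0 := by
      rw [Pi.single_apply]
      simp only [eq_comm]
    rw [← h2, ← h1]
    exact Finset.sum_congr rfl fun x _ => rfl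
  have hcard : Fintype.card R = Fintype.card (Fin n) := by
    have h1 := Module.finrank_eq_card_basis e
    rw [Module.finrank_fintype_fun_eq_card] at h1
    exact h1.symm
  refine ⟨R, h1, h2, inv, jj, Matrix.of fun x j => e x j, Matrix.of fun j x => e.repr (Pi.single j 1) x, h3, h5, ?_, ?_, hΨΦ, ?_⟩
  · intro x
    rcases h6 x with h | h
    · rw [h]
      exact one_ne_zero
    · rw [h]
      exact neg_ne_zero.2 one_ne_zero
  · exact (Matrix.mul_eq_one_comm_of_card_eq _ _ _ hcard).2 hΨΦ
  · ext x y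
    have h8 := h7 x y
    rw [Matrix.toLinearMap₂'_apply'] at h8
    rw [Matrix.of_apply, ← h8, Matrix.mul_assoc, Matrix.mul_apply]
    simp only [dotProduct, Matrix.transpose_apply, Matrix.mul_apply, mulVec, Matrix.of_apply]

/-- the total form -/
theorem JJ_total {R : Fin k → Type} [∀ i, Fintype (R i)] [∀ i, DecidableEq (R i)] (inv : ∀ i, R i → R i) (jj : ∀ i, R i → ℂ)
    (x y : Σ i, R i) : JJ (fun x : Σ i, R i => (⟨x.1, inv x.1 x.2⟩ : Σ i, R i)) (fun x => jj x.1 x.2) x y =
      blockDiagonal' (fun i => Matrix.of fun x y => JJ (inv i) (jj i) x y) x y := by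
  obtain ⟨i, x⟩ := x
  obtain ⟨j, y⟩ := y
  by_cases hij : i = j
  · subst hij
    rw [blockDiagonal'_apply_eq, Matrix.of_apply]
    unfold JJ
    by_cases hy : y = inv i x
    · rw [if_pos (by rw [hy]), if_pos hy]
    · rw [if_neg hy, if_neg]
      intro h
      exact hy (eq_of_heq (Sigma.mk.inj_iff.1 h).2)
  · rw [blockDiagonal'_apply_ne _ _ _ hij]
    unfold JJ
    rw [if_neg]
    intro h
    exact hij (congrArg Sigma.fst h).symm

/-- **The first fundamental theorem for products of symplectic groups.** -/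
theorem fft_blocks (B : ∀ i, Matrix (Fin (n i)) (Fin (n i)) ℂ) (hB : ∀ i, IsUnit (B i)) (hBt : ∀ i, (B i)ᵀ = -B i)
    (F : (κ → Σ i, Fin (n i)) → ℂ)
    (hinv : ∀ g : ∀ i, Matrix (Fin (n i)) (Fin (n i)) ℂ, (∀ i, g i * B i * (g i)ᵀ = B i) → act (blockDiagonal' g) F = F) :
    F ∈ Submodule.span ℂ {w | ∃ (m : ℕ) (e : Fin m × Fin 2 ≃ κ) (c : Fin m → Fin k), w = matB B e c} := by
  classical
  rcases Nat.even_or_odd (Fintype.card κ) with ⟨m, hm⟩ | hodd
  swap
  · have h1 := hinv (fun i => -1) (fun i => by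
      rw [Matrix.neg_mul, Matrix.one_mul, Matrix.transpose_neg, Matrix.transpose_one, Matrix.mul_neg, Matrix.mul_one, neg_neg])
    have h2 : (blockDiagonal' fun i => (-1 : Matrix (Fin (n i)) (Fin (n i)) ℂ)) = -1 := by
      rw [← blockDiagonal'_one, ← blockDiagonal'_neg]
      rfl
    rw [h2] at h1
    have h3 : F = -F := by
      conv_lhs => rw [← h1]
      funext I
      have h4 := congrFun (act_one F) I
      unfold act at h4 ⊢
      rw [Pi.neg_apply, ← h4, ← Finset.sum_neg_distrib]
      refine Finset.sum_congr rfl fun J _ => ?_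
      have h5 : ∏ l, (-1 : Matrix (Σ i, Fin (n i)) (Σ i, Fin (n i)) ℂ) (I l) (J l) =
          -∏ l, (1 : Matrix (Σ i, Fin (n i)) (Σ i, Fin (n i)) ℂ) (I l) (J l) := by
        have h6 : ∀ l, (-1 : Matrix (Σ i, Fin (n i)) (Σ i, Fin (n i)) ℂ) (I l) (J l) =
            (-1) * (1 : Matrix (Σ i, Fin (n i)) (Σ i, Fin (n i)) ℂ) (I l) (J l) := by
          intro l
          rw [Matrix.neg_apply, neg_one_mul]
        rw [Finset.prod_congr rfl fun l _ => h6 l, Finset.prod_mul_distrib, Finset.prod_const, Finset.card_univ,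
          hodd.neg_one_pow, neg_one_mul]
      rw [h5, neg_mul]
    have h4 : F = 0 := by
      funext I
      have h5 := congrFun h3 I
      rw [Pi.neg_apply] at h5
      rw [Pi.zero_apply]
      linear_combination (1 / 2 : ℂ) * h5
    rw [h4]
    exact Submodule.zero_mem _
  have hκ : Fintype.card κ = 2 * m := by omega
  choose R hR1 hR2 inv jj Φ Ψ h3 h5 h6 hΦΨ hΨΦ hJ using fun i => exists_frame (hB i) (hBt i)
  set J : ∀ i, Matrix (R i) (R i) ℂ := fun i => Matrix.of fun x y => JJ (inv i) (jj i) x y with hJd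
  have hJt : ∀ i, (J i)ᵀ = -J i := by
    intro i
    rw [hJd]
    beta_reduce
    rw [← hJ i, Matrix.transpose_mul, Matrix.transpose_mul, Matrix.transpose_transpose, hBt, Matrix.neg_mul, Matrix.mul_neg,
      Matrix.mul_assoc]
  have hBJ : ∀ i, Ψ i * J i * (Ψ i)ᵀ = B i := by
    intro i
    have h1 : J i = Φ i * B i * (Φ i)ᵀ := (hJ i).symm
    rw [h1]
    have h2 : (Φ i)ᵀ * (Ψ i)ᵀ = 1 := by rw [← Matrix.transpose_mul, hΨΦ, Matrix.transpose_one]
    calc Ψ i * (Φ i * B i * (Φ i)ᵀ) * (Ψ i)ᵀ = (Ψ i * Φ i) * B i * ((Φ i)ᵀ * (Ψ i)ᵀ) := by simp only [Matrix.mul_assoc]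
      _ = B i := by rw [hΨΦ, h2, Matrix.one_mul, Matrix.mul_one]
  let invt : (Σ i, R i) → (Σ i, R i) := fun x => ⟨x.1, inv x.1 x.2⟩
  let jjt : (Σ i, R i) → ℂ := fun x => jj x.1 x.2
  have hJJt : ∀ x y : Σ i, R i, JJ invt jjt x y = blockDiagonal' J x y := JJ_total inv jj
  have hanti : ∀ x y : Σ i, R i, JJ invt jjt x y = -JJ invt jjt y x := by
    intro x y
    rw [hJJt, hJJt, ← Matrix.transpose_apply (blockDiagonal' J), blockDiagonal'_transpose]
    have h1 : (fun i => (J i)ᵀ) = -J := by
      funext i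
      exact hJt i
    rw [h1, blockDiagonal'_neg, Matrix.neg_apply]
  -- one type
  have htype : ∀ t : κ → Fin k, cmp t F ∈ Submodule.span ℂ {w | ∃ (m : ℕ) (e : Fin m × Fin 2 ≃ κ) (c : Fin m → Fin k),
      w = matB B e c} := by
    intro t
    set G : (κ → Σ i, R i) → ℂ := act (blockDiagonal' Φ) (cmp t F) with hG
    have hGs : ∀ I, G I ≠ 0 → ∀ l, (I l).1 = t l := by
      intro I hI
      rw [hG, act_cmp, cmp] at hI
      by_contra hno
      rw [if_neg hno] at hI
      exact hI rfl
    have hGinv : ∀ (ψ : ∀ i, R i → ℂ) (s : ℂ),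
        act (1 + s • blockDiagonal' fun i => vecMulVec (J i *ᵥ ψ i) (ψ i)) G = G := by
      intro ψ s
      set g : ∀ i, Matrix (Fin (n i)) (Fin (n i)) ℂ := fun i =>
        Ψ i * (1 + s • vecMulVec (J i *ᵥ ψ i) (ψ i)) * Φ i with hg
      have h1 : ∀ i, g i * B i * (g i)ᵀ = B i := by
        intro i
        have h2 := trans_mem (hJt i) (ψ i) s
        have h1 : J i = Φ i * B i * (Φ i)ᵀ := (hJ i).symm
        rw [hg]
        beta_reduce
        rw [Matrix.transpose_mul, Matrix.transpose_mul]
        calc Ψ i * (1 + s • vecMulVec (J i *ᵥ ψ i) (ψ i)) * Φ i * B i *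
              ((Φ i)ᵀ * ((1 + s • vecMulVec (J i *ᵥ ψ i) (ψ i))ᵀ * (Ψ i)ᵀ))
            = Ψ i * ((1 + s • vecMulVec (J i *ᵥ ψ i) (ψ i)) * (Φ i * B i * (Φ i)ᵀ) *
              (1 + s • vecMulVec (J i *ᵥ ψ i) (ψ i))ᵀ) * (Ψ i)ᵀ := by simp only [Matrix.mul_assoc]
          _ = Ψ i * J i * (Ψ i)ᵀ := by rw [← h1, h2]
          _ = B i := hBJ i
      have h2 : act (blockDiagonal' g) (cmp t F) = cmp t F := by
        rw [act_cmp, hinv g h1]
      have h3 : (1 + s • blockDiagonal' fun i => vecMulVec (J i *ᵥ ψ i) (ψ i)) =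
          blockDiagonal' fun i => (1 + s • vecMulVec (J i *ᵥ ψ i) (ψ i)) := by
        rw [← blockDiagonal'_one, ← blockDiagonal'_smul, ← blockDiagonal'_add]
        rfl
      rw [h3, hG, ← act_mul, ← blockDiagonal'_mul]
      have h4 : (fun i => (1 + s • vecMulVec (J i *ᵥ ψ i) (ψ i)) * Φ i) = fun i => Φ i * g i := by
        funext i
        rw [hg]
        beta_reduce
        rw [Matrix.mul_assoc (Ψ i), ← Matrix.mul_assoc (Φ i), hΦΨ, Matrix.one_mul]
      rw [h4, blockDiagonal'_mul, act_mul, h2]
    have hkey : ∀ (b c : Σ i, R i), b.1 = c.1 → ∀ I : κ → Σ i, R i,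
        ∑ l, (JJ invt jjt (I l) b + JJ invt jjt (I l) c) * (G (Function.update I l b) + G (Function.update I l c)) = 0 := by
      intro b c hbc I
      let ψt : (Σ i, R i) → ℂ := fun x => (if x = b then 1 else 0) + if x = c then 1 else 0
      have h1 := der (blockDiagonal' fun i => vecMulVec (J i *ᵥ fun x => ψt ⟨i, x⟩) (fun x => ψt ⟨i, x⟩)) G
        (hGinv fun i x => ψt ⟨i, x⟩) I
      rw [← h1]
      refine Finset.sum_congr rfl fun l _ => ?_
      have h2 : ∀ x : Σ i, R i, (blockDiagonal' fun i => vecMulVec (J i *ᵥ fun x => ψt ⟨i, x⟩) (fun x => ψt ⟨i, x⟩))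
          (I l) x = (JJ invt jjt (I l) b + JJ invt jjt (I l) c) * ψt x := by
        intro x
        have h3 : ∀ (i : Fin k) (a : R i), (J i *ᵥ fun x => ψt ⟨i, x⟩) a = JJ invt jjt ⟨i, a⟩ b + JJ invt jjt ⟨i, a⟩ c := by
          intro i a
          have h4 : ∀ b' : Σ i, R i, ∑ x : R i, J i a x * (if (⟨i, x⟩ : Σ i, R i) = b' then 1 else 0) =
              JJ invt jjt ⟨i, a⟩ b' := by
            rintro ⟨j, b'⟩
            rw [hJJt]
            by_cases hij : i = j
            · subst hij
              rw [blockDiagonal'_apply_eq, Finset.sum_eq_single b']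
              · rw [if_pos rfl, mul_one]
              · intro x _ hx
                rw [if_neg, mul_zero]
                intro h
                exact hx (eq_of_heq (Sigma.mk.inj_iff.1 h).2)
              · intro h
                exact absurd (Finset.mem_univ _) h
            · rw [blockDiagonal'_apply_ne _ _ _ hij]
              refine Finset.sum_eq_zero fun x _ => ?_
              rw [if_neg, mul_zero]
              intro h
              exact hij (congrArg Sigma.fst h)
          rw [← h4 b, ← h4 c, ← Finset.sum_add_distrib]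
          show ∑ x : R i, J i a x * ψt ⟨i, x⟩ = _
          refine Finset.sum_congr rfl fun x _ => ?_
          rw [← mul_add]
        obtain ⟨i, a⟩ := I l
        obtain ⟨j, x⟩ := x
        by_cases hij : i = j
        · subst hij
          rw [blockDiagonal'_apply_eq, vecMulVec_apply, h3]
        · rw [blockDiagonal'_apply_ne _ _ _ hij]
          symm
          by_cases hjb : j = b.1
          · have h4 : JJ invt jjt ⟨i, a⟩ b = 0 := by
              rw [hJJt]
              exact blockDiagonal'_apply_ne _ _ _ fun h => hij (h.trans hjb.symm)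
            have h5 : JJ invt jjt ⟨i, a⟩ c = 0 := by
              rw [hJJt]
              exact blockDiagonal'_apply_ne _ _ _ fun h => hij (h.trans (hjb.trans hbc).symm)
            rw [h4, h5, add_zero, zero_mul]
          · have h4 : ψt ⟨j, x⟩ = 0 := by
              show (if (⟨j, x⟩ : Σ i, R i) = b then (1 : ℂ) else 0) + (if (⟨j, x⟩ : Σ i, R i) = c then 1 else 0) = 0
              rw [if_neg, if_neg, add_zero]
              · intro h
                exact hjb ((congrArg Sigma.fst h).trans hbc.symm)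
              · intro h
                exact hjb (congrArg Sigma.fst h)
            rw [h4, mul_zero]
      rw [Finset.sum_congr rfl fun x _ => by rw [h2 x]]
      have h3 : ∀ x : Σ i, R i, (JJ invt jjt (I l) b + JJ invt jjt (I l) c) * ψt x * G (Function.update I l x) =
          (if x = b then (JJ invt jjt (I l) b + JJ invt jjt (I l) c) * G (Function.update I l b) else 0) +
          if x = c then (JJ invt jjt (I l) b + JJ invt jjt (I l) c) * G (Function.update I l c) else 0 := by
        intro x
        show (JJ invt jjt (I l) b + JJ invt jjt (I l) c) * ((if x = b then 1 else 0) + if x = c then 1 else 0) *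
          G (Function.update I l x) = _
        rw [mul_add, add_mul]
        congr 1
        · by_cases hx : x = b
          · rw [if_pos hx, if_pos hx, mul_one, hx]
          · rw [if_neg hx, if_neg hx, mul_zero, zero_mul]
        · by_cases hx : x = c
          · rw [if_pos hx, if_pos hx, mul_one, hx]
          · rw [if_neg hx, if_neg hx, mul_zero, zero_mul]
      rw [Finset.sum_congr rfl fun x _ => h3 x, Finset.sum_add_distrib, Finset.sum_ite_eq', Finset.sum_ite_eq',
        if_pos (Finset.mem_univ _), if_pos (Finset.mem_univ _)]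
      ring
    have hkey2 : ∀ (b : Σ i, R i) (I : κ → Σ i, R i), ∑ l, JJ invt jjt (I l) b * G (Function.update I l b) = 0 := by
      intro b I
      have h1 := hkey b b rfl I
      have h2 : ∑ l, (JJ invt jjt (I l) b + JJ invt jjt (I l) b) * (G (Function.update I l b) + G (Function.update I l b)) =
          4 * ∑ l, JJ invt jjt (I l) b * G (Function.update I l b) := by
        rw [Finset.mul_sum]
        exact Finset.sum_congr rfl fun l _ => by ring
      rw [h2] at h1
      exact (mul_eq_zero.1 h1).resolve_left (by norm_num)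
    have hmem : G ∈ InvG Sigma.fst invt jjt κ t := by
      refine ⟨fun b c hbc I => ?_, hGs⟩
      have h1 := hkey b c hbc I
      have h2 := hkey2 b I
      have h3 := hkey2 c I
      have h4 : ∑ l, (JJ invt jjt b (I l) * G (Function.update I l c) + JJ invt jjt c (I l) * G (Function.update I l b)) =
          -(∑ l, (JJ invt jjt (I l) b + JJ invt jjt (I l) c) * (G (Function.update I l b) + G (Function.update I l c)) -
          ∑ l, JJ invt jjt (I l) b * G (Function.update I l b) - ∑ l, JJ invt jjt (I l) c * G (Function.update I l c)) := by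
        rw [← Finset.sum_sub_distrib, ← Finset.sum_sub_distrib, ← Finset.sum_neg_distrib]
        refine Finset.sum_congr rfl fun l _ => ?_
        rw [hanti b (I l), hanti c (I l)]
        ring
      rw [h4, h1, h2, h3]
      ring
    have hfft := fftG (Q := Fin k) (cls := Sigma.fst) (inv := invt) (jj := jjt) (fun x => by
        show (⟨x.1, inv x.1 (inv x.1 x.2)⟩ : Σ i, R i) = x
        rw [h3]) (fun x => h5 x.1 x.2) (fun x => h6 x.1 x.2)
      (fun x y hxy => hxy) m κ hκ t hmem
    have hback : cmp t F = act (blockDiagonal' Ψ) G := by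
      rw [hG, ← act_mul, ← blockDiagonal'_mul]
      have h1 : (fun i => Ψ i * Φ i) = 1 := by
        funext i
        exact hΨΦ i
      rw [h1, blockDiagonal'_one, act_one]
    rw [hback]
    refine Submodule.span_induction (p := fun G _ => act (blockDiagonal' Ψ) G ∈ Submodule.span ℂ
      {w | ∃ (m : ℕ) (e : Fin m × Fin 2 ≃ κ) (c : Fin m → Fin k), w = matB B e c}) ?_ ?_ ?_ ?_ hfft
    · rintro _ ⟨e, c, rfl⟩
      refine Submodule.subset_span ⟨m, e, c, ?_⟩
      refine (act_prod (blockDiagonal' Ψ) e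
        (fun (s : Fin m) (x y : Σ i, R i) => if x.1 = c s then JJ invt jjt x y else 0)).trans ?_
      funext I
      unfold matB
      refine Finset.prod_congr rfl fun s _ => ?_
      set a := I (e (s, 0)) with ha
      set b := I (e (s, 1)) with hb
      have h2 : ∀ p : (Σ i, R i) × (Σ i, R i), blockDiagonal' Ψ a p.1 * blockDiagonal' Ψ b p.2 *
          (if p.1.1 = c s then JJ invt jjt p.1 p.2 else 0) =
          if a.1 = c s then blockDiagonal' Ψ a p.1 * (blockDiagonal' J p.1 p.2 * (blockDiagonal' Ψ)ᵀ p.2 b) else 0 := by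
        intro p
        rw [Matrix.transpose_apply, hJJt]
        by_cases hap : a.1 = p.1.1
        · by_cases hc : a.1 = c s
          · rw [if_pos hc, if_pos (hap.symm.trans hc)]
            ring
          · rw [if_neg hc, if_neg fun h => hc (hap.trans h), mul_zero]
        · have h3 : blockDiagonal' Ψ a p.1 = 0 := blockDiagonal'_apply_ne _ _ _ hap
          rw [h3]
          simp
      rw [Finset.sum_congr rfl fun p _ => h2 p]
      by_cases hc : a.1 = c s
      · simp only [if_pos hc]
        rw [Fintype.sum_prod_type]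
        have h4 : ∀ x, ∑ y, blockDiagonal' Ψ a x * (blockDiagonal' J x y * (blockDiagonal' Ψ)ᵀ y b) =
            blockDiagonal' Ψ a x * (blockDiagonal' J * (blockDiagonal' Ψ)ᵀ) x b := by
          intro x
          rw [← Finset.mul_sum, Matrix.mul_apply]
        rw [Finset.sum_congr rfl fun x _ => h4 x, ← Matrix.mul_apply, ← Matrix.mul_assoc, blockDiagonal'_transpose,
          ← blockDiagonal'_mul, ← blockDiagonal'_mul]
        have h5 : (fun i => Ψ i * J i * (Ψ i)ᵀ) = B := by
          funext i
          exact hBJ i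
        rw [h5]
      · simp only [if_neg hc, Finset.sum_const_zero]
    · rw [act_zero]
      exact Submodule.zero_mem _
    · intro x y _ _ hx hy
      rw [act_add]
      exact Submodule.add_mem _ hx hy
    · intro a x _ hx
      rw [act_smul]
      exact Submodule.smul_mem _ _ hx
  rw [sum_cmp F]
  exact Submodule.sum_mem _ fun t _ => htype t

end Pool.Agent.X120.GS.TT
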