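import Pool.Agent.X120.GS.All
import Pool.Agent.X120.GS.TF
import Pool.Agent.Y123.ST.Out

/-!
# de Rham-Betti classes on powers and products
-/

set_option autoImplicit false

open Matrix Module PowerSeries

namespace Pool.Agent.X120.GS

open Pool.Agent.Y123.GN Pool.Agent.Y123.ST Pool.Agent.TH127.PT Pool.Agent.TH119.DR Pool.Agent.X120.GS.TT Pool.Agent.Y120.R

section
variable {κ : Type} [Fintype κ] [DecidableEq κ] {k : ℕ} {n : Fin k → ℕ} {K : Subfield ℂ}

/-- the torsor of a class -/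
def clsT (j : ℤ) (u v : (κ → Σ i, Fin (n i)) → K) : Set (Matrix (IG (Fin 1) n) (IG (Fin 1) n) ℂ) :=
  {x | IsUnit x ∧ ∃ (z : ℂ) (X : ∀ i, Matrix (Fin (n i)) (Fin (n i)) ℂ), z ≠ 0 ∧ x = EG (z • 1) X ∧
    act (blockDiagonal' X) (fun J => (u J : ℂ)) = z ^ j • fun I => (v I : ℂ)}

theorem EG_inv {z : ℂ} (hz : z ≠ 0) {X : ∀ i, Matrix (Fin (n i)) (Fin (n i)) ℂ} (hX : ∀ i, IsUnit (X i)) :
    (EG (z • (1 : Matrix (Fin 1) (Fin 1) ℂ)) X)⁻¹ = EG (z⁻¹ • (1 : Matrix (Fin 1) (Fin 1) ℂ)) (fun i => (X i)⁻¹) := by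
  refine Matrix.inv_eq_right_inv ?_
  rw [EG_mul, smul_mul_smul_comm, Matrix.one_mul, mul_inv_cancel₀ hz, one_smul]
  have h5 : (fun i => X i * (X i)⁻¹) = 1 := by
    funext i
    exact Matrix.mul_nonsing_inv _ ((Matrix.isUnit_iff_isUnit_det _).1 (hX i))
  rw [h5, EG_one]

/-- the block of an index -/
def blk (a : IG (Fin 1) n) : Option (Fin k) := Sum.elim (fun _ => none) (fun x => some x.1) a

theorem EG_off {x : Matrix (Fin 1) (Fin 1) ℂ} {X : ∀ i, Matrix (Fin (n i)) (Fin (n i)) ℂ} {a b : IG (Fin 1) n}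
    (h : blk a ≠ blk b) : EG x X a b = 0 := by
  rcases a with a | ⟨i, a⟩ <;> rcases b with b | ⟨i', b⟩
  · exact absurd rfl h
  · rfl
  · rfl
  · show blockDiagonal' X ⟨i, a⟩ ⟨i', b⟩ = 0
    refine blockDiagonal'_apply_ne _ _ _ fun hi => h ?_
    show some i = some i'
    rw [hi]

theorem EG_of {x : Matrix (IG (Fin 1) n) (IG (Fin 1) n) ℂ} (h : ∀ a b, blk a ≠ blk b → x a b = 0) :
    x = EG (x (Sum.inl 0) (Sum.inl 0) • 1) (fun i => Matrix.of fun a b => x (Sum.inr ⟨i, a⟩) (Sum.inr ⟨i, b⟩)) := by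
  ext a b
  rcases a with a | ⟨i, a⟩ <;> rcases b with b | ⟨i', b⟩
  · fin_cases a
    fin_cases b
    show x (Sum.inl 0) (Sum.inl 0) = (x (Sum.inl 0) (Sum.inl 0) • (1 : Matrix (Fin 1) (Fin 1) ℂ)) 0 0
    simp
  · rw [h _ _ (by simp [blk])]
    rfl
  · rw [h _ _ (by simp [blk])]
    rfl
  · show _ = blockDiagonal' (fun i => Matrix.of fun a b => x (Sum.inr ⟨i, a⟩) (Sum.inr ⟨i, b⟩)) ⟨i, a⟩ ⟨i', b⟩
    by_cases hi : i = i'
    · subst hi
      rw [blockDiagonal'_apply_eq]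
      rfl
    · rw [blockDiagonal'_apply_ne _ _ _ hi]
      refine h _ _ ?_
      intro h2
      exact hi (Option.some.inj h2)

theorem clsT_sub (j : ℤ) (u v : (κ → Σ i, Fin (n i)) → K) : IsSubtorsor K (clsT j u v) := by
  classical
  refine subT_iff.1 ⟨?_, {p | ∃ a b : IG (Fin 1) n, blk a ≠ blk b ∧ p = MvPolynomial.X (a, b)} ∪
    {p | ∃ I : κ → Σ i, Fin (n i), p = (∑ J : κ → Σ i, Fin (n i), MvPolynomial.C (u J) *
      ∏ l, MvPolynomial.X (Sum.inr (I l), Sum.inr (J l))) * MvPolynomial.X (Sum.inl 0, Sum.inl 0) ^ (-j).toNat -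
      MvPolynomial.C (v I) * MvPolynomial.X (Sum.inl 0, Sum.inl 0) ^ j.toNat}, fun x => ?_⟩
  · rintro x ⟨hx, z₁, X₁, hz₁, rfl, h₁⟩ y ⟨hy, z₂, X₂, hz₂, rfl, h₂⟩ w ⟨hw, z₃, X₃, hz₃, rfl, h₃⟩
    have hX₂ := EG_block_unit hy
    refine ⟨?_, z₁ * z₂⁻¹ * z₃, fun i => X₁ i * (X₂ i)⁻¹ * X₃ i, mul_ne_zero (mul_ne_zero hz₁ (inv_ne_zero hz₂)) hz₃, ?_, ?_⟩
    · refine (hx.mul ?_).mul hw
      exact (Matrix.isUnit_nonsing_inv_iff).2 hy
    · rw [EG_inv hz₂ hX₂, EG_mul, EG_mul, smul_mul_smul_comm, smul_mul_smul_comm, Matrix.one_mul, Matrix.one_mul]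
    · have e1 : (blockDiagonal' fun i => X₁ i * (X₂ i)⁻¹ * X₃ i) =
          blockDiagonal' X₁ * (blockDiagonal' fun i => (X₂ i)⁻¹) * blockDiagonal' X₃ := by
        rw [← blockDiagonal'_mul, ← blockDiagonal'_mul]
      have e2 : act (blockDiagonal' fun i => (X₂ i)⁻¹) (fun I => (v I : ℂ)) = z₂ ^ (-j) • fun J => (u J : ℂ) := by
        have h4 : (fun J => (u J : ℂ)) = act (blockDiagonal' fun i => (X₂ i)⁻¹) (act (blockDiagonal' X₂) fun J => (u J : ℂ)) := by
          rw [← act_mul, ← blockDiagonal'_mul]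
          have h5 : (fun i => (X₂ i)⁻¹ * X₂ i) = 1 := by
            funext i
            exact Matrix.nonsing_inv_mul _ ((Matrix.isUnit_iff_isUnit_det _).1 (hX₂ i))
          rw [h5, blockDiagonal'_one, act_one]
        rw [h₂, act_smul] at h4
        rw [h4, smul_smul, ← zpow_add₀ hz₂, neg_add_cancel, zpow_zero, one_smul]
      rw [e1, act_mul, act_mul, h₃, act_smul, act_smul, e2, act_smul, h₁, smul_smul, smul_smul]
      congr 1
      rw [mul_zpow, mul_zpow, _root_.inv_zpow, _root_.zpow_neg]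
      ring
  · -- the equations
    have hev : ∀ (I : κ → Σ i, Fin (n i)), MvPolynomial.eval (fun b : IG (Fin 1) n × IG (Fin 1) n => x b.1 b.2)
        (MvPolynomial.map (algebraMap K ℂ) ((∑ J : κ → Σ i, Fin (n i), MvPolynomial.C (u J) *
      ∏ l, MvPolynomial.X (Sum.inr (I l), Sum.inr (J l))) * MvPolynomial.X (Sum.inl 0, Sum.inl 0) ^ (-j).toNat -
      MvPolynomial.C (v I) * MvPolynomial.X (Sum.inl 0, Sum.inl 0) ^ j.toNat)) =
        (∑ J : κ → Σ i, Fin (n i), (u J : ℂ) * ∏ l, x (Sum.inr (I l)) (Sum.inr (J l))) *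
          x (Sum.inl 0) (Sum.inl 0) ^ (-j).toNat - (v I : ℂ) * x (Sum.inl 0) (Sum.inl 0) ^ j.toNat := by
      intro I
      simp only [map_sub, map_mul, map_sum, map_prod, map_pow, MvPolynomial.map_X, MvPolynomial.map_C,
        MvPolynomial.eval_X, MvPolynomial.eval_C]
      rfl
    have hrel : ∀ (z : ℂ), z ≠ 0 → ∀ a b : ℂ, a * z ^ (-j).toNat - b * z ^ j.toNat = 0 ↔ a = z ^ j * b := by
      intro z hz a b
      have h1 : z ^ j * z ^ (-j).toNat = z ^ j.toNat := by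
        rcases le_total 0 j with hj | hj
        · have e1 : (-j).toNat = 0 := by omega
          rw [e1, pow_zero, mul_one, ← zpow_natCast, Int.toNat_of_nonneg hj]
        · have e1 : j.toNat = 0 := by omega
          have e2 : (((-j).toNat : ℕ) : ℤ) = -j := Int.toNat_of_nonneg (by omega)
          rw [e1, pow_zero, ← zpow_natCast, e2, ← zpow_add₀ hz, add_neg_cancel, zpow_zero]
      rw [← h1, sub_eq_zero]
      have h2 : z ^ (-j).toNat ≠ 0 := pow_ne_zero _ hz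
      constructor
      · intro h
        have h3 : a * z ^ (-j).toNat = (z ^ j * b) * z ^ (-j).toNat := by rw [h]; ring
        exact mul_right_cancel₀ h2 h3
      · intro h
        rw [h]
        ring
    constructor
    · rintro ⟨hx, z, X, hz, rfl, h⟩
      refine ⟨hx, ?_⟩
      rintro p (⟨a, b, hab, rfl⟩ | ⟨I, rfl⟩)
      · rw [MvPolynomial.map_X, MvPolynomial.eval_X]
        exact EG_off hab
      · rw [hev]
        have h0 : EG (z • (1 : Matrix (Fin 1) (Fin 1) ℂ)) X (Sum.inl 0) (Sum.inl 0) = z := by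
          show (z • (1 : Matrix (Fin 1) (Fin 1) ℂ)) 0 0 = z
          simp
        rw [h0, hrel z hz]
        have h1 := congrFun h I
        rw [Pi.smul_apply, smul_eq_mul] at h1
        rw [← h1]
        refine Finset.sum_congr rfl fun J _ => ?_
        rw [mul_comm]
        rfl
    · rintro ⟨hx, hp⟩
      have h1 : x = EG (x (Sum.inl 0) (Sum.inl 0) • 1)
          (fun i => Matrix.of fun a b => x (Sum.inr ⟨i, a⟩) (Sum.inr ⟨i, b⟩)) := EG_of fun a b hab => by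
        have h2 := hp _ (Or.inl ⟨a, b, hab, rfl⟩)
        rwa [MvPolynomial.map_X, MvPolynomial.eval_X] at h2
      have hz : x (Sum.inl 0) (Sum.inl 0) ≠ 0 := by
        intro h0
        have h2 : x.det = 0 := by
          refine Matrix.det_eq_zero_of_row_eq_zero (Sum.inl 0) fun b => ?_
          rcases b with b | b
          · fin_cases b
            exact h0
          · have h2 := hp _ (Or.inl ⟨Sum.inl 0, Sum.inr b, by simp [blk], rfl⟩)
            rwa [MvPolynomial.map_X, MvPolynomial.eval_X] at h2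
        exact ((Matrix.isUnit_iff_isUnit_det _).1 hx).ne_zero h2
      refine ⟨hx, x (Sum.inl 0) (Sum.inl 0), _, hz, h1, ?_⟩
      funext I
      have h2 := hp _ (Or.inr ⟨I, rfl⟩)
      rw [hev, hrel _ hz] at h2
      rw [Pi.smul_apply, smul_eq_mul, ← h2]
      unfold act
      refine Finset.sum_congr rfl fun J _ => ?_
      rw [mul_comm]
      congr 1
      refine Finset.prod_congr rfl fun l _ => ?_
      have h3 := congrFun (congrFun h1 (Sum.inr (I l))) (Sum.inr (J l))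
      exact h3.symm

/-- classes are invariant -/
theorem inv_of_good {ρ : Fin k → ℕ} {D : ℕ} {h : ∀ i, Fin (ρ i) → ℚ⟦X⟧}
    {P : ∀ i, Fin (n i) → Fin (n i) → MvPolynomial (Option (Fin (ρ i))) ℂ} {t : Fin k → ℕ}
    (hg : GoodU D (tpi • (1 : Matrix (Fin 1) (Fin 1) ℂ)) h P t) {B : ∀ i, Matrix (Fin (n i)) (Fin (n i)) ℂ}
    (hB : ∀ i, Spf (B i)) (hBG : ∀ i, GB (B i) ≤ Gs (h i) (P i)) (hKf : FiniteDimensional ℚ K) (hKD : finrank ℚ K ≤ D)
    (hZ : ∀ i, IsUnit (pM (h i) (P i) (t i : ℝ))) {j : ℤ} {u v : (κ → Σ i, Fin (n i)) → K}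
    (hc : act (blockDiagonal' fun i => pM (h i) (P i) (t i : ℝ)) (fun J => (u J : ℂ)) = tpi ^ j • fun I => (v I : ℂ))
    (g : ∀ i, Matrix (Fin (n i)) (Fin (n i)) ℂ) (hgB : ∀ i, g i * B i * (g i)ᵀ = B i) :
    act (blockDiagonal' g) (fun I => (v I : ℂ)) = fun I => (v I : ℂ) := by
  have hcu : IsUnit (EG (tpi • (1 : Matrix (Fin 1) (Fin 1) ℂ)) fun i => pM (h i) (P i) (t i : ℝ)) := by
    have h1 : EG (tpi • (1 : Matrix (Fin 1) (Fin 1) ℂ)) (fun i => pM (h i) (P i) (t i : ℝ)) *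
        EG (tpi⁻¹ • (1 : Matrix (Fin 1) (Fin 1) ℂ)) (fun i => (pM (h i) (P i) (t i : ℝ))⁻¹) = 1 := by
      rw [EG_mul, smul_mul_smul_comm, Matrix.one_mul, mul_inv_cancel₀ tpi_ne, one_smul]
      have h5 : (fun i => pM (h i) (P i) (t i : ℝ) * (pM (h i) (P i) (t i : ℝ))⁻¹) = 1 := by
        funext i
        exact Matrix.mul_nonsing_inv _ ((Matrix.isUnit_iff_isUnit_det _).1 (hZ i))
      rw [h5, EG_one]
    exact (Matrix.isUnit_iff_isUnit_det _).2 (IsUnit.of_mul_eq_one (b := (EG (tpi⁻¹ • (1 : Matrix (Fin 1) (Fin 1) ℂ))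
      (fun i => (pM (h i) (P i) (t i : ℝ))⁻¹)).det) (by rw [← det_mul, h1, det_one]))
  have hcT : EG (tpi • (1 : Matrix (Fin 1) (Fin 1) ℂ)) (fun i => pM (h i) (P i) (t i : ℝ)) ∈ clsT j u v :=
    ⟨hcu, tpi, _, tpi_ne, rfl, hc⟩
  have hdet : ∀ i, (g i).det = 1 := fun i => sp_det1 (hB i) (hgB i)
  have hgu : ∀ i, IsUnit (g i) := fun i => (Matrix.isUnit_iff_isUnit_det _).2 (by rw [hdet i]; exact isUnit_one)
  have h1 := hg K hKf hKD _ (clsT_sub j u v) hcT (fun i => (hgu i).unit) (fun i =>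
    mono_comm (hBG i) (cl_perf (Or.inr (Or.inl (hB i)))) ⟨hdet i, hgB i⟩) _ hcT
  rw [EG_mul, Matrix.one_mul] at h1
  obtain ⟨-, z, X, hz, hzX, h2⟩ := h1
  obtain ⟨h3, h4⟩ := EG_inj hzX
  have h5 : tpi = z := smul_one_inj h3
  subst h5
  have h6 : X = fun i => g i * pM (h i) (P i) (t i : ℝ) := by
    rw [← h4]
    rfl
  rw [h6, blockDiagonal'_mul, act_mul, hc, act_smul] at h2
  exact smul_right_injective _ (zpow_ne_zero j tpi_ne) h2

end

/-- spans of vectors over a subfield -/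
theorem span_desc {ι : Type} [Fintype ι] [DecidableEq ι] {K : Subfield ℂ} {S : Set (ι → K)} {v : ι → K}
    (h : (fun i => (v i : ℂ)) ∈ Submodule.span ℂ ((fun w : ι → K => fun i => (w i : ℂ)) '' S)) :
    v ∈ Submodule.span K S := by
  by_contra hno
  obtain ⟨φ, hφv, hφ⟩ := Submodule.exists_le_ker_of_notMem hno
  have hφe : ∀ w : ι → K, φ w = ∑ i, w i * φ (Pi.single i 1) := by
    intro w
    conv_lhs => rw [← Finset.univ_sum_single w, map_sum]
    refine Finset.sum_congr rfl fun i _ => ?_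
    rw [← smul_eq_mul, ← map_smul]
    congr 1
    funext i'
    rw [Pi.smul_apply, smul_eq_mul]
    by_cases hi : i' = i
    · subst hi
      simp
    · rw [Pi.single_eq_of_ne hi, Pi.single_eq_of_ne hi, mul_zero]
  let ψ : (ι → ℂ) →ₗ[ℂ] ℂ := ∑ i, ((φ (Pi.single i 1) : K) : ℂ) • LinearMap.proj i
  have hψ : ∀ w : ι → K, ψ (fun i => (w i : ℂ)) = ((φ w : K) : ℂ) := by
    intro w
    rw [hφe w]
    show (∑ i, ((φ (Pi.single i 1) : K) : ℂ) • (LinearMap.proj i : (ι → ℂ) →ₗ[ℂ] ℂ)) _ = _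
    rw [LinearMap.sum_apply]
    push_cast
    refine Finset.sum_congr rfl fun i _ => ?_
    rw [LinearMap.smul_apply, LinearMap.proj_apply, smul_eq_mul, mul_comm]
  have h1 : Submodule.span ℂ ((fun w : ι → K => fun i => (w i : ℂ)) '' S) ≤ LinearMap.ker ψ := by
    rw [Submodule.span_le]
    rintro _ ⟨w, hw, rfl⟩
    rw [SetLike.mem_coe, LinearMap.mem_ker, hψ]
    have h2 : φ w = 0 := hφ (Submodule.subset_span hw)
    rw [h2]
    rfl
  have h2 := h1 h
  rw [LinearMap.mem_ker, hψ] at h2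
  apply hφv
  exact Subtype.ext h2

section
variable {κ : Type} [Fintype κ] [DecidableEq κ] {k : ℕ} {n : Fin k → ℕ}

/-- the product of the forms over a matching, with values in a field -/
def matQ (K : Type) [Field K] (B : ∀ i, Matrix (Fin (n i)) (Fin (n i)) ℚ) {m : ℕ} (e : Fin m × Fin 2 ≃ κ) (c : Fin m → Fin k) :
    (κ → Σ i, Fin (n i)) → K :=
  fun I => ∏ s, if (I (e (s, 0))).1 = c s then ((blockDiagonal' B (I (e (s, 0))) (I (e (s, 1))) : ℚ) : K) else 0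

theorem cls_span {K : Subfield ℂ} (B : ∀ i, Matrix (Fin (n i)) (Fin (n i)) ℚ) (hB : ∀ i, IsUnit (B i))
    (hBt : ∀ i, (B i)ᵀ = -B i) {v : (κ → Σ i, Fin (n i)) → K}
    (hinv : ∀ g : ∀ i, Matrix (Fin (n i)) (Fin (n i)) ℂ,
      (∀ i, g i * (B i).map (algebraMap ℚ ℂ) * (g i)ᵀ = (B i).map (algebraMap ℚ ℂ)) →
      act (blockDiagonal' g) (fun I => (v I : ℂ)) = fun I => (v I : ℂ)) :
    v ∈ Submodule.span K {w | ∃ (m : ℕ) (e : Fin m × Fin 2 ≃ κ) (c : Fin m → Fin k), w = matQ K B e c} := by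
  refine span_desc ?_
  have h1 := fft_blocks (fun i => (B i).map (algebraMap ℚ ℂ)) (fun i => (hB i).map (algebraMap ℚ ℂ).mapMatrix) (fun i => by
    rw [← Matrix.transpose_map, hBt i]
    ext a b
    simp) (fun I => (v I : ℂ)) hinv
  refine Submodule.span_mono ?_ h1
  rintro _ ⟨m, e, c, rfl⟩
  refine ⟨matQ K B e c, ⟨m, e, c, rfl⟩, ?_⟩
  funext I
  unfold matQ matB
  have h2 : blockDiagonal' (fun i => (B i).map (algebraMap ℚ ℂ)) = (blockDiagonal' B).map (algebraMap ℚ ℂ) := by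
    rw [blockDiagonal'_map _ _ (map_zero _)]
  rw [h2]
  show ((∏ s, _ : K) : ℂ) = _
  push_cast
  refine Finset.prod_congr rfl fun s _ => ?_
  split_ifs
  · rw [Matrix.map_apply]
    simp
  · rfl

end

end Pool.Agent.X120.GS
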