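import Pool.Agent.X120.GS.Fml
import Pool.Agent.Y120.R.Gx

/-!
# Counting tuples of terms of geometric sequences
-/

set_option autoImplicit false

open Filter Topology Metric Set

namespace Pool.Agent.X120.GS

open Pool.Agent.Y120.GH Pool.Agent.Y120.GF Pool.Agent.Y120.R Pool.Agent.Y113 PowerSeries

/-- few bad tuples -/
theorem count_kS (k : ℕ) : ∀ (D : ℕ) (σ : Fin k → Type) [∀ i, Fintype (σ i)] (X : ∀ i, ℕ → σ i → ℂ) (_ : ∀ i, OneS (X i)),
    ∃ C : ℝ, 0 ≤ C ∧ ∀ (V : Submodule ℚ ℂ) [Module.Finite ℚ V], Module.finrank ℚ V ≤ D → ∀ T : ℕ, 2 ≤ T →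
      ∃ S : Finset (Fin k → ℕ), (S.card : ℝ) * T ≤ C * (T : ℝ) ^ k * Real.log T ∧
        ∀ n : Fin k → ℕ, (∀ i, 1 ≤ n i ∧ n i ≤ T) → (Bad V fun b : (∀ i, σ i) => ∏ i, X i (n i) (b i)) → n ∈ S := by
  classical
  induction k with
  | zero =>
    intro D σ _ X _
    refine ⟨0, le_rfl, fun V _ _ T _ => ⟨∅, by simp, fun n _ hbad => ?_⟩⟩
    exfalso
    obtain ⟨v, -, hv0, hv⟩ := hbad
    apply hv0
    funext b
    simp only [Finset.univ_eq_empty, Finset.prod_empty, mul_one, Finset.univ_unique, Finset.sum_singleton] at hv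
    rw [Subsingleton.elim b default]
    exact hv
  | succ k ih =>
    intro D σ _ X h1
    obtain ⟨C₁, hC₁, h₁⟩ := ih D (fun i => σ i.succ) (fun i => X i.succ) fun i => h1 i.succ
    obtain ⟨C₂, hC₂, h₂⟩ := h1 0 (Fintype.card (∀ i : Fin k, σ i.succ) * D)
    refine ⟨C₁ + C₂, by positivity, fun V _ hV T hT => ?_⟩
    obtain ⟨S₁, hS₁, hS₁'⟩ := h₁ V hV T hT
    let Pt : (Fin k → ℕ) → (∀ i : Fin k, σ i.succ) → ℂ := fun τ b => ∏ i, X i.succ (τ i) (b i)
    choose S₂ hS₂ hS₂' using fun τ : Fin k → ℕ => h₂ (Ext V (Pt τ)) ((finrank_Ext V _).trans (Nat.mul_le_mul_left _ hV)) T hT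
    set box : Finset (Fin k → ℕ) := Fintype.piFinset fun _ => Finset.Icc 1 T with hbox
    have hboxc : box.card = T ^ k := by
      rw [hbox, Fintype.card_piFinset]
      simp
    refine ⟨((Finset.Icc 1 T ×ˢ S₁).image fun p => (Fin.cons p.1 p.2 : Fin (k + 1) → ℕ)) ∪
      (box.biUnion fun τ => (S₂ τ).image fun m => (Fin.cons m τ : Fin (k + 1) → ℕ)), ?_, fun n hn hbad => ?_⟩
    · have e1 : (((Finset.Icc 1 T ×ˢ S₁).image fun p => (Fin.cons p.1 p.2 : Fin (k + 1) → ℕ)).card : ℝ) ≤ T * S₁.card := by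
        have := (Finset.card_image_le (s := Finset.Icc 1 T ×ˢ S₁) (f := fun p => (Fin.cons p.1 p.2 : Fin (k + 1) → ℕ)))
        rw [Finset.card_product, Nat.card_Icc, Nat.add_sub_cancel] at this
        exact_mod_cast this
      have e2 : ((box.biUnion fun τ => (S₂ τ).image fun m => (Fin.cons m τ : Fin (k + 1) → ℕ)).card : ℝ) ≤
          (T : ℝ) ^ k * (C₂ * Real.log T) := by
        have h3 : ((box.biUnion fun τ => (S₂ τ).image fun m => (Fin.cons m τ : Fin (k + 1) → ℕ)).card : ℝ) ≤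
            ∑ τ ∈ box, (((S₂ τ).image fun m => (Fin.cons m τ : Fin (k + 1) → ℕ)).card : ℝ) := by
          exact_mod_cast Finset.card_biUnion_le
        refine h3.trans ?_
        have h4 : ∀ τ ∈ box, (((S₂ τ).image fun m => (Fin.cons m τ : Fin (k + 1) → ℕ)).card : ℝ) ≤ C₂ * Real.log T := by
          intro τ _
          refine le_trans ?_ (hS₂ τ)
          exact_mod_cast Finset.card_image_le
        refine (Finset.sum_le_sum h4).trans ?_
        rw [Finset.sum_const, hboxc, nsmul_eq_mul]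
        push_cast
        exact le_rfl
      have e3 : ((((Finset.Icc 1 T ×ˢ S₁).image fun p => (Fin.cons p.1 p.2 : Fin (k + 1) → ℕ)) ∪
        (box.biUnion fun τ => (S₂ τ).image fun m => (Fin.cons m τ : Fin (k + 1) → ℕ))).card : ℝ) ≤
          T * S₁.card + (T : ℝ) ^ k * (C₂ * Real.log T) := by
        refine le_trans ?_ (add_le_add e1 e2)
        exact_mod_cast Finset.card_union_le _ _
      have hT0 : (0 : ℝ) ≤ T := Nat.cast_nonneg T
      calc _ ≤ (T * S₁.card + (T : ℝ) ^ k * (C₂ * Real.log T)) * T := mul_le_mul_of_nonneg_right e3 hT0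
        _ = T * (S₁.card * T) + C₂ * (T : ℝ) ^ (k + 1) * Real.log T := by ring
        _ ≤ T * (C₁ * (T : ℝ) ^ k * Real.log T) + C₂ * (T : ℝ) ^ (k + 1) * Real.log T := by
            have := mul_le_mul_of_nonneg_left hS₁ hT0
            linarith
        _ = _ := by ring
    · by_cases htail : Bad V (Pt (Fin.tail n))
      · refine Finset.mem_union_left _ (Finset.mem_image.2 ⟨(n 0, Fin.tail n), ?_, Fin.cons_self_tail n⟩)
        rw [Finset.mem_product, Finset.mem_Icc]
        exact ⟨hn 0, hS₁' _ (fun i => hn i.succ) htail⟩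
      · refine Finset.mem_union_right _ (Finset.mem_biUnion.2 ⟨Fin.tail n, ?_, Finset.mem_image.2 ⟨n 0, ?_, Fin.cons_self_tail n⟩⟩)
        · rw [hbox, Fintype.mem_piFinset]
          exact fun i => Finset.mem_Icc.2 (hn i.succ)
        · refine hS₂' _ (n 0) (hn 0).1 (hn 0).2 ?_
          obtain ⟨v, hvV, hv0, hv⟩ := hbad
          set cf : σ 0 → ℂ := fun β => ∑ b' : (∀ i : Fin k, σ i.succ), v (Fin.cons β b') * Pt (Fin.tail n) b' with hcf
          refine ⟨cf, fun β => mem_Ext V _ fun b' => hvV _, ?_, ?_⟩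
          · intro h0
            apply htail
            obtain ⟨b, hb⟩ : ∃ b, v b ≠ 0 := by
              by_contra hno
              push Not at hno
              exact hv0 (funext hno)
            refine ⟨fun b' => v (Fin.cons (b 0) b'), fun b' => hvV _, ?_, congrFun h0 (b 0)⟩
            intro h2
            apply hb
            have h3 := congrFun h2 (Fin.tail b)
            simp only [Fin.cons_self_tail, Pi.zero_apply] at h3
            exact h3
          · rw [← hv, ← Equiv.sum_comp (Fin.consEquiv σ), Fintype.sum_prod_type]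
            refine Finset.sum_congr rfl fun β _ => ?_
            rw [hcf]
            simp only
            rw [Finset.sum_mul]
            refine Finset.sum_congr rfl fun b' _ => ?_
            have e0 : (Fin.consEquiv σ) (β, b') = Fin.cons β b' := rfl
            rw [e0, Fin.prod_univ_succ]
            simp only [Fin.cons_zero, Fin.cons_succ]
            have : Pt (Fin.tail n) b' = ∏ i : Fin k, X i.succ (n i.succ) (b' i) := rfl
            rw [this]
            ring

section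
variable {k δ : ℕ} {r : Fin k → ℕ} {h : ∀ i, Fin (r i) → ℚ⟦X⟧} {B : ∀ i, Finset (Fin δ → Option (Fin (r i)))}
  {a : Fin k → Polynomial ℤ} {M : ∀ i, (Fin δ → Option (Fin (r i))) → B i → Polynomial ℤ}

/-- the point -/
def tp {k : ℕ} (b n : Fin k → ℕ) (i : Fin k) : ℕ := b i ^ n i

/-- the variables without the logarithms -/
def io (r : Fin k → ℕ) (v : Σ i, Fin (r i)) : Σ i, Option (Fin (r i)) := ⟨v.1, some v.2⟩

theorem io_inj : Function.Injective (io r) := by
  rintro ⟨i, j⟩ ⟨i', j'⟩ h1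
  have h2 : i = i' := congrArg Sigma.fst h1
  subst h2
  have h3 : (some j : Option (Fin (r i))) = some j' := by
    have := (Sigma.mk.inj_iff.1 h1).2
    exact eq_of_heq this
  rw [Option.some.inj h3]

theorem none_zero {P : MvPolynomial (Σ i, Fin (r i)) ℂ} {s : (Σ i, Option (Fin (r i))) →₀ ℕ}
    (hs : s ∈ (MvPolynomial.rename (io r) P).support) (i : Fin k) : s ⟨i, none⟩ = 0 := by
  classical
  rw [MvPolynomial.mem_support_iff] at hs
  by_contra hne
  apply hs
  refine MvPolynomial.coeff_rename_eq_zero _ _ _ fun u hu => ?_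
  exfalso
  apply hne
  rw [← hu]
  refine Finsupp.mapDomain_notin_range _ _ ?_
  rintro ⟨v, hv⟩
  have h2 : v.1 = i := congrArg Sigma.fst hv
  subst h2
  have := (Sigma.mk.inj_iff.1 hv).2
  exact Option.some_ne_none _ (eq_of_heq this)

/-- the expansion of a polynomial without logarithms -/
theorem cc_zero (P : MvPolynomial (Σ i, Fin (r i)) ℂ) (y : Fin k → ℂ) (p : ∀ i, B i × Fin (δ + 1)) {i : Fin k}
    (hi : ((p i).2 : ℕ) ≠ 0) : MvPolynomial.eval y (cc M (MvPolynomial.rename (io r) P) p) = 0 := by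
  rw [eval_cc]
  refine Finset.sum_eq_zero fun s hs => ?_
  have h1 : mm M s i (p i) = 0 := by
    rw [mm, if_neg]
    rw [none_zero hs i]
    exact hi
  rw [Finset.prod_eq_zero (Finset.mem_univ i) (by rw [h1, map_zero]), mul_zero]

/-- for almost all tuples the expansion of a relation is trivial -/
theorem goodS (D : ℕ) (hM : ∀ i b, ps (a i) * yw (h i) b = ∑ β, ps (M i b β) * yw (h i) β.1)
    (b : Fin k → ℕ) (hOne : ∀ i, OneS fun (n : ℕ) (β : B i) => ((ev (((b i ^ n : ℕ)) : ℝ) (yw (h i) β.1) : ℝ) : ℂ))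
    {C₀ : Fin k → ℝ} (hC₀ : ∀ i, 0 ≤ C₀ i)
    (hh : ∀ i j m, |((coeff m (h i j) : ℚ) : ℝ)| ≤ C₀ i ^ (m + 1)) :
    ∃ C : ℝ, 0 ≤ C ∧ ∀ (V : Submodule ℚ ℂ) [Module.Finite ℚ V], Module.finrank ℚ V ≤ D → ∀ T : ℕ, 2 ≤ T →
      ∃ S : Finset (Fin k → ℕ), (S.card : ℝ) * T ≤ C * (T : ℝ) ^ k * Real.log T ∧
        ∀ n : Fin k → ℕ, (∀ i, 1 ≤ n i ∧ n i ≤ T) → (∀ i, C₀ i < (tp b n i : ℝ)) →
        (∃ P : MvPolynomial (Σ i, Fin (r i)) ℂ, (MvPolynomial.rename (io r) P).totalDegree ≤ δ ∧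
          (∀ s, (MvPolynomial.rename (io r) P).coeff s ∈ V) ∧
          MvPolynomial.aeval (vp h fun i => (tp b n i : ℝ)) (MvPolynomial.rename (io r) P) = 0 ∧
          ∃ p : (∀ i, B i × Fin (δ + 1)), MvPolynomial.eval (fun i => 1 / (tp b n i : ℂ))
            (cc M (MvPolynomial.rename (io r) P) p) ≠ 0) → n ∈ S := by
  classical
  obtain ⟨C, hC, hcount⟩ := count_kS k D (fun i => B i)
    (fun i (n : ℕ) (β : B i) => ((ev (((b i ^ n : ℕ)) : ℝ) (yw (h i) β.1) : ℝ) : ℂ)) hOne
  refine ⟨C, hC, fun V _ hV T hT => ?_⟩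
  obtain ⟨S, hS, hS'⟩ := hcount V hV T hT
  refine ⟨S, hS, fun n hn hbig hP => hS' n hn ?_⟩
  obtain ⟨P, hPd, hPV, hP0, p₀, hp₀⟩ := hP
  let ε : (∀ i, B i) → (∀ i, B i × Fin (δ + 1)) := fun β i => (β i, 0)
  refine ⟨fun β => MvPolynomial.eval (fun i => 1 / (tp b n i : ℂ)) (cc M (MvPolynomial.rename (io r) P) (ε β)),
    fun β => cc_mem hPV (tp b n) (ε β), fun h0 => ?_, ?_⟩
  · have h1 : ∀ i, ((p₀ i).2 : ℕ) = 0 := by
      intro i
      by_contra hi
      exact hp₀ (cc_zero P _ p₀ hi)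
    apply hp₀
    have h2 := congrFun h0 fun i => (p₀ i).1
    have h3 : ε (fun i => (p₀ i).1) = p₀ := by
      funext i
      exact Prod.ext rfl (Fin.ext (h1 i).symm)
    simp only [h3, Pi.zero_apply] at h2
    exact h2
  · have h1 := expand_real a M hM hC₀ hh hbig (MvPolynomial.rename (io r) P) hPd
    rw [hP0, mul_zero] at h1
    refine Eq.trans ?_ h1.symm
    refine Finset.sum_of_injOn ε ?_ (fun _ _ => Finset.mem_coe.2 (Finset.mem_univ _)) ?_ ?_
    · intro β _ β' _ hββ
      funext i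
      exact congrArg Prod.fst (congrFun hββ i)
    · intro p _ hp
      obtain ⟨i, hi⟩ : ∃ i, ((p i).2 : ℕ) ≠ 0 := by
        by_contra hno
        push Not at hno
        apply hp
        refine ⟨fun i => (p i).1, Finset.mem_coe.2 (Finset.mem_univ _), ?_⟩
        funext i
        exact Prod.ext rfl (Fin.ext (hno i).symm)
      rw [cc_zero P _ p hi, zero_mul]
    · intro β _
      congr 1
      unfold xf
      refine Finset.prod_congr rfl fun i _ => ?_
      show ((ev (((b i ^ n i : ℕ)) : ℝ) (yw (h i) (β i).1) : ℝ) : ℂ) = _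
      have : (((ε β) i).2 : ℕ) = 0 := rfl
      rw [this, pow_zero, mul_one]
      rfl

end

end Pool.Agent.X120.GS
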