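import Pool.Agent.X120.GS.Desc

/-!
# Relations between power series with coefficients which are holomorphic in a disc, the only other singularity being at infinity
-/

set_option autoImplicit false

open Filter Topology Metric Set

namespace Pool.Agent.X120.GS

open Pool.Agent.Y120.GH

section
variable {ρ ρ' : ℝ} {p : ℂ}

/-- the Taylor series of a sum of a power series -/
theorem tay_inn {f : PowerSeries ℂ} {r : ℝ} (hr : 0 < r) (h : Summable fun m => ‖PowerSeries.coeff m f‖ * r ^ m) :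
    tay 0 (inn f) = f := by
  have h1 : HasFPowerSeriesAt (inn f) (FormalMultilinearSeries.ofScalars ℂ fun m => PowerSeries.coeff m f) 0 := by
    rw [hasFPowerSeriesAt_iff]
    filter_upwards [Metric.ball_mem_nhds (0 : ℂ) hr] with u hu
    rw [zero_add]
    rw [Metric.mem_ball, dist_zero_right] at hu
    have h2 := (summable_at h hu.le).of_norm.hasSum
    have h4 : (fun m => u ^ m • (FormalMultilinearSeries.ofScalars ℂ fun m => PowerSeries.coeff m f).coeff m) =
        fun m => PowerSeries.coeff m f * u ^ m := by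
      funext m
      rw [FormalMultilinearSeries.coeff_ofScalars, smul_eq_mul]
      ring
    rw [h4]
    exact h2
  have h2 : HasFPowerSeriesAt (inn f)
      (FormalMultilinearSeries.ofScalars ℂ fun n => iteratedDeriv n (inn f) 0 / n.factorial) 0 := by
    have : AnalyticAt ℂ (inn f) 0 := inn_an h _ (by rw [mem_ball, dist_self]; exact hr)
    exact this.hasFPowerSeriesAt
  have h3 := h1.eq_formalMultilinearSeries h2
  ext m
  have h5 := congrArg (fun q : FormalMultilinearSeries ℂ ℂ ℂ => q.coeff m) h3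
  simp only [FormalMultilinearSeries.coeff_ofScalars] at h5
  rw [coeff_tay, h5]

/-- a function on the disc which vanishes near one point vanishes near every other point -/
theorem E1_zero_iff {q : ℂ} (hp' : ‖p‖ < ρ') (hq' : ‖q‖ < ρ') (f : An (ball (0 : ℂ) ρ')) :
    E1 hp' f = 0 → E1 hq' f = 0 := by
  intro h
  rw [E1_apply hp' f (mem_p hp' f), em_zero_iff] at h
  have h5 : Set.EqOn f.1 0 (ball 0 ρ') :=
    f.2.eqOn_zero_of_preconnected_of_eventuallyEq_zero (convex_ball _ _).isPreconnected (mem_ball_zero_iff.2 hp') h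
  rw [E1_apply hq' f (mem_p hq' f), em_zero_iff]
  filter_upwards [isOpen_ball.mem_nhds (mem_ball_zero_iff.2 hq')] with z hz
  exact h5 hz

/-- the derivative -/
noncomputable def dA (f : An (ball (0 : ℂ) ρ')) : An (ball (0 : ℂ) ρ') := ⟨deriv f.1, f.2.deriv⟩

theorem DD_E1 (hp' : ‖p‖ < ρ') (f : An (ball (0 : ℂ) ρ')) : DD (E1 hp' f) = E1 hp' (dA f) := by
  rw [E1_apply hp' f (mem_p hp' f), DD_em]
  rfl

/-- polynomials at the variable -/
theorem E1_poly_ne (hp' : ‖p‖ < ρ') {P : Polynomial ℂ} (hP : P ≠ 0) : E1 hp' (pA (ball (0 : ℂ) ρ') P) ≠ 0 := by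
  rw [E1_apply hp' _ (mem_p hp' _)]
  intro h
  rw [em_zero_iff] at h
  apply hP
  refine Polynomial.eq_zero_of_infinite_isRoot P ?_
  have h3 : ∀ᶠ z in 𝓝 p, P.IsRoot z := h
  exact infinite_of_mem_nhds p h3

/-- the Taylor series of a polynomial -/
theorem tay_poly (P : Polynomial ℂ) : tay 0 (fun z => P.eval z) = (P : PowerSeries ℂ) := by
  have hX : tay 0 (fun z : ℂ => z) = PowerSeries.X := by
    have h1 : tay 0 (inn (PowerSeries.X : PowerSeries ℂ)) = PowerSeries.X :=
      tay_inn one_pos (summable_of_ne_finset_zero (s := {1}) fun m hm => by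
        rw [PowerSeries.coeff_X, if_neg (by simpa using hm), norm_zero, zero_mul])
    have h2 : inn (PowerSeries.X : PowerSeries ℂ) = fun z => z := by
      funext z
      unfold inn
      rw [tsum_eq_single 1]
      · simp
      · intro m hm
        rw [PowerSeries.coeff_X, if_neg hm, zero_mul]
    rwa [h2] at h1
  induction P using Polynomial.induction_on' with
  | add P Q hP hQ =>
    have h1 : (fun z => (P + Q).eval z) = (fun z => P.eval z) + fun z => Q.eval z := by
      funext z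
      rw [Polynomial.eval_add]
      rfl
    rw [h1, tay_add (P.differentiable.analyticAt _) (Q.differentiable.analyticAt _), hP, hQ, Polynomial.coe_add]
  | monomial n a =>
    have h1 : (fun z => (Polynomial.monomial n a).eval z) = (fun _ => a) * fun z : ℂ => z ^ n := by
      funext z
      rw [Polynomial.eval_monomial]
      rfl
    have h2 : ∀ n : ℕ, tay 0 (fun z : ℂ => z ^ n) = PowerSeries.X ^ n := by
      intro n
      induction n with
      | zero =>
        have := tay_const (p := 0) 1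
        simpa using this
      | succ n ih =>
        have h3 : (fun z : ℂ => z ^ (n + 1)) = (fun z : ℂ => z ^ n) * fun z : ℂ => z := by
          funext z
          rw [pow_succ]
          rfl
        have h4 : AnalyticAt ℂ (fun z : ℂ => z ^ n) 0 := analyticAt_id.pow n
        have h5 : AnalyticAt ℂ (fun z : ℂ => z) 0 := analyticAt_id
        rw [h3, tay_mul h4 h5, ih, hX, pow_succ]
    have h4 : AnalyticAt ℂ (fun z : ℂ => z ^ n) 0 := analyticAt_id.pow n
    have h5 : AnalyticAt ℂ (fun _ : ℂ => a) 0 := analyticAt_const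
    rw [h1, tay_mul h5 h4, tay_const, h2, ← Polynomial.C_mul_X_pow_eq_monomial,
      Polynomial.coe_mul, Polynomial.coe_pow, Polynomial.coe_X, Polynomial.coe_C]

theorem E1_poly0 (h0' : ‖(0 : ℂ)‖ < ρ') (P : Polynomial ℂ) :
    E1 h0' (pA (ball (0 : ℂ) ρ') P) = algebraMap (PowerSeries ℂ) FF (P : PowerSeries ℂ) := by
  rw [E1_apply h0' _ (mem_p h0' _), em_apply]
  congr 1
  exact tay_poly P

/-- **The core lemma** -/
theorem coreZ (hρ : 0 < ρ) (hp : ρ < ‖p‖) (hp' : ‖p‖ < ρ') (hpim : 0 < p.im) {σ : Type} [Fintype σ] [DecidableEq σ]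
    (y : σ → PowerSeries ℂ) (T : Polynomial ℂ) (hT : T ≠ 0) (A : σ → σ → Polynomial ℂ)
    (hode : ∀ i, (T : PowerSeries ℂ) * PowerSeries.derivative ℂ (y i) = ∑ j, (A i j : PowerSeries ℂ) * y j)
    (T₂ : Polynomial ℂ) (hT₂ : T₂ ≠ 0) (A₂ : σ → σ → Polynomial ℂ)
    (hcmp : ∀ i l, ∀ z : ℂ, z ≠ 0 → - (A₂ i l).eval (1 / z) * T.eval z = z ^ 2 * T₂.eval (1 / z) * (A i l).eval z)
    (Φ : Matrix σ σ (Polynomial (Cw ρ))) (M : ℕ)
    (hΦ : ∀ i j k, pC ρ T₂ * (Xc ρ * dCw hρ ((Φ i j).coeff k) + (k + 1) * (Φ i j).coeff (k + 1) - M * (Φ i j).coeff k) =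
      Xc ρ * ∑ l, pC ρ (A₂ i l) * (Φ l j).coeff k) (hdet : Φ.det ≠ 0) (B : Set σ)
    (hLI : ∀ G : σ → Polynomial ℂ, (∀ i, i ∉ B → G i = 0) → ∑ i, (G i : PowerSeries ℂ) * y i = 0 → ∀ i, G i = 0)
    (h0' : ‖(0 : ℂ)‖ < ρ')
    (c : σ → An (ball (0 : ℂ) ρ')) (hcB : ∀ i, i ∉ B → c i = 0)
    (hrel : ∑ i, E1 h0' (c i) * algebraMap (PowerSeries ℂ) FF (y i) = 0) : ∀ i, E1 (p := p) hp' (c i) = 0 := by
  classical
  by_contra hno
  set w := ww hρ hp with hw
  have hw0 : w ≠ 0 := ww_ne hρ hp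
  set ζ : FF := E1 (p := p) hp' (pA _ Polynomial.X) with hζ
  have hζw : ζ * w = 1 := zeta_ww hρ hp hp'
  have hζ0 : ζ ≠ 0 := left_ne_zero_of_mul_eq_one hζw
  set t₂ := Polynomial.aeval w T₂ with ht₂
  have ht₂0 : t₂ ≠ 0 := aeval_ww_ne hρ hp hT₂
  set tz : FF := E1 (p := p) hp' (pA _ T) with htz
  have htz0 : tz ≠ 0 := E1_poly_ne hp' hT
  set F₁ := Subfield.closure (Set.range (E1 (p := p) hp')) with hF₁
  set F₂ := Subfield.closure (Set.range (E2 hρ hp hpim)) with hF₂
  set 𝔸 : σ → σ → FF := fun i l => E1 (p := p) hp' (pA _ (A i l)) / tz with h𝔸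
  -- comparison
  have hcmpF : ∀ i l, 𝔸 i l = - w ^ 2 * (Polynomial.aeval w (A₂ i l) / t₂) := by
    intro i l
    have hev : ∀ᶠ z in 𝓝 p, ρ < ‖z‖ := ev_out hp
    have h1 : -(Polynomial.aeval w (A₂ i l)) * tz = ζ ^ 2 * t₂ * E1 (p := p) hp' (pA _ (A i l)) := by
      rw [ht₂, ← ouH_pC hρ hp, ← ouH_pC hρ hp, ouH_apply, ouH_apply, htz, hζ, E1_apply hp' _ (mem_p hp' _),
        E1_apply hp' _ (mem_p hp' _), E1_apply hp' _ (mem_p hp' _), ← map_neg, ← map_mul, ← map_pow, ← map_mul, ← map_mul]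
      refine em_congr ?_
      filter_upwards [hev] with z hz
      have hz0 : z ≠ 0 := by
        rintro rfl
        rw [norm_zero] at hz
        linarith
      have h2 := hcmp i l z hz0
      show -(ou ((A₂ i l : Polynomial ℂ) : PowerSeries ℂ) z) * T.eval z =
        (Polynomial.X : Polynomial ℂ).eval z ^ 2 * ou ((T₂ : Polynomial ℂ) : PowerSeries ℂ) z * (A i l).eval z
      rw [ou_poly, ou_poly, Polynomial.eval_X]
      exact h2
    rw [h𝔸]
    show E1 (p := p) hp' (pA _ (A i l)) / tz = _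
    rw [div_eq_iff htz0]
    have h3 : ζ ^ 2 * w ^ 2 = 1 := by rw [← mul_pow, hζw, one_pow]
    calc E1 (p := p) hp' (pA _ (A i l)) = w ^ 2 * (ζ ^ 2 * t₂ * E1 (p := p) hp' (pA _ (A i l))) / t₂ := by
          rw [eq_div_iff ht₂0]
          linear_combination (-1 : FF) * t₂ * E1 (p := p) hp' (pA _ (A i l)) * h3
      _ = w ^ 2 * (-(Polynomial.aeval w (A₂ i l)) * tz) / t₂ := by rw [h1]
      _ = _ := by ring
  -- constants
  have hcF2 : ∀ c : ℂ, algebraMap ℂ FF c ∈ F₂ := by
    intro c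
    refine Subfield.subset_closure ⟨Polynomial.C (pC ρ (Polynomial.C c)), ?_⟩
    show Polynomial.eval₂ (ouH hρ hp) (lgF hpim) (Polynomial.C (pC ρ (Polynomial.C c))) = _
    rw [Polynomial.eval₂_C, ouH_pC, Polynomial.aeval_C]
  have hwF2 : w ∈ F₂ := by
    refine Subfield.subset_closure ⟨Polynomial.C (Xc ρ), ?_⟩
    show Polynomial.eval₂ (ouH hρ hp) (lgF hpim) (Polynomial.C (Xc ρ)) = _
    rw [Polynomial.eval₂_C]
    rfl
  -- the fundamental matrix
  obtain ⟨m, hm⟩ : ∃ m, ∀ i j, (Φ i j).natDegree < m := ⟨(∑ i, ∑ j, (Φ i j).natDegree) + 1, fun i j => by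
    have h1 : (Φ i j).natDegree ≤ ∑ j, (Φ i j).natDegree :=
      Finset.single_le_sum (f := fun j => (Φ i j).natDegree) (fun _ _ => Nat.zero_le _) (Finset.mem_univ j)
    have h2 : ∑ j, (Φ i j).natDegree ≤ ∑ i, ∑ j, (Φ i j).natDegree :=
      Finset.single_le_sum (f := fun i => ∑ j, (Φ i j).natDegree) (fun _ _ => Nat.zero_le _) (Finset.mem_univ i)
    omega⟩
  set ΦF : Matrix σ σ FF := fun i j => w⁻¹ ^ M * E2 hρ hp hpim (Φ i j) with hΦF
  have hDΦ : ∀ i j, DD (ΦF i j) = ∑ l, 𝔸 i l * ΦF l j := by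
    intro i j
    simp only [hcmpF]
    have h1 := DD_E2 hρ hp hpim (Φ i j) (hm i j)
    set s := ∑ k ∈ Finset.range m, (w * ouH hρ hp (dCw hρ ((Φ i j).coeff k)) + (k + 1) * ouH hρ hp ((Φ i j).coeff (k + 1))) *
      lgF hpim ^ k with hs
    have h2 : t₂ * (s - M * E2 hρ hp hpim (Φ i j)) = w * ∑ l, Polynomial.aeval w (A₂ i l) * E2 hρ hp hpim (Φ l j) := by
      have h3 : ∀ l, E2 hρ hp hpim (Φ l j) = ∑ k ∈ Finset.range m, ouH hρ hp ((Φ l j).coeff k) * lgF hpim ^ k :=
        fun l => E2_eq hρ hp hpim _ (hm l j)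
      rw [h3 i]
      simp only [h3]
      rw [hs, Finset.mul_sum, ← Finset.sum_sub_distrib, Finset.mul_sum]
      simp only [Finset.mul_sum]
      rw [Finset.sum_comm]
      refine Finset.sum_congr rfl fun k _ => ?_
      have h4 := congrArg (ouH hρ hp) (hΦ i j k)
      simp only [map_mul, map_sub, map_add, map_sum, map_natCast, map_one, ouH_pC, ← ww_eq] at h4
      rw [← hw, ← ht₂] at h4
      have h5 : t₂ * ((w * ouH hρ hp (dCw hρ ((Φ i j).coeff k)) + (↑k + 1) * ouH hρ hp ((Φ i j).coeff (k + 1))) *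
          lgF hpim ^ k - ↑M * (ouH hρ hp ((Φ i j).coeff k) * lgF hpim ^ k)) =
          t₂ * (w * ouH hρ hp (dCw hρ ((Φ i j).coeff k)) + (↑k + 1) * ouH hρ hp ((Φ i j).coeff (k + 1)) -
            ↑M * ouH hρ hp ((Φ i j).coeff k)) * lgF hpim ^ k := by ring
      rw [h5, h4, Finset.mul_sum, Finset.sum_mul]
      refine Finset.sum_congr rfl fun l _ => ?_
      ring
    have h6 : s - M * E2 hρ hp hpim (Φ i j) = (w * ∑ l, Polynomial.aeval w (A₂ i l) * E2 hρ hp hpim (Φ l j)) / t₂ := by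
      rw [eq_div_iff ht₂0, ← h2, mul_comm]
    show DD (w⁻¹ ^ M * E2 hρ hp hpim (Φ i j)) = ∑ l, (- w ^ 2 * (Polynomial.aeval w (A₂ i l) / t₂)) * (w⁻¹ ^ M * E2 hρ hp hpim (Φ l j))
    rw [Derivation.leibniz, h1, hw, DD_zeta_pow hρ hp M, smul_eq_mul, smul_eq_mul, ← hw]
    have h7 : w⁻¹ ^ M * (-w * s) + E2 hρ hp hpim (Φ i j) * (↑M * w⁻¹ ^ M * w) =
        - w⁻¹ ^ M * w * (s - M * E2 hρ hp hpim (Φ i j)) := by ring
    rw [h7, h6, Finset.mul_sum, Finset.sum_div, Finset.mul_sum]
    refine Finset.sum_congr rfl fun l _ => ?_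
    ring
  have hdetF : ΦF.det ≠ 0 := by
    have h1 : ΦF = (w⁻¹ ^ M) • (E2 hρ hp hpim).mapMatrix Φ := by
      ext i j
      rfl
    rw [h1, Matrix.det_smul, ← RingHom.map_det]
    refine mul_ne_zero (pow_ne_zero _ (pow_ne_zero _ (inv_ne_zero hw0))) ?_
    intro h
    exact hdet (E2_inj hρ hp hpim h)
  -- the space of the relations
  let R : Set (σ → FF) := {v | ∃ (b : An (ball (0 : ℂ) ρ')) (a : σ → An (ball (0 : ℂ) ρ')), E1 (p := p) hp' b ≠ 0 ∧
    (∀ i, v i * E1 (p := p) hp' b = E1 (p := p) hp' (a i)) ∧ ∑ i, E1 h0' (a i) * algebraMap (PowerSeries ℂ) FF (y i) = 0}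
  have hR1 : ∀ v ∈ R, ∀ i, v i ∈ F₁ := by
    rintro v ⟨b, a, hb, hv, -⟩ i
    rw [show v i = E1 (p := p) hp' (a i) / E1 (p := p) hp' b by rw [eq_div_iff hb, hv]]
    exact div_mem (Subfield.subset_closure ⟨_, rfl⟩) (Subfield.subset_closure ⟨_, rfl⟩)
  push Not at hno
  obtain ⟨i₀, hi₀⟩ := hno
  obtain ⟨c', hc'R, hc', hc'B, hc'0⟩ := descR_matrix DD F₁ F₂
    (fun x hx => by
      obtain ⟨a, rfl⟩ := DD_const hx
      exact hcF2 a) 𝔸 ΦF
    (fun i j => mul_mem (pow_mem (inv_mem hwF2) _) (Subfield.subset_closure ⟨_, rfl⟩)) hDΦ hdetF R hR1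
    ⟨1, 0, by rw [map_one]; exact one_ne_zero, fun i => by simp, by simp⟩
    (by
      rintro u ⟨b, a, hb, hu, hr⟩ v ⟨b', a', hb', hv, hr'⟩
      refine ⟨b * b', fun i => a i * b' + a' i * b, by rw [map_mul]; exact mul_ne_zero hb hb', fun i => ?_, ?_⟩
      · rw [map_mul, map_add, map_mul, map_mul, ← hu, ← hv, Pi.add_apply]
        ring
      · have h1 : ∀ i, E1 h0' (a i * b' + a' i * b) * algebraMap (PowerSeries ℂ) FF (y i) =
            E1 h0' b' * (E1 h0' (a i) * algebraMap (PowerSeries ℂ) FF (y i)) +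
            E1 h0' b * (E1 h0' (a' i) * algebraMap (PowerSeries ℂ) FF (y i)) := by
          intro i
          rw [map_add, map_mul, map_mul]
          ring
        rw [Finset.sum_congr rfl fun i _ => h1 i, Finset.sum_add_distrib, ← Finset.mul_sum, ← Finset.mul_sum, hr, hr',
          mul_zero, mul_zero, add_zero])
    (by
      rintro x hx v ⟨b, a, hb, hv, hr⟩
      obtain ⟨x₁, x₂, hxx⟩ := mem_closure_range _ hx
      by_cases hx2 : E1 (p := p) hp' x₂ = 0
      · have hx0 : x = 0 := by rw [hxx, hx2, div_zero]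
        refine ⟨1, 0, by rw [map_one]; exact one_ne_zero, fun i => by simp [hx0], by simp⟩
      refine ⟨x₂ * b, fun i => x₁ * a i, by rw [map_mul]; exact mul_ne_zero hx2 hb, fun i => ?_, ?_⟩
      · rw [map_mul, map_mul, ← hv, hxx]
        field_simp
      · have h1 : ∀ i, E1 h0' (x₁ * a i) * algebraMap (PowerSeries ℂ) FF (y i) =
            E1 h0' x₁ * (E1 h0' (a i) * algebraMap (PowerSeries ℂ) FF (y i)) := by
          intro i
          rw [map_mul, mul_assoc]
        rw [Finset.sum_congr rfl fun i _ => h1 i, ← Finset.mul_sum, hr, mul_zero])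
    (by
      rintro v ⟨b, a, hb, hv, hr⟩
      refine ⟨pA _ T * b * b, fun i => pA _ T * (dA (a i) * b - a i * dA b) + b * ∑ j, pA _ (A j i) * a j,
        by rw [map_mul, map_mul]; exact mul_ne_zero (mul_ne_zero htz0 hb) hb, fun i => ?_, ?_⟩
      · have h1 : DD (v i) * E1 (p := p) hp' b + v i * E1 (p := p) hp' (dA b) = E1 (p := p) hp' (dA (a i)) := by
          have h2 := congrArg DD (hv i)
          rw [Derivation.leibniz, smul_eq_mul, smul_eq_mul, DD_E1, DD_E1] at h2
          rw [← h2]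
          ring
        rw [map_mul, map_mul, map_add, map_mul, map_mul, map_sub, map_mul, map_mul, map_sum, ← h1, ← hv i, ← htz]
        have h3 : ∀ j, 𝔸 j i * v j * (tz * E1 (p := p) hp' b) = E1 (p := p) hp' (pA _ (A j i) * a j) := by
          intro j
          rw [map_mul, ← hv j, h𝔸]
          show E1 (p := p) hp' (pA _ (A j i)) / tz * v j * (tz * E1 (p := p) hp' b) = _
          field_simp
        rw [← Finset.sum_congr rfl fun j _ => h3 j, ← Finset.sum_mul]
        ring
      · have h1 : ∀ i, E1 h0' (pA _ T * (dA (a i) * b - a i * dA b) + b * ∑ j, pA _ (A j i) * a j) *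
            algebraMap (PowerSeries ℂ) FF (y i) =
            E1 h0' b * (E1 h0' (pA _ T) * (E1 h0' (dA (a i)) * algebraMap (PowerSeries ℂ) FF (y i)) +
              ∑ j, E1 h0' (a j) * (E1 h0' (pA _ (A j i)) * algebraMap (PowerSeries ℂ) FF (y i))) -
            E1 h0' (pA _ T) * E1 h0' (dA b) * (E1 h0' (a i) * algebraMap (PowerSeries ℂ) FF (y i)) := by
          intro i
          rw [map_add, map_mul, map_mul, map_sub, map_mul, map_mul, map_sum]
          have h2 : ∑ j, E1 h0' (pA _ (A j i) * a j) =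
            ∑ j, E1 h0' (a j) * E1 h0' (pA _ (A j i)) := Finset.sum_congr rfl fun j _ => by rw [map_mul, mul_comm]
          rw [h2]
          have h3 : ∑ j, E1 h0' (a j) * (E1 h0' (pA _ (A j i)) * algebraMap (PowerSeries ℂ) FF (y i)) =
              (∑ j, E1 h0' (a j) * E1 h0' (pA _ (A j i))) * algebraMap (PowerSeries ℂ) FF (y i) := by
            rw [Finset.sum_mul]
            exact Finset.sum_congr rfl fun j _ => by ring
          rw [h3]
          ring
        have hpoly : ∀ P : Polynomial ℂ, E1 h0' (pA _ P) = algebraMap (PowerSeries ℂ) FF (P : PowerSeries ℂ) := E1_poly0 h0'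
        rw [Finset.sum_congr rfl fun i _ => h1 i, Finset.sum_sub_distrib, ← Finset.mul_sum, ← Finset.mul_sum, hr, mul_zero,
          sub_zero, Finset.sum_add_distrib, ← Finset.mul_sum, Finset.sum_comm]
        have h4 : ∀ j, ∑ i, E1 h0' (a j) * (E1 h0' (pA _ (A j i)) * algebraMap (PowerSeries ℂ) FF (y i)) =
            E1 h0' (pA _ T) * (E1 h0' (a j) * DD (algebraMap (PowerSeries ℂ) FF (y j))) := by
          intro j
          rw [← Finset.mul_sum, DD_emb]
          have h5 := congrArg (algebraMap (PowerSeries ℂ) FF) (hode j)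
          rw [map_mul, map_sum] at h5
          simp only [map_mul, ← hpoly] at h5
          rw [← h5]
          ring
        rw [Finset.sum_congr rfl fun j _ => h4 j, ← Finset.mul_sum, ← mul_add, ← Finset.sum_add_distrib]
        have h6 := congrArg DD hr
        rw [map_sum, map_zero] at h6
        have h7 : ∀ i, DD (E1 h0' (a i) * algebraMap (PowerSeries ℂ) FF (y i)) =
            E1 h0' (dA (a i)) * algebraMap (PowerSeries ℂ) FF (y i) + E1 h0' (a i) * DD (algebraMap (PowerSeries ℂ) FF (y i)) := by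
          intro i
          rw [Derivation.leibniz, smul_eq_mul, smul_eq_mul, DD_E1]
          ring
        rw [Finset.sum_congr rfl fun i _ => h7 i] at h6
        rw [h6, mul_zero, mul_zero])
    B (fun i => E1 (p := p) hp' (c i)) ⟨1, c, by rw [map_one]; exact one_ne_zero, fun i => by rw [map_one, mul_one], hrel⟩
    (fun i hi => by
      show E1 (p := p) hp' (c i) = 0
      rw [hcB i hi, map_zero])
    (fun h => hi₀ (congrFun h i₀))
  obtain ⟨b, a, hb, hv, hr⟩ := hc'R
  have hRS := fun i => inter hρ hp hp' hpim (hc' i).1 (hc' i).2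
  choose Rn S hS hRn using hRS
  simp only [← E1_pA] at hS hRn
  -- common denominator
  set G : σ → Polynomial ℂ := fun i => Rn i * ∏ j ∈ Finset.univ.erase i, S j with hG
  have hpm : ∀ (P Q : Polynomial ℂ), pA (ball (0 : ℂ) ρ') (P * Q) = pA _ P * pA _ Q := fun P Q =>
    Subtype.ext (funext fun z => by
      show (P * Q).eval z = P.eval z * Q.eval z
      simp)
  have hpp : ∀ (s : Finset σ) (f : σ → Polynomial ℂ), E1 (p := p) hp' (pA (ball (0 : ℂ) ρ') (∏ j ∈ s, f j)) =
      ∏ j ∈ s, E1 (p := p) hp' (pA _ (f j)) := by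
    intro s f
    rw [E1_pA, map_prod]
    exact Finset.prod_congr rfl fun j _ => (E1_pA hp' (f j)).symm
  have hGe : ∀ i, E1 (p := p) hp' (pA _ (G i)) = c' i * ∏ j, E1 (p := p) hp' (pA _ (S j)) := by
    intro i
    rw [hG]
    simp only
    rw [hpm, map_mul, hpp, ← hRn, ← Finset.mul_prod_erase Finset.univ _ (Finset.mem_univ i)]
    ring
  have hprod : ∏ j, E1 (p := p) hp' (pA _ (S j)) ≠ 0 := Finset.prod_ne_zero_iff.2 fun j _ => hS j
  have hb0 : E1 h0' b ≠ 0 := fun h => hb (E1_zero_iff h0' hp' b h)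
  have hrel0 : ∀ i, E1 h0' (pA _ (G i)) * E1 h0' b = E1 h0' (pA _ (∏ j, S j)) * E1 h0' (a i) := by
    intro i
    have h1 : E1 (p := p) hp' (pA _ (G i) * b - pA _ (∏ j, S j) * a i) = 0 := by
      rw [map_sub, map_mul, map_mul, hGe, hpp, ← hv i]
      ring
    have h2 := E1_zero_iff hp' h0' _ h1
    rw [map_sub, map_mul, map_mul] at h2
    exact sub_eq_zero.1 h2
  have hsum : ∑ i, (G i : PowerSeries ℂ) * y i = 0 := by
    apply IsFractionRing.injective (PowerSeries ℂ) FF
    rw [map_sum, map_zero]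
    have h1 : (∑ i, algebraMap (PowerSeries ℂ) FF ((G i : PowerSeries ℂ) * y i)) * E1 h0' b = 0 := by
      rw [Finset.sum_mul]
      have h2 : ∀ i, algebraMap (PowerSeries ℂ) FF ((G i : PowerSeries ℂ) * y i) * E1 h0' b =
          E1 h0' (pA _ (∏ j, S j)) * (E1 h0' (a i) * algebraMap (PowerSeries ℂ) FF (y i)) := by
        intro i
        rw [map_mul, ← E1_poly0 h0', ← mul_assoc, ← hrel0 i]
        ring
      rw [Finset.sum_congr rfl fun i _ => h2 i, ← Finset.mul_sum, hr, mul_zero]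
    exact (mul_eq_zero.1 h1).resolve_right hb0
  have h4 := hLI G (by
    intro i hi
    by_contra hne
    refine E1_poly_ne hp' hne ?_
    rw [hGe, hc'B i hi, zero_mul]) hsum
  apply hc'0
  funext i
  have h6 := hGe i
  rw [h4 i, E1_pA, map_zero] at h6
  exact (mul_eq_zero.1 h6.symm).resolve_right hprod

end

end Pool.Agent.X120.GS
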