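import Pool.Agent.X120.GS.Rel

/-!
# Relations which involve given constants
-/

set_option autoImplicit false

namespace Pool.Agent.X120.GS

open MvPolynomial

section
variable {ι μ : Type} [Fintype ι] [Fintype μ] [DecidableEq μ] {K : Subfield ℂ}

/-- the polynomial `F(Y, ξ)` -/
noncomputable def subst (ξ : μ → ℂ) (F : MvPolynomial (ι ⊕ μ) K) : MvPolynomial ι ℂ :=
  aeval (Sum.elim X fun j => C (ξ j)) F

theorem subst_sum (ξ : μ → ℂ) (F : MvPolynomial (ι ⊕ μ) K) : subst ξ F =
    ∑ m ∈ F.support, monomial (Finsupp.equivFunOnFinite.symm fun v => m (Sum.inl v))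
      (algebraMap K ℂ (F.coeff m) * ∏ j, ξ j ^ m (Sum.inr j)) := by
  classical
  unfold subst
  rw [aeval_def, eval₂_eq']
  refine Finset.sum_congr rfl fun m _ => ?_
  rw [Fintype.prod_sum_type]
  simp only [Sum.elim_inl, Sum.elim_inr]
  rw [monomial_eq, Finsupp.prod_fintype _ _ (fun v => by rw [pow_zero])]
  simp only [Finsupp.equivFunOnFinite_symm_apply_apply]
  rw [map_mul, map_prod]
  simp only [map_pow]
  rw [show algebraMap (↥K) (MvPolynomial ι ℂ) (coeff m F) = C (algebraMap K ℂ (coeff m F)) from rfl]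
  ring

theorem subst_deg (ξ : μ → ℂ) {F : MvPolynomial (ι ⊕ μ) K} {δ : ℕ} (hF : F.totalDegree ≤ δ) :
    (subst ξ F).totalDegree ≤ δ := by
  classical
  rw [subst_sum]
  refine (totalDegree_finsetSum _ _).trans (Finset.sup_le fun m hm => ?_)
  refine (totalDegree_monomial_le _ _).trans ?_
  refine le_trans ?_ ((le_totalDegree hm).trans hF)
  rw [Finsupp.sum_fintype _ _ (fun v => rfl), Finsupp.sum_fintype _ _ (fun v => rfl), Fintype.sum_sum_type]
  simp only [Finsupp.equivFunOnFinite_symm_apply_apply, id]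
  exact Nat.le_add_right _ _

/-- the space of the coefficients -/
noncomputable def lm (K : Subfield ℂ) (ξ : μ → ℂ) (δ : ℕ) : ((μ → Fin (δ + 1)) → K) →ₗ[ℚ] ℂ where
  toFun c := ∑ u, (c u : ℂ) * ∏ j, ξ j ^ (u j : ℕ)
  map_add' c c' := by
    rw [← Finset.sum_add_distrib]
    refine Finset.sum_congr rfl fun u _ => ?_
    rw [Pi.add_apply, Subfield.coe_add]
    ring
  map_smul' a c := by
    rw [RingHom.id_apply, Finset.smul_sum]
    refine Finset.sum_congr rfl fun u _ => ?_
    rw [Pi.smul_apply]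
    rw [show ((a • c u : K) : ℂ) = a • (c u : ℂ) from rfl, smul_mul_assoc]

theorem subst_mem (ξ : μ → ℂ) {F : MvPolynomial (ι ⊕ μ) K} {δ : ℕ} (hF : F.totalDegree ≤ δ) (s : ι →₀ ℕ) :
    (subst ξ F).coeff s ∈ LinearMap.range (lm K ξ δ) := by
  classical
  rw [subst_sum, coeff_sum]
  refine Submodule.sum_mem _ fun m hm => ?_
  rw [coeff_monomial]
  split_ifs
  · have h1 : ∀ j : μ, m (Sum.inr j) < δ + 1 := by
      intro j
      have h2 : m (Sum.inr j) ≤ δ := by
        refine le_trans ?_ ((le_totalDegree hm).trans hF)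
        rw [Finsupp.sum_fintype _ _ (fun v => rfl)]
        exact Finset.single_le_sum (f := fun v => m v) (fun _ _ => Nat.zero_le _) (Finset.mem_univ (Sum.inr j))
      omega
    refine ⟨Pi.single (fun j => ⟨m (Sum.inr j), h1 j⟩) (F.coeff m), ?_⟩
    show ∑ u : μ → Fin (δ + 1), ((Pi.single (M := fun _ : μ → Fin (δ + 1) => K) (fun j => ⟨m (Sum.inr j), h1 j⟩) (F.coeff m) u : K) : ℂ) *
      ∏ j, ξ j ^ (u j : ℕ) = _
    rw [Finset.sum_eq_single (fun j => ⟨m (Sum.inr j), h1 j⟩)]
    · rw [Pi.single_eq_same]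
      rfl
    · intro u _ hu
      rw [Pi.single_eq_of_ne hu]
      simp
    · intro h
      exact absurd (Finset.mem_univ _) h
  · exact Submodule.zero_mem _

theorem lm_rank [FiniteDimensional ℚ K] (ξ : μ → ℂ) (δ : ℕ) {D : ℕ} (hD : Module.finrank ℚ K ≤ D) :
    Module.finrank ℚ (LinearMap.range (lm K ξ δ)) ≤ (δ + 1) ^ Fintype.card μ * D := by
  refine (LinearMap.finrank_range_le _).trans ?_
  rw [Module.finrank_pi_fintype]
  simp only [Finset.sum_const, Finset.card_univ, Fintype.card_pi, Fintype.card_fin, Finset.prod_const, smul_eq_mul]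
  exact Nat.mul_le_mul_left _ hD

theorem subst_eval (ξ : μ → ℂ) (F : MvPolynomial (ι ⊕ μ) K) (Y : ι → ℂ) :
    eval Y (subst ξ F) = aeval (Sum.elim Y ξ) F := by
  unfold subst
  have h1 : (aeval (Sum.elim Y ξ) : MvPolynomial (ι ⊕ μ) K →ₐ[K] ℂ) =
      ((aeval Y : MvPolynomial ι ℂ →ₐ[ℂ] ℂ).restrictScalars K).comp (aeval (Sum.elim X fun j => C (ξ j))) := by
    refine algHom_ext fun v => ?_
    rcases v with v | j
    · simp
    · simp
  rw [h1]
  rfl

end

end Pool.Agent.X120.GS
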