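import Pool.Agent.X120.GS.RlA

/-!
# Degenerate fibres: the period matrices `Λ(log x) Z(x)` at geometric sequences
-/

set_option autoImplicit false

open Matrix Module PowerSeries Filter

namespace Pool.Agent.X120.GS

open Pool.Agent.TH127.PT Pool.Agent.Y123.ST Pool.Agent.Y123.SR Pool.Agent.Y123.GN Pool.Agent.Y113 Pool.Agent.Y113.GG
  Pool.Agent.Y120.R Pool.Agent.Y120.GH

section
variable {B₀ : Type} [Fintype B₀] [DecidableEq B₀] {k : ℕ} {n : Fin k → ℕ}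

/-- a block of the generic matrix, multiplied by constants -/
noncomputable def PhiLb (ℓ : ∀ i, Matrix (Fin (n i)) (Fin (n i)) ℂ) (i : Fin k) :
    Matrix (Fin (n i)) (Fin (n i)) (MvPolynomial (Σ i, Fin (n i) × Fin (n i)) ℂ) :=
  Matrix.of fun a b => ∑ l, MvPolynomial.C (ℓ i a l) * MvPolynomial.X (⟨i, (l, b)⟩ : Σ i, Fin (n i) × Fin (n i))

/-- the generic matrix, multiplied by constants -/
noncomputable def PhiL (c₀ : Matrix B₀ B₀ ℂ) (ℓ : ∀ i, Matrix (Fin (n i)) (Fin (n i)) ℂ) (p : IG B₀ n × IG B₀ n) :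
    MvPolynomial (Σ i, Fin (n i) × Fin (n i)) ℂ :=
  (fromBlocks (c₀.map MvPolynomial.C) 0 0 (blockDiagonal' (PhiLb ℓ)) :
    Matrix (IG B₀ n) (IG B₀ n) (MvPolynomial (Σ i, Fin (n i) × Fin (n i)) ℂ)) p.1 p.2

theorem DCaX {σ : Type} {W : Submodule ℚ ℂ} {a : ℂ} (ha : a ∈ W) (v : σ) :
    DC 1 W (MvPolynomial.C a * MvPolynomial.X v : MvPolynomial σ ℂ) := by
  classical
  refine ⟨(MvPolynomial.totalDegree_mul _ _).trans ?_, fun s => ?_⟩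
  · rw [MvPolynomial.totalDegree_C, MvPolynomial.totalDegree_X]
  · rw [MvPolynomial.coeff_C_mul, MvPolynomial.coeff_X]
    split_ifs
    · rw [mul_one]
      exact ha
    · rw [mul_zero]
      exact W.zero_mem

theorem PhiL_DC {W : Submodule ℚ ℂ} {c₀ : Matrix B₀ B₀ ℂ} (hc : ∀ a b, c₀ a b ∈ W)
    {ℓ : ∀ i, Matrix (Fin (n i)) (Fin (n i)) ℂ} (hℓ : ∀ i a b, ℓ i a b ∈ W) :
    ∀ b : IG B₀ n × IG B₀ n, DC 1 W (PhiL c₀ ℓ b) := by
  rintro ⟨a | ⟨i, a⟩, b | ⟨j, b⟩⟩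
  · exact DCC (hc a b)
  · exact DC0
  · exact DC0
  · show DC 1 W (blockDiagonal' (PhiLb ℓ) ⟨i, a⟩ ⟨j, b⟩)
    by_cases h : i = j
    · subst h
      rw [blockDiagonal'_apply_eq]
      show DC 1 W (∑ l, MvPolynomial.C (ℓ i a l) * MvPolynomial.X (⟨i, (l, b)⟩ : Σ i, Fin (n i) × Fin (n i)))
      exact DC.sum _ fun l _ => DCaX (hℓ i a l) _
    · rw [blockDiagonal'_apply_ne _ _ _ h]
      exact DC0

theorem PhiL_eval (c₀ : Matrix B₀ B₀ ℂ) (ℓ : ∀ i, Matrix (Fin (n i)) (Fin (n i)) ℂ)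
    (X : ∀ i, Matrix (Fin (n i)) (Fin (n i)) ℂ) (b : IG B₀ n × IG B₀ n) :
    fl (EG c₀ fun i => ℓ i * X i) b =
      MvPolynomial.aeval (fun v : Σ i, Fin (n i) × Fin (n i) => X v.1 v.2.1 v.2.2) (PhiL c₀ ℓ b) := by
  obtain ⟨a | ⟨i, a⟩, b | ⟨j, b⟩⟩ := b
  · show c₀ a b = MvPolynomial.aeval (fun v : Σ i, Fin (n i) × Fin (n i) => X v.1 v.2.1 v.2.2)
      (MvPolynomial.C (c₀ a b))
    rw [MvPolynomial.aeval_C]
    rfl
  · show (0 : ℂ) = MvPolynomial.aeval (fun v : Σ i, Fin (n i) × Fin (n i) => X v.1 v.2.1 v.2.2) 0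
    rw [map_zero]
  · show (0 : ℂ) = MvPolynomial.aeval (fun v : Σ i, Fin (n i) × Fin (n i) => X v.1 v.2.1 v.2.2) 0
    rw [map_zero]
  · show blockDiagonal' (fun i => ℓ i * X i) ⟨i, a⟩ ⟨j, b⟩ =
      MvPolynomial.aeval (fun v : Σ i, Fin (n i) × Fin (n i) => X v.1 v.2.1 v.2.2) (blockDiagonal' (PhiLb ℓ) ⟨i, a⟩ ⟨j, b⟩)
    by_cases h : i = j
    · subst h
      rw [blockDiagonal'_apply_eq, blockDiagonal'_apply_eq]
      show (ℓ i * X i) a b = MvPolynomial.aeval (fun v : Σ i, Fin (n i) × Fin (n i) => X v.1 v.2.1 v.2.2)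
        (∑ l, MvPolynomial.C (ℓ i a l) * MvPolynomial.X (⟨i, (l, b)⟩ : Σ i, Fin (n i) × Fin (n i)))
      rw [map_sum, Matrix.mul_apply]
      refine Finset.sum_congr rfl fun l _ => ?_
      rw [map_mul, MvPolynomial.aeval_C, MvPolynomial.aeval_X]
      rfl
    · rw [blockDiagonal'_apply_ne _ _ _ h, blockDiagonal'_apply_ne _ _ _ h, map_zero]

end

/-- relations over number fields for the elements of the unipotently generated group, with a constant matrix in front -/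
theorem Rl_allL {M : Type} [Fintype M] [DecidableEq M] {K : Subfield ℂ} {D d d' : ℕ} (hdd : d * D ^ D ≤ d')
    {c y₀ : Matrix M M ℂ} {𝒢 : Subgroup (Matrix M M ℂ)ˣ} (hf : FiniteDimensional ℚ K)
    (hD : finrank ℚ K ≤ D) (hrel : ∀ g ∈ 𝒢, Rl ⊥ d' (y₀ * c) (y₀ * (g * c))) {u : (Matrix M M ℂ)ˣ} (hu : u ∈ Ug 𝒢) :
    Rl K d (y₀ * c) (y₀ * (u * c)) := by
  obtain ⟨g, g', h1, h2, h3, h4⟩ := Ug_curve hu
  have e0 : Y123.GN.ev 0 (y₀.map Polynomial.C * (g * c.map Polynomial.C)) = y₀ * c := by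
    rw [Y123.GN.ev_mul, Y123.GN.ev_mul, Y123.GN.ev_C, Y123.GN.ev_C, h2, Matrix.one_mul]
  have h5 := Rl_desc (K := K) (D := D) (d := d) (γ := y₀.map Polynomial.C * (g * c.map Polynomial.C)) hf hD (fun s => by
    rw [e0, Y123.GN.ev_mul, Y123.GN.ev_mul, Y123.GN.ev_C, Y123.GN.ev_C]
    obtain ⟨v, hv, hv'⟩ := h4 s
    rw [← hv']
    exact (hrel v (Ug_le _ hv)).mono hdd) 1
  rw [e0, Y123.GN.ev_mul, Y123.GN.ev_mul, Y123.GN.ev_C, Y123.GN.ev_C, h3] at h5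
  exact h5

section
variable {B₀ : Type} [Fintype B₀] [DecidableEq B₀] {k : ℕ} {n : Fin k → ℕ}

/-- the conclusion: all relations of degree at most `d` over all number fields of degree at most `D` -/
def GoodL {r : Fin k → ℕ} (D d : ℕ) (C₀ : Matrix B₀ B₀ ℂ) (ℓ : ∀ i, Matrix (Fin (n i)) (Fin (n i)) ℂ)
    (h : ∀ i, Fin (r i) → ℚ⟦X⟧)
    (P : ∀ i, Fin (n i) → Fin (n i) → MvPolynomial (Option (Fin (r i))) ℂ) (t : Fin k → ℕ) : Prop :=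
  ∀ K : Subfield ℂ, FiniteDimensional ℚ K → finrank ℚ K ≤ D →
    ∀ g : ∀ i, (Matrix (Fin (n i)) (Fin (n i)) ℂ)ˣ, (∀ i, g i ∈ Ug (Gs (h i) (P i))) →
      Rl K d (EG C₀ fun i => ℓ i * pM (h i) (P i) (t i : ℝ))
        (EG C₀ fun i => ℓ i * ((g i : Matrix (Fin (n i)) (Fin (n i)) ℂ) * pM (h i) (P i) (t i : ℝ)))

theorem goodL_of {r : Fin k → ℕ} {D d d' : ℕ} (hdd : d * D ^ D ≤ d') {C₀ : Matrix B₀ B₀ ℂ}
    {ℓ : ∀ i, Matrix (Fin (n i)) (Fin (n i)) ℂ} {h : ∀ i, Fin (r i) → ℚ⟦X⟧}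
    {P : ∀ i, Fin (n i) → Fin (n i) → MvPolynomial (Option (Fin (r i))) ℂ} {t : Fin k → ℕ}
    (hrel : ∀ g : ∀ i, (Matrix (Fin (n i)) (Fin (n i)) ℂ)ˣ, (∀ i, g i ∈ Gs (h i) (P i)) →
      Rl ⊥ d' (EG C₀ fun i => ℓ i * pM (h i) (P i) (t i : ℝ))
        (EG C₀ fun i => ℓ i * ((g i : Matrix (Fin (n i)) (Fin (n i)) ℂ) * pM (h i) (P i) (t i : ℝ)))) :
    GoodL D d C₀ ℓ h P t := by
  intro K hK hKD g hg
  have e1 : EG (1 : Matrix B₀ B₀ ℂ) ℓ * EG C₀ (fun i => pM (h i) (P i) (t i : ℝ)) =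
      EG C₀ fun i => ℓ i * pM (h i) (P i) (t i : ℝ) := by
    rw [EG_mul, Matrix.one_mul]
  have e2 : ∀ g : ∀ i, (Matrix (Fin (n i)) (Fin (n i)) ℂ)ˣ,
      EG (1 : Matrix B₀ B₀ ℂ) ℓ * (((EGu B₀ n g : (Matrix (IG B₀ n) (IG B₀ n) ℂ)ˣ) : Matrix (IG B₀ n) (IG B₀ n) ℂ) *
        EG C₀ (fun i => pM (h i) (P i) (t i : ℝ))) =
      EG C₀ fun i => ℓ i * ((g i : Matrix (Fin (n i)) (Fin (n i)) ℂ) * pM (h i) (P i) (t i : ℝ)) := by
    intro g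
    have e3 : ((EGu B₀ n g : (Matrix (IG B₀ n) (IG B₀ n) ℂ)ˣ) : Matrix (IG B₀ n) (IG B₀ n) ℂ) =
        EG 1 fun i => (g i : Matrix (Fin (n i)) (Fin (n i)) ℂ) := rfl
    rw [e3, EG_mul, EG_mul, Matrix.one_mul, Matrix.one_mul]
  have hmem : EGu B₀ n g ∈ Ug (GG B₀ (fun i => Gs (h i) (P i))) :=
    blocks_mem fun i => em_Ug ⟨g i, hg i, rfl⟩
  have h1 := Rl_allL (K := K) (D := D) (d := d) (c := EG C₀ (fun i => pM (h i) (P i) (t i : ℝ))) (y₀ := EG (1 : Matrix B₀ B₀ ℂ) ℓ)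
    (𝒢 := GG B₀ (fun i => Gs (h i) (P i))) hdd hK hKD (fun u hu => by
      obtain ⟨g', hg', rfl⟩ := hu
      rw [e1, e2]
      exact hrel g' fun i => hg' i (Set.mem_univ i)) hmem
  rw [e1, e2] at h1
  exact h1

end

theorem rel_ofL {k r D d d' : ℕ} (hdd : d * D ^ D ≤ d') {ρ n : Fin k → ℕ} {h : ∀ i, Fin (ρ i) → ℚ⟦X⟧}
    (P : ∀ i, Fin (n i) → Fin (n i) → MvPolynomial (Option (Fin (ρ i))) ℂ) (C₀ : Matrix (Fin r) (Fin r) ℂ)
    (ℓ : ∀ i, Matrix (Fin (n i)) (Fin (n i)) ℂ) (t : Fin k → ℕ)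
    {W : Submodule ℚ ℂ} (hKW : ∀ x ∈ (⊥ : Subfield ℂ), x ∈ W) (hW3 : ∀ a b, C₀ a b ∈ W) (hW4 : ∀ i a b, ℓ i a b ∈ W)
    (hcon : ¬ ∃ F : MvPolynomial (Σ i, Fin (n i) × Fin (n i)) ℂ, F.totalDegree ≤ d' ∧
        (∀ s, F.coeff s ∈ W ^ (d' + 1)) ∧
        MvPolynomial.eval (pn h (fun i (v : Fin (n i) × Fin (n i)) => P i v.1 v.2) fun i => (t i : ℝ)) F = 0 ∧
        ∃ q' : ∀ i, Fin (n i) × Fin (n i) → MvPolynomial (Option (Fin (ρ i))) ℂ,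
          (∀ i, Sat (h i) (fun v : Fin (n i) × Fin (n i) => P i v.1 v.2) (q' i)) ∧
          MvPolynomial.eval (pn h q' fun i => (t i : ℝ)) F ≠ 0) : GoodL D d C₀ ℓ h P t := by
  classical
  have hval : ∀ i (g : Matrix (Fin (n i)) (Fin (n i)) ℂ) (v : Fin (n i) × Fin (n i)),
      MvPolynomial.aeval (p1 (h i) (t i : ℝ)) (tl (P i) g v) = (g * pM (h i) (P i) (t i : ℝ)) v.1 v.2 := fun i g v =>
    tl_eval (h i) (P i) g _ v
  have hrel : ∀ g : ∀ i, (Matrix (Fin (n i)) (Fin (n i)) ℂ)ˣ, (∀ i, g i ∈ Gs (h i) (P i)) →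
      ∀ F : MvPolynomial (Σ i, Fin (n i) × Fin (n i)) ℂ, F.totalDegree ≤ d' → (∀ s, F.coeff s ∈ W ^ (d' + 1)) →
      MvPolynomial.aeval (fun v : Σ i, Fin (n i) × Fin (n i) => pM (h v.1) (P v.1) (t v.1 : ℝ) v.2.1 v.2.2) F = 0 →
      MvPolynomial.aeval (fun v : Σ i, Fin (n i) × Fin (n i) =>
        ((g v.1 : Matrix (Fin (n v.1)) (Fin (n v.1)) ℂ) * pM (h v.1) (P v.1) (t v.1 : ℝ)) v.2.1 v.2.2) F = 0 := by
    intro g hg F hFd hFV hF0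
    by_contra hne
    refine hcon ⟨F, hFd, hFV, ?_, fun i => tl (P i) (g i), fun i => Prs_sat (hg i).1, ?_⟩
    · rw [MvPolynomial.aeval_eq_eval] at hF0
      exact hF0
    · intro h2
      apply hne
      rw [MvPolynomial.aeval_eq_eval]
      refine Eq.trans ?_ h2
      congr 2
      funext v
      exact (hval v.1 (g v.1) v.2).symm
  refine goodL_of hdd ?_
  intro g hg
  exact Rl_of hKW (PhiL_DC hW3 hW4)
    (y := fun v : Σ i, Fin (n i) × Fin (n i) => pM (h v.1) (P v.1) (t v.1 : ℝ) v.2.1 v.2.2)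
    (y' := fun v : Σ i, Fin (n i) × Fin (n i) =>
      ((g v.1 : Matrix (Fin (n v.1)) (Fin (n v.1)) ℂ) * pM (h v.1) (P v.1) (t v.1 : ℝ)) v.2.1 v.2.2)
    (fun F h2 h3 h4 => hrel g hg F h2 h3 h4) (fun b => PhiL_eval C₀ ℓ _ b) fun b => PhiL_eval C₀ ℓ _ b

/-- the matrix `Λ_i(t_i log b_i)` -/
noncomputable def lamT {k : ℕ} {n : Fin k → ℕ} (Λ : ∀ i, Matrix (Fin (n i)) (Fin (n i)) (Polynomial ℂ)) (b t : Fin k → ℕ) :
    ∀ i, Matrix (Fin (n i)) (Fin (n i)) ℂ :=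
  fun i => (Λ i).map (Polynomial.eval ((t i : ℂ) * ((Real.log (b i) : ℝ) : ℂ)))

/-- **The counting theorem for degenerating families**, for the relations over all number fields of degree at most `D` at
once. -/
theorem rel_degS (k D d e e' r : ℕ) (ρ n : Fin k → ℕ) (h : ∀ i, Fin (ρ i) → ℚ⟦X⟧) {b : Fin k → ℕ} (hb : ∀ i, 2 ≤ b i)
    (hF : ∀ i δ, FamG δ (h i) (b i)) :
    ∃ C : ℝ, 0 ≤ C ∧ ∀ P : ∀ i, Fin (n i) → Fin (n i) → MvPolynomial (Fin (ρ i)) ℂ,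
    (∀ i a b, (P i a b).totalDegree ≤ e) → ∀ Λ : ∀ i, Matrix (Fin (n i)) (Fin (n i)) (Polynomial ℂ),
    (∀ i a b, (Λ i a b).natDegree ≤ e') → ∀ C₀ : Matrix (Fin r) (Fin r) ℂ, ∀ T : ℕ, 2 ≤ T →
    ∀ S : Finset (Fin k → ℕ), (∀ t ∈ S, (∀ i, 1 ≤ t i ∧ t i ≤ T) ∧ ¬ GoodL D d C₀ (lamT Λ b t) h (soM P) (tp b t)) →
    (S.card : ℝ) * T ≤ C * (T : ℝ) ^ k * Real.log T := by
  classical
  obtain ⟨d', hd'⟩ : ∃ d' : ℕ, d * D ^ D ≤ d' := ⟨_, le_rfl⟩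
  set ι : Type := (Fin r × Fin r) ⊕ (Σ i, Fin (n i) × Fin (n i) × Fin (e' + 1)) with hι
  obtain ⟨C, hC, hmain⟩ := gxS (ν := fun i => Fin (n i) × Fin (n i)) (h := h) d' e
    ((1 + Fintype.card ι + 1) ^ (d' + 1)) hb (fun i => hF i _)
  refine ⟨C, hC, ?_⟩
  intro P hP Λ hΛ C₀ T hT S hS
  obtain ⟨hbf, hb1⟩ := bot_fin
  obtain ⟨W, hW1, hW2, hKW, hW3⟩ := exists_W' (⊥ : Subfield ℂ) (Sum.elim (fun b : Fin r × Fin r => C₀ b.1 b.2)
    (fun v : Σ i, Fin (n i) × Fin (n i) × Fin (e' + 1) => (Λ v.1 v.2.1 v.2.2.1).coeff v.2.2.2 *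
      ((Real.log (b v.1) : ℝ) : ℂ) ^ (v.2.2.2 : ℕ)))
  obtain ⟨hp1, hp2⟩ := finrank_pow_le W (d' + 1)
  have hWD : Module.finrank ℚ W ≤ 1 + Fintype.card ι + 1 := by
    refine hW2.trans ?_
    have h9 : Module.finrank ℚ (⊥ : Subfield ℂ) ≤ 1 := by omega
    exact Nat.add_le_add_right (Nat.add_le_add_right h9 _) 1
  refine hmain (fun i v => P i v.1 v.2) (fun i v => hP i v.1 v.2) (W ^ (d' + 1)) (hp2.trans (Nat.pow_le_pow_left hWD _))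
    T hT S fun t ht => ?_
  obtain ⟨hbox, hnot⟩ := hS t ht
  refine ⟨hbox, ?_⟩
  by_contra hcon
  apply hnot
  refine rel_ofL hd' (soM P) C₀ (lamT Λ b t) (tp b t) hKW (fun a b => hW3 (Sum.inl (a, b))) ?_ hcon
  intro i a c
  show Polynomial.eval ((t i : ℂ) * ((Real.log (b i) : ℝ) : ℂ)) (Λ i a c) ∈ W
  rw [Polynomial.eval_eq_sum_range' (Nat.lt_succ_of_le (hΛ i a c))]
  refine Submodule.sum_mem _ fun j hj => ?_
  have hj' : j < e' + 1 := Finset.mem_range.1 hj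
  have h1 := hW3 (Sum.inr ⟨i, a, c, ⟨j, hj'⟩⟩)
  have h2 : (Λ i a c).coeff j * ((t i : ℂ) * ((Real.log (b i) : ℝ) : ℂ)) ^ j =
      ((t i : ℚ) ^ j) • ((Λ i a c).coeff j * ((Real.log (b i) : ℝ) : ℂ) ^ j) := by
    rw [mul_pow, Algebra.smul_def]
    simp only [eq_ratCast, Rat.cast_pow, Rat.cast_natCast]
    ring
  rw [h2]
  exact Submodule.smul_mem _ _ h1

section fields
variable {k m : ℕ} {n : Fin k → ℕ} {K : Subfield ℂ}

/-- relations in terms of the entries -/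
theorem rel_valsL {d : ℕ} {X X' : ∀ i, Matrix (Fin (n i)) (Fin (n i)) ℂ} {ξ : Fin m → ℂ}
    (h : Rl K d (EG (Matrix.diagonal ξ) X) (EG (Matrix.diagonal ξ) X'))
    {F : MvPolynomial ((Σ i, Fin (n i) × Fin (n i)) ⊕ Fin m) K} (hF : F.totalDegree ≤ d)
    (h0 : MvPolynomial.aeval (vals X ξ) F = 0) : MvPolynomial.aeval (vals X' ξ) F = 0 := by
  have hK : ∀ s, (MvPolynomial.rename (plc n m) (MvPolynomial.map (algebraMap K ℂ) F)).coeff s ∈ K := by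
    intro s
    rw [← MvPolynomial.map_rename, MvPolynomial.coeff_map]
    exact (MvPolynomial.coeff s (MvPolynomial.rename (plc n m) F)).2
  have hev : ∀ Y : ∀ i, Matrix (Fin (n i)) (Fin (n i)) ℂ,
      MvPolynomial.eval (fl (EG (Matrix.diagonal ξ) Y)) (MvPolynomial.rename (plc n m) (MvPolynomial.map (algebraMap K ℂ) F)) =
        MvPolynomial.aeval (vals Y ξ) F := by
    intro Y
    rw [MvPolynomial.eval_rename, fl_plc, MvPolynomial.eval_map, MvPolynomial.aeval_def]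
  have h1 := h (MvPolynomial.rename (plc n m) (MvPolynomial.map (algebraMap K ℂ) F)) hK
    ((MvPolynomial.totalDegree_rename_le _ _).trans
      (le_trans (Finset.sup_mono (MvPolynomial.support_map_subset _ _)) hF)) (by rw [hev]; exact h0)
  rw [hev] at h1
  exact h1

end fields

end Pool.Agent.X120.GS
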