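import Pool.Agent.X120.GS.Deg

/-!
# The counting theorem for degenerating families, over arbitrary constant parts
-/

set_option autoImplicit false

open Matrix Module PowerSeries Filter

namespace Pool.Agent.X120.GS

open Pool.Agent.TH127.PT Pool.Agent.Y123.ST Pool.Agent.Y123.SR Pool.Agent.Y123.GN Pool.Agent.Y113 Pool.Agent.Y113.GG
  Pool.Agent.Y120.R Pool.Agent.Y120.GH

theorem rel_ofB {B₀ : Type} [Fintype B₀] [DecidableEq B₀] {k D d d' : ℕ} (hdd : d * D ^ D ≤ d') {ρ n : Fin k → ℕ} {h : ∀ i, Fin (ρ i) → ℚ⟦X⟧}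
    (P : ∀ i, Fin (n i) → Fin (n i) → MvPolynomial (Option (Fin (ρ i))) ℂ) (C₀ : Matrix B₀ B₀ ℂ)
    (ℓ : ∀ i, Matrix (Fin (n i)) (Fin (n i)) ℂ) (t : Fin k → ℕ)
    {W : Submodule ℚ ℂ} (hKW : ∀ x ∈ (⊥ : Subfield ℂ), x ∈ W) (hW3 : ∀ a b, C₀ a b ∈ W) (hW4 : ∀ i a b, ℓ i a b ∈ W)
    (hcon : ¬ ∃ F : MvPolynomial (Σ i, Fin (n i) × Fin (n i)) ℂ, F.totalDegree ≤ d' ∧
        (∀ s, F.coeff s ∈ W ^ (d' + 1)) ∧
        MvPolynomial.eval (pn h (fun i (v : Fin (n i) × Fin (n i)) => P i v.1 v.2) fun i => (t i : ℝ)) F = 0 ∧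
        ∃ q' : ∀ i, Fin (n i) × Fin (n i) → MvPolynomial (Option (Fin (ρ i))) ℂ,
          (∀ i, Sat (h i) (fun v : Fin (n i) × Fin (n i) => P i v.1 v.2) (q' i)) ∧
          MvPolynomial.eval (pn h q' fun i => (t i : ℝ)) F ≠ 0) : GoodL D d C₀ ℓ h P t := by
  classical
  have hval : ∀ i (g : Matrix (Fin (n i)) (Fin (n i)) ℂ) (v : Fin (n i) × Fin (n i)),
      MvPolynomial.aeval (p1 (h i) (t i : ℝ)) (tl (P i) g v) = (g * pM (h i) (P i) (t i : ℝ)) v.1 v.2 := fun i g v =>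
    tl_eval (h i) (P i) g _ v
  have hrel : ∀ g : ∀ i, (Matrix (Fin (n i)) (Fin (n i)) ℂ)ˣ, (∀ i, g i ∈ Gs (h i) (P i)) →
      ∀ F : MvPolynomial (Σ i, Fin (n i) × Fin (n i)) ℂ, F.totalDegree ≤ d' → (∀ s, F.coeff s ∈ W ^ (d' + 1)) →
      MvPolynomial.aeval (fun v : Σ i, Fin (n i) × Fin (n i) => pM (h v.1) (P v.1) (t v.1 : ℝ) v.2.1 v.2.2) F = 0 →
      MvPolynomial.aeval (fun v : Σ i, Fin (n i) × Fin (n i) =>
        ((g v.1 : Matrix (Fin (n v.1)) (Fin (n v.1)) ℂ) * pM (h v.1) (P v.1) (t v.1 : ℝ)) v.2.1 v.2.2) F = 0 := by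
    intro g hg F hFd hFV hF0
    by_contra hne
    refine hcon ⟨F, hFd, hFV, ?_, fun i => tl (P i) (g i), fun i => Prs_sat (hg i).1, ?_⟩
    · rw [MvPolynomial.aeval_eq_eval] at hF0
      exact hF0
    · intro h2
      apply hne
      rw [MvPolynomial.aeval_eq_eval]
      refine Eq.trans ?_ h2
      congr 2
      funext v
      exact (hval v.1 (g v.1) v.2).symm
  refine goodL_of hdd ?_
  intro g hg
  exact Rl_of hKW (PhiL_DC hW3 hW4)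
    (y := fun v : Σ i, Fin (n i) × Fin (n i) => pM (h v.1) (P v.1) (t v.1 : ℝ) v.2.1 v.2.2)
    (y' := fun v : Σ i, Fin (n i) × Fin (n i) =>
      ((g v.1 : Matrix (Fin (n v.1)) (Fin (n v.1)) ℂ) * pM (h v.1) (P v.1) (t v.1 : ℝ)) v.2.1 v.2.2)
    (fun F h2 h3 h4 => hrel g hg F h2 h3 h4) (fun b => PhiL_eval C₀ ℓ _ b) fun b => PhiL_eval C₀ ℓ _ b

/-- **The counting theorem for degenerating families**, for the relations over all number fields of degree at most `D` at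
once. -/
theorem rel_degB (B₀ : Type) [Fintype B₀] [DecidableEq B₀] (k D d e e' : ℕ) (ρ n : Fin k → ℕ) (h : ∀ i, Fin (ρ i) → ℚ⟦X⟧) {b : Fin k → ℕ} (hb : ∀ i, 2 ≤ b i)
    (hF : ∀ i δ, FamG δ (h i) (b i)) :
    ∃ C : ℝ, 0 ≤ C ∧ ∀ P : ∀ i, Fin (n i) → Fin (n i) → MvPolynomial (Fin (ρ i)) ℂ,
    (∀ i a b, (P i a b).totalDegree ≤ e) → ∀ Λ : ∀ i, Matrix (Fin (n i)) (Fin (n i)) (Polynomial ℂ),
    (∀ i a b, (Λ i a b).natDegree ≤ e') → ∀ C₀ : Matrix B₀ B₀ ℂ, ∀ T : ℕ, 2 ≤ T →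
    ∀ S : Finset (Fin k → ℕ), (∀ t ∈ S, (∀ i, 1 ≤ t i ∧ t i ≤ T) ∧ ¬ GoodL D d C₀ (lamT Λ b t) h (soM P) (tp b t)) →
    (S.card : ℝ) * T ≤ C * (T : ℝ) ^ k * Real.log T := by
  classical
  obtain ⟨d', hd'⟩ : ∃ d' : ℕ, d * D ^ D ≤ d' := ⟨_, le_rfl⟩
  set ι : Type := (B₀ × B₀) ⊕ (Σ i, Fin (n i) × Fin (n i) × Fin (e' + 1)) with hι
  obtain ⟨C, hC, hmain⟩ := gxS (ν := fun i => Fin (n i) × Fin (n i)) (h := h) d' e
    ((1 + Fintype.card ι + 1) ^ (d' + 1)) hb (fun i => hF i _)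
  refine ⟨C, hC, ?_⟩
  intro P hP Λ hΛ C₀ T hT S hS
  obtain ⟨hbf, hb1⟩ := bot_fin
  obtain ⟨W, hW1, hW2, hKW, hW3⟩ := exists_W' (⊥ : Subfield ℂ) (Sum.elim (fun b : B₀ × B₀ => C₀ b.1 b.2)
    (fun v : Σ i, Fin (n i) × Fin (n i) × Fin (e' + 1) => (Λ v.1 v.2.1 v.2.2.1).coeff v.2.2.2 *
      ((Real.log (b v.1) : ℝ) : ℂ) ^ (v.2.2.2 : ℕ)))
  obtain ⟨hp1, hp2⟩ := finrank_pow_le W (d' + 1)
  have hWD : Module.finrank ℚ W ≤ 1 + Fintype.card ι + 1 := by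
    refine hW2.trans ?_
    have h9 : Module.finrank ℚ (⊥ : Subfield ℂ) ≤ 1 := by omega
    exact Nat.add_le_add_right (Nat.add_le_add_right h9 _) 1
  refine hmain (fun i v => P i v.1 v.2) (fun i v => hP i v.1 v.2) (W ^ (d' + 1)) (hp2.trans (Nat.pow_le_pow_left hWD _))
    T hT S fun t ht => ?_
  obtain ⟨hbox, hnot⟩ := hS t ht
  refine ⟨hbox, ?_⟩
  by_contra hcon
  apply hnot
  refine rel_ofB hd' (soM P) C₀ (lamT Λ b t) (tp b t) hKW (fun a b => hW3 (Sum.inl (a, b))) ?_ hcon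
  intro i a c
  show Polynomial.eval ((t i : ℂ) * ((Real.log (b i) : ℝ) : ℂ)) (Λ i a c) ∈ W
  rw [Polynomial.eval_eq_sum_range' (Nat.lt_succ_of_le (hΛ i a c))]
  refine Submodule.sum_mem _ fun j hj => ?_
  have hj' : j < e' + 1 := Finset.mem_range.1 hj
  have h1 := hW3 (Sum.inr ⟨i, a, c, ⟨j, hj'⟩⟩)
  have h2 : (Λ i a c).coeff j * ((t i : ℂ) * ((Real.log (b i) : ℝ) : ℂ)) ^ j =
      ((t i : ℚ) ^ j) • ((Λ i a c).coeff j * ((Real.log (b i) : ℝ) : ℂ) ^ j) := by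
    rw [mul_pow, Algebra.smul_def]
    simp only [eq_ratCast, Rat.cast_pow, Rat.cast_natCast]
    ring
  rw [h2]
  exact Submodule.smul_mem _ _ h1


end Pool.Agent.X120.GS
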