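import Pool.Agent.Y120.H.Res

/-!
# Descent of linear relations along a fundamental matrix, for a general space of relations

The proof follows `Pool/Agent/Y120/H/Alg.lean`.
-/

set_option autoImplicit false

namespace Pool.Agent.X120.GS

open Pool.Agent.Y120.GH

section
variable {k F : Type} [Field k] [Field F] [Algebra k F] (D : Derivation k F F) {σ : Type} [Fintype σ]

/-- descent of relations -/
theorem descR (F₁ F₂ : Subfield F) (hconst : ∀ x, D x = 0 → x ∈ F₂)
    (A Φ Ψ : σ → σ → F) (hΨ : ∀ i j, Ψ i j ∈ F₂)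
    (hDΨ : ∀ i j, D (Ψ i j) = - ∑ l, Ψ i l * A l j)
    (hΦΨ : ∀ i j, ∑ l, Φ i l * Ψ l j = open Classical in if i = j then 1 else 0)
    (R : Set (σ → F)) (hR1 : ∀ v ∈ R, ∀ i, v i ∈ F₁) (hz : (0 : σ → F) ∈ R) (hadd : ∀ u ∈ R, ∀ v ∈ R, u + v ∈ R)
    (hsm : ∀ c ∈ F₁, ∀ v ∈ R, (fun i => c * v i) ∈ R) (hst : ∀ v ∈ R, (fun i => D (v i) + ∑ j, A j i * v j) ∈ R)
    (B : Set σ) (c : σ → F) (hc : c ∈ R) (hcB : ∀ i, i ∉ B → c i = 0) (hc0 : c ≠ 0) :
    ∃ c' ∈ R, (∀ i, c' i ∈ F₁ ∧ c' i ∈ F₂) ∧ (∀ i, i ∉ B → c' i = 0) ∧ c' ≠ 0 := by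
  classical
  -- a relation of minimal support
  have hex : ∃ m : ℕ, ∃ w ∈ R, w ≠ 0 ∧ (∀ i, i ∉ B → w i = 0) ∧ (spp w).card = m := ⟨_, c, hc, hc0, hcB, rfl⟩
  obtain ⟨w, hw, hw0, hwB, hwc⟩ := Nat.find_spec hex
  have hmin : ∀ u ∈ R, (∀ i, i ∉ B → u i = 0) → (spp u).card < (spp w).card → u = 0 := by
    intro u hu huB hlt
    by_contra hu0
    exact Nat.find_min hex (by rw [← hwc]; exact hlt) ⟨u, hu, hu0, huB, rfl⟩
  obtain ⟨a, ha⟩ : ∃ a, w a ≠ 0 := by
    by_contra h
    push Not at h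
    exact hw0 (funext h)
  set c' : σ → F := fun i => (w a)⁻¹ * w i with hc'
  have hc'r : c' ∈ R := hsm _ (F₁.inv_mem (hR1 _ hw a)) _ hw
  have hc'1 : ∀ i, c' i ∈ F₁ := hR1 _ hc'r
  have hc'a : c' a = 1 := by simp [hc', ha]
  have hc's : ∀ i, w i = 0 → c' i = 0 := by
    intro i hi
    simp [hc', hi]
  set N := Submodule.span F R with hN
  have hc'N : c' ∈ N := Submodule.subset_span hc'r
  -- stability
  have hstab : ∀ v ∈ N, (fun i => D (v i) + ∑ j, A j i * v j) ∈ N := by
    intro v hv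
    induction hv using Submodule.span_induction with
    | mem x hx => exact Submodule.subset_span (hst x hx)
    | zero =>
      have h1 : (fun i => D ((0 : σ → F) i) + ∑ j, A j i * (0 : σ → F) j) = 0 := by
        funext i
        simp
      rw [h1]
      exact Submodule.zero_mem _
    | add u v _ _ hu hv =>
      have h1 : (fun i => D ((u + v) i) + ∑ j, A j i * (u + v) j) =
          (fun i => D (u i) + ∑ j, A j i * u j) + fun i => D (v i) + ∑ j, A j i * v j := by
        funext i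
        simp only [Pi.add_apply, map_add, mul_add, Finset.sum_add_distrib]
        ring
      rw [h1]
      exact Submodule.add_mem _ hu hv
    | smul f v hv' hv =>
      have h1 : (fun i => D ((f • v) i) + ∑ j, A j i * (f • v) j) =
          f • (fun i => D (v i) + ∑ j, A j i * v j) + D f • v := by
        funext i
        simp only [Pi.add_apply, Pi.smul_apply, smul_eq_mul, D.leibniz, mul_add, Finset.mul_sum]
        have h2 : ∀ j, A j i * (f * v j) = f * (A j i * v j) := fun j => by ring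
        simp only [h2]
        ring
      rw [h1]
      exact Submodule.add_mem _ (Submodule.smul_mem _ _ hv) (Submodule.smul_mem _ _ hv')
  -- the transformed space
  let L : (σ → F) →ₗ[F] (σ → F) :=
    { toFun := fun u i => ∑ j, Ψ j i * u j
      map_add' := fun u v => by
        funext i
        simp only [Pi.add_apply, mul_add, Finset.sum_add_distrib]
      map_smul' := fun f u => by
        funext i
        simp only [Pi.smul_apply, smul_eq_mul, RingHom.id_apply, Finset.mul_sum]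
        refine Finset.sum_congr rfl fun j _ => ?_
        ring }
  have hL : ∀ u i, L u i = ∑ j, Ψ j i * u j := fun u i => rfl
  have hcs := const_span D (N.comap L) (by
    intro u hu
    have hu' : L u ∈ N := hu
    show L (fun i => D (u i)) ∈ N
    have h1 := hstab _ hu'
    have h2 : (fun i => D (L u i) + ∑ j, A j i * L u j) = L fun i => D (u i) := by
      funext i
      simp only [hL, map_sum, D.leibniz, smul_eq_mul, hDΨ]
      rw [Finset.sum_add_distrib]
      have h3 : ∑ j, A j i * ∑ l, Ψ l j * u l = - ∑ j, u j * -∑ l, Ψ j l * A l i := by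
        simp only [Finset.mul_sum, mul_neg, Finset.sum_neg_distrib, neg_neg]
        rw [Finset.sum_comm]
        refine Finset.sum_congr rfl fun j _ => Finset.sum_congr rfl fun l _ => ?_
        ring
      rw [h3]
      ring
    rw [h2] at h1
    exact h1)
  -- the preimage of c'
  set u : σ → F := fun i => ∑ j, Φ j i * c' j with hu
  have hLu : L u = c' := by
    funext i
    rw [hL]
    simp only [hu, Finset.mul_sum]
    rw [Finset.sum_comm]
    have h1 : ∀ j, ∑ l, Ψ l i * (Φ j l * c' j) = (if j = i then 1 else 0) * c' j := by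
      intro j
      rw [← hΦΨ j i, Finset.sum_mul]
      refine Finset.sum_congr rfl fun l _ => ?_
      ring
    simp only [h1]
    simp
  have hucs := hcs u (by
    show L u ∈ N
    rw [hLu]
    exact hc'N)
  -- c' is in the span of the vectors over F₂ in N
  set S₂ : Set (σ → F) := {v | v ∈ N ∧ ∀ i, v i ∈ F₂} with hS₂
  have hc'S : c' ∈ Submodule.span F S₂ := by
    rw [← hLu]
    have h1 : L u ∈ (Submodule.span F {w : σ → F | w ∈ N.comap L ∧ ∀ i, D (w i) = 0}).map L := ⟨u, hucs, rfl⟩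
    rw [Submodule.map_span] at h1
    refine Submodule.span_mono ?_ h1
    rintro _ ⟨v, ⟨hv1, hv2⟩, rfl⟩
    refine ⟨hv1, fun i => ?_⟩
    rw [hL]
    exact F₂.sum_mem fun j _ => F₂.mul_mem (hΨ j i) (hconst _ (hv2 j))
  obtain ⟨l₂, hl₂⟩ := exists_functional F₂ (one_ne_zero (α := F))
  have h2 := functional_mem F₂ S₂ (fun w hw => hw.2) (fun v => v ∈ N) (fun w hw c => N.smul_mem _ hw.1)
    (fun u v hu hv => N.add_mem hu hv) N.zero_mem c' hc'S l₂
  set c₂ : σ → F := fun i => ((l₂ (c' i) : F₂) : F) with hc₂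
  have hd : c₂ - c' = 0 := by
    by_contra hd
    obtain ⟨b, hb⟩ : ∃ b, (c₂ - c') b ≠ 0 := by
      by_contra h
      push Not at h
      exact hd (funext h)
    obtain ⟨l₁, hl₁⟩ := exists_functional F₁ hb
    have h3 := functional_mem F₁ R hR1 (fun v => v ∈ R) (fun w hw c => hsm _ c.2 _ hw) (fun u v hu hv => hadd u hu v hv)
      hz (c₂ - c') (N.sub_mem h2 hc'N) l₁
    have hdz : ∀ i, w i = 0 → (c₂ - c') i = 0 := by
      intro i hi
      show c₂ i - c' i = 0
      rw [hc₂]
      simp only [hc's i hi, map_zero, ZeroMemClass.coe_zero, sub_zero]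
    have hda : (c₂ - c') a = 0 := by
      show c₂ a - c' a = 0
      rw [hc₂]
      simp only [hc'a, hl₂, OneMemClass.coe_one, sub_self]
    have h4 := hmin _ h3 (by
      intro i hi
      simp only [hdz i (hwB i hi), map_zero, ZeroMemClass.coe_zero]) (by
      refine Finset.card_lt_card ?_
      rw [Finset.ssubset_iff_of_subset]
      · refine ⟨a, mem_spp.2 ha, ?_⟩
        rw [mem_spp, not_not]
        simp only [hda, map_zero, ZeroMemClass.coe_zero]
      · intro i hi
        rw [mem_spp] at hi ⊢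
        intro h
        exact hi (by simp only [hdz i h, map_zero, ZeroMemClass.coe_zero]))
    have h5 := congrFun h4 b
    simp only [hl₁, OneMemClass.coe_one, Pi.zero_apply] at h5
    exact one_ne_zero h5
  have hcc : c₂ = c' := sub_eq_zero.1 hd
  refine ⟨c', hc'r, fun i => ⟨hc'1 i, ?_⟩, fun i hi => hc's i (hwB i hi), ?_⟩
  · rw [← hcc]
    exact (l₂ (c' i)).2
  · intro h
    have := congrFun h a
    rw [hc'a] at this
    exact one_ne_zero this


theorem descR_matrix [DecidableEq σ] (F₁ F₂ : Subfield F) (hconst : ∀ x, D x = 0 → x ∈ F₂)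
    (A : σ → σ → F) (Φ : Matrix σ σ F)
    (hΦ : ∀ i j, Φ i j ∈ F₂) (hDΦ : ∀ i j, D (Φ i j) = ∑ l, A i l * Φ l j) (hdet : Φ.det ≠ 0)
    (R : Set (σ → F)) (hR1 : ∀ v ∈ R, ∀ i, v i ∈ F₁) (hz : (0 : σ → F) ∈ R) (hadd : ∀ u ∈ R, ∀ v ∈ R, u + v ∈ R)
    (hsm : ∀ c ∈ F₁, ∀ v ∈ R, (fun i => c * v i) ∈ R) (hst : ∀ v ∈ R, (fun i => D (v i) + ∑ j, A j i * v j) ∈ R)
    (B : Set σ) (c : σ → F) (hc : c ∈ R) (hcB : ∀ i, i ∉ B → c i = 0) (hc0 : c ≠ 0) :
    ∃ c' ∈ R, (∀ i, c' i ∈ F₁ ∧ c' i ∈ F₂) ∧ (∀ i, i ∉ B → c' i = 0) ∧ c' ≠ 0 := by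
  classical
  let Φ' : Matrix σ σ F₂ := fun i j => ⟨Φ i j, hΦ i j⟩
  have h1 : Φ'.map F₂.subtype = Φ := by
    ext i j
    rfl
  have h2 : Φ'.det ≠ 0 := by
    intro h
    apply hdet
    rw [← h1, ← RingHom.mapMatrix_apply, ← RingHom.map_det, h, map_zero]
  have hu : IsUnit Φ'.det := isUnit_iff_ne_zero.2 h2
  set Ψ : Matrix σ σ F := Φ'⁻¹.map F₂.subtype with hΨ
  have h3 : Φ * Ψ = 1 := by
    rw [hΨ, ← h1, ← Matrix.map_mul, Matrix.mul_nonsing_inv _ hu]
    exact Matrix.map_one _ (map_zero _) (map_one _)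
  have h4 : Ψ * Φ = 1 := by
    rw [hΨ, ← h1, ← Matrix.map_mul, Matrix.nonsing_inv_mul _ hu]
    exact Matrix.map_one _ (map_zero _) (map_one _)
  have h5 : (Ψ.map D + Ψ * (Matrix.of A)) * Φ = 0 := by
    ext i j
    have h6 := congrArg D (congrFun (congrFun h4 i) j)
    rw [Matrix.mul_apply, map_sum] at h6
    simp only [D.leibniz, smul_eq_mul, hDΦ] at h6
    have h7 : D ((1 : Matrix σ σ F) i j) = 0 := by
      rw [Matrix.one_apply]
      split_ifs
      · exact D.map_one_eq_zero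
      · exact map_zero D
    rw [h7, Finset.sum_add_distrib] at h6
    rw [Matrix.zero_apply, ← h6, Matrix.add_mul, Matrix.add_apply, Matrix.mul_apply, Matrix.mul_assoc, Matrix.mul_apply, add_comm]
    congr 1
    refine Finset.sum_congr rfl fun l _ => ?_
    rw [Matrix.map_apply, mul_comm]
  have h6 : Ψ.map D + Ψ * (Matrix.of A) = 0 := by
    have := congrArg (fun X => X * Ψ) h5
    simpa only [Matrix.mul_assoc, h3, Matrix.mul_one, Matrix.zero_mul] using this
  refine descR D F₁ F₂ hconst A Φ Ψ (fun i j => (Φ'⁻¹ i j).2) (fun i j => ?_) (fun i j => ?_) R hR1 hz hadd hsm hst B c hc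
    hcB hc0
  · have h7 := congrFun (congrFun h6 i) j
    rw [Matrix.add_apply, Matrix.map_apply, Matrix.mul_apply, Matrix.zero_apply] at h7
    exact eq_neg_of_add_eq_zero_left h7
  · have h7 := congrFun (congrFun h3 i) j
    rw [Matrix.mul_apply, Matrix.one_apply] at h7
    rw [h7]
    split_ifs <;> rfl

end

end Pool.Agent.X120.GS
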