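import Pool.Agent.X120.GS.Core

/-!
# Independence over the functions which are holomorphic in a disc which contains all singularities but infinity
-/

set_option autoImplicit false

open Filter Topology Metric Set

namespace Pool.Agent.X120.GS

open Pool.Agent.Y120.GH PowerSeries

/-- there are no relations with coefficients which are holomorphic in the disc of radius `R` -/
def DiscZ (R : ℝ) {κ : Type} [Fintype κ] (y : κ → PowerSeries ℂ) : Prop :=
  ∀ c : κ → ℂ → ℂ, (∀ i, AnalyticOnNhd ℂ (c i) (ball 0 R)) → (∀ᶠ z in 𝓝 (0 : ℂ), ∑ i, c i z * inn (y i) z = 0) →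
    ∀ i, ∀ z ∈ ball (0 : ℂ) R, c i z = 0

section
variable {e : ℕ} (he : e ≠ 0) {τ τ' : ℝ}

theorem inn_expand (f : PowerSeries ℂ) (s : ℂ) : inn (expand e he f) s = inn f (s ^ e) := by
  have h1 := ou_expand he f (1 / s)
  unfold ou at h1
  simp only [one_div, inv_inv, inv_pow] at h1
  exact h1

theorem em_inn {f : PowerSeries ℂ} {r : ℝ} (hr : 0 < r) (h : Summable fun m => ‖coeff m f‖ * r ^ m)
    (hf : inn f ∈ An {(0 : ℂ)}) : em 0 ⟨inn f, hf⟩ = algebraMap (PowerSeries ℂ) FF f := by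
  rw [em_apply, tay_inn hr h]

theorem exists_rad {ρ₀ : ℝ} (hρ₀ : 0 ≤ ρ₀) {f : PowerSeries ℂ} (hf : f ∈ Cw ρ₀) :
    Summable fun m => ‖coeff m f‖ * (1 / (ρ₀ + 1)) ^ m := by
  refine hf _ (by positivity) ?_
  rw [div_mul_eq_mul_div, one_mul, div_lt_one (by positivity)]
  linarith

/-- the independence -/
theorem disc0_of_qu (hτ : 0 < τ) (hττ : τ < τ') {σ : Type} [Fintype σ] [DecidableEq σ] (y : σ → PowerSeries ℂ) {ρ₀ : ℝ}
    (hρ₀ : 0 ≤ ρ₀) (hy : ∀ i, y i ∈ Cw ρ₀) (T : Polynomial ℂ) (hT : T ≠ 0) (A : σ → σ → Polynomial ℂ)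
    (hode : ∀ i, (T : PowerSeries ℂ) * PowerSeries.derivative ℂ (y i) = ∑ j, (A i j : PowerSeries ℂ) * y j)
    (T₂ : Polynomial ℂ) (hT₂ : T₂ ≠ 0) (A₂ : σ → σ → Polynomial ℂ)
    (hcmp : ∀ i l, ∀ z : ℂ, z ≠ 0 → - (A₂ i l).eval (1 / z) * T.eval z = z ^ 2 * T₂.eval (1 / z) * (A i l).eval z)
    (hqu : QU he τ T₂ A₂) (B : Set σ) [Fintype B]
    (hLI : ∀ G : B → Polynomial ℂ, ∑ i, (G i : PowerSeries ℂ) * y i = 0 → ∀ i, G i = 0) :
    DiscZ (τ' ^ e) fun b : B => y b := by
  classical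
  obtain ⟨M, Φ, hΦc, hΦ, hdet⟩ := hqu
  have hepos := Nat.pos_of_ne_zero he
  have hτ' : 0 < τ' := hτ.trans hττ
  intro c₀ hc₀ hrel₀
  have hsumB : ∀ {S : Type} [AddCommMonoid S] (F : σ → S), (∀ i, i ∉ B → F i = 0) → ∑ i, F i = ∑ i : B, F i := by
    intro S _ F hF
    rw [← Finset.sum_subset (Finset.subset_univ (B.toFinset)) (fun i _ hi => hF i (by simpa using hi))]
    rw [← Finset.sum_coe_sort (B.toFinset)]
    exact Fintype.sum_equiv (Equiv.subtypeEquivRight fun i => by simp) _ _ fun i => rfl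
  let c : σ → ℂ → ℂ := fun i => if h : i ∈ B then c₀ ⟨i, h⟩ else 0
  have hcB' : ∀ i : B, c i = c₀ i := fun i => by
    show (if h : (i : σ) ∈ B then c₀ ⟨i, h⟩ else 0) = _
    rw [dif_pos i.2]
  have hcB : ∀ i, i ∉ B → c i = 0 := fun i hi => by
    show (if h : i ∈ B then c₀ ⟨i, h⟩ else 0) = _
    rw [dif_neg hi]
  have hc : ∀ i, AnalyticOnNhd ℂ (c i) (ball 0 (τ' ^ e)) := by
    intro i
    by_cases hi : i ∈ B
    · have := hc₀ ⟨i, hi⟩
      rw [← hcB' ⟨i, hi⟩] at this
      exact this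
    · rw [hcB i hi]
      exact analyticOnNhd_const
  have hrel : ∀ᶠ z in 𝓝 (0 : ℂ), ∑ i, c i z * inn (y i) z = 0 := by
    filter_upwards [hrel₀] with z hz
    rw [hsumB (fun i => c i z * inn (y i) z) fun i hi => by rw [hcB i hi]; simp]
    refine Eq.trans ?_ hz
    refine Finset.sum_congr rfl fun i _ => ?_
    rw [hcB']
  -- the point
  set p : ℂ := (((τ + τ') / 2 : ℝ) : ℂ) * Complex.I with hp
  have hpn : ‖p‖ = (τ + τ') / 2 := by
    rw [hp, norm_mul, Complex.norm_I, mul_one, Complex.norm_real, Real.norm_of_nonneg (by linarith)]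
  have hp1 : τ < ‖p‖ := by rw [hpn]; linarith
  have hp2 : ‖p‖ < τ' := by rw [hpn]; linarith
  have hpim : 0 < p.im := by
    rw [hp]
    simp only [Complex.mul_im, Complex.ofReal_re, Complex.I_im, mul_one, Complex.ofReal_im, Complex.I_re, mul_zero,
      add_zero]
    linarith
  have h0' : ‖(0 : ℂ)‖ < τ' := by rw [norm_zero]; exact hτ'
  -- the pulled back data
  let y' : σ → PowerSeries ℂ := fun i => expand e he (y i)
  let T' : Polynomial ℂ := Polynomial.expand ℂ e T
  let A' : σ → σ → Polynomial ℂ := fun i j => (e : Polynomial ℂ) * Polynomial.X ^ (e - 1) * Polynomial.expand ℂ e (A i j)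
  let T₂' : Polynomial ℂ := Polynomial.expand ℂ e T₂
  let A₂' : σ → σ → Polynomial ℂ := fun i j => (e : Polynomial ℂ) * Polynomial.X ^ (e - 1) * Polynomial.expand ℂ e (A₂ i j)
  let Φ' : Matrix σ σ (Polynomial (Cw τ)) := fun i j => (Φ i j).toSubring (Cw τ) (by
    intro a ha
    obtain ⟨k, _, rfl⟩ := Polynomial.mem_coeffs_iff.1 ha
    exact hΦc i j k)
  have hΦ'c : ∀ i j k, ((Φ' i j).coeff k).1 = (Φ i j).coeff k := fun i j k => Polynomial.coeff_toSubring _ _ _
  have hAe : ∀ P : Polynomial ℂ, (((e : Polynomial ℂ) * Polynomial.X ^ (e - 1) * Polynomial.expand ℂ e P : Polynomial ℂ) : PowerSeries ℂ) =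
      (e : PowerSeries ℂ) * X ^ (e - 1) * expand e he (P : PowerSeries ℂ) := by
    intro P
    rw [expand_poly, Polynomial.coe_mul, Polynomial.coe_mul, Polynomial.coe_pow, Polynomial.coe_X]
    have h : ((e : Polynomial ℂ) : PowerSeries ℂ) = (e : PowerSeries ℂ) := map_natCast (Polynomial.coeToPowerSeries.ringHom (R := ℂ)) e
    rw [h]
  have hc' : ∀ i, (fun z : ℂ => c i (z ^ e)) ∈ An (ball (0 : ℂ) τ') := by
    intro i z hz
    have h1 : z ^ e ∈ ball (0 : ℂ) (τ' ^ e) := by
      rw [mem_ball_zero_iff] at hz ⊢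
      rw [norm_pow]
      exact pow_lt_pow_left₀ hz (norm_nonneg _) he
    exact AnalyticAt.comp (g := c i) (f := fun z : ℂ => z ^ e) (hc i _ h1) (analyticAt_id.pow e)
  have hpe : ∀ i, y' i ∈ Cw (ρ₀ + 1) := by
    intro i
    have h1 : y i ∈ Cw ((ρ₀ + 1) ^ e) := Cw_mono (by
      have : ρ₀ + 1 ≤ (ρ₀ + 1) ^ e := le_self_pow₀ (by linarith) he
      linarith) (hy i)
    exact expand_mem he (by linarith) h1
  have hcore := coreZ (ρ := τ) (ρ' := τ') hτ hp1 hp2 hpim y' T' (by
      intro h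
      exact hT ((Polynomial.expand_eq_zero hepos).1 h)) A' (by
      intro i
      have h1 := congrArg (expand e he) (hode i)
      rw [map_mul, map_sum] at h1
      simp only [map_mul] at h1
      show ((T' : Polynomial ℂ) : PowerSeries ℂ) * PowerSeries.derivative ℂ (expand e he (y i)) = _
      rw [derivative_expand, ← expand_poly he T]
      have h3 : expand e he (T : PowerSeries ℂ) * ((e : PowerSeries ℂ) * X ^ (e - 1) * expand e he (PowerSeries.derivative ℂ (y i))) =
        ((e : PowerSeries ℂ) * X ^ (e - 1)) * (expand e he (T : PowerSeries ℂ) * expand e he (PowerSeries.derivative ℂ (y i))) := by ring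
      rw [h3, h1, Finset.mul_sum]
      refine Finset.sum_congr rfl fun j _ => ?_
      rw [show ((A' i j : Polynomial ℂ) : PowerSeries ℂ) = _ from hAe (A i j)]
      ring) T₂' (by
      intro h
      exact hT₂ ((Polynomial.expand_eq_zero hepos).1 h)) A₂' (by
      intro i l s hs
      have hz : s ^ e ≠ 0 := pow_ne_zero _ hs
      have h1 := hcmp i l (s ^ e) hz
      have ev : ∀ (P : Polynomial ℂ) (u : ℂ), (Polynomial.expand ℂ e P).eval u = P.eval (u ^ e) := fun P u =>
        Polynomial.expand_eval e P u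
      have ev2 : ∀ (P : Polynomial ℂ) (u : ℂ), ((e : Polynomial ℂ) * Polynomial.X ^ (e - 1) * Polynomial.expand ℂ e P).eval u =
          e * u ^ (e - 1) * P.eval (u ^ e) := by
        intro P u
        rw [Polynomial.eval_mul, Polynomial.eval_mul, Polynomial.eval_natCast, Polynomial.eval_pow, Polynomial.eval_X, ev]
      show -(((e : Polynomial ℂ) * Polynomial.X ^ (e - 1) * Polynomial.expand ℂ e (A₂ i l)).eval (1 / s)) *
        (Polynomial.expand ℂ e T).eval s = s ^ 2 * (Polynomial.expand ℂ e T₂).eval (1 / s) *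
        ((e : Polynomial ℂ) * Polynomial.X ^ (e - 1) * Polynomial.expand ℂ e (A i l)).eval s
      rw [ev2, ev2, ev, ev, one_div, inv_pow, inv_pow]
      rw [one_div] at h1
      have h2 : s ^ e = s * s ^ (e - 1) := by
        rw [← pow_succ']
        congr 1
        omega
      have h3 : s ^ (e - 1) ≠ 0 := pow_ne_zero _ hs
      calc -((e : ℂ) * (s ^ (e - 1))⁻¹ * (A₂ i l).eval ((s ^ e)⁻¹)) * T.eval (s ^ e) =
          (e : ℂ) * (s ^ (e - 1))⁻¹ * (-(A₂ i l).eval ((s ^ e)⁻¹) * T.eval (s ^ e)) := by ring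
        _ = (e : ℂ) * (s ^ (e - 1))⁻¹ * ((s * s ^ (e - 1)) ^ 2 * T₂.eval ((s ^ e)⁻¹) * (A i l).eval (s ^ e)) := by
            rw [h1, ← h2]
        _ = _ := by
            field_simp) Φ' M (by
      intro i j k
      apply Subtype.ext
      have h2 : (Xc τ * ∑ l, pC τ (A₂' i l) * (Φ' l j).coeff k : Cw τ).1 =
          X * ∑ l, ((A₂' i l : Polynomial ℂ) : PowerSeries ℂ) * (Φ l j).coeff k := by
        have h3 : (Xc τ * ∑ l, pC τ (A₂' i l) * (Φ' l j).coeff k : Cw τ).1 =
          X * (∑ l, pC τ (A₂' i l) * (Φ' l j).coeff k : Cw τ).1 := rfl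
        rw [h3, AddSubmonoidClass.coe_finsetSum]
        congr 1
        refine Finset.sum_congr rfl fun l _ => ?_
        rw [← hΦ'c l j k]
        rfl
      rw [h2]
      have h4 := hΦ i j k
      have h5 : (pC τ T₂' * (Xc τ * dCw hτ ((Φ' i j).coeff k) + (k + 1) * (Φ' i j).coeff (k + 1) - M * (Φ' i j).coeff k) : Cw τ).1 =
          expand e he (T₂ : PowerSeries ℂ) * ((X : PowerSeries ℂ) * PowerSeries.derivative ℂ ((Φ i j).coeff k) +
        ((k : PowerSeries ℂ) + 1) * (Φ i j).coeff (k + 1) - (M : PowerSeries ℂ) * (Φ i j).coeff k) := by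
        rw [expand_poly he T₂, ← hΦ'c i j k, ← hΦ'c i j (k + 1)]
        rfl
      rw [h5, h4, Finset.mul_sum, Finset.mul_sum]
      refine Finset.sum_congr rfl fun l _ => ?_
      rw [show ((A₂' i l : Polynomial ℂ) : PowerSeries ℂ) = _ from hAe (A₂ i l)]
      have h6 : (X : PowerSeries ℂ) ^ e = X * X ^ (e - 1) := by
        rw [← pow_succ']
        congr 1
        omega
      rw [h6]
      ring) (by
      intro h
      apply hdet
      have h1 : Φ = (Polynomial.mapRingHom (Cw τ).subtype).mapMatrix Φ' := by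
        ext i j k
        rw [RingHom.mapMatrix_apply, Matrix.map_apply, Polynomial.coe_mapRingHom, Polynomial.coeff_map, ← hΦ'c]
        rfl
      rw [h1, ← RingHom.map_det, h, map_zero]) B (by
      intro G hG hsum i
      refine li_expand he y B (fun G' hG' hs' => ?_) G hG hsum i
      intro j
      by_cases hj : j ∈ B
      · refine hLI (fun i => G' i) ?_ ⟨j, hj⟩
        rw [← hsumB (fun i => (G' i : PowerSeries ℂ) * y i) fun i hi => by rw [hG' i hi]; simp]
        exact hs'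
      · exact hG' j hj) h0' (fun i => ⟨fun z : ℂ => c i (z ^ e), hc' i⟩) (by
      intro i hi
      apply Subtype.ext
      funext z
      show c i (z ^ e) = 0
      rw [hcB i hi]
      rfl) (by
      have hr := fun i => exists_rad (by linarith) (hpe i)
      have hrpos : (0 : ℝ) < 1 / (ρ₀ + 1 + 1) := by positivity
      have hmem : ∀ i, inn (y' i) ∈ An {(0 : ℂ)} := by
        intro i z hz
        rw [Set.mem_singleton_iff] at hz
        rw [hz]
        exact inn_an (hr i) _ (by rw [mem_ball, dist_self]; exact hrpos)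
      have h1 : ∀ i, E1 (p := 0) h0' ⟨fun z : ℂ => c i (z ^ e), hc' i⟩ * algebraMap (PowerSeries ℂ) FF (y' i) =
          em 0 (⟨fun z : ℂ => c i (z ^ e), mem_p h0' ⟨fun z : ℂ => c i (z ^ e), hc' i⟩⟩ * ⟨inn (y' i), hmem i⟩) := by
        intro i
        rw [map_mul, em_inn hrpos (hr i) (hmem i)]
        rfl
      simp only [h1]
      rw [← map_sum, em_zero_iff]
      have hev : Tendsto (fun z : ℂ => z ^ e) (𝓝 0) (𝓝 0) := by
        have := (continuous_pow (M := ℂ) e).tendsto 0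
        rwa [zero_pow he] at this
      filter_upwards [hev.eventually hrel] with z hz
      have h2 : (∑ i, ⟨fun z : ℂ => c i (z ^ e), mem_p h0' ⟨fun z : ℂ => c i (z ^ e), hc' i⟩⟩ * ⟨inn (y' i), hmem i⟩ : An {(0 : ℂ)}).1 =
          ∑ i, (fun z : ℂ => c i (z ^ e)) * inn (y' i) := by
        rw [AddSubmonoidClass.coe_finsetSum]
        rfl
      rw [h2, Finset.sum_apply]
      refine Eq.trans ?_ hz
      refine Finset.sum_congr rfl fun i _ => ?_
      show c i (z ^ e) * inn (expand e he (y i)) z = _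
      rw [inn_expand])
  intro i z hz
  have h1 := hcore (i : σ)
  rw [E1_apply hp2 _ (mem_p hp2 _), em_zero_iff] at h1
  have h2 : Set.EqOn (fun z : ℂ => c i (z ^ e)) 0 (ball 0 τ') :=
    (hc' i).eqOn_zero_of_preconnected_of_eventuallyEq_zero (convex_ball _ _).isPreconnected (mem_ball_zero_iff.2 hp2) h1
  rw [← hcB' i]
  obtain ⟨s, hs⟩ := IsAlgClosed.exists_pow_nat_eq z hepos
  have h3 := h2 (show s ∈ ball (0 : ℂ) τ' by
    rw [mem_ball_zero_iff] at hz ⊢
    rw [← hs, norm_pow] at hz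
    exact lt_of_pow_lt_pow_left₀ e hτ'.le hz)
  simp only [hs, Pi.zero_apply] at h3
  exact h3

end

end Pool.Agent.X120.GS
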