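import Pool.Agent.X120.GS.Ind
import Pool.Agent.X120.Rec.Cov

/-!
# Few bad terms of geometric sequences
-/

set_option autoImplicit false

open Filter Topology Metric Set

namespace Pool.Agent.X120.GS

open Pool.Agent.Y120.GH Pool.Agent.Y120.GF Pool.Agent.Y113 PowerSeries Pool.Agent.X120.Geo

/-- the value of a scaled function -/
theorem ev_rs {g : ℕ} {t u : ℝ} (hu : u = t / g) (f : ℚ⟦X⟧) : ev t (rs g f) = ev u f := by
  unfold ev
  refine tsum_congr fun m => ?_
  rw [coeff_rs, hu]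
  push_cast
  rw [one_div_div, div_pow, div_pow, one_pow]
  ring

/-- the family of the functions -/
structure FamS {κ : Type} [Fintype κ] (y : κ → ℚ⟦X⟧) (β₀ : κ) (q : ℕ) (C : ℝ) (T : Polynomial ℤ) (Q : ℕ) : Prop where
  one : y β₀ = 1
  sys : GSys q C T y
  ne : T ≠ 0
  li : ∀ (k : ℕ) (g : Fin k → ℕ), (∀ i, 1 ≤ g i) → (∀ i j, i < j → Q * g i ≤ g j) →
    LinearIndependent (Polynomial ℚ) (fun b : Fin k → κ => ∏ l, rs (g l) (y (b l)))

section
variable {κ : Type} [Fintype κ] {y : κ → ℚ⟦X⟧} {β₀ : κ} {q : ℕ} {C : ℝ} {T : Polynomial ℤ} {Q : ℕ}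

theorem win_coreS (hF : FamS y β₀ q C T Q) (D : ℕ) : ∃ E : ℕ, ∀ (H t : ℕ), (H + 2) ^ E ≤ t →
    ∀ g : Fin D → ℕ, (∀ i j, i < j → Q * g i ≤ g j) → (∀ l, 1 ≤ g l ∧ g l ≤ H) → 0 < D →
    ∀ (V : Submodule ℚ ℂ) [Module.Finite ℚ V], Module.finrank ℚ V = D →
    (∀ l, Bad V fun b => ((ev t (rs (g l) (y b)) : ℝ) : ℂ)) → False := by
  classical
  obtain ⟨q₁, E₁, hE₁⟩ := gprod hF.sys D
  obtain ⟨E₂, hE₂⟩ := Pool.Agent.Y120.GF.t_G (Fintype.card (Fin D → κ)) q₁
  obtain ⟨c, hc⟩ := no_roots hF.ne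
  obtain ⟨C', hC'⟩ := exists_nat_ge C
  refine ⟨(max E₁ 1 + 1) * max E₂ 1 + (c + 2) + (C' + 2), ?_⟩
  intro H t hHt g hg hgH hD V _ hV hbad
  have hH2 : (2 : ℝ) ≤ (H : ℝ) + 2 := by
    have : (0 : ℝ) ≤ H := by positivity
    linarith
  have hH1 : (1 : ℝ) ≤ (H : ℝ) + 2 := by linarith
  have htR : (((H : ℝ) + 2)) ^ ((max E₁ 1 + 1) * max E₂ 1 + (c + 2) + (C' + 2)) ≤ (t : ℝ) := by exact_mod_cast hHt
  have hb1 : ((H : ℝ) + 2) ^ ((max E₁ 1 + 1) * max E₂ 1) ≤ (t : ℝ) :=
    (pow_le_pow_right₀ hH1 (by omega)).trans htR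
  have hb2 : ∀ n : ℕ, n ≤ C' + 1 ∨ n ≤ c + 1 → (n : ℝ) * ((H : ℝ) + 2) < (t : ℝ) := by
    intro n hn
    have h1 : (H + 2) ^ (n + 1) ≤ t := (Nat.pow_le_pow_right (by omega) (by
      have : 0 < (max E₁ 1 + 1) * max E₂ 1 := by positivity
      omega)).trans hHt
    have h2 : n < 2 ^ n := Nat.lt_two_pow_self
    have h3 : 2 ^ n ≤ (H + 2) ^ n := Nat.pow_le_pow_left (by omega) _
    have h4 : n * (H + 2) < (H + 2) ^ (n + 1) := by
      rw [pow_succ]
      exact Nat.mul_lt_mul_of_pos_right (by omega) (by omega)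
    exact_mod_cast lt_of_lt_of_le h4 h1
  have ht0 : (0 : ℝ) < t := by
    have := hb2 0 (Or.inl (by omega))
    simpa using this
  have hg0 : ∀ l, (0 : ℝ) < g l := fun l => by exact_mod_cast (hgH l).1
  have hgH' : ∀ l, (g l : ℝ) ≤ H := fun l => by exact_mod_cast (hgH l).2
  have hsys := (hE₁ H g hgH).mono le_rfl (pow_le_pow_right₀ hH1 (le_max_left E₁ 1))
  have hC : (2 * ((H : ℝ) + 2) ^ (max E₁ 1)) ^ E₂ ≤ (t : ℝ) := by
    have h1 : (2 * ((H : ℝ) + 2) ^ (max E₁ 1)) ^ E₂ ≤ (2 * ((H : ℝ) + 2) ^ (max E₁ 1)) ^ (max E₂ 1) := by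
      refine pow_le_pow_right₀ ?_ (le_max_left _ _)
      have : (1 : ℝ) ≤ ((H : ℝ) + 2) ^ (max E₁ 1) := one_le_pow₀ hH1
      linarith
    exact h1.trans ((pow_base H _ _).trans hb1)
  have hne : Polynomial.aeval (1 / (t : ℝ)) (PTs T g) ≠ 0 := by
    unfold PTs
    rw [map_prod, Finset.prod_ne_zero_iff]
    intro l _
    have h1 : Polynomial.aeval (1 / (t : ℝ)) (ts (g l) T) = Polynomial.aeval (1 / ((t : ℝ) / g l)) T := by
      rw [ts, Polynomial.aeval_comp]
      congr 1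
      rw [map_mul, Polynomial.aeval_C, Polynomial.aeval_X, one_div_div]
      simp
      ring
    rw [h1]
    refine hc _ ?_
    rw [lt_div_iff₀ (hg0 l)]
    have h2 := hb2 c (Or.inr (by omega))
    have h3 : (c : ℝ) * g l ≤ c * ((H : ℝ) + 2) := mul_le_mul_of_nonneg_left (by linarith [hgH' l]) (Nat.cast_nonneg c)
    linarith
  have hLI := hE₂ (Fin D → κ) (((H : ℝ) + 2) ^ (max E₁ 1)) (PTs T g) (pms y g) (fun _ => β₀) t
    le_rfl hsys (by
      unfold pms
      exact Finset.prod_eq_one fun l _ => by rw [hF.one, rs_one]) (hF.li D g (fun l => (hgH l).1) hg) hC hne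
  -- multiplicativity
  have hC1 := hF.sys.one_le
  have hcv : ∀ l b, Cv (t : ℝ) (rs (g l) (y b)) := by
    intro l b
    have h1 := hF.sys.size b
    refine Cv.of_bound (A := C) (B := C * g l) ht0 (by
      have := hg0 l
      positivity) ?_ fun m => ?_
    · have h2 := hb2 C' (Or.inl (by omega))
      have h3 : C * g l ≤ C' * ((H : ℝ) + 2) := mul_le_mul hC' (by linarith [hgH' l]) (hg0 l).le (Nat.cast_nonneg C')
      linarith
    · rw [coeff_rs]
      push_cast
      rw [abs_mul, abs_of_nonneg (by positivity : (0 : ℝ) ≤ (g l : ℝ) ^ m), mul_pow]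
      calc (g l : ℝ) ^ m * |((coeff m (y b) : ℚ) : ℝ)| ≤ (g l : ℝ) ^ m * C ^ (m + 1) :=
            mul_le_mul_of_nonneg_left (h1 m) (by positivity)
        _ = _ := by rw [pow_succ]; ring
  have hev : ∀ b : Fin D → κ, ev (t : ℝ) (pms y g b) = ∏ l, ev (t : ℝ) (rs (g l) (y (b l))) := by
    intro b
    exact Cv.ev_prod ht0 Finset.univ (fun l => rs (g l) (y (b l))) fun l _ => hcv l _
  simp only [hev] at hLI
  -- coordinates
  let e := Module.finBasisOfFinrankEq ℚ V hV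
  choose v hvV hv0 hv using hbad
  have hrep : ∀ l b, ∃ τ : Fin D → ℚ, ∑ j, ((τ j : ℚ) : ℂ) * ((e j : V) : ℂ) = v l b := by
    intro l b
    refine ⟨fun j => e.repr ⟨v l b, hvV l b⟩ j, ?_⟩
    have h1 := e.sum_repr ⟨v l b, hvV l b⟩
    have h2 := congrArg (fun z : V => (z : ℂ)) h1
    simp only [Submodule.coe_sum, Submodule.coe_smul] at h2
    refine Eq.trans ?_ h2
    refine Finset.sum_congr rfl fun j _ => ?_
    rw [Rat.smul_def]
  choose τ hrep using hrep
  have heLI : LinearIndependent ℚ (fun j => ((e j : V) : ℂ)) := by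
    have := e.linearIndependent
    exact this.map' V.subtype (Submodule.ker_subtype V)
  obtain ⟨l, hl⟩ := Pool.Agent.Y141.GF.t_elim D κ (fun l b => ev (t : ℝ) (rs (g l) (y b))) (fun j => ((e j : V) : ℂ))
    (fun l j b => τ l b j) hLI heLI (by
      intro l
      rw [Finset.sum_comm, ← hv l]
      refine Finset.sum_congr rfl fun b _ => ?_
      rw [← hrep l b, Finset.sum_mul]
      refine Finset.sum_congr rfl fun j _ => ?_
      ring) hD
  apply hv0 l
  funext b
  rw [← hrep l b]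
  refine Finset.sum_eq_zero fun j _ => ?_
  have h1 := congrFun (congrFun hl j) b
  simp only [Pi.zero_apply] at h1
  rw [h1]
  simp

/-- separated subsets -/
theorem exists_sep (Q D : ℕ) : ∀ S : Finset ℕ, Q * D < S.card →
    ∃ n : Fin D → ℕ, (∀ i, n i ∈ S) ∧ ∀ i j, i < j → n j + Q ≤ n i := by
  classical
  induction D with
  | zero => exact fun S _ => ⟨Fin.elim0, fun i => i.elim0, fun i => i.elim0⟩
  | succ D ih =>
    intro S hS
    have hne : S.Nonempty := Finset.card_pos.1 (by omega)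
    set m := S.max' hne with hm
    have h1 : (S.filter fun n => ¬ n + Q ≤ m).card ≤ Q := by
      have h2 : (S.filter fun n => ¬ n + Q ≤ m) ⊆ Finset.Ico (m + 1 - Q) (m + 1) := by
        intro n hn
        obtain ⟨h3, h4⟩ := Finset.mem_filter.1 hn
        have h5 := S.le_max' n h3
        rw [Finset.mem_Ico]
        omega
      refine (Finset.card_le_card h2).trans ?_
      rw [Nat.card_Ico]
      omega
    have h2 := Finset.card_filter_add_card_filter_not (s := S) (fun n => n + Q ≤ m)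
    have h3 : Q * D < (S.filter fun n => n + Q ≤ m).card := by
      rw [Nat.mul_succ] at hS
      omega
    obtain ⟨n, hn1, hn2⟩ := ih _ h3
    refine ⟨Fin.cons m n, fun i => ?_, fun i j => ?_⟩
    · refine Fin.cases ?_ (fun i => ?_) i
      · exact S.max'_mem hne
      · exact (Finset.mem_filter.1 (hn1 i)).1
    · refine Fin.cases ?_ (fun i => ?_) i
      · refine Fin.cases (fun h => absurd h (lt_irrefl _)) (fun j _ => ?_) j
        simp only [Fin.cons_zero, Fin.cons_succ]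
        exact (Finset.mem_filter.1 (hn1 j)).2
      · refine Fin.cases (fun h => absurd h (Fin.not_lt_zero _)) (fun j h => ?_) j
        simp only [Fin.cons_succ]
        exact hn2 i j (Fin.succ_lt_succ_iff.1 h)

/-- few bad terms of a sequence -/
def OneS {σ : Type} [Fintype σ] (X : ℕ → σ → ℂ) : Prop := ∀ D : ℕ, ∃ C : ℝ, 0 ≤ C ∧
  ∀ (V : Submodule ℚ ℂ) [Module.Finite ℚ V], Module.finrank ℚ V ≤ D → ∀ T : ℕ, 2 ≤ T →
    ∃ S : Finset ℕ, (S.card : ℝ) ≤ C * Real.log T ∧ ∀ n, 1 ≤ n → n ≤ T → Bad V (X n) → n ∈ S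

/-- **few bad terms of geometric sequences** -/
theorem one_of_fam (hF : FamS y β₀ q C T Q) {b : ℕ} (hb : 2 ≤ b) :
    OneS fun (n : ℕ) (β : κ) => ((ev (((b ^ n : ℕ)) : ℝ) (y β) : ℝ) : ℂ) := by
  classical
  intro D
  choose E hE using win_coreS hF
  set E' := ∑ D' ∈ Finset.range (D + 1), E D' with hE'
  have hEle : ∀ D' ≤ D, E D' ≤ E' := fun D' h =>
    Finset.single_le_sum (f := E) (fun _ _ => Nat.zero_le _) (Finset.mem_range.2 (by omega))
  obtain ⟨C₁, hC₁, hcov⟩ := Pool.Agent.X120.Rec.cover (E' + 1) (Q * D) (by omega)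
  refine ⟨C₁, hC₁, fun V _ hV T' hT' => hcov (fun n => Bad V fun β : κ => ((ev (((b ^ n : ℕ)) : ℝ) (y β) : ℝ) : ℂ))
    (fun i => ?_) T' hT'⟩
  set J := i / (E' + 1) with hJ
  set S : Finset ℕ := (Finset.Icc i (i + J)).filter fun n => ((E' + 1) * (n - i + 3) ≤ i ∧
    Bad V fun β : κ => ((ev (((b ^ n : ℕ)) : ℝ) (y β) : ℝ) : ℂ)) with hS
  refine ⟨S, ?_, fun j hj hP => ?_⟩
  swap
  · rw [hS, Finset.mem_filter, Finset.mem_Icc]
    have h1 : j + 3 ≤ J := by
      rw [hJ, Nat.le_div_iff_mul_le (by omega), mul_comm]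
      exact hj
    exact ⟨⟨by omega, by omega⟩, by rw [Nat.add_sub_cancel_left]; exact hj, hP⟩
  by_contra hlt
  push Not at hlt
  set D' := Module.finrank ℚ V with hD'
  have hlt' : Q * D' < S.card := lt_of_le_of_lt (Nat.mul_le_mul_left _ hV) hlt
  rcases Nat.eq_zero_or_pos D' with h0 | hpos
  · have h1 : 0 < S.card := by omega
    obtain ⟨n, hn⟩ := Finset.card_pos.1 h1
    obtain ⟨-, -, v, hv1, hv2, -⟩ := Finset.mem_filter.1 hn
    apply hv2
    have hV0 : V = ⊥ := Submodule.finrank_eq_zero.1 (by rw [← hD']; exact h0)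
    funext β
    have := hv1 β
    rw [hV0] at this
    exact (Submodule.mem_bot ℚ).1 this
  · obtain ⟨n, hnS, hns⟩ := exists_sep Q D' S hlt'
    have hn := fun l => Finset.mem_filter.1 (hnS l)
    -- the scales
    have hJ3 : (E' + 1) * (J + 1) ≤ i + (E' + 1) := by
      have h1 : (E' + 1) * J ≤ i := Nat.mul_div_le _ _
      rw [Nat.mul_succ]
      omega
    obtain ⟨J', hJ'⟩ : ∃ J', ∀ l, n l ≤ i + J' ∧ (E' + 1) * (J' + 3) ≤ i := by
      obtain ⟨l₀, hl₀⟩ : ∃ l₀, ∀ l, n l ≤ n l₀ := by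
        have : Nonempty (Fin D') := ⟨⟨0, hpos⟩⟩
        exact Finite.exists_max n
      refine ⟨n l₀ - i, fun l => ⟨?_, (hn l₀).2.1⟩⟩
      have h1 := (Finset.mem_Icc.1 (hn l₀).1).1
      have h2 := hl₀ l
      omega
    have hJ1 := (hJ' ⟨0, hpos⟩).2
    have hge : ∀ l, i ≤ n l := fun l => (Finset.mem_Icc.1 (hn l).1).1
    have hle : ∀ l, n l ≤ i + J' := fun l => (hJ' l).1
    have hb1 : 1 ≤ b := by omega
    refine hE D' (b ^ J') (b ^ (i + J')) ?_ (fun l => b ^ (i + J' - n l)) (fun l l' hll => ?_) (fun l => ⟨Nat.one_le_pow _ _ hb1, ?_⟩)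
      hpos V rfl fun l => ?_
    · have h1 : b ^ J' + 2 ≤ b ^ (J' + 2) := by
        have h2 : 1 ≤ b ^ J' := Nat.one_le_pow _ _ hb1
        have h3 : 4 ≤ b ^ 2 := by nlinarith
        calc b ^ J' + 2 ≤ b ^ J' * 4 := by omega
          _ ≤ b ^ J' * b ^ 2 := Nat.mul_le_mul_left _ h3
          _ = b ^ (J' + 2) := by rw [pow_add]
      calc (b ^ J' + 2) ^ E D' ≤ (b ^ (J' + 2)) ^ E D' := Nat.pow_le_pow_left h1 _
        _ = b ^ ((J' + 2) * E D') := by rw [pow_mul]
        _ ≤ b ^ (i + J') := by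
            refine Nat.pow_le_pow_right hb1 ?_
            have h2 := hEle D' hV
            have h3 : (J' + 2) * E D' ≤ (J' + 2) * E' := Nat.mul_le_mul_left _ h2
            have h4 : (J' + 2) * E' ≤ (E' + 1) * (J' + 3) := by nlinarith
            omega
    · have h1 := hns l l' hll
      have h2 := hle l
      have h3 : i + J' - n l' = (i + J' - n l) + (n l - n l') := by omega
      show Q * b ^ (i + J' - n l) ≤ b ^ (i + J' - n l')
      rw [h3, pow_add, mul_comm]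
      refine Nat.mul_le_mul_left _ ?_
      have h4 : Q < 2 ^ Q := Nat.lt_two_pow_self
      calc Q ≤ 2 ^ Q := h4.le
        _ ≤ b ^ Q := Nat.pow_le_pow_left hb _
        _ ≤ b ^ (n l - n l') := Nat.pow_le_pow_right hb1 (by omega)
    · refine Nat.pow_le_pow_right hb1 ?_
      have := hge l
      omega
    · have h1 := (hn l).2.2
      have h2 : ∀ β, ev ((b ^ (i + J') : ℕ) : ℝ) (rs (b ^ (i + J' - n l)) (y β)) = ev ((b ^ n l : ℕ) : ℝ) (y β) := by
        intro β
        refine ev_rs ?_ _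
        push_cast
        rw [eq_div_iff (by positivity), ← pow_add]
        congr 1
        have := hle l
        omega
      show Bad V fun β => ((ev ((b ^ (i + J') : ℕ) : ℝ) (rs (b ^ (i + J' - n l)) (y β)) : ℝ) : ℂ)
      simp only [h2]
      exact h1

end

end Pool.Agent.X120.GS
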