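import Pool.Agent.X120.GS.Fam

/-!
# Families of G-functions at geometric sequences
-/

set_option autoImplicit false

open Filter Topology Metric Set

namespace Pool.Agent.X120.GS

open Pool.Agent.Y120.GH Pool.Agent.Y120.GF Pool.Agent.Y113 PowerSeries Pool.Agent.X120.Geo

theorem AT_smul {ι : Type} [Fintype ι] [DecidableEq ι] {δ : ℕ} {S : Type} [Semiring S] (c : S) (A : ι → ι → S)
    (b b' : Fin δ → ι) : c * AT A b b' = AT (fun i j => c * A i j) b b' :=
  AT_map (AddMonoidHom.mulLeft c) A b b'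

/-- the value of a reflected polynomial -/
theorem reflect_eval {P : Polynomial ℂ} {d : ℕ} (hP : P.natDegree ≤ d) {z : ℂ} (hz : z ≠ 0) :
    (P.reflect d).eval (1 / z) * z ^ d = P.eval z := by
  let _ : Invertible z := invertibleOfNonzero hz
  have h := Polynomial.eval₂_reflect_mul_pow (RingHom.id ℂ) z d P hP
  rw [invOf_eq_inv] at h
  rw [one_div]
  exact h

theorem A1_eval {ι : Type} (A : ι → ι → Polynomial ℂ) (z : ℂ) (o o' : Option ι) :
    (A1 A o o').eval z = A1 (fun i j => (A i j).eval z) o o' := by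
  rcases o with _ | i <;> rcases o' with _ | j <;> simp [A1]

theorem AT_eval {ι : Type} [Fintype ι] [DecidableEq ι] {δ : ℕ} (A : ι → ι → Polynomial ℂ) (z : ℂ) (b b' : Fin δ → ι) :
    (AT A b b').eval z = AT (fun i j => (A i j).eval z) b b' :=
  AT_map (Polynomial.evalRingHom z).toAddMonoidHom A b b'

theorem family_mainS {r : ℕ} {h : Fin r → ℚ⟦X⟧} {T : Polynomial ℤ} {A : Fin r → Fin r → Polynomial ℤ} (hT : T ≠ 0)
    (hode : ∀ i, ps T * d⁄dX ℚ (h i) = ∑ j, ps (A i j) * h j)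
    (hsize : ∃ C : ℝ, ∀ i m, |((coeff m (h i) : ℚ) : ℝ)| ≤ C ^ (m + 1))
    (hden : ∃ C : ℝ, ∀ m, ∃ d : ℕ, 0 < d ∧ (d : ℝ) ≤ C ^ (m + 1) ∧ ∀ i, ∀ j ≤ m, ∃ a : ℤ, (d : ℚ) * coeff j (h i) = a)
    (hgal : ∃ C : ℝ, ∀ m, ∃ d : ℕ, 0 < d ∧ (d : ℝ) ≤ C ^ (m + 1) ∧ ∀ s ≤ m, ∀ i j, ∃ H : Polynomial ℤ,
      (d : Polynomial ℤ) * itm T A s i j = (s.factorial : Polynomial ℤ) * H)
    {d : ℕ} (hTd : T.natDegree ≤ d) (hAd : ∀ i j, (A i j).natDegree ≤ d)
    (hqu : QU0 (Polynomial.X ^ 2 * T.reflect d) (fun i j => - (A i j).reflect d)) (δ : ℕ) :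
    ∃ (B : Finset (Fin δ → Option (Fin r))) (a : Polynomial ℤ) (M : (Fin δ → Option (Fin r)) → B → Polynomial ℤ),
      a ≠ 0 ∧ (∀ b, ps a * yw h b = ∑ β, ps (M b β) * yw h β.1) ∧
      ∀ b : ℕ, 2 ≤ b → OneS fun (n : ℕ) (β : B) => ((ev (((b ^ n : ℕ)) : ℝ) (yw h β.1) : ℝ) : ℂ) := by
  classical
  obtain ⟨q, C, hG⟩ := gsys_of hode hsize hden hgal
  obtain ⟨C', hG'⟩ := gsys_tens (gsys_opt hG) δ
  have hyw : (fun b : Fin δ → Option (Fin r) => ∏ j, (fun o : Option (Fin r) => o.elim 1 h) (b j)) = fun b => yw h b := rfl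
  rw [hyw] at hG'
  have hone : yw h (fun _ : Fin δ => none) = 1 := by
    unfold yw
    exact Finset.prod_eq_one fun j _ => rfl
  obtain ⟨B, hb₀, hLI, a, M, ha, hM⟩ := max_li (fun b : Fin δ → Option (Fin r) => yw h b) (fun _ => none) (by
    rw [hone]
    exact one_ne_zero)
  refine ⟨B, a, M, ha, hM, ?_⟩
  obtain ⟨q', C'', hG''⟩ := gsys_sub hG' (fun β : B => yw h β.1) (fun β => β.1) (fun β => rfl) a M hM
  obtain ⟨e, he, M₀, K, Φ, hΦc, hΦe, hΦd⟩ := hqu
  -- the radii
  set τ : ℝ := |K| + 1 with hτd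
  have hC'1 := hG'.one_le
  have hτ1 : 1 ≤ τ := by
    have := abs_nonneg K
    linarith
  have hτ0 : 0 < τ := by linarith
  set τ' : ℝ := τ + 1 with hτ'd
  have hmem : ∀ b, cx (yw h b : ℚ⟦X⟧) ∈ Cw C' := fun b => cx_mem (by linarith) (hG'.size b)
  set Tc : Polynomial ℂ := T.map (Int.castRingHom ℂ) with hTc
  set Ac : Fin r → Fin r → Polynomial ℂ := fun i j => (A i j).map (Int.castRingHom ℂ) with hAc
  have hinj : Function.Injective (Int.castRingHom ℂ) := (Int.castRingHom ℂ).injective_int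
  have hTc0 : Tc ≠ 0 := (Polynomial.map_ne_zero_iff hinj).2 hT
  set T₂ : Polynomial ℂ := Polynomial.X ^ 2 * Tc.reflect d with hT₂
  set A₂ : Fin r → Fin r → Polynomial ℂ := fun i j => - (Ac i j).reflect d with hA₂
  have hT₂0 : T₂ ≠ 0 := mul_ne_zero (pow_ne_zero _ Polynomial.X_ne_zero) (by
    rw [ne_eq, Polynomial.reflect_eq_zero_iff]
    exact hTc0)
  have hTmap : (Polynomial.X ^ 2 * T.reflect d).map (Int.castRingHom ℂ) = T₂ := by
    rw [hT₂, Polynomial.map_mul, Polynomial.map_pow, Polynomial.map_X, Polynomial.reflect_map]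
  have hAmap : ∀ i j, (- (A i j).reflect d).map (Int.castRingHom ℂ) = A₂ i j := by
    intro i j
    rw [hA₂, Polynomial.map_neg, ← Polynomial.reflect_map]
  have hQU : QU he τ T₂ (AT (δ := δ) (A1 A₂)) := by
    refine qu_tens he δ (qu_one he ⟨M₀, Φ, fun i j k => mem_Cw_of_bound ?_ (hΦc i j k), ?_, hΦd⟩)
    · linarith
    · intro i j k
      have h1 := hΦe i j k
      rw [hTmap] at h1
      simp only [hAmap] at h1
      exact h1
  have hTcd : Tc.natDegree ≤ d := (Polynomial.natDegree_map_le).trans hTd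
  have hAcd : ∀ i j, (Ac i j).natDegree ≤ d := fun i j => (Polynomial.natDegree_map_le).trans (hAd i j)
  have hcmp : ∀ b b' : Fin δ → Option (Fin r), ∀ z : ℂ, z ≠ 0 → - (AT (A1 A₂) b b').eval (1 / z) * Tc.eval z =
      z ^ 2 * T₂.eval (1 / z) * (AT (A1 Ac) b b').eval z := by
    intro b b' z hz
    have e0 : - (AT (A1 A₂) b b').eval (1 / z) * Tc.eval z =
        AT (fun o o' => - Tc.eval z * (A1 A₂ o o').eval (1 / z)) b b' := by
      rw [← AT_smul, AT_eval]
      ring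
    rw [e0, AT_eval, AT_smul]
    congr 1
    funext o o'
    have hz2 : z ^ 2 * (1 / z) ^ 2 = 1 := by field_simp
    have hzd : z ^ d ≠ 0 := pow_ne_zero _ hz
    rcases o with _ | i <;> rcases o' with _ | j
    · simp [A1]
    · simp [A1]
    · simp [A1]
    · show - Tc.eval z * (A₂ i j).eval (1 / z) = z ^ 2 * T₂.eval (1 / z) * (Ac i j).eval z
      rw [hA₂, hT₂]
      simp only [Polynomial.eval_neg, Polynomial.eval_mul, Polynomial.eval_pow, Polynomial.eval_X]
      have e1 := reflect_eval hTcd hz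
      have e2 := reflect_eval (hAcd i j) hz
      rw [← e1, ← e2]
      linear_combination (- (Tc.reflect d).eval (1 / z) * ((Ac i j).reflect d).eval (1 / z) * z ^ d) * hz2
  -- the differential equation of the products
  have hodeC : ∀ i, (Tc : PowerSeries ℂ) * PowerSeries.derivative ℂ (cx (h i)) = ∑ j, (Ac i j : PowerSeries ℂ) * cx (h j) := by
    intro i
    have h1 := congrArg cx (hode i)
    rw [map_mul, map_sum, cx_der, cx_ps] at h1
    rw [h1]
    refine Finset.sum_congr rfl fun j _ => ?_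
    rw [map_mul, cx_ps]
  have hodeT : ∀ b : Fin δ → Option (Fin r), (Tc : PowerSeries ℂ) * PowerSeries.derivative ℂ (cx (yw h b)) =
      ∑ b', ((AT (δ := δ) (A1 Ac) b b' : Polynomial ℂ) : PowerSeries ℂ) * cx (yw h b') := by
    intro b
    have h1 := tens_der (δ := δ) (fun f : PowerSeries ℂ => PowerSeries.derivative ℂ f) (Derivation.map_one_eq_zero _)
      (fun f g => by
        rw [Derivation.leibniz]
        rfl) (Tc : PowerSeries ℂ) 0
      (fun i l : Option (Fin r) => ((A1 Ac i l : Polynomial ℂ) : PowerSeries ℂ))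
      (fun _ o => cx (o.elim 1 h)) (fun j o => by
        rw [zero_mul, zero_add, Fintype.sum_option]
        rcases o with _ | i
        · show _ * PowerSeries.derivative ℂ (cx 1) = ((0 : Polynomial ℂ) : PowerSeries ℂ) * _ +
            ∑ j, ((0 : Polynomial ℂ) : PowerSeries ℂ) * _
          rw [map_one, Derivation.map_one_eq_zero]
          simp
        · show _ = ((0 : Polynomial ℂ) : PowerSeries ℂ) * _ + ∑ j, (Ac i j : PowerSeries ℂ) * cx (h j)
          rw [← hodeC i]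
          simp) b
    have h2 : ∀ b : Fin δ → Option (Fin r), cx (yw h b) = ∏ j, cx ((b j).elim 1 h) := fun b => map_prod _ _ _
    rw [h2 b]
    refine h1.trans ?_
    rw [mul_zero, zero_mul, zero_add]
    refine Finset.sum_congr rfl fun b' _ => ?_
    rw [h2 b']
    congr 1
    let f : Polynomial ℂ →+ PowerSeries ℂ := (Polynomial.coeToPowerSeries.ringHom (R := ℂ)).toAddMonoidHom
    exact (AT_map f (A1 Ac) b b').symm
  have hdisc : DiscZ (τ' ^ e) fun b : (B : Set (Fin δ → Option (Fin r))) => cx (yw h b.1) :=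
    disc0_of_qu he hτ0 (by linarith) (fun b => cx (yw h b)) (ρ₀ := C') (by linarith) hmem Tc hTc0 _ hodeT T₂ hT₂0
      (AT (A1 A₂)) hcmp hQU (B : Set (Fin δ → Option (Fin r))) (by
      intro G hG
      refine li_cx (κ := (B : Set (Fin δ → Option (Fin r)))) ?_ G hG
      exact hLI)
  obtain ⟨Q, hQ⟩ := exists_nat_gt (τ' ^ e * C'')
  intro b hb
  refine one_of_fam (y := fun β : B => yw h β.1) (β₀ := ⟨fun _ => none, hb₀⟩) (q := q') (C := C'') (T := a * T) (Q := Q)
    ⟨hone, hG'', mul_ne_zero ha hT, fun k g hg hgs => ?_⟩ hb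
  exact li_scale (y := fun β : B => yw h β.1) (C := C'') (R := τ' ^ e) hG''.one_le hG''.size (by positivity) hdisc hQ k g hg hgs

end Pool.Agent.X120.GS
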