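import Pool.Agent.X120.GS.Hyc
import Pool.Agent.Y123.GN.C5
import Pool.Agent.Y123.GN.E8

/-!
# Fibre products over a fixed object
-/

set_option autoImplicit false
set_option linter.unusedSectionVars false

open Matrix Module

namespace Pool.Agent.X120.GS

open Pool.Agent.TH127.PT Pool.Agent.Y123.ST Pool.Agent.Y123.SR Pool.Agent.Y123.GN

section
variable {B₀ : Type} [Fintype B₀] [DecidableEq B₀] {k : ℕ} {n : Fin k → ℕ} {K : Subfield ℂ}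
  {T : Set (Matrix (IG B₀ n) (IG B₀ n) ℂ)}

/-- the blocks -/
def gx (y : Matrix (IG B₀ n) (IG B₀ n) ℂ) : Matrix B₀ B₀ ℂ := y.submatrix Sum.inl Sum.inl

/-- the blocks -/
def gX (y : Matrix (IG B₀ n) (IG B₀ n) ℂ) (i : Fin k) : Matrix (Fin (n i)) (Fin (n i)) ℂ :=
  y.submatrix (fun a => Sum.inr ⟨i, a⟩) (fun a => Sum.inr ⟨i, a⟩)

theorem gx_EG (x : Matrix B₀ B₀ ℂ) (X : ∀ i, Matrix (Fin (n i)) (Fin (n i)) ℂ) : gx (EG x X) = x := rfl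

theorem gX_EG (x : Matrix B₀ B₀ ℂ) (X : ∀ i, Matrix (Fin (n i)) (Fin (n i)) ℂ) : gX (EG x X) = X := by
  funext i
  ext a b
  show (blockDiagonal' X) ⟨i, a⟩ ⟨i, b⟩ = _
  rw [blockDiagonal'_apply_eq]

/-- the entries of block matrices -/
theorem EG_pol {M' : Type} [Fintype M'] [DecidableEq M'] {x : Matrix M' M' ℂ → Matrix B₀ B₀ ℂ}
    {X : Matrix M' M' ℂ → ∀ i, Matrix (Fin (n i)) (Fin (n i)) ℂ} (hx : ∀ a b, Pol fun y => x y a b)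
    (hX : ∀ i a b, Pol fun y => X y i a b) (p q : IG B₀ n) : Pol fun y => EG (x y) (X y) p q := by
  rcases p with a | ⟨i, a⟩
  · rcases q with b | ⟨j, b⟩
    · exact hx a b
    · exact Pol.const 0
  · rcases q with b | ⟨j, b⟩
    · exact Pol.const 0
    · by_cases h : i = j
      · subst h
        have h1 : ∀ y, EG (x y) (X y) (Sum.inr ⟨i, a⟩) (Sum.inr ⟨i, b⟩) = X y i a b := by
          intro y
          show (blockDiagonal' (X y)) ⟨i, a⟩ ⟨i, b⟩ = _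
          rw [blockDiagonal'_apply_eq]
        simp only [h1]
        exact hX i a b
      · have h1 : ∀ y, EG (x y) (X y) (Sum.inr ⟨i, a⟩) (Sum.inr ⟨j, b⟩) = 0 := by
          intro y
          show (blockDiagonal' (X y)) ⟨i, a⟩ ⟨j, b⟩ = _
          exact blockDiagonal'_apply_ne _ _ _ h
        simp only [h1]
        exact Pol.const 0

/-- the fibre product -/
def FPG (J Bm : ∀ i, Matrix (Fin (n i)) (Fin (n i)) ℂ) (w : Fin k → ℕ) (b₀ : B₀) (S : Set (Matrix B₀ B₀ ℂ)) :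
    Set (Matrix (IG B₀ n) (IG B₀ n) ℂ) :=
  {y | ∃ (x : Matrix B₀ B₀ ℂ) (X : ∀ i, Matrix (Fin (n i)) (Fin (n i)) ℂ), x ∈ S ∧ Cm b₀ x ∧
    (∀ i, X i * J i * (X i)ᵀ = x b₀ b₀ ^ w i • Bm i) ∧ y = EG x X}

theorem EG_invG {x : Matrix B₀ B₀ ℂ} {X : ∀ i, Matrix (Fin (n i)) (Fin (n i)) ℂ} (hx : IsUnit x)
    (hX : ∀ i, IsUnit (X i)) : (EG x X)⁻¹ = EG x⁻¹ fun i => (X i)⁻¹ := by
  refine Matrix.inv_eq_right_inv ?_
  rw [EG_mul, Matrix.mul_nonsing_inv _ ((Matrix.isUnit_iff_isUnit_det _).1 hx)]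
  have h1 : (fun i => X i * (X i)⁻¹) = 1 := by
    funext i
    exact Matrix.mul_nonsing_inv _ ((Matrix.isUnit_iff_isUnit_det _).1 (hX i))
  rw [h1, EG_one]

variable {J Bm : ∀ i, Matrix (Fin (n i)) (Fin (n i)) ℂ} {w : Fin k → ℕ} {b₀ : B₀}

theorem fpg_unit (hB : ∀ i, (Bm i).det ≠ 0) {S : Set (Matrix B₀ B₀ ℂ)} (hS : ∀ x ∈ S, IsUnit x) :
    ∀ y ∈ FPG (n := n) J Bm w b₀ S, IsUnit y := by
  rintro _ ⟨x, X, h1, h2, h3, rfl⟩
  have h4 := (cm_inv (hS x h1) h2).2.1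
  exact EG_isUnit (hS x h1) fun i => unit_of_form (pow_ne_zero _ h4) (hB i) (h3 i)

theorem fpg_sub (hB : ∀ i, (Bm i).det ≠ 0) (hJK : ∀ i a b, J i a b ∈ K) (hBK : ∀ i a b, Bm i a b ∈ K)
    {S : Set (Matrix B₀ B₀ ℂ)} (hS : IsSubtorsor K S) : IsSubtorsor K (FPG (n := n) J Bm w b₀ S) := by
  classical
  refine sub_of (fpg_unit hB hS.isUnit) ?_ ?_ ?_
  · rintro _ ⟨x, X, h1, h2, h3, rfl⟩ _ ⟨y, Y, h1', h2', h3', rfl⟩ _ ⟨z, Z, h1'', h2'', h3'', rfl⟩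
    obtain ⟨h4, h5, h6⟩ := cm_inv (hS.isUnit y h1') h2'
    have hμ : (x * y⁻¹ * z) b₀ b₀ = x b₀ b₀ * (y b₀ b₀)⁻¹ * z b₀ b₀ := by
      rw [cm_mul_apply (cm_mul h2 h4), cm_mul_apply h2, h6]
    refine ⟨x * y⁻¹ * z, fun i => X i * (Y i)⁻¹ * Z i,
      hS.torsor x h1 y h1' z h1'', cm_mul (cm_mul h2 h4) h2'', fun i => ?_, ?_⟩
    · rw [form_tor (pow_ne_zero _ h5) (hB i) (h3 i) (h3' i) (h3'' i), hμ]
      congr 1
      rw [mul_pow, mul_pow, inv_pow]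
    · rw [EG_invG (hS.isUnit y h1') (fun i => unit_of_form (pow_ne_zero _ h5) (hB i) (h3' i)),
        EG_mul, EG_mul]
  · rintro σ hσ _ ⟨x, X, h1, h2, h3, rfl⟩
    rw [EG_map _ (map_zero σ)]
    refine ⟨x.map σ, fun i => (X i).map σ, aut_mem hS hσ h1, ?_, fun i => ?_, rfl⟩
    · intro j hj
      obtain ⟨e1, e2⟩ := h2 j hj
      simp [Matrix.map_apply, e1, e2]
    · have h4 := form_map (hJK i) (hBK i) hσ (h3 i)
      rw [h4, map_pow]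
      rfl
  · intro y hu hF
    have hy : y = EG (gx y) (gX y) := by
      ext a b
      have h1 := hF (fun y => y a b - EG (gx y) (gX y) a b)
        ((Pol.coord a b).sub (EG_pol (fun _ _ => Pol.coord _ _) (fun _ _ _ => Pol.coord _ _) a b)) (by
        rintro _ ⟨x, X, -, -, -, rfl⟩
        rw [gx_EG, gX_EG, sub_self])
      exact sub_eq_zero.1 h1
    have hux := EG_unit (hy ▸ hu)
    refine ⟨gx y, gX y, ?_, ?_, fun i => ?_, hy⟩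
    · obtain ⟨I, -, hI⟩ := hS.algebraic
      refine (hI _).2 ⟨hux, fun p hp => ?_⟩
      refine hF (fun y => MvPolynomial.eval (fl (gx y)) p) (Pol.comp (fun _ _ => Pol.coord _ _) p) ?_
      rintro _ ⟨x, X, h1, -, -, rfl⟩
      rw [gx_EG]
      exact ((hI x).1 h1).2 p hp
    · intro j hj
      constructor
      · refine hF (fun y => gx y b₀ j) (Pol.coord _ _) ?_
        rintro _ ⟨x, X, -, h2, -, rfl⟩
        exact (h2 j hj).1
      · refine hF (fun y => gx y j b₀) (Pol.coord _ _) ?_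
        rintro _ ⟨x, X, -, h2, -, rfl⟩
        exact (h2 j hj).2
    · ext a b
      have h1 := hF (fun y => (∑ d, (∑ c, gX y i a c * J i c d) * gX y i b d) - gx y b₀ b₀ ^ w i * Bm i a b) (by
        refine Pol.sub (Pol.sum _ fun d _ => Pol.mul (Pol.sum _ fun c _ => Pol.mul (Pol.coord _ _) (Pol.const _)) (Pol.coord _ _))
          (Pol.mul (Pol.pow (Pol.coord _ _) _) (Pol.const _))) (by
        rintro _ ⟨x, X, -, -, h3, rfl⟩
        have h4 := congrFun (congrFun (h3 i) a) b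
        rw [gX_EG, gx_EG]
        simp only [Matrix.mul_apply, Matrix.transpose_apply, Matrix.smul_apply, smul_eq_mul] at h4
        rw [h4, sub_self])
      simp only [Matrix.mul_apply, Matrix.transpose_apply, Matrix.smul_apply, smul_eq_mul]
      exact sub_eq_zero.1 h1

/-- the projection -/
def PG (T : Set (Matrix (IG B₀ n) (IG B₀ n) ℂ)) : Set (Matrix B₀ B₀ ℂ) := {x | ∃ X, EG x X ∈ T}

/-- stable -/
def StG (Bm : ∀ i, Matrix (Fin (n i)) (Fin (n i)) ℂ) (T : Set (Matrix (IG B₀ n) (IG B₀ n) ℂ)) : Prop :=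
  ∀ g : ∀ i, Matrix (Fin (n i)) (Fin (n i)) ℂ, (∀ i, g i * Bm i * (g i)ᵀ = Bm i) → ∀ x ∈ T, EG 1 g * x ∈ T

theorem fibG (hB : ∀ i, (Bm i).det ≠ 0) (hTF : T ⊆ FPG J Bm w b₀ {x | IsUnit x})
    (hst : StG Bm T) {x : Matrix B₀ B₀ ℂ} (hx : x ∈ PG T) {X : ∀ i, Matrix (Fin (n i)) (Fin (n i)) ℂ}
    (hX : ∀ i, X i * J i * (X i)ᵀ = x b₀ b₀ ^ w i • Bm i) : EG x X ∈ T := by
  obtain ⟨Y, hY⟩ := hx
  obtain ⟨x', Y', h1, h2, h3, h4⟩ := hTF hY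
  obtain ⟨rfl, rfl⟩ := EG_inj h4
  have hμ := (cm_inv h1 h2).2.1
  have hu : ∀ i, IsUnit (Y i) := fun i => unit_of_form (pow_ne_zero _ hμ) (hB i) (h3 i)
  have h5 := hst (fun i => X i * (Y i)⁻¹) (fun i => by
    have h7 : (Y i)⁻¹ * Bm i * ((Y i)⁻¹)ᵀ = (x b₀ b₀ ^ w i)⁻¹ • J i := by
      have hud := (Matrix.isUnit_iff_isUnit_det _).1 (hu i)
      have h8 : Bm i = (x b₀ b₀ ^ w i)⁻¹ • (Y i * J i * (Y i)ᵀ) := by
        rw [h3, smul_smul, inv_mul_cancel₀ (pow_ne_zero _ hμ), one_smul]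
      have h9 : (Y i)ᵀ * ((Y i)⁻¹)ᵀ = 1 := by rw [← transpose_mul, nonsing_inv_mul _ hud, transpose_one]
      rw [h8, Matrix.mul_smul, Matrix.smul_mul]
      congr 1
      calc (Y i)⁻¹ * (Y i * J i * (Y i)ᵀ) * ((Y i)⁻¹)ᵀ = ((Y i)⁻¹ * Y i) * J i * ((Y i)ᵀ * ((Y i)⁻¹)ᵀ) := by
            simp only [Matrix.mul_assoc]
        _ = J i := by rw [nonsing_inv_mul _ hud, h9, Matrix.one_mul, Matrix.mul_one]
    rw [transpose_mul]
    calc X i * (Y i)⁻¹ * Bm i * (((Y i)⁻¹)ᵀ * (X i)ᵀ) = X i * ((Y i)⁻¹ * Bm i * ((Y i)⁻¹)ᵀ) * (X i)ᵀ := by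
          simp only [Matrix.mul_assoc]
      _ = Bm i := by
          rw [h7, Matrix.mul_smul, Matrix.smul_mul, hX, smul_smul, inv_mul_cancel₀ (pow_ne_zero _ hμ), one_smul]) _ hY
  rw [EG_mul, Matrix.one_mul] at h5
  convert h5 using 2
  funext i
  rw [Matrix.mul_assoc, nonsing_inv_mul _ ((Matrix.isUnit_iff_isUnit_det _).1 (hu i)), Matrix.mul_one]

theorem pg_all (hJ : ∀ i, (J i)ᵀ = -J i) (hJd : ∀ i, (J i).det ≠ 0) (hB : ∀ i, (Bm i).det ≠ 0) (hT : IsSubtorsor K T)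
    (hTF : T ⊆ FPG J Bm w b₀ {x | IsUnit x}) (hst : StG Bm T) {τ : ℂ} (hτ : τ ≠ 0)
    {c : ∀ i, Matrix (Fin (n i)) (Fin (n i)) ℂ} (hc : ∀ i, c i * J i * (c i)ᵀ = τ ^ w i • Bm i) :
    IsSubtorsor K (PG T) ∧ T = FPG J Bm w b₀ (PG T) := by
  classical
  have hPu : ∀ x ∈ PG T, IsUnit x ∧ Cm b₀ x := by
    rintro x ⟨X, hX⟩
    obtain ⟨x', Y', h1, h2, h3, h4⟩ := hTF hX
    obtain ⟨rfl, rfl⟩ := EG_inj h4
    exact ⟨h1, h2⟩
  have hfib := fun x (hx : x ∈ PG T) X hX => fibG (X := X) hB hTF hst hx hX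
  refine ⟨?_, ?_⟩
  · choose e he1 he2 using fun i => lag_mat (hJ i) (hJd i)
    have hsec : ∀ i (μ : ℂ), (c i * dl (e i) ((μ / τ) ^ w i)) * J i * (c i * dl (e i) ((μ / τ) ^ w i))ᵀ = μ ^ w i • Bm i := by
      intro i μ
      rw [transpose_mul]
      calc c i * dl (e i) ((μ / τ) ^ w i) * J i * ((dl (e i) ((μ / τ) ^ w i))ᵀ * (c i)ᵀ) =
          c i * (dl (e i) ((μ / τ) ^ w i) * J i * (dl (e i) ((μ / τ) ^ w i))ᵀ) * (c i)ᵀ := by simp only [Matrix.mul_assoc]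
        _ = μ ^ w i • Bm i := by
          rw [dl_J (he1 i) (he2 i), Matrix.mul_smul, Matrix.smul_mul, hc, smul_smul, div_pow, div_mul_cancel₀ _ (pow_ne_zero _ hτ)]
    let G : Matrix B₀ B₀ ℂ → Matrix (IG B₀ n) (IG B₀ n) ℂ := fun x =>
      EG x fun i => c i * dl (e i) ((x b₀ b₀ / τ) ^ w i)
    have hG : ∀ a b, Pol fun x => G x a b := by
      refine EG_pol (fun a b => Pol.coord a b) (fun i a b => ?_)
      simp only [Matrix.mul_apply]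
      refine Pol.sum _ fun d _ => Pol.mul (Pol.const _) ?_
      simp only [dl, Matrix.add_apply, Matrix.smul_apply, smul_eq_mul]
      refine Pol.add (Pol.const _) (Pol.mul (Pol.pow ?_ _) (Pol.const _))
      simp only [div_eq_mul_inv]
      exact Pol.mul (Pol.coord _ _) (Pol.const _)
    refine sub_of (fun x hx => (hPu x hx).1) ?_ ?_ ?_
    · rintro x ⟨X, hX⟩ y ⟨Y, hY⟩ z ⟨Z, hZ⟩
      have h1 := hT.torsor _ hX _ hY _ hZ
      have h2 := hT.isUnit _ hY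
      rw [EG_invG (EG_unit h2) (EG_block_unit h2), EG_mul, EG_mul] at h1
      exact ⟨_, h1⟩
    · rintro σ hσ x ⟨X, hX⟩
      have h1 := aut_mem hT hσ hX
      rw [EG_map _ (map_zero σ)] at h1
      exact ⟨_, h1⟩
    · intro y hu hF
      have hcm : Cm b₀ y := by
        intro j hj
        constructor
        · exact hF (fun y => y b₀ j) (Pol.coord _ _) fun x hx => ((hPu x hx).2 j hj).1
        · exact hF (fun y => y j b₀) (Pol.coord _ _) fun x hx => ((hPu x hx).2 j hj).2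
      have hμ := (cm_inv hu hcm).2.1
      refine ⟨fun i => c i * dl (e i) ((y b₀ b₀ / τ) ^ w i), ?_⟩
      obtain ⟨I, -, hI⟩ := hT.algebraic
      refine (hI _).2 ⟨EG_isUnit hu fun i => unit_of_form (pow_ne_zero _ hμ) (hB i) (hsec i _),
        fun p hp => ?_⟩
      refine hF (fun x => MvPolynomial.eval (fl (G x)) p) (Pol.comp hG p) fun x hx => ?_
      have h1 := hfib x hx (fun i => c i * dl (e i) ((x b₀ b₀ / τ) ^ w i)) fun i => hsec i _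
      exact ((hI _).1 h1).2 p hp
  · ext y
    constructor
    · intro hy
      obtain ⟨x, X, h1, h2, h3, h4⟩ := hTF hy
      refine ⟨x, X, ⟨X, ?_⟩, h2, h3, h4⟩
      rw [← h4]
      exact hy
    · rintro ⟨x, X, h1, h2, h3, rfl⟩
      exact hfib x h1 X h3

theorem pg_om (hB : ∀ i, (Bm i).det ≠ 0) (hJK : ∀ i a b, J i a b ∈ K) (hBK : ∀ i a b, Bm i a b ∈ K)
    {c₀ : Matrix B₀ B₀ ℂ} (hc₀ : IsUnit c₀) (hcm : Cm b₀ c₀) {c : ∀ i, Matrix (Fin (n i)) (Fin (n i)) ℂ}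
    (hc : ∀ i, c i * J i * (c i)ᵀ = c₀ b₀ b₀ ^ w i • Bm i)
    (hall : ∀ T : Set (Matrix (IG B₀ n) (IG B₀ n) ℂ), IsSubtorsor K T → EG c₀ c ∈ T →
      T ⊆ FPG J Bm w b₀ {x | IsUnit x} → T = FPG J Bm w b₀ (PG T) ∧ IsSubtorsor K (PG T))
    {Ω₀ : Set (Matrix B₀ B₀ ℂ)} (hΩ : Om K c₀ Ω₀) :
    Om K (EG c₀ c) (FPG J Bm w b₀ Ω₀) := by
  obtain ⟨h1, h2, h3⟩ := hΩ
  refine ⟨subT_iff.2 (fpg_sub hB hJK hBK (subT_iff.1 h1)), ⟨c₀, c, h2, hcm, hc, rfl⟩, fun T hT hcT => ?_⟩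
  have hT' := subT_iff.1 hT
  have hU : IsSubtorsor K (FPG (n := n) J Bm w b₀ {x | IsUnit x}) := fpg_sub hB hJK hBK units_sub
  have hI := Pool.Agent.Y123.GN.inter_sub hT' hU
  have hcI : EG c₀ c ∈ T ∩ FPG J Bm w b₀ {x | IsUnit x} := ⟨hcT, ⟨c₀, c, hc₀, hcm, hc, rfl⟩⟩
  obtain ⟨h4, h5⟩ := hall _ hI hcI Set.inter_subset_right
  have h6 : Ω₀ ⊆ PG (T ∩ FPG J Bm w b₀ {x | IsUnit x}) := h3 _ (subT_iff.2 h5) ⟨_, hcI⟩
  rintro _ ⟨x, X, e1, e2, e3, rfl⟩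
  have h7 : EG x X ∈ T ∩ FPG J Bm w b₀ {x | IsUnit x} := by
    rw [h4]
    exact ⟨x, X, h6 e1, e2, e3, rfl⟩
  exact h7.1

end

section stab
variable {k : ℕ} {n : Fin k → ℕ}

/-- all subtorsors over all fields of degree at most `D` are stable -/
def StaG {B₀ : Type} [Fintype B₀] [DecidableEq B₀] (D : ℕ) (C₀ : Matrix B₀ B₀ ℂ) (W B : ∀ i, Matrix (Fin (n i)) (Fin (n i)) ℂ) : Prop :=
  ∀ K : Subfield ℂ, FiniteDimensional ℚ K → finrank ℚ K ≤ D → ∀ T : Set (Matrix (IG B₀ n) (IG B₀ n) ℂ),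
    IsSubtorsor K T → EG C₀ W ∈ T → ∀ g : ∀ i, (Matrix (Fin (n i)) (Fin (n i)) ℂ)ˣ, (∀ i, g i ∈ GB (B i)) →
      ∀ x ∈ T, EG 1 (fun i => (g i : Matrix (Fin (n i)) (Fin (n i)) ℂ)) * x ∈ T

/-- from relations of bounded degree to all subtorsors -/
theorem sta_of (m D : ℕ) : ∃ d : ℕ, ∀ (B₀ : Type) [Fintype B₀] [DecidableEq B₀] (k : ℕ) (n : Fin k → ℕ),
    Fintype.card B₀ + ∑ i, n i ≤ m → ∀ (C₀ : Matrix B₀ B₀ ℂ)
    (W B : ∀ i, Matrix (Fin (n i)) (Fin (n i)) ℂ), (∀ i, Clf (B i)) → GoodY 1 d C₀ W B → StaG D C₀ W B := by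
  obtain ⟨d, -, hd⟩ := comm_all m D
  refine ⟨d, ?_⟩
  intro B₀ _ _ k n hm C₀ W B hB hgood K hKf hKD T hT hcT g hg
  have hcard : Fintype.card (IG B₀ n) ≤ m := by
    rw [card_IG]
    exact hm
  obtain ⟨hbf, hb1⟩ := bot_fin
  have hrelG : ∀ g ∈ Ug (GG B₀ (fun i => GB (B i))), Rl ⊥ d (EG C₀ W)
      (g * EG C₀ W) := by
    intro g hg
    obtain ⟨g', hg', rfl⟩ := Ug_le _ hg
    exact hgood ⊥ hbf hb1 g' fun i => hg' i (Set.mem_univ i)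
  obtain ⟨hcomm, -, -⟩ := hd (IG B₀ n) hcard _ (GG B₀ fun i => GB (B i)) hrelG K hKf hKD T hT hcT
  refine all_blocksG fun i => ?_
  refine hcomm _ ?_
  have h1 : em B₀ i (g i) ∈ (⁅Ug (GB (B i)), Ug (GB (B i))⁆ : Subgroup _).map (em B₀ i) :=
    ⟨g i, cl_perf (hB i) (hg i), rfl⟩
  rw [Subgroup.map_commutator] at h1
  exact Subgroup.commutator_mono em_Ug em_Ug h1

end stab

end Pool.Agent.X120.GS
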