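import Mathlib

/-!
# The method of Frobenius for systems with a regular singularity
-/

set_option autoImplicit false

open Polynomial

namespace Pool.Agent.X120.GS.Frb

/-! ### operators in the logarithm -/

theorem surj_mono (s : ℂ) : ∀ (n : ℕ) (a : ℂ), ∃ w : ℂ[X], derivative w + C s * w = monomial n a := by
  by_cases hs : s = 0
  · intro n a
    refine ⟨monomial (n + 1) (a / (n + 1)), ?_⟩
    have h1 : ((n : ℂ) + 1) ≠ 0 := by exact_mod_cast Nat.succ_ne_zero n
    rw [derivative_monomial, hs, C_0, zero_mul, add_zero, Nat.add_sub_cancel]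
    congr 1
    push_cast
    field_simp
  · intro n
    induction n with
    | zero =>
      intro a
      refine ⟨C (a / s), ?_⟩
      rw [derivative_C, zero_add, ← C_mul, monomial_zero_left]
      congr 1
      field_simp
    | succ n ih =>
      intro a
      obtain ⟨w, hw⟩ := ih (a / s * (n + 1 : ℕ))
      refine ⟨monomial (n + 1) (a / s) - w, ?_⟩
      rw [derivative_sub, derivative_monomial, Nat.add_sub_cancel, mul_sub]
      have h2 : C s * monomial (n + 1) (a / s) = monomial (n + 1) a := by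
        rw [C_mul_monomial]
        congr 1
        field_simp
      rw [h2, ← hw]
      ring

theorem surj_scalar (s : ℂ) (f : ℂ[X]) : ∃ w : ℂ[X], derivative w + C s * w = f := by
  induction f using Polynomial.induction_on' with
  | add p q hp hq =>
    obtain ⟨w, hw⟩ := hp
    obtain ⟨w', hw'⟩ := hq
    refine ⟨w + w', ?_⟩
    rw [derivative_add, mul_add, ← hw, ← hw']
    ring
  | monomial n a => exact surj_mono s n a

/-- the derivative as an endomorphism -/
noncomputable def dd : Module.End ℂ ℂ[X] := derivative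

theorem surj_poly : ∀ (n : ℕ) (χ : ℂ[X]), χ ≠ 0 → χ.natDegree ≤ n → Function.Surjective (aeval dd χ) := by
  intro n
  induction n with
  | zero =>
    intro χ h0 hn f
    have h1 := eq_C_of_natDegree_le_zero hn
    have h2 : χ.coeff 0 ≠ 0 := by
      intro h
      rw [h, C_0] at h1
      exact h0 h1
    refine ⟨C (χ.coeff 0)⁻¹ * f, ?_⟩
    rw [h1, aeval_C, Module.algebraMap_end_apply, smul_eq_C_mul, ← mul_assoc, ← C_mul, coeff_C_zero, mul_inv_cancel₀ h2, C_1,
      one_mul]
  | succ n ih =>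
    intro χ h0 hn
    by_cases hd : χ.natDegree ≤ n
    · exact ih χ h0 hd
    · have hdeg : χ.degree ≠ 0 := by
        intro h
        apply hd
        have h5 : χ.natDegree = 0 := by
          rw [natDegree, h]
          rfl
        omega
      obtain ⟨z, hz⟩ := IsAlgClosed.exists_root χ hdeg
      obtain ⟨χ', rfl⟩ := dvd_iff_isRoot.2 hz
      have h1 : χ' ≠ 0 := right_ne_zero_of_mul h0
      have h2 : χ'.natDegree ≤ n := by
        rw [natDegree_mul (X_sub_C_ne_zero z) h1, natDegree_X_sub_C] at hn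
        omega
      rw [map_mul]
      refine Function.Surjective.comp (g := aeval dd (X - C z)) ?_ (ih χ' h1 h2)
      intro f
      obtain ⟨w, hw⟩ := surj_scalar (-z) f
      refine ⟨w, ?_⟩
      rw [map_sub, aeval_X, aeval_C, LinearMap.sub_apply, Module.algebraMap_end_apply, smul_eq_C_mul]
      show derivative w - C z * w = f
      rw [← hw, C_neg]
      ring

section
variable {r : ℕ}

/-- a matrix of operators acts on vectors -/
noncomputable def op (P : Matrix (Fin r) (Fin r) ℂ[X]) (w : Fin r → ℂ[X]) : Fin r → ℂ[X] :=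
  fun i => ∑ j, aeval dd (P i j) (w j)

theorem op_mul (P Q : Matrix (Fin r) (Fin r) ℂ[X]) (w : Fin r → ℂ[X]) : op (P * Q) w = op P (op Q w) := by
  funext i
  unfold op
  simp only [Matrix.mul_apply, map_sum, LinearMap.sum_apply, map_mul, Module.End.mul_apply]
  rw [Finset.sum_comm]

/-- a matrix acts on vectors of polynomials -/
noncomputable def act (M : Matrix (Fin r) (Fin r) ℂ) (w : Fin r → ℂ[X]) : Fin r → ℂ[X] :=
  fun i => ∑ j, C (M i j) * w j

theorem act_coeff (M : Matrix (Fin r) (Fin r) ℂ) (w : Fin r → ℂ[X]) (i : Fin r) (n : ℕ) :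
    (act M w i).coeff n = ∑ j, M i j * (w j).coeff n := by
  unfold act
  rw [finsetSum_coeff]
  exact Finset.sum_congr rfl fun j _ => coeff_C_mul _

/-- solutions of `w' + m w - C₀ w = f` -/
theorem solve (C₀ : Matrix (Fin r) (Fin r) ℂ) (m : ℕ) (f : Fin r → ℂ[X]) :
    ∃ w : Fin r → ℂ[X], ∀ i, derivative (w i) + (m : ℂ[X]) * w i - act C₀ w i = f i := by
  classical
  set M : Matrix (Fin r) (Fin r) ℂ := C₀ - (m : ℂ) • 1 with hM
  have hχ : M.charpoly ≠ 0 := (Matrix.charpoly_monic M).ne_zero
  choose g hg using fun i => surj_poly _ M.charpoly hχ le_rfl (f i)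
  refine ⟨op M.charmatrix.adjugate g, fun i => ?_⟩
  have h1 : op M.charmatrix (op M.charmatrix.adjugate g) i = f i := by
    rw [← op_mul, Matrix.mul_adjugate]
    show ∑ j, aeval dd ((M.charpoly • (1 : Matrix (Fin r) (Fin r) ℂ[X])) i j) (g j) = f i
    rw [Finset.sum_eq_single i]
    · rw [Matrix.smul_apply, Matrix.one_apply_eq, smul_eq_mul, mul_one]
      exact hg i
    · intro j _ hj
      rw [Matrix.smul_apply, Matrix.one_apply_ne hj.symm, smul_zero, map_zero, LinearMap.zero_apply]
    · intro h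
      exact absurd (Finset.mem_univ _) h
  set w := op M.charmatrix.adjugate g with hw
  rw [← h1]
  unfold op act
  have h2 : ∀ j, aeval dd (M.charmatrix i j) (w j) =
      (if i = j then derivative (w j) + (m : ℂ[X]) * w j else 0) - C (C₀ i j) * w j := by
    intro j
    by_cases hij : i = j
    · subst hij
      rw [Matrix.charmatrix_apply_eq, map_sub, aeval_X, aeval_C, LinearMap.sub_apply, Module.algebraMap_end_apply,
        if_pos rfl, hM, Matrix.sub_apply, Matrix.smul_apply, Matrix.one_apply_eq, smul_eq_C_mul]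
      show derivative (w i) - C (C₀ i i - (m : ℂ) • (1 : ℂ)) * w i = _
      rw [smul_eq_mul, mul_one, C_sub, map_natCast]
      ring
    · rw [Matrix.charmatrix_apply_ne _ _ _ hij, map_neg, aeval_C, LinearMap.neg_apply, Module.algebraMap_end_apply,
        if_neg hij, hM, Matrix.sub_apply, Matrix.smul_apply, Matrix.one_apply_ne hij, smul_eq_C_mul, smul_zero, sub_zero]
      ring
  rw [Finset.sum_congr rfl fun j _ => h2 j, Finset.sum_sub_distrib, Finset.sum_ite_eq, if_pos (Finset.mem_univ _)]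

/-- the degree of the solutions -/
theorem solve_deg {C₀ : Matrix (Fin r) (Fin r) ℂ} {m q : ℕ} (hm : ∀ v : Fin r → ℂ, C₀.mulVec v = (m : ℂ) • v → v = 0)
    {f w : Fin r → ℂ[X]} (hw : ∀ i, derivative (w i) + (m : ℂ[X]) * w i - act C₀ w i = f i)
    (hf : ∀ n, q ≤ n → ∀ i, (f i).coeff n = 0) : ∀ n, q ≤ n → ∀ i, (w i).coeff n = 0 := by
  obtain ⟨N₀, hN₀⟩ : ∃ N₀ : ℕ, ∀ n, N₀ ≤ n → ∀ i, (w i).coeff n = 0 := by
    refine ⟨(∑ i, (w i).natDegree) + 1, fun n hn i => coeff_eq_zero_of_natDegree_lt ?_⟩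
    have := Finset.single_le_sum (f := fun i => (w i).natDegree) (fun _ _ => Nat.zero_le _) (Finset.mem_univ i)
    omega
  have h1 : ∀ k n, N₀ ≤ n + k → q ≤ n → ∀ i, (w i).coeff n = 0 := by
    intro k
    induction k with
    | zero =>
      intro n hn _
      exact hN₀ n hn
    | succ k ih =>
      intro n hn hq
      have h2 := ih (n + 1) (by omega) (by omega)
      have h3 : (fun i => (w i).coeff n) = 0 := by
        apply hm
        funext i
        have h4 := congrArg (fun p : ℂ[X] => p.coeff n) (hw i)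
        beta_reduce at h4
        rw [coeff_sub, coeff_add, coeff_derivative, h2 i, zero_mul, zero_add, act_coeff, hf n hq i] at h4
        have h5 : ((m : ℂ[X]) * w i).coeff n = (m : ℂ) * (w i).coeff n := by
          rw [← map_natCast (C : ℂ →+* ℂ[X]), coeff_C_mul]
        rw [h5, sub_eq_zero] at h4
        show ∑ j, C₀ i j * (w j).coeff n = (m : ℂ) * (w i).coeff n
        exact h4.symm
      intro i
      exact congrFun h3 i
  intro n hn i
  exact h1 N₀ n (by omega) hn i

/-- the size of the solutions -/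
theorem solve_size {C₀ : Matrix (Fin r) (Fin r) ℂ} {m q : ℕ} {c₀ : ℝ} (hc : ∀ i j, ‖C₀ i j‖ ≤ c₀) (hc0 : 0 ≤ c₀)
    (hm : (q : ℝ) + r * c₀ + 1 ≤ m)
    {f w : Fin r → ℂ[X]} (hw : ∀ i, derivative (w i) + (m : ℂ[X]) * w i - act C₀ w i = f i)
    (hw0 : ∀ n, q ≤ n → ∀ i, (w i).coeff n = 0) :
    ∑ i, ∑ n ∈ Finset.range q, ‖(w i).coeff n‖ ≤ ∑ i, ∑ n ∈ Finset.range q, ‖(f i).coeff n‖ := by
  set a := ∑ i, ∑ n ∈ Finset.range q, ‖(w i).coeff n‖ with ha
  have ha0 : 0 ≤ a := Finset.sum_nonneg fun i _ => Finset.sum_nonneg fun n _ => norm_nonneg _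
  have h1 : ∀ i, ∀ n ∈ Finset.range q, (m : ℝ) * ‖(w i).coeff n‖ ≤ ‖(f i).coeff n‖ + q * ‖(w i).coeff (n + 1)‖ +
      ∑ j, c₀ * ‖(w j).coeff n‖ := by
    intro i n hn
    have hnq := Finset.mem_range.1 hn
    have h4 := congrArg (fun p : ℂ[X] => p.coeff n) (hw i)
    beta_reduce at h4
    rw [coeff_sub, coeff_add, coeff_derivative, act_coeff] at h4
    have h5 : ((m : ℂ[X]) * w i).coeff n = (m : ℂ) * (w i).coeff n := by
      rw [← map_natCast (C : ℂ →+* ℂ[X]), coeff_C_mul]
    rw [h5] at h4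
    have h6 : (m : ℂ) * (w i).coeff n = (f i).coeff n - (w i).coeff (n + 1) * (n + 1) + ∑ j, C₀ i j * (w j).coeff n := by
      rw [← h4]
      ring
    have h7 : (m : ℝ) * ‖(w i).coeff n‖ = ‖(m : ℂ) * (w i).coeff n‖ := by
      rw [norm_mul, Complex.norm_natCast]
    rw [h7, h6]
    refine (norm_add_le _ _).trans (add_le_add ((norm_sub_le _ _).trans (add_le_add le_rfl ?_)) ?_)
    · rw [norm_mul, mul_comm]
      refine mul_le_mul_of_nonneg_right ?_ (norm_nonneg _)
      have h8 : ((n : ℂ) + 1) = ((n + 1 : ℕ) : ℂ) := by push_cast; ring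
      rw [h8, Complex.norm_natCast]
      exact_mod_cast hnq
    · refine (norm_sum_le _ _).trans (Finset.sum_le_sum fun j _ => ?_)
      rw [norm_mul]
      exact mul_le_mul_of_nonneg_right (hc i j) (norm_nonneg _)
  have h2 : ∀ i, ∑ n ∈ Finset.range q, ‖(w i).coeff (n + 1)‖ ≤ ∑ n ∈ Finset.range q, ‖(w i).coeff n‖ := by
    intro i
    have h3 := Finset.sum_range_succ' (fun n => ‖(w i).coeff n‖) q
    have h4 := Finset.sum_range_succ (fun n => ‖(w i).coeff n‖) q
    rw [hw0 q le_rfl i, norm_zero, add_zero] at h4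
    have h5 := norm_nonneg ((w i).coeff 0)
    linarith
  have h3 : (m : ℝ) * a ≤ ∑ i, ∑ n ∈ Finset.range q, ‖(f i).coeff n‖ + q * a + r * c₀ * a := by
    calc (m : ℝ) * a = ∑ i, ∑ n ∈ Finset.range q, (m : ℝ) * ‖(w i).coeff n‖ := by
          rw [ha, Finset.mul_sum]
          exact Finset.sum_congr rfl fun i _ => Finset.mul_sum _ _ _
      _ ≤ ∑ i, ∑ n ∈ Finset.range q, (‖(f i).coeff n‖ + q * ‖(w i).coeff (n + 1)‖ + ∑ j, c₀ * ‖(w j).coeff n‖) :=
          Finset.sum_le_sum fun i _ => Finset.sum_le_sum (h1 i)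
      _ = ∑ i, ∑ n ∈ Finset.range q, ‖(f i).coeff n‖ + q * ∑ i, ∑ n ∈ Finset.range q, ‖(w i).coeff (n + 1)‖ +
          r * c₀ * a := by
          simp only [Finset.sum_add_distrib]
          congr 1
          · congr 1
            rw [Finset.mul_sum]
            exact Finset.sum_congr rfl fun i _ => (Finset.mul_sum _ _ _).symm
          · have e1 : ∀ i : Fin r, ∑ n ∈ Finset.range q, ∑ j, c₀ * ‖(w j).coeff n‖ = c₀ * a := by
              intro i
              rw [Finset.sum_comm, ha, Finset.mul_sum]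
              exact Finset.sum_congr rfl fun j _ => (Finset.mul_sum _ _ _).symm
            rw [Finset.sum_congr rfl fun i _ => e1 i, Finset.sum_const, Finset.card_univ, Fintype.card_fin, nsmul_eq_mul]
            ring
      _ ≤ _ := by
          refine add_le_add (add_le_add le_rfl ?_) le_rfl
          exact mul_le_mul_of_nonneg_left (Finset.sum_le_sum fun i _ => h2 i) (Nat.cast_nonneg _)
  nlinarith

end

end Pool.Agent.X120.GS.Frb
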