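import Pool.Agent.X120.GS.Frb

/-!
# The method of Frobenius: one solution with a given leading term
-/

set_option autoImplicit false

open Polynomial

namespace Pool.Agent.X120.GS.Frb

theorem geom_growth {a : ℕ → ℝ} (ha : ∀ m, 0 ≤ a m) {c K : ℝ} (hc : 1 ≤ c) (hK : 1 ≤ K) {m₀ : ℕ}
    (h : ∀ m, m₀ ≤ m → a m ≤ ∑ l ∈ Finset.range m, c * K ^ (l + 1) * a (m - 1 - l)) :
    ∃ ρ : ℝ, 1 ≤ ρ ∧ ∀ m, a m ≤ ρ ^ (m + 1) := by
  set ρ := K * (1 + c) with hρ
  set A := 1 + ∑ m ∈ Finset.range m₀, a m with hA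
  have hsum0 : 0 ≤ ∑ m ∈ Finset.range m₀, a m := Finset.sum_nonneg fun m _ => ha m
  have hA1 : 1 ≤ A := by linarith
  have hρ1 : 1 ≤ ρ := by nlinarith
  have hρ0 : 0 < ρ := by linarith
  have h1 : ∀ m, a m ≤ A * ρ ^ m := by
    intro m
    induction m using Nat.strong_induction_on with
    | _ m ih =>
      by_cases hm : m₀ ≤ m
      · refine (h m hm).trans ?_
        have h2 : ∑ l ∈ Finset.range m, c * K ^ (l + 1) * a (m - 1 - l) ≤
            ∑ l ∈ Finset.range m, c * K ^ (l + 1) * (A * ρ ^ (m - 1 - l)) := by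
          refine Finset.sum_le_sum fun l hl => ?_
          have hl' := Finset.mem_range.1 hl
          exact mul_le_mul_of_nonneg_left (ih _ (by omega)) (by positivity)
        refine h2.trans ?_
        have h3 : ∑ l ∈ Finset.range m, c * K ^ (l + 1) * (A * ρ ^ (m - 1 - l)) =
            A * (c * K * ∑ l ∈ Finset.range m, K ^ l * ρ ^ (m - 1 - l)) := by
          rw [Finset.mul_sum, Finset.mul_sum]
          exact Finset.sum_congr rfl fun l _ => by ring
        rw [h3]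
        refine mul_le_mul_of_nonneg_left ?_ (by linarith)
        have h4 := geom_sum₂_mul K ρ m
        have h5 : c * K * ∑ l ∈ Finset.range m, K ^ l * ρ ^ (m - 1 - l) = ρ ^ m - K ^ m := by
          rw [← neg_sub (K ^ m), ← h4, hρ]
          ring
        rw [h5]
        have : 0 ≤ K ^ m := by positivity
        linarith
      · have h2 : a m ≤ ∑ m ∈ Finset.range m₀, a m :=
          Finset.single_le_sum (fun m _ => ha m) (Finset.mem_range.2 (by omega))
        have h3 : (1 : ℝ) ≤ ρ ^ m := one_le_pow₀ hρ1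
        nlinarith
  refine ⟨A * ρ, by nlinarith, fun m => ?_⟩
  have h2 : A ≤ A ^ (m + 1) := le_self_pow₀ hA1 (by omega)
  have h3 : ρ ^ m ≤ ρ ^ (m + 1) := pow_le_pow_right₀ hρ1 (by omega)
  calc a m ≤ A * ρ ^ m := h1 m
    _ ≤ A ^ (m + 1) * ρ ^ (m + 1) := mul_le_mul h2 h3 (by positivity) (by positivity)
    _ = (A * ρ) ^ (m + 1) := (mul_pow _ _ _).symm

section
variable {r : ℕ}

/-- the sequence of the coefficients -/
noncomputable def ws (sol : ℕ → (Fin r → ℂ[X]) → Fin r → ℂ[X]) (Cm : ℕ → Matrix (Fin r) (Fin r) ℂ) (p₀ : Fin r → ℂ[X]) :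
    ℕ → Fin r → ℂ[X]
  | 0 => p₀
  | m + 1 => sol (m + 1) (fun i => ∑ l : Fin (m + 1), act (Cm (l + 1)) (ws sol Cm p₀ (m - l)) i)
decreasing_by omega

/-- the leading term -/
noncomputable def p0 (C₀ : Matrix (Fin r) (Fin r) ℂ) (j k₀ : ℕ) (v : Fin r → ℂ) (i : Fin r) : ℂ[X] :=
  ∑ k ∈ Finset.range k₀, monomial k ((((C₀ - (j : ℂ) • 1) ^ k).mulVec v) i / (k.factorial : ℂ))

theorem p0_coeff {C₀ : Matrix (Fin r) (Fin r) ℂ} {j k₀ : ℕ} {v : Fin r → ℂ}
    (hv : ((C₀ - (j : ℂ) • 1) ^ k₀).mulVec v = 0) (i : Fin r) (n : ℕ) :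
    (p0 C₀ j k₀ v i).coeff n = (((C₀ - (j : ℂ) • 1) ^ n).mulVec v) i / (n.factorial : ℂ) := by
  unfold p0
  rw [finsetSum_coeff]
  simp only [coeff_monomial]
  rw [Finset.sum_ite_eq']
  by_cases h : n < k₀
  · rw [if_pos (Finset.mem_range.2 h)]
  · rw [if_neg (fun h' => h (Finset.mem_range.1 h'))]
    obtain ⟨l, rfl⟩ : ∃ l, n = l + k₀ := ⟨n - k₀, by omega⟩
    rw [pow_add, ← Matrix.mulVec_mulVec, hv, Matrix.mulVec_zero, Pi.zero_apply, zero_div]

theorem p0_eq {C₀ : Matrix (Fin r) (Fin r) ℂ} {j k₀ : ℕ} {v : Fin r → ℂ}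
    (hv : ((C₀ - (j : ℂ) • 1) ^ k₀).mulVec v = 0) (i : Fin r) :
    derivative (p0 C₀ j k₀ v i) + (j : ℂ[X]) * p0 C₀ j k₀ v i = act C₀ (p0 C₀ j k₀ v) i := by
  ext n
  rw [coeff_add, coeff_derivative, act_coeff, ← map_natCast (C : ℂ →+* ℂ[X]), coeff_C_mul]
  simp only [p0_coeff hv]
  have h1 : (((C₀ - (j : ℂ) • 1) ^ (n + 1)).mulVec v) i =
      ∑ l, C₀ i l * (((C₀ - (j : ℂ) • 1) ^ n).mulVec v) l - j * (((C₀ - (j : ℂ) • 1) ^ n).mulVec v) i := by
    rw [pow_succ', ← Matrix.mulVec_mulVec, Matrix.sub_mulVec, Matrix.smul_mulVec, Matrix.one_mulVec]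
    rfl
  have h2 : ((n + 1).factorial : ℂ) = ((n : ℂ) + 1) * n.factorial := by
    rw [Nat.factorial_succ]
    push_cast
    ring
  have h3 : ((n : ℂ) + 1) ≠ 0 := by exact_mod_cast Nat.succ_ne_zero n
  have h4 : (n.factorial : ℂ) ≠ 0 := by exact_mod_cast n.factorial_ne_zero
  rw [h1, h2]
  have h5 : ∑ l, C₀ i l * ((((C₀ - (j : ℂ) • 1) ^ n).mulVec v) l / (n.factorial : ℂ)) =
      (∑ l, C₀ i l * (((C₀ - (j : ℂ) • 1) ^ n).mulVec v) l) / (n.factorial : ℂ) := by
    rw [Finset.sum_div]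
    exact Finset.sum_congr rfl fun l _ => by ring
  rw [h5]
  field_simp
  ring

theorem exists_seq {Cm : ℕ → Matrix (Fin r) (Fin r) ℂ} {K : ℝ} (hK1 : 1 ≤ K) (hK : ∀ m i j, ‖Cm m i j‖ ≤ K ^ (m + 1))
    {L : ℕ} (hL : ∀ m, L < m → ∀ v : Fin r → ℂ, (Cm 0).mulVec v = (m : ℂ) • v → v = 0) {j k₀ : ℕ} {v : Fin r → ℂ}
    (hv : ((Cm 0 - (j : ℂ) • 1) ^ k₀).mulVec v = 0) :
    ∃ w : ℕ → Fin r → ℂ[X], (∀ i, (w 0 i).coeff 0 = v i) ∧
      (∀ m i, derivative (w m i) + ((j + m : ℕ) : ℂ[X]) * w m i =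
        ∑ p ∈ Finset.HasAntidiagonal.antidiagonal m, act (Cm p.1) (w p.2) i) ∧
      (∃ q : ℕ, ∀ m i n, q ≤ n → (w m i).coeff n = 0) ∧
      ∃ ρ : ℝ, 1 ≤ ρ ∧ ∀ m i n, ‖(w m i).coeff n‖ ≤ ρ ^ (m + 1) := by
  classical
  choose sol hsol using fun m f => solve (Cm 0) (j + m) f
  set w := ws sol Cm (p0 (Cm 0) j k₀ v) with hw
  have hw0 : w 0 = p0 (Cm 0) j k₀ v := by rw [hw, ws]
  have hws : ∀ m i, derivative (w (m + 1) i) + ((j + (m + 1) : ℕ) : ℂ[X]) * w (m + 1) i - act (Cm 0) (w (m + 1)) i =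
      ∑ l : Fin (m + 1), act (Cm (l + 1)) (w (m - l)) i := by
    intro m i
    have h1 : w (m + 1) = sol (m + 1) (fun i => ∑ l : Fin (m + 1), act (Cm (l + 1)) (w (m - l)) i) := by
      rw [hw, ws]
    rw [h1]
    exact hsol (m + 1) _ i
  have hdeg : ∃ q : ℕ, ∀ m i n, q ≤ n → (w m i).coeff n = 0 := by
    refine ⟨∑ m ∈ Finset.range (L + 1), ∑ i, ((w m i).natDegree + 1) + k₀ + 1, ?_⟩
    set q := ∑ m ∈ Finset.range (L + 1), ∑ i, ((w m i).natDegree + 1) + k₀ + 1 with hq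
    intro m
    induction m using Nat.strong_induction_on with
    | _ m ih =>
      by_cases hm : m ≤ L
      · intro i n hn
        refine coeff_eq_zero_of_natDegree_lt ?_
        have h1 : (w m i).natDegree + 1 ≤ ∑ i, ((w m i).natDegree + 1) :=
          Finset.single_le_sum (f := fun i => (w m i).natDegree + 1) (fun _ _ => Nat.zero_le _) (Finset.mem_univ i)
        have h2 : ∑ i, ((w m i).natDegree + 1) ≤ ∑ m ∈ Finset.range (L + 1), ∑ i, ((w m i).natDegree + 1) :=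
          Finset.single_le_sum (f := fun m => ∑ i, ((w m i).natDegree + 1)) (fun _ _ => Nat.zero_le _)
            (Finset.mem_range.2 (by omega))
        omega
      · obtain ⟨m, rfl⟩ : ∃ m', m = m' + 1 := ⟨m - 1, by omega⟩
        have h1 := solve_deg (C₀ := Cm 0) (m := j + (m + 1)) (q := q) (hL _ (by omega)) (hws m) (fun n hn i => by
          rw [finsetSum_coeff]
          refine Finset.sum_eq_zero fun l _ => ?_
          rw [act_coeff]
          refine Finset.sum_eq_zero fun p _ => ?_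
          rw [ih (m - l) (by omega) p n hn, mul_zero])
        intro i n hn
        exact h1 n hn i
  refine ⟨w, fun i => ?_, fun m i => ?_, hdeg, ?_⟩
  · rw [hw0, p0_coeff hv, pow_zero, Matrix.one_mulVec, Nat.factorial_zero, Nat.cast_one, div_one]
  · cases m with
    | zero =>
      rw [hw0, add_zero, Finset.Nat.antidiagonal_zero, Finset.sum_singleton]
      show _ = act (Cm 0) (w 0) i
      rw [hw0]
      exact p0_eq hv i
    | succ m =>
      rw [Finset.Nat.sum_antidiagonal_succ, Finset.Nat.sum_antidiagonal_eq_sum_range_succ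
        (f := fun a b => act (Cm (a + 1)) (w b) i), Finset.sum_range, ← hws m i]
      ring
  · obtain ⟨q, hq⟩ := hdeg
    set a : ℕ → ℝ := fun m => ∑ i, ∑ n ∈ Finset.range q, ‖(w m i).coeff n‖ with ha
    obtain ⟨m₀, hm₀⟩ := exists_nat_ge ((q : ℝ) + r * K + 1)
    obtain ⟨ρ, hρ, hρa⟩ := geom_growth (a := a) (c := r * K + 1) (K := K) (m₀ := m₀ + 1)
      (fun m => Finset.sum_nonneg fun i _ => Finset.sum_nonneg fun n _ => norm_nonneg _)
      (by
        have : 0 ≤ (r : ℝ) * K := by positivity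
        linarith) hK1 (by
      intro m hm
      obtain ⟨m, rfl⟩ : ∃ m', m = m' + 1 := ⟨m - 1, by omega⟩
      have h1 := solve_size (C₀ := Cm 0) (m := j + (m + 1)) (q := q) (c₀ := K) (fun i j => by
        have := hK 0 i j
        rwa [zero_add, pow_one] at this) (by linarith) (by
        have h2 : (m₀ : ℝ) ≤ ((j + (m + 1) : ℕ) : ℝ) := by exact_mod_cast (by omega)
        linarith) (hws m) (fun n hn i => hq _ i n hn)
      refine h1.trans ?_
      have h2 : ∀ i, ∀ n ∈ Finset.range q, ‖(∑ l : Fin (m + 1), act (Cm (l + 1)) (w (m - l)) i).coeff n‖ ≤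
          ∑ l ∈ Finset.range (m + 1), K ^ (l + 2) * ∑ p, ‖(w (m - l) p).coeff n‖ := by
        intro i n _
        rw [finsetSum_coeff, Finset.sum_range (fun l => K ^ (l + 2) * ∑ p, ‖(w (m - l) p).coeff n‖)]
        refine (norm_sum_le _ _).trans (Finset.sum_le_sum fun l _ => ?_)
        rw [act_coeff, Finset.mul_sum]
        refine (norm_sum_le _ _).trans (Finset.sum_le_sum fun p _ => ?_)
        rw [norm_mul]
        exact mul_le_mul_of_nonneg_right (hK (l + 1) i p) (norm_nonneg _)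
      refine (Finset.sum_le_sum fun i _ => Finset.sum_le_sum (h2 i)).trans ?_
      have h3 : ∀ i : Fin r, ∑ n ∈ Finset.range q, ∑ l ∈ Finset.range (m + 1), K ^ (l + 2) * ∑ p, ‖(w (m - l) p).coeff n‖ =
          ∑ l ∈ Finset.range (m + 1), K ^ (l + 2) * a (m - l) := by
        intro i
        rw [Finset.sum_comm]
        refine Finset.sum_congr rfl fun l _ => ?_
        rw [← Finset.mul_sum, ha, Finset.sum_comm]
      rw [Finset.sum_congr rfl fun i _ => h3 i, Finset.sum_const, Finset.card_univ, Fintype.card_fin, nsmul_eq_mul,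
        Finset.mul_sum]
      refine Finset.sum_le_sum fun l _ => ?_
      have h4 : m + 1 - 1 - l = m - l := by omega
      rw [h4]
      have h5 : 0 ≤ a (m - l) := Finset.sum_nonneg fun i _ => Finset.sum_nonneg fun n _ => norm_nonneg _
      have h6 : 0 ≤ K ^ (l + 1) := by positivity
      calc (r : ℝ) * (K ^ (l + 2) * a (m - l)) = (r * K) * K ^ (l + 1) * a (m - l) := by ring
        _ ≤ (r * K + 1) * K ^ (l + 1) * a (m - l) := by
          refine mul_le_mul_of_nonneg_right (mul_le_mul_of_nonneg_right (by linarith) h6) h5)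
    refine ⟨ρ, hρ, fun m i n => ?_⟩
    by_cases hn : n < q
    · refine le_trans ?_ (hρa m)
      refine le_trans ?_ (Finset.single_le_sum (f := fun i => ∑ n ∈ Finset.range q, ‖(w m i).coeff n‖)
        (fun i _ => Finset.sum_nonneg fun n _ => norm_nonneg _) (Finset.mem_univ i))
      exact Finset.single_le_sum (f := fun n => ‖(w m i).coeff n‖) (fun n _ => norm_nonneg _) (Finset.mem_range.2 hn)
    · rw [hq m i n (by omega), norm_zero]
      positivity

end

end Pool.Agent.X120.GS.Frb
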