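import Pool.Agent.X120.GS.Frb2
import Pool.Agent.X120.GS.Fml

/-!
# The method of Frobenius: fundamental matrices
-/

set_option autoImplicit false

open PowerSeries

namespace Pool.Agent.X120.GS.Frb

section
variable {r : ℕ}

/-- evaluation at `0` -/
noncomputable def rho0 : Polynomial (PowerSeries ℂ) →+* ℂ := (constantCoeff (R := ℂ)).comp (Polynomial.evalRingHom 0)

theorem rho0_apply (p : Polynomial (PowerSeries ℂ)) : rho0 p = coeff 0 (p.coeff 0) := by
  unfold rho0
  rw [RingHom.comp_apply, Polynomial.coe_evalRingHom, Polynomial.coeff_zero_eq_eval_zero,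
    coeff_zero_eq_constantCoeff_apply]

/-- a polynomial with given power series as coefficients -/
noncomputable def plg (q : ℕ) (g : ℕ → PowerSeries ℂ) : Polynomial (PowerSeries ℂ) :=
  ∑ n ∈ Finset.range q, Polynomial.monomial n (g n)

theorem plg_coeff {q : ℕ} {g : ℕ → PowerSeries ℂ} (hg : ∀ n, q ≤ n → g n = 0) (n : ℕ) : (plg q g).coeff n = g n := by
  unfold plg
  rw [Polynomial.finsetSum_coeff]
  simp only [Polynomial.coeff_monomial]
  rw [Finset.sum_ite_eq']
  by_cases h : n < q
  · rw [if_pos (Finset.mem_range.2 h)]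
  · rw [if_neg (fun h' => h (Finset.mem_range.1 h')), hg n (by omega)]

theorem exists_basis (M : Matrix (Fin r) (Fin r) ℂ)
    (heig : ∀ (μ : ℂ) (v : Fin r → ℂ), v ≠ 0 → M.mulVec v = μ • v → ∃ j : ℕ, μ = j) :
    ∃ b : Module.Basis (Fin r) ℂ (Fin r → ℂ), ∀ c, ∃ j k : ℕ, ((M - (j : ℂ) • 1) ^ k).mulVec (b c) = 0 := by
  classical
  set f : Module.End ℂ (Fin r → ℂ) := Matrix.toLin' M with hf
  set s : Set (Fin r → ℂ) := {v | ∃ j k : ℕ, ((M - (j : ℂ) • 1) ^ k).mulVec v = 0} with hs
  have hpow : ∀ (μ : ℂ) (k : ℕ) (v : Fin r → ℂ), ((f - algebraMap ℂ (Module.End ℂ (Fin r → ℂ)) μ) ^ k) v =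
      ((M - μ • 1) ^ k).mulVec v := by
    intro μ k v
    have h1 : f - algebraMap ℂ (Module.End ℂ (Fin r → ℂ)) μ = Matrix.toLin' (M - μ • 1) := by
      rw [map_sub, hf, map_smul, Matrix.toLin'_one, Algebra.algebraMap_eq_smul_one]
      rfl
    rw [h1, ← Matrix.toLin'_pow, Matrix.toLin'_apply]
  have hspan : ⊤ ≤ Submodule.span ℂ s := by
    rw [← Module.End.iSup_maxGenEigenspace_eq_top f]
    refine iSup_le fun μ v hv => ?_
    rw [Module.End.mem_maxGenEigenspace] at hv
    obtain ⟨k, hk⟩ := hv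
    have hk' : ((M - μ • 1) ^ k).mulVec v = 0 := by
      rw [← hpow, Algebra.algebraMap_eq_smul_one]
      exact hk
    by_cases hv0 : v = 0
    · rw [hv0]
      exact Submodule.zero_mem _
    have hμ : ∃ j : ℕ, μ = j := by
      have hex : ∃ k, ((M - μ • 1) ^ k).mulVec v = 0 := ⟨k, hk'⟩
      obtain ⟨k₁, hk₁⟩ : ∃ k₁, Nat.find hex = k₁ + 1 := by
        refine Nat.exists_eq_succ_of_ne_zero fun h0 => ?_
        have := Nat.find_spec hex
        rw [h0, pow_zero, Matrix.one_mulVec] at this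
        exact hv0 this
      have h2 := Nat.find_spec hex
      have h3 := Nat.find_min hex (m := k₁) (by omega)
      rw [hk₁, pow_succ', ← Matrix.mulVec_mulVec, Matrix.sub_mulVec, Matrix.smul_mulVec, Matrix.one_mulVec] at h2
      exact heig μ _ h3 (sub_eq_zero.1 h2)
    obtain ⟨j, rfl⟩ := hμ
    exact Submodule.subset_span ⟨j, k, hk'⟩
  set b := Module.Basis.ofSpan hspan with hb
  have hbs := Module.Basis.ofSpan_subset hspan
  refine ⟨b.reindex (b.indexEquiv (Pi.basisFun ℂ (Fin r))), fun c => ?_⟩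
  rw [Module.Basis.reindex_apply]
  exact hbs ⟨_, rfl⟩

/-- **Fundamental matrices**: natural exponents. -/
theorem fundamental {Cs : Fin r → Fin r → PowerSeries ℂ} {K : ℝ} (hK1 : 1 ≤ K)
    (hK : ∀ i j m, ‖coeff m (Cs i j)‖ ≤ K ^ (m + 1))
    (heig : ∀ (μ : ℂ) (v : Fin r → ℂ), v ≠ 0 → (Matrix.of fun i j => coeff 0 (Cs i j)).mulVec v = μ • v →
      ∃ j : ℕ, μ = j) :
    ∃ (K' : ℝ) (Φ : Matrix (Fin r) (Fin r) (Polynomial (PowerSeries ℂ))),
      (∀ i j n m, ‖coeff m ((Φ i j).coeff n)‖ ≤ K' ^ (m + 1)) ∧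
      (∀ i j n, (X : PowerSeries ℂ) * PowerSeries.derivative ℂ ((Φ i j).coeff n) +
        ((n : PowerSeries ℂ) + 1) * (Φ i j).coeff (n + 1) = ∑ l, Cs i l * (Φ l j).coeff n) ∧ Φ.det ≠ 0 := by
  classical
  set Cm : ℕ → Matrix (Fin r) (Fin r) ℂ := fun m => Matrix.of fun i j => coeff m (Cs i j) with hCm
  -- the exponents are bounded
  obtain ⟨L, hL⟩ : ∃ L : ℕ, ∀ m, L < m → ∀ v : Fin r → ℂ, (Cm 0).mulVec v = (m : ℂ) • v → v = 0 := by
    set f : Module.End ℂ (Fin r → ℂ) := Matrix.toLin' (Cm 0) with hf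
    have hfin : {m : ℕ | f.HasEigenvalue (m : ℂ)}.Finite :=
      (Module.End.finite_hasEigenvalue f).preimage Nat.cast_injective.injOn
    obtain ⟨L, hL⟩ := hfin.bddAbove
    refine ⟨L, fun m hm v hv => ?_⟩
    by_contra h0
    have h1 : f.HasEigenvalue (m : ℂ) := by
      refine Module.End.hasEigenvalue_of_hasEigenvector (x := v) ⟨?_, h0⟩
      rw [Module.End.mem_eigenspace_iff, hf, Matrix.toLin'_apply]
      exact hv
    exact absurd (hL h1) (by omega)
  obtain ⟨b, hb⟩ := exists_basis (Cm 0) heig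
  choose j k₀ hv using hb
  choose w hw0 hwe hwq hwρ using fun c => exists_seq (Cm := Cm) hK1 (fun m i j => hK i j m) hL (hv c)
  choose q hq using hwq
  choose ρ hρ1 hρ using hwρ
  set q₀ := ∑ c, q c with hq₀
  have hqc : ∀ c, q c ≤ q₀ := fun c => Finset.single_le_sum (fun _ _ => Nat.zero_le _) (Finset.mem_univ c)
  set K' := ∑ c, ρ c with hK'
  have hρK : ∀ c, ρ c ≤ K' := fun c => Finset.single_le_sum (fun c _ => le_trans zero_le_one (hρ1 c)) (Finset.mem_univ c)
  let g : Fin r → Fin r → ℕ → PowerSeries ℂ := fun i c n => PowerSeries.mk fun m => (w c m i).coeff n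
  have hg0 : ∀ i c n, q₀ ≤ n → g i c n = 0 := by
    intro i c n hn
    ext m
    show coeff m (PowerSeries.mk fun m => (w c m i).coeff n) = _
    rw [coeff_mk, map_zero]
    exact hq c m i n ((hqc c).trans hn)
  let Ψ : Matrix (Fin r) (Fin r) (Polynomial (PowerSeries ℂ)) := Matrix.of fun i c => plg q₀ (g i c)
  have hΨ : ∀ i c n, (Ψ i c).coeff n = g i c n := fun i c n => plg_coeff (hg0 i c) n
  let Φ : Matrix (Fin r) (Fin r) (Polynomial (PowerSeries ℂ)) :=
    Matrix.of fun i c => Polynomial.C ((X : PowerSeries ℂ) ^ j c) * Ψ i c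
  have hΦ : ∀ i c n, (Φ i c).coeff n = X ^ j c * g i c n := by
    intro i c n
    show (Polynomial.C ((X : PowerSeries ℂ) ^ j c) * Ψ i c).coeff n = _
    rw [Polynomial.coeff_C_mul, hΨ]
  refine ⟨K', Φ, fun i c n m => ?_, fun i c n => ?_, ?_⟩
  · rw [hΦ, coeff_X_pow_mul']
    split_ifs with h
    · show ‖coeff (m - j c) (PowerSeries.mk fun m => (w c m i).coeff n)‖ ≤ _
      rw [coeff_mk]
      refine (hρ c _ i n).trans ?_
      exact (pow_le_pow_right₀ (hρ1 c) (by omega)).trans (pow_le_pow_left₀ (le_trans zero_le_one (hρ1 c)) (hρK c) _)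
    · rw [norm_zero]
      exact pow_nonneg ((le_trans zero_le_one (hρ1 c)).trans (hρK c)) _
  · simp only [hΦ]
    have h1 : (X : PowerSeries ℂ) * PowerSeries.derivative ℂ (g i c n) + (j c : PowerSeries ℂ) * g i c n +
        ((n : PowerSeries ℂ) + 1) * g i c (n + 1) = ∑ l, Cs i l * g l c n := by
      ext m
      have h2 := congrArg (fun p : Polynomial ℂ => p.coeff n) (hwe c m i)
      beta_reduce at h2
      rw [Polynomial.coeff_add, Polynomial.coeff_derivative, ← map_natCast (Polynomial.C : ℂ →+* Polynomial ℂ),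
        Polynomial.coeff_C_mul, Polynomial.finsetSum_coeff] at h2
      simp only [act_coeff] at h2
      rw [map_add, map_add, map_sum]
      have e1 : coeff m ((X : PowerSeries ℂ) * PowerSeries.derivative ℂ (g i c n)) = (m : ℂ) * (w c m i).coeff n := by
        cases m with
        | zero => simp
        | succ m =>
          rw [coeff_succ_X_mul, coeff_derivative]
          show coeff (m + 1) (PowerSeries.mk fun m => (w c m i).coeff n) * ((m : ℂ) + 1) = _
          rw [coeff_mk]
          push_cast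
          ring
      have e2 : coeff m ((j c : PowerSeries ℂ) * g i c n) = (j c : ℂ) * (w c m i).coeff n := by
        have h3 : (j c : PowerSeries ℂ) = PowerSeries.C (j c : ℂ) := (map_natCast (PowerSeries.C (R := ℂ)) _).symm
        rw [h3, coeff_C_mul]
        show _ * coeff m (PowerSeries.mk fun m => (w c m i).coeff n) = _
        rw [coeff_mk]
      have e3 : coeff m (((n : PowerSeries ℂ) + 1) * g i c (n + 1)) = ((n : ℂ) + 1) * (w c m i).coeff (n + 1) := by
        have h3 : ((n : PowerSeries ℂ) + 1) = PowerSeries.C ((n : ℂ) + 1) := by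
          rw [map_add, map_one, map_natCast]
        rw [h3, coeff_C_mul]
        show _ * coeff m (PowerSeries.mk fun m => (w c m i).coeff (n + 1)) = _
        rw [coeff_mk]
      have e4 : ∀ l, coeff m (Cs i l * g l c n) =
          ∑ p ∈ Finset.HasAntidiagonal.antidiagonal m, Cm p.1 i l * (w c p.2 l).coeff n := by
        intro l
        rw [coeff_mul]
        refine Finset.sum_congr rfl fun p _ => ?_
        show _ * coeff p.2 (PowerSeries.mk fun m => (w c m l).coeff n) = _
        rw [coeff_mk]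
        rfl
      rw [e1, e2, e3, Finset.sum_congr rfl fun l _ => e4 l, Finset.sum_comm, ← h2]
      push_cast
      ring
    have h4 : PowerSeries.derivative ℂ (X ^ j c * g i c n) =
        X ^ j c * PowerSeries.derivative ℂ (g i c n) + (j c : PowerSeries ℂ) * X ^ (j c - 1) * g i c n := by
      rw [Derivation.leibniz, Derivation.leibniz_pow, PowerSeries.derivative_X]
      simp only [smul_eq_mul, nsmul_eq_mul, mul_one]
      ring
    have h5 : (X : PowerSeries ℂ) * ((j c : PowerSeries ℂ) * X ^ (j c - 1)) = (j c : PowerSeries ℂ) * X ^ j c := by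
      rcases Nat.eq_zero_or_pos (j c) with h | h
      · rw [h]
        simp
      · obtain ⟨p, hp⟩ : ∃ p, j c = p + 1 := ⟨j c - 1, by omega⟩
        rw [hp, Nat.add_sub_cancel, pow_succ]
        ring
    have h6 : ∑ l, Cs i l * (X ^ j c * g l c n) = X ^ j c * ∑ l, Cs i l * g l c n := by
      rw [Finset.mul_sum]
      exact Finset.sum_congr rfl fun l _ => by ring
    rw [h6, ← h1, h4]
    linear_combination g i c n * h5
  · have h1 : Φ.det = (∏ c, Polynomial.C ((X : PowerSeries ℂ) ^ j c)) * Ψ.det :=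
      Matrix.det_mul_row (fun c => Polynomial.C ((X : PowerSeries ℂ) ^ j c)) Ψ
    rw [h1]
    refine mul_ne_zero (Finset.prod_ne_zero_iff.2 fun c _ => ?_) ?_
    · exact Polynomial.C_ne_zero.2 (pow_ne_zero _ X_ne_zero)
    · intro h0
      have h2 := congrArg rho0 h0
      rw [RingHom.map_det, map_zero] at h2
      have h3 : rho0.mapMatrix Ψ = (Matrix.of fun c i => b c i : Matrix (Fin r) (Fin r) ℂ).transpose := by
        ext i c
        rw [RingHom.mapMatrix_apply, Matrix.map_apply, rho0_apply, hΨ]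
        show coeff 0 (PowerSeries.mk fun m => (w c m i).coeff 0) = b c i
        rw [coeff_mk]
        exact hw0 c i
      rw [h3, Matrix.det_transpose] at h2
      have h4 : IsUnit (Matrix.of fun c i => b c i : Matrix (Fin r) (Fin r) ℂ) := by
        rw [← Matrix.linearIndependent_rows_iff_isUnit]
        exact b.linearIndependent
      rw [Matrix.isUnit_iff_isUnit_det] at h4
      exact h4.ne_zero h2

end

end Pool.Agent.X120.GS.Frb
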