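import Pool.Agent.X120.GS.Frb3

/-!
# Regular singularities with rational exponents are quasi-unipotent
-/

set_option autoImplicit false

open PowerSeries

namespace Pool.Agent.X120.GS.Frb

open Pool.Agent.Y120.GH

section
variable {r : ℕ}

/-- a common denominator of the exponents -/
theorem exists_den (M : Matrix (Fin r) (Fin r) ℂ)
    (heig : ∀ (μ : ℂ) (v : Fin r → ℂ), v ≠ 0 → M.mulVec v = μ • v → ∃ q : ℚ, μ = q) :
    ∃ (e m : ℕ), e ≠ 0 ∧ ∀ (μ : ℂ) (v : Fin r → ℂ), v ≠ 0 → M.mulVec v = μ • v → ∃ j : ℕ, (e : ℂ) * μ + m = j := by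
  classical
  set f : Module.End ℂ (Fin r → ℂ) := Matrix.toLin' M with hf
  set E := (Module.End.finite_hasEigenvalue f).toFinset with hE
  have hmem : ∀ μ ∈ E, ∃ q : ℚ, μ = q := by
    intro μ hμ
    rw [hE, Set.Finite.mem_toFinset] at hμ
    obtain ⟨v, hv⟩ := Module.End.HasEigenvalue.exists_hasEigenvector hμ
    obtain ⟨h1, h2⟩ := hv
    rw [Module.End.mem_eigenspace_iff, hf, Matrix.toLin'_apply] at h1
    exact heig μ v h2 h1
  have hE' : ∀ (μ : ℂ) (v : Fin r → ℂ), v ≠ 0 → M.mulVec v = μ • v → μ ∈ E := by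
    intro μ v hv0 hv
    rw [hE, Set.Finite.mem_toFinset]
    refine Module.End.hasEigenvalue_of_hasEigenvector (x := v) ⟨?_, hv0⟩
    rw [Module.End.mem_eigenspace_iff, hf, Matrix.toLin'_apply]
    exact hv
  -- a common denominator
  obtain ⟨e, he, hed⟩ : ∃ e : ℕ, e ≠ 0 ∧ ∀ μ ∈ E, ∃ a : ℤ, (e : ℂ) * μ = a := by
    clear_value E
    clear hE hE'
    induction E using Finset.induction_on with
    | empty => exact ⟨1, one_ne_zero, fun μ h => absurd h (Finset.notMem_empty μ)⟩
    | insert μ₀ E _ ih =>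
      obtain ⟨e, he, hed⟩ := ih fun μ hμ => hmem μ (Finset.mem_insert_of_mem hμ)
      obtain ⟨q, hq⟩ := hmem μ₀ (Finset.mem_insert_self _ _)
      refine ⟨e * q.den, mul_ne_zero he q.den_nz, fun μ hμ => ?_⟩
      rcases Finset.mem_insert.1 hμ with rfl | hμ
      · refine ⟨e * q.num, ?_⟩
        have h1 : (q : ℂ) * q.den = q.num := by exact_mod_cast congrArg (fun x : ℚ => (x : ℂ)) (Rat.mul_den_eq_num q)
        rw [hq]
        push_cast
        rw [← h1]
        ring
      · obtain ⟨a, ha⟩ := hed μ hμ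
        refine ⟨a * q.den, ?_⟩
        push_cast
        rw [← ha]
        ring
  choose! a ha using hed
  refine ⟨e, ∑ μ ∈ E, (a μ).natAbs, he, fun μ v hv0 hv => ?_⟩
  have hμ := hE' μ v hv0 hv
  have h1 : (a μ).natAbs ≤ ∑ μ ∈ E, (a μ).natAbs := Finset.single_le_sum (f := fun μ => (a μ).natAbs) (fun _ _ => Nat.zero_le _) hμ
  refine ⟨(a μ + (∑ μ ∈ E, (a μ).natAbs : ℕ)).toNat, ?_⟩
  rw [ha μ hμ]
  have h2 : ((a μ + (∑ μ ∈ E, (a μ).natAbs : ℕ)).toNat : ℤ) = a μ + (∑ μ ∈ E, (a μ).natAbs : ℕ) := by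
    rw [Int.toNat_of_nonneg]
    omega
  have h3 : (((a μ + (∑ μ ∈ E, (a μ).natAbs : ℕ)).toNat : ℤ) : ℂ) = ((a μ + (∑ μ ∈ E, (a μ).natAbs : ℕ) : ℤ) : ℂ) := by
    rw [h2]
  rw [Int.cast_natCast] at h3
  rw [h3, Int.cast_add, Int.cast_natCast]

/-- **Regular singularities with rational exponents are quasi-unipotent.** -/
theorem qu_res {T : Polynomial ℤ} {A : Fin r → Fin r → Polynomial ℤ} {B : Fin r → Fin r → PowerSeries ℂ}
    (hB : ∀ i j, ((T.map (Int.castRingHom ℂ) : Polynomial ℂ) : PowerSeries ℂ) * B i j =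
      X * (((A i j).map (Int.castRingHom ℂ) : Polynomial ℂ) : PowerSeries ℂ))
    {K : ℝ} (hK1 : 1 ≤ K) (hK : ∀ i j m, ‖coeff m (B i j)‖ ≤ K ^ (m + 1))
    (heig : ∀ (μ : ℂ) (v : Fin r → ℂ), v ≠ 0 → (Matrix.of fun i j => coeff 0 (B i j)).mulVec v = μ • v →
      ∃ q : ℚ, μ = q) : QU0 T A := by
  classical
  obtain ⟨e, M, he, hem⟩ := exists_den _ heig
  let Cs : Fin r → Fin r → PowerSeries ℂ := fun i j => (e : PowerSeries ℂ) * expand e he (B i j) +
    if i = j then (M : PowerSeries ℂ) else 0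
  have hen : ∀ f : PowerSeries ℂ, ∀ m, coeff m ((e : PowerSeries ℂ) * f) = (e : ℂ) * coeff m f := by
    intro f m
    have h3 : (e : PowerSeries ℂ) = PowerSeries.C (e : ℂ) := (map_natCast (PowerSeries.C (R := ℂ)) _).symm
    rw [h3, coeff_C_mul]
  have hMn : ∀ m, coeff m (M : PowerSeries ℂ) = if m = 0 then (M : ℂ) else 0 := by
    intro m
    have h3 : (M : PowerSeries ℂ) = PowerSeries.C (M : ℂ) := (map_natCast (PowerSeries.C (R := ℂ)) _).symm
    rw [h3, coeff_C]
  have hexp : ∀ i j m, ‖coeff m (expand e he (B i j))‖ ≤ K ^ (m + 1) := by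
    intro i j m
    by_cases h : e ∣ m
    · obtain ⟨l, rfl⟩ := h
      rw [coeff_expand_mul]
      refine (hK i j l).trans (pow_le_pow_right₀ hK1 ?_)
      have : 1 * l ≤ e * l := Nat.mul_le_mul_right _ (Nat.one_le_iff_ne_zero.2 he)
      omega
    · rw [coeff_expand_of_not_dvd _ _ _ h, norm_zero]
      positivity
  have he1 : (1 : ℝ) ≤ e := by exact_mod_cast Nat.one_le_iff_ne_zero.2 he
  obtain ⟨K', Φ, h1, h2, h3⟩ := fundamental (Cs := Cs) (K := (e + M) * K) (by
      have : (0 : ℝ) ≤ M := Nat.cast_nonneg _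
      nlinarith) (fun i j m => by
      show ‖coeff m ((e : PowerSeries ℂ) * expand e he (B i j) + if i = j then (M : PowerSeries ℂ) else 0)‖ ≤ _
      rw [map_add, hen]
      have hM0 : (0 : ℝ) ≤ M := Nat.cast_nonneg _
      have e1 : ‖(e : ℂ) * coeff m (expand e he (B i j))‖ ≤ e * K ^ (m + 1) := by
        rw [norm_mul, Complex.norm_natCast]
        exact mul_le_mul_of_nonneg_left (hexp i j m) (Nat.cast_nonneg _)
      have e2 : ‖coeff m (if i = j then (M : PowerSeries ℂ) else 0)‖ ≤ M * K ^ (m + 1) := by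
        have e3 : (M : ℝ) ≤ M * K ^ (m + 1) := le_mul_of_one_le_right hM0 (one_le_pow₀ hK1)
        split_ifs
        · rw [hMn]
          split_ifs
          · rw [Complex.norm_natCast]
            exact e3
          · rw [norm_zero]
            positivity
        · rw [map_zero, norm_zero]
          positivity
      refine (norm_add_le _ _).trans ((add_le_add e1 e2).trans ?_)
      rw [← add_mul, mul_pow]
      refine mul_le_mul_of_nonneg_right ?_ (by positivity)
      exact le_self_pow₀ (by linarith) (by omega)) (fun μ v hv0 hv => by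
      have e1 : (Matrix.of fun i j => coeff 0 (Cs i j)).mulVec v =
          (e : ℂ) • (Matrix.of fun i j => coeff 0 (B i j)).mulVec v + (M : ℂ) • v := by
        funext i
        show ∑ j, coeff 0 ((e : PowerSeries ℂ) * expand e he (B i j) + if i = j then (M : PowerSeries ℂ) else 0) * v j =
          (e : ℂ) * ∑ j, coeff 0 (B i j) * v j + (M : ℂ) * v i
        have e2 : ∀ j, coeff 0 ((e : PowerSeries ℂ) * expand e he (B i j) + if i = j then (M : PowerSeries ℂ) else 0) * v j =
            (e : ℂ) * (coeff 0 (B i j) * v j) + if i = j then (M : ℂ) * v j else 0 := by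
          intro j
          have e3 : coeff 0 (expand e he (B i j)) = coeff 0 (B i j) := by
            have := coeff_expand_mul e he (B i j) 0
            rwa [mul_zero] at this
          rw [map_add, hen, e3]
          split_ifs
          · rw [hMn, if_pos rfl]
            ring
          · rw [map_zero]
            ring
        rw [Finset.sum_congr rfl fun j _ => e2 j, Finset.sum_add_distrib, Finset.mul_sum, Finset.sum_ite_eq,
          if_pos (Finset.mem_univ _)]
      rw [e1] at hv
      have he0 : (e : ℂ) ≠ 0 := by exact_mod_cast he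
      obtain ⟨j, hj⟩ := hem ((μ - M) / e) v hv0 (by
        have e4 : (e : ℂ) • (Matrix.of fun i j => coeff 0 (B i j)).mulVec v = (μ - M) • v := by
          rw [sub_smul, ← hv, add_sub_cancel_right]
        rw [div_eq_inv_mul, mul_smul, ← e4, smul_smul, inv_mul_cancel₀ he0, one_smul])
      refine ⟨j, ?_⟩
      rw [← hj]
      field_simp
      ring)
  refine ⟨e, he, M, K', Φ, h1, fun i j k => ?_, h3⟩
  have h4 : ∑ l, Cs i l * (Φ l j).coeff k = (e : PowerSeries ℂ) * ∑ l, expand e he (B i l) * (Φ l j).coeff k +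
      (M : PowerSeries ℂ) * (Φ i j).coeff k := by
    have e1 : ∀ l, Cs i l * (Φ l j).coeff k = (e : PowerSeries ℂ) * (expand e he (B i l) * (Φ l j).coeff k) +
        if i = l then (M : PowerSeries ℂ) * (Φ l j).coeff k else 0 := by
      intro l
      show ((e : PowerSeries ℂ) * expand e he (B i l) + if i = l then (M : PowerSeries ℂ) else 0) * (Φ l j).coeff k = _
      split_ifs <;> ring
    rw [Finset.sum_congr rfl fun l _ => e1 l, Finset.sum_add_distrib, Finset.mul_sum, Finset.sum_ite_eq,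
      if_pos (Finset.mem_univ _)]
  rw [h2, h4, add_sub_cancel_right]
  have h5 : ∀ l, expand e he ((T.map (Int.castRingHom ℂ) : Polynomial ℂ) : PowerSeries ℂ) * expand e he (B i l) =
      X ^ e * expand e he (((A i l).map (Int.castRingHom ℂ) : Polynomial ℂ) : PowerSeries ℂ) := by
    intro l
    rw [← map_mul, hB, map_mul, expand_X]
  calc expand e he ((T.map (Int.castRingHom ℂ) : Polynomial ℂ) : PowerSeries ℂ) *
        ((e : PowerSeries ℂ) * ∑ l, expand e he (B i l) * (Φ l j).coeff k) =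
      (e : PowerSeries ℂ) * ∑ l, (expand e he ((T.map (Int.castRingHom ℂ) : Polynomial ℂ) : PowerSeries ℂ) *
        expand e he (B i l)) * (Φ l j).coeff k := by
        rw [Finset.mul_sum, Finset.mul_sum, Finset.mul_sum]
        exact Finset.sum_congr rfl fun l _ => by ring
    _ = _ := by
        simp only [h5]
        rw [Finset.mul_sum, Finset.mul_sum]
        exact Finset.sum_congr rfl fun l _ => by ring

end

end Pool.Agent.X120.GS.Frb
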