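import Pool.Agent.X120.GS.Hyg
import Pool.Agent.X120.GS.Degb
import Pool.Agent.Y119.HY.Fin2
import Pool.Agent.Y123.GN.C6

/-!
# Hypergeometric families at geometric sequences: the relations
-/

set_option autoImplicit false

open Matrix Module PowerSeries Filter

namespace Pool.Agent.X120.GS

open Pool.Agent.TH127.PT Pool.Agent.Y123.ST Pool.Agent.Y123.SR Pool.Agent.Y123.GN Pool.Agent.Y113 Pool.Agent.Y113.GG
  Pool.Agent.Y120.R Pool.Agent.Y120.GH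
open Pool.Agent.Y119.HZ (Hp hf Yt)
open Pool.Agent.Y119.HY (QD Am cm Jm Ep E Ep_eval E_neg Hf Hc)

section one
variable {n : ℕ}

/-- the polynomial matrix in front -/
noncomputable def Lam (Ω : Matrix (Fin n) (Fin n) ℂ) : Matrix (Fin n) (Fin n) (Polynomial ℂ) :=
  (Ωᵀ).map Polynomial.C * Matrix.of fun a b => (Ep (cm (Am n)) b a).comp (-Polynomial.X)

theorem Ep_deg (N : Matrix (Fin n) (Fin n) ℂ) (a b : Fin n) : (Ep N a b).natDegree ≤ n := by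
  unfold Ep
  rw [Matrix.sum_apply]
  refine Polynomial.natDegree_sum_le_of_forall_le _ _ fun i hi => ?_
  rw [Matrix.smul_apply, Matrix.map_apply, smul_eq_mul]
  have h1 : i < n := Finset.mem_range.1 hi
  refine (Polynomial.natDegree_mul_le).trans ?_
  rw [Polynomial.natDegree_C, add_zero]
  exact (Polynomial.natDegree_C_mul_X_pow_le _ _).trans h1.le

theorem Lam_deg (Ω : Matrix (Fin n) (Fin n) ℂ) (a b : Fin n) : (Lam Ω a b).natDegree ≤ n := by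
  unfold Lam
  rw [Matrix.mul_apply]
  refine Polynomial.natDegree_sum_le_of_forall_le _ _ fun c _ => ?_
  refine (Polynomial.natDegree_mul_le).trans ?_
  rw [Matrix.map_apply, Polynomial.natDegree_C, zero_add, Matrix.of_apply]
  refine (Polynomial.natDegree_comp_le).trans ?_
  rw [Polynomial.natDegree_neg, Polynomial.natDegree_X, mul_one]
  exact Ep_deg _ _ _

theorem Lam_eval (Ω : Matrix (Fin n) (Fin n) ℂ) (u : ℂ) :
    (Lam Ω).map (Polynomial.eval u) = (E (cm (Am n)) (-u) * Ω)ᵀ := by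
  have h1 : (Lam Ω).map (Polynomial.eval u) = ((Ωᵀ).map Polynomial.C).map (Polynomial.evalRingHom u) *
      (Matrix.of fun a b => (Ep (cm (Am n)) b a).comp (-Polynomial.X)).map (Polynomial.evalRingHom u) := by
    unfold Lam
    exact Matrix.map_mul (f := Polynomial.evalRingHom u)
  rw [h1, Matrix.transpose_mul]
  congr 1
  · ext a b
    simp
  · ext a b
    rw [Matrix.map_apply, Matrix.of_apply, Matrix.transpose_apply, ← Ep_eval, Matrix.map_apply,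
      Polynomial.coe_evalRingHom, Polynomial.eval_comp, Polynomial.eval_neg, Polynomial.eval_X]

theorem Lam_per (Q : Polynomial ℚ) (Ω : Matrix (Fin n) (Fin n) ℂ) {s : ℕ} {u : ℂ} (hu : u = ((Real.log s : ℝ) : ℂ)) :
    (Lam Ω).map (Polynomial.eval u) * pM (hf n Q) (fun a b => MvPolynomial.rename some (hypP n a b)) (s : ℝ) =
      (Yt n Q s * Ω)ᵀ := by
  have h1 : pM (hf n Q) (fun a b => MvPolynomial.rename some (hypP n a b)) (s : ℝ) =
      (Hf (Hc n Q) (((1 / (s : ℝ) : ℝ)) : ℂ))ᵀ := by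
    ext a b
    rw [hypP_val, Matrix.transpose_apply]
  rw [h1, Lam_eval, ← Matrix.transpose_mul, ← Matrix.mul_assoc, hu]
  rfl

/-- conjugation of the symplectic group -/
theorem Lam_conj (Q : Polynomial ℚ) (Ω : Matrix (Fin n) (Fin n) ℂ) (hΩ : IsUnit Ω) (u : ℂ)
    {g : (Matrix (Fin n) (Fin n) ℂ)ˣ} (hg : g ∈ GB (Ωᵀ * cm (Jm n Q) * Ω)) :
    ∃ g' ∈ GB (cm (Jm n Q)), (g : Matrix (Fin n) (Fin n) ℂ) * (Lam Ω).map (Polynomial.eval u) =
      (Lam Ω).map (Polynomial.eval u) * (g' : Matrix (Fin n) (Fin n) ℂ) := by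
  set N := cm (Am n) with hNd
  have hN : N ^ n = 0 := Pool.Agent.Y119.HY.Ac_nil
  have hNJ : N.transpose * cm (Jm n Q) + cm (Jm n Q) * N = 0 := Pool.Agent.Y119.HY.Jc_rel
  have hE := Pool.Agent.Y119.HY.E_isom hN hNJ (-u)
  have hu1 : IsUnit (E N (-u)) := by
    refine IsUnit.of_mul_eq_one (E N (-(-u))) ?_
    exact Pool.Agent.Y119.HY.E_mul_neg hN (-u)
  set L : Matrix (Fin n) (Fin n) ℂ := (E N (-u) * Ω)ᵀ with hL
  have hLu : IsUnit L := by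
    rw [hL, Matrix.isUnit_transpose]
    exact hu1.mul hΩ
  have hLd := (Matrix.isUnit_iff_isUnit_det _).1 hLu
  have hform : L * cm (Jm n Q) * Lᵀ = Ωᵀ * cm (Jm n Q) * Ω := by
    rw [hL, Matrix.transpose_transpose, Matrix.transpose_mul]
    calc Ωᵀ * (E N (-u))ᵀ * cm (Jm n Q) * (E N (-u) * Ω) = Ωᵀ * ((E N (-u))ᵀ * cm (Jm n Q) * E N (-u)) * Ω := by
          simp only [Matrix.mul_assoc]
      _ = _ := by rw [hE]
  rw [Lam_eval, ← hL]
  have h1 : (L⁻¹ * (g : Matrix (Fin n) (Fin n) ℂ) * L).det = 1 := by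
    rw [Matrix.det_mul, Matrix.det_mul, hg.1, mul_one, ← Matrix.det_mul, Matrix.nonsing_inv_mul _ hLd, Matrix.det_one]
  have h2 : IsUnit (L⁻¹ * (g : Matrix (Fin n) (Fin n) ℂ) * L) := (Matrix.isUnit_iff_isUnit_det _).2 (by rw [h1]; exact isUnit_one)
  have h3 : L⁻¹ * (Ωᵀ * cm (Jm n Q) * Ω) * (L⁻¹)ᵀ = cm (Jm n Q) := by
    have h4 : Lᵀ * (L⁻¹)ᵀ = 1 := by rw [← Matrix.transpose_mul, Matrix.nonsing_inv_mul _ hLd, Matrix.transpose_one]
    rw [← hform]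
    calc L⁻¹ * (L * cm (Jm n Q) * Lᵀ) * (L⁻¹)ᵀ = (L⁻¹ * L) * cm (Jm n Q) * (Lᵀ * (L⁻¹)ᵀ) := by
          simp only [Matrix.mul_assoc]
      _ = _ := by rw [Matrix.nonsing_inv_mul _ hLd, h4, Matrix.one_mul, Matrix.mul_one]
  refine ⟨h2.unit, ⟨h1, ?_⟩, ?_⟩
  · show (L⁻¹ * (g : Matrix (Fin n) (Fin n) ℂ) * L) * cm (Jm n Q) * (L⁻¹ * (g : Matrix (Fin n) (Fin n) ℂ) * L)ᵀ = _
    rw [Matrix.transpose_mul, Matrix.transpose_mul]
    calc L⁻¹ * (g : Matrix (Fin n) (Fin n) ℂ) * L * cm (Jm n Q) * (Lᵀ * ((g : Matrix (Fin n) (Fin n) ℂ)ᵀ * (L⁻¹)ᵀ)) =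
        L⁻¹ * ((g : Matrix (Fin n) (Fin n) ℂ) * (L * cm (Jm n Q) * Lᵀ) * (g : Matrix (Fin n) (Fin n) ℂ)ᵀ) * (L⁻¹)ᵀ := by
          simp only [Matrix.mul_assoc]
      _ = cm (Jm n Q) := by rw [hform, hg.2, h3]
  · show (g : Matrix (Fin n) (Fin n) ℂ) * L = L * (L⁻¹ * (g : Matrix (Fin n) (Fin n) ℂ) * L)
    rw [← Matrix.mul_assoc, ← Matrix.mul_assoc, Matrix.mul_nonsing_inv _ hLd, Matrix.one_mul]

end one

/-- the roots of the polynomial are rational -/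
theorem QB_rat {m : ℕ} (β : Fin m → ℚ) {μ : ℂ} (hμ : Polynomial.aeval μ (Pool.Agent.Y119.HY.QB β) = 0) : ∃ q : ℚ, μ = q := by
  unfold Pool.Agent.Y119.HY.QB at hμ
  rw [map_prod, Finset.prod_eq_zero_iff] at hμ
  obtain ⟨j, -, hj⟩ := hμ
  simp only [map_sub, map_pow, Polynomial.aeval_X, Polynomial.aeval_C] at hj
  have h1 : (μ - (β j : ℂ)) * (μ + (β j : ℂ)) = 0 := by
    have h2 : (algebraMap ℚ ℂ) (β j ^ 2) = (β j : ℂ) ^ 2 := by
      rw [map_pow, eq_ratCast]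
    have h3 : μ ^ 2 - (algebraMap ℚ ℂ) (β j ^ 2) = 0 := by
      rw [map_pow]
      exact hj
    rw [h2] at h3
    linear_combination h3
  rcases mul_eq_zero.1 h1 with h | h
  · exact ⟨β j, by linear_combination h⟩
  · exact ⟨-β j, by push_cast; linear_combination h⟩

section
variable {B₀ : Type} [Fintype B₀] [DecidableEq B₀] {k : ℕ} {n : Fin k → ℕ}

/-- all relations of degree at most `d` over all fields of degree at most `D` are stable under the groups of the forms -/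
def GoodY (D d : ℕ) (C₀ : Matrix B₀ B₀ ℂ) (W B : ∀ i, Matrix (Fin (n i)) (Fin (n i)) ℂ) : Prop :=
  ∀ K : Subfield ℂ, FiniteDimensional ℚ K → finrank ℚ K ≤ D →
    ∀ g : ∀ i, (Matrix (Fin (n i)) (Fin (n i)) ℂ)ˣ, (∀ i, g i ∈ GB (B i)) →
      Rl K d (EG C₀ W) (EG 1 (fun i => (g i : Matrix (Fin (n i)) (Fin (n i)) ℂ)) * EG C₀ W)

/-- **The counting theorem for hypergeometric families at geometric sequences.** -/
theorem hyp_relS (B₀ : Type) [Fintype B₀] [DecidableEq B₀] (k D d : ℕ) (n : Fin k → ℕ) (Q : Fin k → Polynomial ℚ) (hQ : ∀ i, QD (n i) (Q i))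
    (hrat : ∀ i, ∀ μ : ℂ, Polynomial.aeval μ (Q i) = 0 → ∃ q : ℚ, μ = q)
    (hH : ∀ i a b, SDc (Hp (n i) (Q i) a b)) {b : Fin k → ℕ} (hb : ∀ i, 2 ≤ b i) :
    ∃ C : ℝ, 0 ≤ C ∧ ∀ Ω : (∀ i, Matrix (Fin (n i)) (Fin (n i)) ℂ), (∀ i, IsUnit (Ω i)) →
    ∀ C₀ : Matrix B₀ B₀ ℂ, ∀ T : ℕ, 2 ≤ T →
    ∀ S : Finset (Fin k → ℕ), (∀ t ∈ S, (∀ i, 1 ≤ t i ∧ t i ≤ T) ∧
      ¬ GoodY D d C₀ (fun i => (Yt (n i) (Q i) (b i ^ t i) * Ω i)ᵀ) (fun i => (Ω i)ᵀ * cm (Jm (n i) (Q i)) * Ω i)) →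
    (S.card : ℝ) * T ≤ C * (T : ℝ) ^ k * Real.log T := by
  obtain ⟨C, hC, hmain⟩ := rel_degB B₀ k D d 1 (∑ i, n i) (fun i => n i * n i) n (fun i => hf (n i) (Q i)) hb
    (fun i δ => hyp_fam (hQ i) (hrat i) (hH i) (hb i) δ)
  refine ⟨C, hC, ?_⟩
  intro Ω hΩ C₀ T hT S hS
  refine hmain (fun i => hypP (n i)) (fun i a b => hypP_deg a b) (fun i => Lam (Ω i)) (fun i a b =>
    (Lam_deg _ _ _).trans (Finset.single_le_sum (f := n) (fun _ _ => Nat.zero_le _) (Finset.mem_univ i))) C₀ T hT S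
    fun t ht => ?_
  obtain ⟨hbox, hnot⟩ := hS t ht
  refine ⟨hbox, fun hgood => hnot ?_⟩
  intro K hK hKD g hg
  have hper : ∀ i, lamT (fun i => Lam (Ω i)) b t i * pM (hf (n i) (Q i)) (soM (fun i => hypP (n i)) i) (tp b t i : ℝ) =
      (Yt (n i) (Q i) (b i ^ t i) * Ω i)ᵀ := by
    intro i
    refine Lam_per (Q i) (Ω i) (s := b i ^ t i) ?_
    push_cast
    rw [Real.log_pow]
    push_cast
    rfl
  choose g' hg' hgg using fun i => Lam_conj (Q i) (Ω i) (hΩ i) ((t i : ℂ) * ((Real.log (b i) : ℝ) : ℂ)) (hg i)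
  have h1 := hgood K hK hKD g' fun i => hyp_ug (hQ i) (hg' i)
  have e1 : (fun i => lamT (fun i => Lam (Ω i)) b t i * pM (hf (n i) (Q i)) (soM (fun i => hypP (n i)) i) (tp b t i : ℝ)) =
      fun i => (Yt (n i) (Q i) (b i ^ t i) * Ω i)ᵀ := funext hper
  have e2 : (fun i => lamT (fun i => Lam (Ω i)) b t i * ((g' i : Matrix (Fin (n i)) (Fin (n i)) ℂ) *
      pM (hf (n i) (Q i)) (soM (fun i => hypP (n i)) i) (tp b t i : ℝ))) =
      fun i => (g i : Matrix (Fin (n i)) (Fin (n i)) ℂ) * (Yt (n i) (Q i) (b i ^ t i) * Ω i)ᵀ := by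
    funext i
    rw [← hper i, ← Matrix.mul_assoc, ← Matrix.mul_assoc]
    congr 1
    exact (hgg i).symm
  rw [e1, e2] at h1
  rw [EG_mul, Matrix.one_mul]
  exact h1

end

end Pool.Agent.X120.GS
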