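import Pool.Agent.X120.GS.Cnt

/-!
# Relations at almost all tuples of terms of geometric sequences
-/

set_option autoImplicit false

open Filter Topology Metric Set

namespace Pool.Agent.X120.GS

open Pool.Agent.Y120.GH Pool.Agent.Y120.GF Pool.Agent.Y120.R Pool.Agent.Y113 PowerSeries

theorem tp_pos {k : ℕ} {b : Fin k → ℕ} (hb : ∀ i, 2 ≤ b i) (n : Fin k → ℕ) (i : Fin k) : 0 < tp b n i :=
  Nat.pow_pos (by have := hb i; omega)

theorem tp_lt {k : ℕ} {b : Fin k → ℕ} (hb : ∀ i, 2 ≤ b i) (n : Fin k → ℕ) (i : Fin k) : n i < tp b n i :=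
  Nat.lt_pow_self (by have := hb i; omega)

/-- zeros of a polynomial at the points of the sequences -/
theorem zerosS {k d : ℕ} {K : Type} [Field K] [CharZero K] {Δ : MvPolynomial (Fin k) K} (hΔ : Δ ≠ 0)
    (hd : Δ.totalDegree ≤ d) {b : Fin k → ℕ} (hb : ∀ i, 2 ≤ b i) (T : ℕ) (hT : 1 ≤ T) (S : Finset (Fin k → ℕ))
    (hS : ∀ t ∈ S, (∀ i, 1 ≤ t i ∧ t i ≤ T) ∧ MvPolynomial.eval (fun i => 1 / (tp b t i : K)) Δ = 0) :
    S.card ≤ k * d * T ^ (k - 1) := by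
  classical
  let g : Fin k → ℕ → K := fun i m => 1 / (((b i ^ m : ℕ)) : K)
  have hg : ∀ i, Function.Injective (g i) := by
    intro i m m' hab
    simp only [g, one_div, inv_inj, Nat.cast_inj] at hab
    exact Nat.pow_right_injective (hb i) hab
  let P : Fin k → Finset K := fun i => (Finset.Icc 1 T).image (g i)
  have hP : ∀ i, (P i).card = T := by
    intro i
    rw [Finset.card_image_of_injective _ (hg i), Nat.card_Icc, Nat.add_sub_cancel]
  have h1 := MvPolynomial.schwartz_zippel_sum_degreeOf hΔ P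
  have hinj : Set.InjOn (fun t : Fin k → ℕ => fun i => g i (t i)) S := by
    intro m _ m' _ hab
    funext i
    exact hg i (congrFun hab i)
  have h2 : S.card ≤ (({y ∈ Fintype.piFinset P | MvPolynomial.eval y Δ = 0}).card) := by
    rw [← Finset.card_image_of_injOn hinj]
    refine Finset.card_le_card ?_
    intro y hy
    obtain ⟨t, ht, rfl⟩ := Finset.mem_image.1 hy
    rw [Finset.mem_filter, Fintype.mem_piFinset]
    refine ⟨fun i => Finset.mem_image.2 ⟨t i, Finset.mem_Icc.2 ((hS t ht).1 i), rfl⟩, (hS t ht).2⟩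
  have hT0 : (0 : ℚ≥0) < T := by exact_mod_cast hT
  simp only [hP, Finset.prod_const, Finset.card_univ, Fintype.card_fin] at h1
  rw [div_le_iff₀ (by positivity)] at h1
  rcases Nat.eq_zero_or_pos k with hk | hk
  · subst hk
    simp only [Finset.univ_eq_empty, Finset.sum_empty, zero_mul] at h1
    have h3 : (({y ∈ Fintype.piFinset P | MvPolynomial.eval y Δ = 0}).card : ℚ≥0) = 0 := le_antisymm h1 (zero_le)
    have h4 : ({y ∈ Fintype.piFinset P | MvPolynomial.eval y Δ = 0}).card = 0 := by exact_mod_cast h3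
    omega
  have h3 : ∑ i : Fin k, ((MvPolynomial.degreeOf i Δ : ℚ≥0) / (T : ℚ≥0)) ≤ ∑ _i : Fin k, ((d : ℚ≥0) / T) := by
    refine Finset.sum_le_sum fun i _ => ?_
    have h4 : (MvPolynomial.degreeOf i Δ : ℚ≥0) ≤ d := by exact_mod_cast (MvPolynomial.degreeOf_le_totalDegree Δ i).trans hd
    gcongr
  rw [Finset.sum_const, Finset.card_univ, Fintype.card_fin, nsmul_eq_mul] at h3
  have h5 : (S.card : ℚ≥0) ≤ (k : ℚ≥0) * ((d : ℚ≥0) / T) * (T : ℚ≥0) ^ k := by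
    refine le_trans (by exact_mod_cast h2) (h1.trans ?_)
    gcongr
  have h6 : (k : ℚ≥0) * ((d : ℚ≥0) / T) * (T : ℚ≥0) ^ k = ((k * d * T ^ (k - 1) : ℕ) : ℚ≥0) := by
    obtain ⟨l, rfl⟩ : ∃ l, k = l + 1 := ⟨k - 1, by omega⟩
    rw [Nat.add_sub_cancel]
    push_cast
    field_simp
    ring
  rw [h6] at h5
  exact_mod_cast h5

/-- few tuples have a small coordinate -/
theorem smallS {k : ℕ} {b : Fin k → ℕ} (hb : ∀ i, 2 ≤ b i) (w T : ℕ) (S : Finset (Fin k → ℕ))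
    (hS : ∀ t ∈ S, (∀ i, 1 ≤ t i ∧ t i ≤ T) ∧ ∃ i, tp b t i ≤ w) : S.card ≤ k * (w + 1) * T ^ (k - 1) := by
  refine small w T (fun _ => 0) S fun t ht => ⟨fun i => ?_, ?_⟩
  · have := (hS t ht).1 i
    omega
  · obtain ⟨i, hi⟩ := (hS t ht).2
    exact ⟨i, le_trans (tp_lt hb t i).le hi⟩

theorem log_ge {T : ℕ} (hT : 2 ≤ T) : 1 ≤ 2 * Real.log T := by
  have h1 : Real.log 2 ≤ Real.log T := Real.log_le_log (by norm_num) (by exact_mod_cast hT)
  have := Real.log_two_gt_d9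
  linarith

/-- a trivial bound in normal form -/
theorem nrm {k T m : ℕ} (hT : 2 ≤ T) {S : ℕ} (h : S ≤ k * m * T ^ (k - 1)) :
    (S : ℝ) * T ≤ 2 * (k * m : ℕ) * (T : ℝ) ^ k * Real.log T := by
  have hT0 : (0 : ℝ) ≤ T := Nat.cast_nonneg _
  have h1 : S * T ≤ k * m * T ^ k := by
    rcases Nat.eq_zero_or_pos k with hk | hk
    · subst hk
      simp only [zero_mul, nonpos_iff_eq_zero] at h
      rw [h]
      simp
    · obtain ⟨l, rfl⟩ : ∃ l, k = l + 1 := ⟨k - 1, by omega⟩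
      rw [Nat.add_sub_cancel] at h
      calc S * T ≤ (l + 1) * m * T ^ l * T := Nat.mul_le_mul_right _ h
        _ = (l + 1) * m * T ^ (l + 1) := by rw [pow_succ]; ring
  have h2 : (S : ℝ) * T ≤ (k * m : ℕ) * (T : ℝ) ^ k := by exact_mod_cast h1
  have h3 : (0 : ℝ) ≤ ((k * m : ℕ) : ℝ) * (T : ℝ) ^ k := by positivity
  have h4 := log_ge hT
  nlinarith

/-- the data of a family which are needed -/
def FamG (δ : ℕ) {r : ℕ} (h : Fin r → ℚ⟦X⟧) (b : ℕ) : Prop :=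
  (∃ C : ℝ, ∀ j m, |((coeff m (h j) : ℚ) : ℝ)| ≤ C ^ (m + 1)) ∧
  ∃ (B : Finset (Fin δ → Option (Fin r))) (a : Polynomial ℤ) (M : (Fin δ → Option (Fin r)) → B → Polynomial ℤ),
    a ≠ 0 ∧ (∀ b, ps a * yw h b = ∑ β, ps (M b β) * yw h β.1) ∧
    OneS fun (n : ℕ) (β : B) => ((ev (((b ^ n : ℕ)) : ℝ) (yw h β.1) : ℝ) : ℂ)

section
variable {k d e : ℕ} {r n : Fin k → ℕ} {h : ∀ i, Fin (r i) → ℚ⟦X⟧}

/-- period functions without logarithms -/
noncomputable def so {k : ℕ} {r : Fin k → ℕ} {ν : Fin k → Type} (q : ∀ i, ν i → MvPolynomial (Fin (r i)) ℂ) :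
    ∀ i, ν i → MvPolynomial (Option (Fin (r i))) ℂ := fun i j => MvPolynomial.rename some (q i j)

theorem so_deg {ν : Fin k → Type} {q : ∀ i, ν i → MvPolynomial (Fin (r i)) ℂ} (hq : ∀ i j, (q i j).totalDegree ≤ e) (i : Fin k)
    (j : ν i) : (so q i j).totalDegree ≤ e := (MvPolynomial.totalDegree_rename_le _ _).trans (hq i j)

theorem sub_io (q : ∀ i, Fin (n i) → MvPolynomial (Fin (r i)) ℂ) (F : MvPolynomial (Σ i, Fin (n i)) ℂ) :
    MvPolynomial.eval₂ (MvPolynomial.C.comp (RingHom.id ℂ)) (pf (so q)) F = MvPolynomial.rename (io r)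
      (MvPolynomial.aeval (fun v : Σ i, Fin (n i) => MvPolynomial.rename (fun l => (⟨v.1, l⟩ : Σ i, Fin (r i))) (q v.1 v.2)) F) := by
  rw [RingHom.comp_id]
  have h1 : (MvPolynomial.rename (io r)).comp
      (MvPolynomial.aeval (fun v : Σ i, Fin (n i) => MvPolynomial.rename (fun l => (⟨v.1, l⟩ : Σ i, Fin (r i))) (q v.1 v.2))) =
      (MvPolynomial.aeval (pf (so q)) : MvPolynomial (Σ i, Fin (n i)) ℂ →ₐ[ℂ] MvPolynomial (Σ i, Option (Fin (r i))) ℂ) := by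
    refine MvPolynomial.algHom_ext fun v => ?_
    rw [AlgHom.comp_apply, MvPolynomial.aeval_X, MvPolynomial.aeval_X, MvPolynomial.rename_rename]
    unfold pf so
    rw [MvPolynomial.rename_rename]
    rfl
  exact (congrArg (fun f : MvPolynomial (Σ i, Fin (n i)) ℂ →ₐ[ℂ] MvPolynomial (Σ i, Option (Fin (r i))) ℂ => f F) h1).symm

/-- relations with coefficients in a vector space are specialisations of functional relations with complex
coefficients -/
theorem relXS (d e D : ℕ) {b : Fin k → ℕ} (hb : ∀ i, 2 ≤ b i) (hF : ∀ i, FamG (d * e) (h i) (b i)) :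
    ∃ C : ℝ, 0 ≤ C ∧ ∀ (q : ∀ i, Fin (n i) → MvPolynomial (Fin (r i)) ℂ), (∀ i j, (q i j).totalDegree ≤ e) →
      ∀ (V : Submodule ℚ ℂ) [Module.Finite ℚ V], Module.finrank ℚ V ≤ D → ∀ T : ℕ, 2 ≤ T → ∀ S : Finset (Fin k → ℕ),
      (∀ t ∈ S, (∀ i, 1 ≤ t i ∧ t i ≤ T) ∧ ∃ F : MvPolynomial (Σ i, Fin (n i)) ℂ, F.totalDegree ≤ d ∧
        (∀ s, F.coeff s ∈ V) ∧ MvPolynomial.eval (pv (so q) h fun i => (tp b t i : ℝ)) F = 0 ∧
        ¬ ∃ R : MvPolynomial (Σ i, Fin (n i)) (MvPolynomial (Fin k) ℂ), R.totalDegree ≤ d ∧ Fr (so q) h (RingHom.id ℂ) R ∧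
          MvPolynomial.map (MvPolynomial.eval fun i => 1 / (tp b t i : ℂ)) R = F) →
      (S.card : ℝ) * T ≤ C * (T : ℝ) ^ k * Real.log T := by
  classical
  choose hsz B a M ha hM hOne using hF
  choose C₁ hC₁ using hsz
  set C₀ : Fin k → ℝ := fun i => |C₁ i| with hC₀d
  have hC₀ : ∀ i, 0 ≤ C₀ i := fun i => abs_nonneg _
  have hh : ∀ i j m, |((coeff m (h i j) : ℚ) : ℝ)| ≤ C₀ i ^ (m + 1) := fun i j m => by
    refine (hC₁ i j m).trans ?_
    rw [hC₀d, ← abs_pow]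
    exact le_abs_self _
  obtain ⟨C, hC, hgood⟩ := goodS (δ := d * e) (D := Fintype.card (Jx (Σ i, Fin (n i)) d × Jx (Σ i, Option (Fin (r i))) (d * e)) * D)
    hM b hOne hC₀ hh
  choose c₁ hc₁ using fun i => no_roots (ha i)
  obtain ⟨w₀, hw₀⟩ : ∃ w : ℕ, ∀ i, C₀ i ≤ w ∧ c₁ i ≤ w := by
    choose m hm using fun i => exists_nat_ge (C₀ i)
    refine ⟨∑ i, (m i + c₁ i), fun i => ⟨?_, ?_⟩⟩
    · have h1 : m i + c₁ i ≤ ∑ i, (m i + c₁ i) :=
        Finset.single_le_sum (f := fun i => m i + c₁ i) (fun _ _ => Nat.zero_le _) (Finset.mem_univ i)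
      have h2 : ((m i : ℕ) : ℝ) ≤ ((∑ i, (m i + c₁ i) : ℕ) : ℝ) := by exact_mod_cast (by omega)
      exact (hm i).trans h2
    · have h1 : m i + c₁ i ≤ ∑ i, (m i + c₁ i) :=
        Finset.single_le_sum (f := fun i => m i + c₁ i) (fun _ _ => Nat.zero_le _) (Finset.mem_univ i)
      omega
  obtain ⟨d₀, hd₀⟩ : ∃ d₀ : ℕ, ∀ i b β, (M i b β).natDegree ≤ d₀ := by
    refine ⟨∑ i, ∑ b, ∑ β, (M i b β).natDegree, fun i b β => ?_⟩
    refine le_trans ?_ (Finset.single_le_sum (f := fun i => ∑ b, ∑ β, (M i b β).natDegree) (fun _ _ => Nat.zero_le _)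
      (Finset.mem_univ i))
    refine le_trans ?_ (Finset.single_le_sum (f := fun b => ∑ β, (M i b β).natDegree) (fun _ _ => Nat.zero_le _)
      (Finset.mem_univ b))
    exact Finset.single_le_sum (f := fun β => (M i b β).natDegree) (fun _ _ => Nat.zero_le _) (Finset.mem_univ β)
  set dΔ : ℕ := Fintype.card (Jx (Σ i, Fin (n i)) d) * (k * d₀) with hdΔ
  refine ⟨C + (2 * (k * (w₀ + 1) : ℕ) + 2 * (k * dΔ : ℕ)), by positivity, ?_⟩
  intro q₀ hq₀ V _ hV T hT S hS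
  set q : ∀ i, Fin (n i) → MvPolynomial (Option (Fin (r i))) ℂ := so q₀ with hqd
  have hq : ∀ i j, (q i j).totalDegree ≤ e := so_deg hq₀
  let g : Jx (Σ i, Fin (n i)) d → Ex r → Unit → ℂ := fun j s _ => (Z q j).coeff s
  have hg : ∀ j s, (Z q j).coeff s = ∑ l : Unit, (1 : ℂ) * RingHom.id ℂ (g j s l) := fun j s => by simp [g]
  have hw : ∀ c : Unit → ℂ, ∑ l, (1 : ℂ) * RingHom.id ℂ (c l) = 0 → c = 0 := fun c hc => by
    funext l
    simpa using hc
  obtain ⟨Δ, hΔ, hΔd, hlift⟩ := lift (mat M q g) (d := k * d₀) (fun pl j => mat_deg M q hd₀ pl j)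
  set y : (Fin k → ℕ) → Fin k → ℂ := fun t i => 1 / (tp b t i : ℂ) with hy
  have hfin := fV_fin (δ := d * e) (d := d) q V
  obtain ⟨S₃, hS₃c, hS₃⟩ := hgood (LinearMap.range (fV q (d * e) d V)) (fV_rank q V hV) T hT
  set S₁ := S.filter fun t => ∃ i, tp b t i ≤ w₀ with hS₁
  set S₂ := S.filter fun t => MvPolynomial.eval (y t) Δ = 0 with hS₂
  have hcov : S ⊆ S₁ ∪ (S₂ ∪ S₃) := by
    intro t ht
    by_cases h1 : ∃ i, tp b t i ≤ w₀
    · exact Finset.mem_union_left _ (Finset.mem_filter.2 ⟨ht, h1⟩)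
    · by_cases h2 : MvPolynomial.eval (y t) Δ = 0
      · exact Finset.mem_union_right _ (Finset.mem_union_left _ (Finset.mem_filter.2 ⟨ht, h2⟩))
      · refine Finset.mem_union_right _ (Finset.mem_union_right _ ?_)
        obtain ⟨hbox, F, hFd, hFV, hF0, hFR⟩ := hS t ht
        push Not at h1
        refine hS₃ t hbox (fun i => lt_of_le_of_lt (hw₀ i).1 (by exact_mod_cast h1 i))
          ⟨MvPolynomial.aeval (fun v : Σ i, Fin (n i) => MvPolynomial.rename (fun l => (⟨v.1, l⟩ : Σ i, Fin (r i)))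
            (q₀ v.1 v.2)) F, ?_, ?_, ?_, ?_⟩
        · rw [← sub_io]
          exact sub_deg q le_rfl hq (RingHom.id ℂ) hFd
        · rw [← sub_io]
          exact sub_mem q le_rfl hq (RingHom.id ℂ) hFd hFV
        · rw [← sub_io, eval_sub]
          exact hF0
        · rw [← sub_io]
          by_contra hno
          push Not at hno
          obtain ⟨R, hRd, hRF, hRs⟩ := lift_rel M q a (δ := d * e) le_rfl hq hg hw hM hC₀ hh (τ := (w₀ : ℝ))
            (fun i => (hw₀ i).1) (fun i s hs => hc₁ i s (by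
              have h1 : ((c₁ i : ℕ) : ℝ) ≤ w₀ := by exact_mod_cast (hw₀ i).2
              exact lt_of_le_of_lt h1 hs)) (y := y t) (hlift (y t) h2) F hFd hno
          exact hFR ⟨R, hRd, ⟨(w₀ : ℝ), hRs⟩, hRF⟩
  have hcard : S.card ≤ S₁.card + (S₂.card + S₃.card) :=
    (Finset.card_le_card hcov).trans ((Finset.card_union_le _ _).trans (Nat.add_le_add_left (Finset.card_union_le _ _) _))
  have hb₁ : S₁.card ≤ k * (w₀ + 1) * T ^ (k - 1) := smallS hb w₀ T S₁ fun t ht =>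
    ⟨(hS t (Finset.mem_filter.1 ht).1).1, (Finset.mem_filter.1 ht).2⟩
  have hb₂ : S₂.card ≤ k * dΔ * T ^ (k - 1) := zerosS hΔ hΔd hb T (by omega) S₂ fun t ht =>
    ⟨(hS t (Finset.mem_filter.1 ht).1).1, (Finset.mem_filter.1 ht).2⟩
  have e1 := nrm hT hb₁
  have e2 := nrm hT hb₂
  have e3 : (S.card : ℝ) * T ≤ (S₁.card + (S₂.card + S₃.card)) * T := by
    have : (S.card : ℝ) ≤ S₁.card + (S₂.card + S₃.card) := by exact_mod_cast hcard
    exact mul_le_mul_of_nonneg_right this (Nat.cast_nonneg _)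
  calc (S.card : ℝ) * T ≤ (S₁.card + (S₂.card + S₃.card)) * T := e3
    _ = S₁.card * T + (S₂.card * T + S₃.card * T) := by ring
    _ ≤ 2 * (k * (w₀ + 1) : ℕ) * (T : ℝ) ^ k * Real.log T + (2 * (k * dΔ : ℕ) * (T : ℝ) ^ k * Real.log T +
        C * (T : ℝ) ^ k * Real.log T) := add_le_add e1 (add_le_add e2 hS₃c)
    _ = _ := by ring

end

section
variable {k : ℕ} {r : Fin k → ℕ} {ν : Fin k → Type} {h : ∀ i, Fin (r i) → ℚ⟦X⟧}

theorem relXS' [∀ i, Fintype (ν i)] (d e D : ℕ) {b : Fin k → ℕ} (hb : ∀ i, 2 ≤ b i) (hF : ∀ i, FamG (d * e) (h i) (b i)) :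
    ∃ C : ℝ, 0 ≤ C ∧ ∀ (q : ∀ i, ν i → MvPolynomial (Fin (r i)) ℂ), (∀ i j, (q i j).totalDegree ≤ e) →
      ∀ (V : Submodule ℚ ℂ) [Module.Finite ℚ V], Module.finrank ℚ V ≤ D → ∀ T : ℕ, 2 ≤ T → ∀ S : Finset (Fin k → ℕ),
      (∀ t ∈ S, (∀ i, 1 ≤ t i ∧ t i ≤ T) ∧ ∃ F : MvPolynomial (Σ i, ν i) ℂ, F.totalDegree ≤ d ∧
        (∀ s, F.coeff s ∈ V) ∧ MvPolynomial.eval (pn h (so q) fun i => (tp b t i : ℝ)) F = 0 ∧
        ¬ ∃ R : MvPolynomial (Σ i, ν i) (MvPolynomial (Fin k) ℂ), R.totalDegree ≤ d ∧ Fn h (so q) R ∧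
          MvPolynomial.map (MvPolynomial.eval fun i => 1 / (tp b t i : ℂ)) R = F) →
      (S.card : ℝ) * T ≤ C * (T : ℝ) ^ k * Real.log T := by
  classical
  obtain ⟨C, hC, h1⟩ := relXS (n := fun i => Fintype.card (ν i)) d e D hb hF
  refine ⟨C, hC, ?_⟩
  intro q₀ hq₀ V _ hV T hT S hS
  let ε : ∀ i, ν i ≃ Fin (Fintype.card (ν i)) := fun i => Fintype.equivFin (ν i)
  let q₀' : ∀ i, Fin (Fintype.card (ν i)) → MvPolynomial (Fin (r i)) ℂ := fun i j => q₀ i ((ε i).symm j)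
  let σ : (Σ i, ν i) ≃ (Σ i, Fin (Fintype.card (ν i))) := Equiv.sigmaCongrRight ε
  have hpv : ∀ s : Fin k → ℝ, pv (so q₀') h s ∘ σ = pn h (so q₀) s := by
    intro s
    funext v
    obtain ⟨i, j⟩ := v
    show MvPolynomial.aeval (vp h s) (pf (so q₀') ⟨i, ε i j⟩) = MvPolynomial.aeval (p1 (h i) (s i)) (so q₀ i j)
    unfold pf
    rw [MvPolynomial.aeval_rename]
    have h2 : (vp h s ∘ fun o : Option (Fin (r i)) => (⟨i, o⟩ : Σ i, Option (Fin (r i)))) = p1 (h i) (s i) := by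
      funext o
      rcases o with _ | l
      · rfl
      · rfl
    show MvPolynomial.aeval (vp h s ∘ fun o : Option (Fin (r i)) => (⟨i, o⟩ : Σ i, Option (Fin (r i))))
      (so q₀' i (ε i j)) = _
    rw [h2]
    show MvPolynomial.aeval _ (MvPolynomial.rename some (q₀ i ((ε i).symm (ε i j)))) = _
    rw [Equiv.symm_apply_apply]
    rfl
  refine h1 q₀' (fun i j => hq₀ i _) V hV T hT S fun t ht => ?_
  obtain ⟨hbox, F, hFd, hFV, hF0, hFR⟩ := hS t ht
  refine ⟨hbox, MvPolynomial.rename σ F, (MvPolynomial.totalDegree_rename_le _ _).trans hFd, fun s => ?_, ?_, ?_⟩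
  · have h2 : s = Finsupp.mapDomain σ (Finsupp.mapDomain σ.symm s) := by
      rw [← Finsupp.mapDomain_comp]
      simp
    rw [h2, MvPolynomial.coeff_rename_mapDomain _ σ.injective]
    exact hFV _
  · rw [MvPolynomial.eval_rename, hpv]
    exact hF0
  · rintro ⟨R, hRd, ⟨τ, hRτ⟩, hRF⟩
    refine hFR ⟨MvPolynomial.rename σ.symm R, (MvPolynomial.totalDegree_rename_le _ _).trans hRd, ⟨τ, fun s hs => ?_⟩, ?_⟩
    · rw [MvPolynomial.eval₂_rename]
      have h3 : pn h (so q₀) s ∘ σ.symm = pv (so q₀') h s := by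
        rw [← hpv]
        funext v
        simp
      rw [h3]
      exact hRτ s hs
    · rw [MvPolynomial.map_rename, hRF, MvPolynomial.rename_rename]
      simp

/-- For almost all tuples all relations are inherited by the functions with the same functional relations. -/
theorem gxS [∀ i, Fintype (ν i)] (d e D : ℕ) {b : Fin k → ℕ} (hb : ∀ i, 2 ≤ b i) (hF : ∀ i, FamG (d * e) (h i) (b i)) :
    ∃ C : ℝ, 0 ≤ C ∧ ∀ (q : ∀ i, ν i → MvPolynomial (Fin (r i)) ℂ), (∀ i j, (q i j).totalDegree ≤ e) →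
      ∀ (V : Submodule ℚ ℂ) [Module.Finite ℚ V], Module.finrank ℚ V ≤ D → ∀ T : ℕ, 2 ≤ T → ∀ S : Finset (Fin k → ℕ),
      (∀ t ∈ S, (∀ i, 1 ≤ t i ∧ t i ≤ T) ∧ ∃ F : MvPolynomial (Σ i, ν i) ℂ, F.totalDegree ≤ d ∧
        (∀ s, F.coeff s ∈ V) ∧ MvPolynomial.eval (pn h (so q) fun i => (tp b t i : ℝ)) F = 0 ∧
        ∃ q' : ∀ i, ν i → MvPolynomial (Option (Fin (r i))) ℂ, (∀ i, Sat (h i) (so q i) (q' i)) ∧
          MvPolynomial.eval (pn h q' fun i => (tp b t i : ℝ)) F ≠ 0) →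
      (S.card : ℝ) * T ≤ C * (T : ℝ) ^ k * Real.log T := by
  classical
  obtain ⟨C, hC, h1⟩ := relXS' (ν := ν) d e D hb hF
  obtain ⟨w, hw⟩ : ∃ w : ℕ, ∀ i l m, |((coeff m (h i l) : ℚ) : ℝ)| ≤ (w : ℝ) ^ (m + 1) := by
    choose C₁ hC₁ using fun i => (hF i).1
    choose m hm using fun i => exists_nat_ge |C₁ i|
    refine ⟨∑ i, m i, fun i l j => ?_⟩
    refine (hC₁ i l j).trans ?_
    refine (le_abs_self _).trans ?_
    rw [abs_pow]
    refine pow_le_pow_left₀ (abs_nonneg _) ((hm i).trans ?_) _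
    exact_mod_cast Finset.single_le_sum (f := m) (fun _ _ => Nat.zero_le _) (Finset.mem_univ i)
  refine ⟨C + 2 * (k * (w + 1) : ℕ), by positivity, ?_⟩
  intro q hq V _ hV T hT S hS
  set S₁ := S.filter fun t => ∃ i, tp b t i ≤ w with hS₁
  set S₂ := S.filter fun t => ¬ ∃ i, tp b t i ≤ w with hS₂
  have hcard : S₁.card + S₂.card = S.card := Finset.card_filter_add_card_filter_not (s := S) (fun t => ∃ i, tp b t i ≤ w)
  have hb₁ : S₁.card ≤ k * (w + 1) * T ^ (k - 1) := smallS hb w T S₁ fun t ht =>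
    ⟨(hS t (Finset.mem_filter.1 ht).1).1, (Finset.mem_filter.1 ht).2⟩
  have hb₂ : (S₂.card : ℝ) * T ≤ C * (T : ℝ) ^ k * Real.log T := by
    refine h1 q hq V hV T hT S₂ fun t ht => ?_
    obtain ⟨htS, hbig⟩ := Finset.mem_filter.1 ht
    obtain ⟨hbox, F, hFd, hFV, hF0, q', hq', hne⟩ := hS t htS
    push Not at hbig
    refine ⟨hbox, F, hFd, hFV, hF0, ?_⟩
    rintro ⟨R, hRd, hRf, hRF⟩
    apply hne
    have h2 := fn_sat (h := h) (C₀ := (w : ℝ)) (by positivity) hw hq' hRf (s := fun i => (tp b t i : ℝ)) fun i => by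
      exact_mod_cast hbig i
    rw [← hRF, MvPolynomial.eval_map]
    refine Eq.trans ?_ h2
    congr 1
  have e0 := nrm hT hb₁
  have e1 : (S.card : ℝ) = S₁.card + S₂.card := by exact_mod_cast hcard.symm
  rw [e1]
  calc ((S₁.card : ℝ) + S₂.card) * T = S₁.card * T + S₂.card * T := by ring
    _ ≤ 2 * (k * (w + 1) : ℕ) * (T : ℝ) ^ k * Real.log T + C * (T : ℝ) ^ k * Real.log T := add_le_add e0 hb₂
    _ = _ := by ring

end

end Pool.Agent.X120.GS
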