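import Pool.Agent.X120.GS.Deg

/-!
# Relations on torsors which are stable under the weights
-/

set_option autoImplicit false

open Matrix Module PowerSeries Filter

namespace Pool.Agent.X120.GS

open Pool.Agent.TH127.PT Pool.Agent.Y123.ST Pool.Agent.Y123.SR Pool.Agent.Y123.GN Pool.Agent.Y113 Pool.Agent.Y113.GG
  Pool.Agent.Y120.R Pool.Agent.Y120.GH

section
variable {k : ℕ} {n : Fin k → ℕ} {K : Subfield ℂ}

/-- the closed subset of `∏ GL × GL_1` which is defined by a set of polynomials over `K` -/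
def ZK (I : Set (MvPolynomial ((Σ i, Fin (n i) × Fin (n i)) ⊕ Fin 1) K)) :
    Set ((∀ i, Matrix (Fin (n i)) (Fin (n i)) ℂ) × ℂ) :=
  {y | y.2 ≠ 0 ∧ (∀ i, IsUnit (y.1 i)) ∧ ∀ R ∈ I, MvPolynomial.aeval (vals y.1 fun _ => y.2) R = 0}

/-- the action of the weights -/
noncomputable def wt (S : ∀ i, Matrix (Fin (n i)) (Fin (n i)) ℂ) (w : ∀ i, Fin (n i) → ℤ) (t : ℂ)
    (Y : ∀ i, Matrix (Fin (n i)) (Fin (n i)) ℂ) : ∀ i, Matrix (Fin (n i)) (Fin (n i)) ℂ :=
  fun i => S i * Matrix.diagonal (fun a => t ^ w i a) * (S i)⁻¹ * Y i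

theorem wt_one {S : ∀ i, Matrix (Fin (n i)) (Fin (n i)) ℂ} (hS : ∀ i, IsUnit (S i)) (w : ∀ i, Fin (n i) → ℤ)
    (Y : ∀ i, Matrix (Fin (n i)) (Fin (n i)) ℂ) : wt S w 1 Y = Y := by
  funext i
  unfold wt
  have h1 : (fun a => (1 : ℂ) ^ w i a) = fun _ => 1 := funext fun a => one_zpow _
  rw [h1, Matrix.diagonal_one, Matrix.mul_one, Matrix.mul_nonsing_inv _ ((Matrix.isUnit_iff_isUnit_det _).1 (hS i)),
    Matrix.one_mul]

theorem wt_cont (S : ∀ i, Matrix (Fin (n i)) (Fin (n i)) ℂ) (w : ∀ i, Fin (n i) → ℤ)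
    (Y : ∀ i, Matrix (Fin (n i)) (Fin (n i)) ℂ) (i : Fin k) (a b : Fin (n i)) :
    ContinuousAt (fun t : ℂ => wt S w t Y i a b) 1 := by
  have h1 : (fun t : ℂ => wt S w t Y i a b) = fun t : ℂ => ∑ c, S i a c * t ^ w i c * ((S i)⁻¹ * Y i) c b := by
    funext t
    unfold wt
    rw [Matrix.mul_assoc (S i * Matrix.diagonal _), Matrix.mul_apply]
    refine Finset.sum_congr rfl fun c _ => ?_
    rw [Matrix.mul_diagonal]
  rw [h1]
  refine tendsto_finsetSum _ fun c _ => ?_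
  exact (continuousAt_const.mul (continuousAt_zpow₀ _ _ (Or.inl one_ne_zero))).mul continuousAt_const

theorem aeval_auto (σ : ℂ ≃+* ℂ) (h1 : ∀ c : K, σ c = c) (Y : ∀ i, Matrix (Fin (n i)) (Fin (n i)) ℂ) (z : ℂ)
    (F : MvPolynomial ((Σ i, Fin (n i) × Fin (n i)) ⊕ Fin 1) K) :
    σ (MvPolynomial.aeval (vals Y fun _ => z) F) = MvPolynomial.aeval (vals (fun i => (Y i).map σ) fun _ => σ z) F := by
  have h7 := MvPolynomial.eval₂_comp_left (σ : ℂ →+* ℂ) (algebraMap K ℂ) (vals Y fun _ => z) F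
  rw [MvPolynomial.aeval_def, MvPolynomial.aeval_def]
  refine Eq.trans h7 ?_
  have h8 : (σ : ℂ →+* ℂ).comp (algebraMap K ℂ) = algebraMap K ℂ := by
    ext c
    exact h1 c
  rw [h8]
  congr 1
  funext v
  rcases v with v | j
  · rfl
  · rfl

/-- **relations hold on torsors over `K`**: from the fibre over `2πi` to the torsor -/
theorem rel_tor (hK : ∀ x ∈ K, IsAlgebraic ℚ x) {I : Set (MvPolynomial ((Σ i, Fin (n i) × Fin (n i)) ⊕ Fin 1) K)}
    {S : ∀ i, Matrix (Fin (n i)) (Fin (n i)) ℂ} (hS : ∀ i, IsUnit (S i)) {w : ∀ i, Fin (n i) → ℤ}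
    (hwt : ∀ Y z, (Y, z) ∈ ZK I → ∀ t : ℂ, t ≠ 0 → (wt S w t Y, t ^ 2 * z) ∈ ZK I)
    {F : MvPolynomial ((Σ i, Fin (n i) × Fin (n i)) ⊕ Fin 1) K}
    (ha : ∀ Y, (Y, tpi) ∈ ZK I → MvPolynomial.aeval (vals Y fun _ => tpi) F = 0) :
    ∀ y ∈ ZK I, MvPolynomial.aeval (vals y.1 fun _ => y.2) F = 0 := by
  have hτ : Transcendental K tpi := tpi_tr hK
  -- transcendental values
  have hb : ∀ Y z, Transcendental K z → (Y, z) ∈ ZK I → MvPolynomial.aeval (vals Y fun _ => z) F = 0 := by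
    intro Y z hz hY
    obtain ⟨σ, h1, h2⟩ := Pool.Agent.H37PG.exists_aut hτ hz
    have h1' : ∀ c : K, σ.symm c = c := fun x => by
      rw [RingEquiv.symm_apply_eq]
      exact (h1 x).symm
    have hsz : σ.symm z = tpi := by rw [← h2, RingEquiv.symm_apply_apply]
    have hY' : ((fun i => (Y i).map σ.symm), tpi) ∈ ZK I := by
      refine ⟨tpi_ne, fun i => ?_, fun R hR => ?_⟩
      · have h3 := hY.2.1 i
        rw [Matrix.isUnit_iff_isUnit_det] at h3 ⊢
        have h5 : ((Y i).map σ.symm).det = σ.symm (Y i).det := (RingEquiv.map_det σ.symm (Y i)).symm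
        show IsUnit ((Y i).map σ.symm).det
        rw [h5]
        exact h3.map σ.symm
      · show MvPolynomial.aeval (vals (fun i => (Y i).map σ.symm) fun _ => tpi) R = 0
        rw [← hsz, ← aeval_auto σ.symm h1' Y z R]
        rw [hY.2.2 R hR, map_zero]
    have h6 := congrArg σ (ha _ hY')
    rw [map_zero, aeval_auto σ h1] at h6
    rw [← h6, h2]
    congr 2
    congr 1
    funext i
    ext a b
    show Y i a b = σ (σ.symm (Y i a b))
    rw [RingEquiv.apply_symm_apply]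
  rintro ⟨Y, z⟩ hY
  show MvPolynomial.aeval (vals Y fun _ => z) F = 0
  by_cases hz : Transcendental K z
  · exact hb Y z hz hY
  have hza : IsAlgebraic K z := by
    by_contra h
    exact hz h
  have hz0 : z ≠ 0 := hY.1
  -- a curve through `(Y, z)`
  have hcurve : ∀ t : ℂ, Transcendental K t →
      MvPolynomial.aeval (vals (wt S w t Y) fun _ => t ^ 2 * z) F = 0 := by
    intro t ht
    have ht0 : t ≠ 0 := by
      rintro rfl
      exact ht (isAlgebraic_zero)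
    refine hb _ _ ?_ (hwt Y z hY t ht0)
    intro h
    apply ht
    have h3 : t ^ 2 = z⁻¹ * (t ^ 2 * z) := by
      field_simp
    have h4 : IsAlgebraic K (t ^ 2) := by
      rw [h3]
      exact hza.inv.mul h
    exact h4.of_pow (by norm_num)
  -- continuity
  have hcount : ({x : ℂ | IsAlgebraic K x} : Set ℂ).Countable := by
    have h1 : ({x : ℂ | IsAlgebraic ℚ x} : Set ℂ).Countable := Algebraic.countable ℚ ℂ
    refine h1.mono fun x hx => ?_
    have h2 : Algebra.IsAlgebraic ℚ K := ⟨fun x => by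
      have h1 := hK x x.2
      exact (isAlgebraic_algebraMap_iff (A := ℂ) (algebraMap K ℂ).injective).1 h1⟩
    exact IsAlgebraic.restrictScalars ℚ hx
  have hdense : Dense ({x : ℂ | IsAlgebraic K x}ᶜ) := hcount.dense_compl ℝ
  have hcont : ContinuousAt (fun t : ℂ => MvPolynomial.aeval (vals (wt S w t Y) fun _ : Fin 1 => t ^ 2 * z) F) 1 := by
    have h1 : (fun t : ℂ => MvPolynomial.aeval (vals (wt S w t Y) fun _ : Fin 1 => t ^ 2 * z) F) =
        (fun v => MvPolynomial.eval v (MvPolynomial.map (algebraMap K ℂ) F)) ∘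
          fun t : ℂ => vals (wt S w t Y) fun _ : Fin 1 => t ^ 2 * z := by
      funext t
      show _ = MvPolynomial.eval _ _
      rw [MvPolynomial.eval_map, MvPolynomial.aeval_def]
    rw [h1]
    refine ContinuousAt.comp (MvPolynomial.continuous_eval _).continuousAt ?_
    refine continuousAt_pi.2 fun v => ?_
    rcases v with v | j
    · exact wt_cont S w Y v.1 v.2.1 v.2.2
    · show ContinuousAt (fun t : ℂ => t ^ 2 * z) 1
      exact (continuousAt_id.pow 2).mul continuousAt_const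
  by_contra hne
  have hne' : MvPolynomial.aeval (vals (wt S w 1 Y) fun _ : Fin 1 => (1 : ℂ) ^ 2 * z) F ≠ 0 := by
    rw [wt_one hS]
    simpa using hne
  have hev : ∀ᶠ t : ℂ in nhds 1, MvPolynomial.aeval (vals (wt S w t Y) fun _ : Fin 1 => t ^ 2 * z) F ≠ 0 :=
    hcont.eventually_ne hne'
  obtain ⟨U, hU, hUo, hU1⟩ := mem_nhds_iff.1 hev
  obtain ⟨t, htU, ht⟩ := hdense.inter_open_nonempty U hUo ⟨1, hU1⟩
  exact hU htU (hcurve t ht)

/-- **the relations hold for all isomorphisms which respect forms and determinants**, relative case -/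
theorem rel_formsL {m d : ℕ} {ξ : Fin m → ℂ} {L Z Y Q : ∀ i, Matrix (Fin (n i)) (Fin (n i)) ℂ}
    (hL : ∀ i, IsUnit (L i)) (hZ : ∀ i, IsUnit (Z i))
    (hst : ∀ g : ∀ i, (Matrix (Fin (n i)) (Fin (n i)) ℂ)ˣ, (∀ i, g i ∈ GB (Z i * Q i * (Z i)ᵀ)) →
      Rl K d (EG (Matrix.diagonal ξ) fun i => L i * Z i)
        (EG (Matrix.diagonal ξ) fun i => L i * ((g i : Matrix (Fin (n i)) (Fin (n i)) ℂ) * Z i)))
    (hY : ∀ i, Y i * Q i * (Y i)ᵀ = (L i * Z i) * Q i * (L i * Z i)ᵀ)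
    (hd : ∀ i, Spf (Z i * Q i * (Z i)ᵀ) ∨ (Y i).det = (L i * Z i).det)
    {F : MvPolynomial ((Σ i, Fin (n i) × Fin (n i)) ⊕ Fin m) K} (hF : F.totalDegree ≤ d)
    (h0 : MvPolynomial.aeval (vals (fun i => L i * Z i) ξ) F = 0) : MvPolynomial.aeval (vals Y ξ) F = 0 := by
  have hLd : ∀ i, IsUnit (L i).det := fun i => (Matrix.isUnit_iff_isUnit_det _).1 (hL i)
  have hLt : ∀ i, (L i)⁻¹ * L i = 1 := fun i => Matrix.nonsing_inv_mul _ (hLd i)
  have hLt' : ∀ i, L i * (L i)⁻¹ = 1 := fun i => Matrix.mul_nonsing_inv _ (hLd i)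
  choose g hg hgX using fun i => quot_GB (μ := (1 : ℂ)) (X := Z i) (Y := (L i)⁻¹ * Y i) (Q := Q i) (B := Z i * Q i * (Z i)ᵀ)
    one_ne_zero (hZ i) (by rw [one_smul]) (by
      have h3 : (L i)ᵀ * ((L i)⁻¹)ᵀ = 1 := by rw [← Matrix.transpose_mul, hLt i, Matrix.transpose_one]
      rw [one_smul, Matrix.transpose_mul]
      calc (L i)⁻¹ * Y i * Q i * ((Y i)ᵀ * ((L i)⁻¹)ᵀ) = (L i)⁻¹ * (Y i * Q i * (Y i)ᵀ) * ((L i)⁻¹)ᵀ := by
            simp only [Matrix.mul_assoc]
        _ = ((L i)⁻¹ * L i) * (Z i * Q i * (Z i)ᵀ) * ((L i)ᵀ * ((L i)⁻¹)ᵀ) := by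
            rw [hY i, Matrix.transpose_mul]
            simp only [Matrix.mul_assoc]
        _ = _ := by rw [hLt i, h3, Matrix.one_mul, Matrix.mul_one]) (by
      rcases hd i with h | h
      · exact Or.inl h
      · refine Or.inr ?_
        rw [Matrix.det_mul, h, Matrix.det_mul, ← mul_assoc, ← Matrix.det_mul, hLt i, Matrix.det_one, one_mul])
  have h1 := rel_valsL (hst g hg) hF h0
  have h2 : (fun i => L i * ((g i : Matrix (Fin (n i)) (Fin (n i)) ℂ) * Z i)) = Y := by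
    funext i
    rw [hgX i, ← Matrix.mul_assoc, hLt' i, Matrix.one_mul]
  rwa [h2] at h1

end

end Pool.Agent.X120.GS
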