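import Pool.Agent.X120.GS.Hyp
import Pool.Agent.X120.GS.Tor

/-!
# Hypergeometric families at geometric sequences: the group
-/

set_option autoImplicit false

open Filter Topology Metric Set

namespace Pool.Agent.X120.GS

open Pool.Agent.Y113 PowerSeries
open Pool.Agent.Y119.HZ (Hp hf)
open Pool.Agent.Y119.HY (QD Am Bm cm Jm Ep E Ep_eval E_neg Hf Hc Yf Vr Rel Gal E_add E_zero E_mul_neg E_isom)

section
variable {n : ℕ} {Q : Polynomial ℚ}

/-- the family at geometric sequences -/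
theorem hyp_fam (hQ : QD n Q) (hrat : ∀ μ : ℂ, Polynomial.aeval μ Q = 0 → ∃ q : ℚ, μ = q)
    (hH : ∀ i j, SDc (Hp n Q i j)) {b : ℕ} (hb : 2 ≤ b) (δ : ℕ) : FamG δ (hf n Q) b := by
  obtain ⟨D, c, hD, hc⟩ := Pool.Agent.Y119.HZ.exists_b n Q
  obtain ⟨q, C, hG⟩ := Pool.Agent.Y119.HZ.gsys_Hp hQ hH hc
  have hG' := hG.reindex (Pool.Agent.Y119.HZ.ix n)
  have hT : Polynomial.X * Pool.Agent.Y119.HZ.T1 D ≠ 0 := by
    refine mul_ne_zero Polynomial.X_ne_zero (mul_ne_zero (Polynomial.C_ne_zero.2 (by exact_mod_cast hD)) ?_)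
    intro h0
    have := congrArg (Polynomial.eval 0) h0
    simp at this
  obtain ⟨B, a, M, h1, h2, h3⟩ := family_gsysS (h := hf n Q) (d := 2)
    (A := fun a c' => Pool.Agent.Y119.HZ.A2 n D c (Pool.Agent.Y119.HZ.ix n a) (Pool.Agent.Y119.HZ.ix n c')) hT (fun i => by
      have h1 := Pool.Agent.Y119.HZ.ode_A2 hQ hc (Pool.Agent.Y119.HZ.ix n i)
      have h2 : ∑ j : Fin (n * n), ps (Pool.Agent.Y119.HZ.A2 n D c (Pool.Agent.Y119.HZ.ix n i) (Pool.Agent.Y119.HZ.ix n j)) * hf n Q j =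
          ∑ q, ps (Pool.Agent.Y119.HZ.A2 n D c (Pool.Agent.Y119.HZ.ix n i) q) * Hp n Q q.1 q.2 :=
        Equiv.sum_comp (Pool.Agent.Y119.HZ.ix n) fun q => ps (Pool.Agent.Y119.HZ.A2 n D c (Pool.Agent.Y119.HZ.ix n i) q) * Hp n Q q.1 q.2
      exact h1.trans h2.symm) hG' (by
      rw [T_eq]
      compute_degree) (fun i j => by
      rw [A2_eq]
      refine Polynomial.natDegree_add_le_of_degree_le ?_ ?_
      · rw [Polynomial.natDegree_C]
        exact Nat.zero_le _
      · exact (Polynomial.natDegree_C_mul_X_pow_le _ _).trans (by norm_num))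
    (hyp_qu hQ hrat hD hc) δ
  obtain ⟨C₁, -, hs, -⟩ := Pool.Agent.Y119.HY.SDc.unif
    (y := fun p : Fin n × Fin n => Hp n Q p.1 p.2) fun p => hH p.1 p.2
  exact ⟨⟨C₁, fun j m => hs (Pool.Agent.Y119.HZ.ix n j) m⟩, B, a, M, h1, h2, h3 b hb⟩

/-- the transposed period matrix, as polynomials in the entries -/
noncomputable def hypP (n : ℕ) (a b : Fin n) : MvPolynomial (Fin (n * n)) ℂ :=
  MvPolynomial.X ((Pool.Agent.Y119.HZ.ix n).symm (b, a))

theorem hypP_deg (a b : Fin n) : (hypP n a b).totalDegree ≤ 1 := by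
  unfold hypP
  rw [MvPolynomial.totalDegree_X]

theorem hypP_val (n : ℕ) (Q : Polynomial ℚ) (s : ℝ) (a b : Fin n) :
    Pool.Agent.Y120.R.pM (hf n Q) (fun a b => MvPolynomial.rename some (hypP n a b)) s a b =
      Hf (Hc n Q) (((1 / s : ℝ)) : ℂ) b a := by
  unfold Pool.Agent.Y120.R.pM
  rw [Matrix.of_apply]
  show MvPolynomial.aeval (Pool.Agent.Y120.R.p1 (hf n Q) s) (MvPolynomial.rename some
    (MvPolynomial.X ((Pool.Agent.Y119.HZ.ix n).symm (b, a)))) = _
  rw [MvPolynomial.rename_X, MvPolynomial.aeval_X]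
  show ((ev s (hf n Q ((Pool.Agent.Y119.HZ.ix n).symm (b, a))) : ℝ) : ℂ) = _
  unfold Pool.Agent.Y119.HZ.hf
  rw [Equiv.apply_symm_apply]
  exact Pool.Agent.Y119.HZ.ev_Hp s b a

/-- the relation as a polynomial in `z`, `log z` and the entries of `Y` -/
noncomputable def PRc (N : Matrix (Fin n) (Fin n) ℂ) (R : MvPolynomial (Fin n × Fin n) (Polynomial ℂ)) : MvPolynomial (Vr n) ℂ :=
  MvPolynomial.eval₂ (Polynomial.aeval (R := ℂ) (MvPolynomial.X none : MvPolynomial (Vr n) ℂ)).toRingHom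
    (fun v => ∑ c, MvPolynomial.X (some (some (v.2, c))) *
      Polynomial.aeval (-MvPolynomial.X (some none)) (Ep N c v.1)) R

theorem ev_PRc (N : Matrix (Fin n) (Fin n) ℂ) (R : MvPolynomial (Fin n × Fin n) (Polynomial ℂ)) (z L : ℂ)
    (M : Matrix (Fin n) (Fin n) ℂ) : Pool.Agent.Y119.HY.ev (PRc N R) z L M =
      MvPolynomial.eval₂ (Polynomial.evalRingHom z) (fun v => (M * E N (-L)) v.2 v.1) R := by
  unfold PRc Pool.Agent.Y119.HY.ev
  induction R using MvPolynomial.induction_on with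
  | C p =>
    rw [MvPolynomial.eval₂_C, MvPolynomial.eval₂_C]
    have h1 : ((MvPolynomial.eval (Pool.Agent.Y119.HY.pt z L M)).comp
        (Polynomial.aeval (R := ℂ) (MvPolynomial.X none : MvPolynomial (Vr n) ℂ)).toRingHom) = Polynomial.evalRingHom z := by
      refine Polynomial.ringHom_ext (fun a => ?_) ?_
      · simp
      · rw [RingHom.comp_apply]
        show (MvPolynomial.eval (Pool.Agent.Y119.HY.pt z L M)) (Polynomial.aeval _ Polynomial.X) = _
        rw [Polynomial.aeval_X, MvPolynomial.eval_X, Polynomial.coe_evalRingHom, Polynomial.eval_X]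
        rfl
    rw [← h1]
    rfl
  | add p q hp hq => rw [MvPolynomial.eval₂_add, MvPolynomial.eval₂_add, map_add, hp, hq]
  | mul_X p j hp =>
    rw [MvPolynomial.eval₂_mul, MvPolynomial.eval₂_mul, map_mul, hp, MvPolynomial.eval₂_X, MvPolynomial.eval₂_X]
    congr 1
    rw [map_sum, Matrix.mul_apply]
    refine Finset.sum_congr rfl fun c _ => ?_
    rw [map_mul, MvPolynomial.eval_X]
    congr 1
    have h1 : (MvPolynomial.eval (Pool.Agent.Y119.HY.pt z L M)) (Polynomial.aeval (-MvPolynomial.X (some none)) (Ep N c j.1)) =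
        (Ep N c j.1).eval (-L) := by
      have h2 : (MvPolynomial.aeval (Pool.Agent.Y119.HY.pt z L M) : MvPolynomial (Vr n) ℂ →ₐ[ℂ] ℂ)
          (Polynomial.aeval (-MvPolynomial.X (some none)) (Ep N c j.1)) =
          Polynomial.aeval ((MvPolynomial.aeval (Pool.Agent.Y119.HY.pt z L M) : MvPolynomial (Vr n) ℂ →ₐ[ℂ] ℂ)
            (-MvPolynomial.X (some none))) (Ep N c j.1) := (Polynomial.aeval_algHom_apply _ _ _).symm
      rw [map_neg, MvPolynomial.aeval_X, ← MvPolynomial.coe_aeval_eq_eval] at *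
      exact h2
    rw [h1, ← Ep_eval]
    rfl

/-- the value of a relation is analytic on the unit disc -/
theorem rel_diff (hQ : QD n Q) (R : MvPolynomial (Fin n × Fin n) (Polynomial ℂ)) :
    DifferentiableOn ℂ (fun z => MvPolynomial.eval₂ (Polynomial.evalRingHom z) (fun v => Hf (Hc n Q) z v.2 v.1) R)
      (Metric.ball 0 1) := by
  induction R using MvPolynomial.induction_on with
  | C p =>
    simp only [MvPolynomial.eval₂_C, Polynomial.coe_evalRingHom]
    exact p.differentiable.differentiableOn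
  | add p q hp hq =>
    simp only [MvPolynomial.eval₂_add]
    exact hp.add hq
  | mul_X p j hp =>
    simp only [MvPolynomial.eval₂_mul, MvPolynomial.eval₂_X]
    exact hp.mul (Pool.Agent.Y119.HY.Hf_an (Pool.Agent.Y119.HY.sol_c hQ) Pool.Agent.Y119.HY.Ac_nil _ _).differentiableOn

/-- **The symplectic group preserves the relations.** -/
theorem hyp_prs (hQ : QD n Q) {g : Matrix (Fin n) (Fin n) ℂ} (hg : g * cm (Jm n Q) * g.transpose = cm (Jm n Q)) :
    Pool.Agent.Y123.GN.Prs (hf n Q) (fun a b => MvPolynomial.rename some (hypP n a b)) g := by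
  intro R hR
  set N := cm (Am n) with hNd
  have hN : N ^ n = 0 := Pool.Agent.Y119.HY.Ac_nil
  have hNJ : N.transpose * cm (Jm n Q) + cm (Jm n Q) * N = 0 := Pool.Agent.Y119.HY.Jc_rel
  -- the relation holds on the unit disc
  have hz : ∀ z ∈ Metric.ball (0 : ℂ) 1, MvPolynomial.eval₂ (Polynomial.evalRingHom z) (fun v => Hf (Hc n Q) z v.2 v.1) R = 0 := by
    have han := (rel_diff hQ R).analyticOnNhd Metric.isOpen_ball
    have hpre : IsPreconnected (Metric.ball (0 : ℂ) 1) := (convex_ball _ _).isPreconnected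
    have hfreq : ∃ᶠ z in 𝓝[≠] (0 : ℂ), MvPolynomial.eval₂ (Polynomial.evalRingHom z) (fun v => Hf (Hc n Q) z v.2 v.1) R = 0 := by
      have ht : Tendsto (fun s : ℝ => (((1 / s : ℝ)) : ℂ)) atTop (𝓝[≠] (0 : ℂ)) := by
        refine tendsto_nhdsWithin_iff.2 ⟨?_, ?_⟩
        · have h1 : Tendsto (fun s : ℝ => 1 / s) atTop (𝓝 0) := by
            simpa using tendsto_inv_atTop_zero
          exact (Complex.continuous_ofReal.tendsto 0).comp h1
        · filter_upwards [eventually_gt_atTop 0] with s hs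
          rw [Set.mem_compl_iff, Set.mem_singleton_iff, Complex.ofReal_eq_zero]
          positivity
      refine ht.frequently (Eventually.frequently ?_)
      filter_upwards [hR] with s hs
      unfold Pool.Agent.Y120.R.rel1 at hs
      simp only [hypP_val] at hs
      push_cast at hs ⊢
      exact hs
    exact han.eqOn_zero_of_preconnected_of_frequently_eq_zero hpre (Metric.mem_ball_self one_pos) hfreq
  have hrel : PRc N R ∈ Rel (Yf N (Hc n Q)) := by
    intro y hy hy1
    rw [ev_PRc]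
    have e1 : Yf N (Hc n Q) (y : ℂ) * E N (-Complex.log y) = Hf (Hc n Q) (y : ℂ) := by
      unfold Yf
      rw [Matrix.mul_assoc, E_mul_neg hN, mul_one]
    rw [e1]
    exact hz _ (by
      rw [mem_ball_zero_iff, Complex.norm_real, Real.norm_eq_abs, abs_of_pos hy]
      exact hy1)
  set κ := g.transpose with hκd
  have hκ : κ.transpose * cm (Jm n Q) * κ = cm (Jm n Q) := by
    rw [hκd, Matrix.transpose_transpose]
    exact hg
  filter_upwards [eventually_gt_atTop 1] with s hs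
  have hs0 : 0 < s := by linarith
  have hx : 0 < 1 / s := by positivity
  have hx1 : 1 / s < 1 := by
    rw [div_lt_one hs0]
    exact hs
  set L : ℂ := Complex.log ((1 / s : ℝ) : ℂ) with hL
  set g' : Matrix (Fin n) (Fin n) ℂ := E N (-L) * κ * E N L with hg'
  have hgJ : g'.transpose * cm (Jm n Q) * g' = cm (Jm n Q) := by
    have i1 := E_isom hN hNJ (-L)
    have i2 := E_isom hN hNJ L
    calc g'.transpose * cm (Jm n Q) * g' = (E N L).transpose * (κ.transpose * ((E N (-L)).transpose * cm (Jm n Q) * E N (-L)) * κ) *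
          E N L := by
            rw [hg', Matrix.transpose_mul, Matrix.transpose_mul]
            simp only [Matrix.mul_assoc]
      _ = _ := by rw [i1, hκ, i2]
  have h1 := Pool.Agent.Y119.HY.hyp_invar hQ g' hgJ _ hrel (1 / s) hx hx1
  rw [ev_PRc] at h1
  have e2 : Yf N (Hc n Q) ((1 / s : ℝ) : ℂ) * g' * E N (-L) = Hf (Hc n Q) ((1 / s : ℝ) : ℂ) * κ := by
    unfold Yf
    have e3 : E N L * E N (-L) = 1 := E_mul_neg hN L
    calc Hf (Hc n Q) ((1 / s : ℝ) : ℂ) * E N (Complex.log ((1 / s : ℝ) : ℂ)) * g' * E N (-L) =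
          Hf (Hc n Q) ((1 / s : ℝ) : ℂ) * (E N L * E N (-L)) * κ * (E N L * E N (-L)) := by
            rw [hg']
            simp only [Matrix.mul_assoc]
            rfl
      _ = _ := by rw [e3, mul_one, mul_one]
  rw [← hL, e2] at h1
  unfold Pool.Agent.Y120.R.rel1
  have e4 : (fun v : Fin n × Fin n => (g * Pool.Agent.Y120.R.pM (hf n Q) (fun a b => MvPolynomial.rename some (hypP n a b)) s) v.1 v.2) =
      fun v => (Hf (Hc n Q) ((1 / s : ℝ) : ℂ) * κ) v.2 v.1 := by
    funext v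
    rw [Matrix.mul_apply, Matrix.mul_apply]
    refine Finset.sum_congr rfl fun l _ => ?_
    rw [hypP_val, hκd, Matrix.transpose_apply, mul_comm]
  rw [e4]
  have e5 : (1 / (s : ℂ)) = ((1 / s : ℝ) : ℂ) := by push_cast; rfl
  rw [e5]
  exact h1

/-- **the group contains the symplectic group** -/
theorem hyp_gs (hQ : QD n Q) : Pool.Agent.Y123.GN.GB (cm (Jm n Q)) ≤
    Pool.Agent.Y123.GN.Gs (hf n Q) (fun a b => MvPolynomial.rename some (hypP n a b)) := by
  intro g hg
  refine ⟨hyp_prs hQ hg.2, hyp_prs hQ ?_⟩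
  exact ((Pool.Agent.Y123.GN.GB (cm (Jm n Q))).inv_mem hg).2

theorem hyp_spf (hQ : QD n Q) : Pool.Agent.Y123.GN.Spf (cm (Jm n Q)) := by
  refine ⟨(Matrix.isUnit_iff_isUnit_det _).2 (isUnit_iff_ne_zero.2 (Pool.Agent.Y119.HY.Jc_det hQ)), ?_⟩
  exact Pool.Agent.Y119.HY.Jc_skew hQ

/-- the symplectic group is generated by its unipotent elements -/
theorem hyp_ug (hQ : QD n Q) : Pool.Agent.Y123.GN.GB (cm (Jm n Q)) ≤ Pool.Agent.Y123.GN.Ug
    (Pool.Agent.Y123.GN.Gs (hf n Q) (fun a b => MvPolynomial.rename some (hypP n a b))) := by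
  intro g hgB
  set 𝒢 := Pool.Agent.Y123.GN.Gs (hf n Q) (fun a b => MvPolynomial.rename some (hypP n a b)) with h𝒢
  have h2 : (⁅Pool.Agent.Y123.GN.Ug 𝒢, Pool.Agent.Y123.GN.Ug 𝒢⁆ : Subgroup _) ≤ Pool.Agent.Y123.GN.Ug 𝒢 := by
    rw [Subgroup.commutator_le]
    intro a ha b hb
    exact Subgroup.mul_mem _ (Subgroup.mul_mem _ (Subgroup.mul_mem _ ha hb) (Subgroup.inv_mem _ ha)) (Subgroup.inv_mem _ hb)
  have h3 := Pool.Agent.Y123.GN.mono_comm (hyp_gs hQ) (Pool.Agent.Y123.GN.cl_perf (Or.inr (Or.inl (hyp_spf hQ))))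
  exact h2 (h3 hgB)

end

end Pool.Agent.X120.GS
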