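import Pool.Agent.X120.GS.Hyf

/-!
# Hypergeometric families at geometric sequences: the point at infinity
-/

set_option autoImplicit false

open Filter Topology Metric Set

namespace Pool.Agent.X120.GS

open Pool.Agent.Y120.GH Pool.Agent.Y120.GF Pool.Agent.Y113 PowerSeries Pool.Agent.X120.Geo
open Pool.Agent.Y119.HZ (A2 T1 Hp hf Ni gsys_Hp exists_b ode_A2 cxR cxR_apply)
open Pool.Agent.Y119.HY (QD Am Bm cm)

section
variable {n : ℕ} {Q : Polynomial ℚ}

/-- the exponents at infinity -/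
theorem hyp_eig (hQ : QD n Q) {μ : ℂ} {v : Fin n → ℂ} (hv0 : v ≠ 0)
    (hv : (cm (Bm n Q) - cm (Am n)).mulVec v = μ • v) : Polynomial.aeval (-μ) Q = 0 := by
  have hn2 := hQ.two
  have hB : ∀ i : Fin n, (cm (Bm n Q)).mulVec v i = if (i : ℕ) + 1 = n then ∑ j : Fin n, ((Q.coeff (j : ℕ) : ℚ) : ℂ) * v j else 0 := by
    intro i
    show ∑ j, cm (Bm n Q) i j * v j = _
    simp only [Pool.Agent.Y119.HY.cm_apply]
    unfold Pool.Agent.Y119.HY.Bm
    simp only [Matrix.of_apply]
    split_ifs with h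
    · rfl
    · simp
  have hA : ∀ i : Fin n, (cm (Am n)).mulVec v i = ∑ j : Fin n, if (j : ℕ) = i + 1 then v j else 0 := by
    intro i
    show ∑ j, cm (Am n) i j * v j = _
    simp only [Pool.Agent.Y119.HY.cm_apply]
    unfold Pool.Agent.Y119.HY.Am
    simp only [Matrix.of_apply]
    refine Finset.sum_congr rfl fun j _ => ?_
    split_ifs <;> simp
  -- the entries of the eigenvector
  have h1 : ∀ k (hk : k < n), v ⟨k, hk⟩ = (-μ) ^ k * v ⟨0, by omega⟩ := by
    intro k
    induction k with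
    | zero =>
      intro hk
      rw [pow_zero, one_mul]
    | succ k ih =>
      intro hk
      have h2 := congrFun hv ⟨k, by omega⟩
      rw [Matrix.sub_mulVec, Pi.sub_apply, hB, hA, if_neg (by simp only; omega), Pi.smul_apply, smul_eq_mul] at h2
      have h3 : ∑ j : Fin n, (if (j : ℕ) = ((⟨k, by omega⟩ : Fin n) : ℕ) + 1 then v j else 0) = v ⟨k + 1, hk⟩ := by
        rw [Finset.sum_eq_single (⟨k + 1, hk⟩ : Fin n)]
        · rw [if_pos rfl]
        · intro j _ hj
          rw [if_neg fun h => hj (Fin.ext h)]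
        · intro h
          exact absurd (Finset.mem_univ _) h
      rw [h3, ih (by omega)] at h2
      rw [pow_succ]
      linear_combination -h2
  have h0 : v ⟨0, by omega⟩ ≠ 0 := by
    intro h0
    apply hv0
    funext i
    rw [show i = ⟨i, i.2⟩ from rfl, h1 i i.2, h0, mul_zero]
    rfl
  have h2 := congrFun hv ⟨n - 1, by omega⟩
  have hz : ∑ j : Fin n, (if (j : ℕ) = ((⟨n - 1, by omega⟩ : Fin n) : ℕ) + 1 then v j else 0) = 0 := by
    refine Finset.sum_eq_zero fun j _ => ?_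
    rw [if_neg]
    have := j.2
    simp only
    omega
  rw [Matrix.sub_mulVec, Pi.sub_apply, hB, hA, if_pos (by simp only; omega), Pi.smul_apply, smul_eq_mul, hz, sub_zero,
    h1 (n - 1) (by omega)] at h2
  have h3 : ∑ j : Fin n, ((Q.coeff (j : ℕ) : ℚ) : ℂ) * v j = (∑ j ∈ Finset.range n, ((Q.coeff j : ℚ) : ℂ) * (-μ) ^ j) * v ⟨0, by omega⟩ := by
    rw [Finset.sum_mul, Finset.sum_range]
    refine Finset.sum_congr rfl fun j _ => ?_
    rw [show v j = v ⟨j, j.2⟩ from rfl, h1 j j.2]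
    ring
  rw [h3] at h2
  have h4 : Polynomial.aeval (-μ) Q = (∑ j ∈ Finset.range n, ((Q.coeff j : ℚ) : ℂ) * (-μ) ^ j) + (-μ) ^ n := by
    rw [Polynomial.aeval_eq_sum_range, hQ.deg, Finset.sum_range_succ]
    have h5 : Q.coeff n = 1 := by
      have := hQ.monic
      rw [Polynomial.Monic, Polynomial.leadingCoeff, hQ.deg] at this
      exact this
    rw [h5, one_smul]
    congr 1
  have h6 : (Polynomial.aeval (-μ) Q) * v ⟨0, by omega⟩ = 0 := by
    rw [h4]
    obtain ⟨p, hp⟩ : ∃ p, n = p + 1 := ⟨n - 1, by omega⟩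
    have h7 : (-μ) ^ n = (-μ) ^ (n - 1) * (-μ) := by
      rw [hp, Nat.add_sub_cancel, pow_succ]
    rw [h7, add_mul, h2]
    ring
  exact (mul_eq_zero.1 h6).resolve_right h0

/-- the exponents at infinity of the system for the entries -/
theorem hyp_eig2 (hQ : QD n Q) {μ : ℂ} {V : Matrix (Fin n) (Fin n) ℂ} (hV0 : V ≠ 0)
    (hV : (cm (Bm n Q) - cm (Am n)) * V + V * cm (Am n) = μ • V) : Polynomial.aeval (-μ) Q = 0 := by
  classical
  have hnil : cm (Am n) ^ n = 0 := Pool.Agent.Y119.HY.Ac_nil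
  have hex : ∃ k, V * cm (Am n) ^ k = 0 := ⟨n, by rw [hnil, Matrix.mul_zero]⟩
  obtain ⟨k, hk⟩ : ∃ k, Nat.find hex = k + 1 := by
    refine Nat.exists_eq_succ_of_ne_zero fun h0 => ?_
    have := Nat.find_spec hex
    rw [h0, pow_zero, Matrix.mul_one] at this
    exact hV0 this
  have h1 := Nat.find_spec hex
  rw [hk] at h1
  have h2 : V * cm (Am n) ^ k ≠ 0 := Nat.find_min hex (by omega)
  set U := V * cm (Am n) ^ k with hU
  have h3 : (cm (Bm n Q) - cm (Am n)) * U = μ • U := by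
    have h4 := congrArg (fun M => M * cm (Am n) ^ k) hV
    beta_reduce at h4
    rw [Matrix.add_mul, Matrix.mul_assoc, Matrix.mul_assoc V, ← pow_succ', h1, add_zero, Matrix.smul_mul] at h4
    exact h4
  obtain ⟨j, hj⟩ : ∃ j, (fun i => U i j) ≠ 0 := by
    by_contra h
    push Not at h
    apply h2
    ext i j
    exact congrFun (h j) i
  refine hyp_eig hQ hj (v := fun i => U i j) ?_
  funext i
  exact congrFun (congrFun h3 i) j

/-- the constant part -/
def a0 (n D : ℕ) (p q : Fin n × Fin n) : ℤ :=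
  (if q.2 = p.2 then (if (q.1 : ℕ) = p.1 + 1 then (D : ℤ) else 0) else 0) - if q.1 = p.1 then D * Ni q.2 p.2 else 0

/-- the linear part -/
def a1 (n D : ℕ) (b : Fin n → Fin n → ℤ) (p q : Fin n × Fin n) : ℤ :=
  (if q.2 = p.2 then b p.1 q.1 else 0) - a0 n D p q

theorem A2_eq (D : ℕ) (b : Fin n → Fin n → ℤ) (p q : Fin n × Fin n) :
    A2 n D b p q = Polynomial.C (a0 n D p q) + Polynomial.C (a1 n D b p q) * Polynomial.X ^ 1 := by
  unfold A2 a1 a0 Pool.Agent.Y119.HZ.A1 T1
  split_ifs <;> simp <;> ring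

theorem T_eq (D : ℕ) : Polynomial.X * T1 D = Polynomial.C (D : ℤ) * Polynomial.X ^ 1 + Polynomial.C (-(D : ℤ)) * Polynomial.X ^ 2 := by
  unfold T1
  simp
  ring

theorem A2_reflect (D : ℕ) (b : Fin n → Fin n → ℤ) (p q : Fin n × Fin n) :
    (A2 n D b p q).reflect 2 = Polynomial.C (a0 n D p q) * Polynomial.X ^ 2 + Polynomial.C (a1 n D b p q) * Polynomial.X := by
  rw [A2_eq, Polynomial.reflect_add, Polynomial.reflect_C, Polynomial.reflect_C_mul_X_pow, Polynomial.revAt_le (by norm_num)]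
  norm_num

theorem T_reflect (D : ℕ) : (Polynomial.X * T1 D).reflect 2 = Polynomial.C (D : ℤ) * Polynomial.X + Polynomial.C (-(D : ℤ)) := by
  rw [T_eq, Polynomial.reflect_add, Polynomial.reflect_C_mul_X_pow, Polynomial.reflect_C_mul_X_pow,
    Polynomial.revAt_le (by norm_num), Polynomial.revAt_le (by norm_num)]
  norm_num

theorem hyp_qu (hQ : QD n Q) (hrat : ∀ μ : ℂ, Polynomial.aeval μ Q = 0 → ∃ q : ℚ, μ = q) {D : ℕ} (hD : D ≠ 0)
    {b : Fin n → Fin n → ℤ} (hb : ∀ i j, (b i j : ℚ) = D * Bm n Q i j) :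
    QU0 (Polynomial.X ^ 2 * (Polynomial.X * T1 D).reflect 2)
      (fun a c : Fin (n * n) => - (A2 n D b (Pool.Agent.Y119.HZ.ix n a) (Pool.Agent.Y119.HZ.ix n c)).reflect 2) := by
  classical
  have hDc : (D : ℂ) ≠ 0 := by exact_mod_cast hD
  let β : Fin n × Fin n → Fin n × Fin n → ℂ := fun p q => ((if q.2 = p.2 then b p.1 q.1 else 0 : ℤ) : ℂ) / D
  let γ : Fin n × Fin n → Fin n × Fin n → ℂ := fun p q => -((a0 n D p q : ℤ) : ℂ) / D
  set K : ℝ := 1 + (∑ p, ∑ q, ‖β p q‖) + ∑ p, ∑ q, ‖γ p q‖ with hK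
  have hs1 : ∀ p q, ‖β p q‖ ≤ ∑ p, ∑ q, ‖β p q‖ := fun p q =>
    (Finset.single_le_sum (f := fun q => ‖β p q‖) (fun _ _ => norm_nonneg _) (Finset.mem_univ q)).trans
      (Finset.single_le_sum (f := fun p => ∑ q, ‖β p q‖) (fun _ _ => Finset.sum_nonneg fun _ _ => norm_nonneg _) (Finset.mem_univ p))
  have hs2 : ∀ p q, ‖γ p q‖ ≤ ∑ p, ∑ q, ‖γ p q‖ := fun p q =>
    (Finset.single_le_sum (f := fun q => ‖γ p q‖) (fun _ _ => norm_nonneg _) (Finset.mem_univ q)).trans
      (Finset.single_le_sum (f := fun p => ∑ q, ‖γ p q‖) (fun _ _ => Finset.sum_nonneg fun _ _ => norm_nonneg _) (Finset.mem_univ p))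
  have hβ0 : 0 ≤ ∑ p, ∑ q, ‖β p q‖ := Finset.sum_nonneg fun _ _ => Finset.sum_nonneg fun _ _ => norm_nonneg _
  have hγ0 : 0 ≤ ∑ p, ∑ q, ‖γ p q‖ := Finset.sum_nonneg fun _ _ => Finset.sum_nonneg fun _ _ => norm_nonneg _
  have hK1 : 1 ≤ K := by linarith
  refine Frb.qu_res (B := fun a c => C (γ (Pool.Agent.Y119.HZ.ix n a) (Pool.Agent.Y119.HZ.ix n c)) + C (β (Pool.Agent.Y119.HZ.ix n a) (Pool.Agent.Y119.HZ.ix n c)) * (PowerSeries.mk 1 : PowerSeries ℂ))
    (K := K) (fun a c => ?_) hK1 (fun a c m => ?_) (fun μ v hv0 hv => ?_)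
  · -- the equation
    generalize Pool.Agent.Y119.HZ.ix n a = p
    generalize Pool.Agent.Y119.HZ.ix n c = q
    rw [T_reflect, A2_reflect]
    have h1 := PowerSeries.mk_one_mul_one_sub_eq_one ℂ
    have cC : ∀ a : ℤ, cxR (Polynomial.C a) = C (a : ℂ) := by
      intro a
      rw [cxR_apply, Polynomial.map_C, Polynomial.coe_C]
      rfl
    have cX : cxR Polynomial.X = X := by
      rw [cxR_apply, Polynomial.map_X, Polynomial.coe_X]
    have e1 : cxR (Polynomial.X ^ 2 * (Polynomial.C (D : ℤ) * Polynomial.X + Polynomial.C (-(D : ℤ)))) =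
        X ^ 2 * (C (D : ℂ) * X - C (D : ℂ)) := by
      simp only [map_mul, map_add, map_pow, cC, cX]
      push_cast
      rw [map_neg]
      ring
    have e2 : cxR (-(Polynomial.C (a0 n D p q) * Polynomial.X ^ 2 + Polynomial.C (a1 n D b p q) * Polynomial.X)) =
        -(C ((a0 n D p q : ℤ) : ℂ) * X ^ 2 + C ((a1 n D b p q : ℤ) : ℂ) * X) := by
      simp only [map_neg, map_mul, map_add, map_pow, cC, cX]
    rw [← cxR_apply, ← cxR_apply, e1, e2]
    have e3 : C (D : ℂ) * C (γ p q) = - C ((a0 n D p q : ℤ) : ℂ) := by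
      rw [← map_mul, ← map_neg]
      congr 1
      show (D : ℂ) * (-((a0 n D p q : ℤ) : ℂ) / D) = _
      field_simp
    have e4 : C (D : ℂ) * C (β p q) = C ((a0 n D p q : ℤ) : ℂ) + C ((a1 n D b p q : ℤ) : ℂ) := by
      rw [← map_mul, ← map_add]
      congr 1
      show (D : ℂ) * (((if q.2 = p.2 then b p.1 q.1 else 0 : ℤ) : ℂ) / D) = _
      unfold a1
      push_cast
      field_simp
      ring
    linear_combination (X ^ 2 * (X - 1)) * e3 - X ^ 2 * C (D : ℂ) * C (β p q) * h1 - X ^ 2 * e4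
  · rw [map_add, coeff_C_mul, coeff_mk, Pi.one_apply, mul_one]
    have h1 : ‖coeff m (C (γ (Pool.Agent.Y119.HZ.ix n a) (Pool.Agent.Y119.HZ.ix n c)) : PowerSeries ℂ)‖ ≤ ∑ p, ∑ q, ‖γ p q‖ := by
      rw [coeff_C]
      split_ifs
      · exact hs2 _ _
      · rw [norm_zero]
        exact hγ0
    refine (norm_add_le _ _).trans ((add_le_add h1 (hs1 _ _)).trans ?_)
    have h2 : K ≤ K ^ (m + 1) := le_self_pow₀ hK1 (by omega)
    linarith
  · -- the exponents
    let V : Matrix (Fin n) (Fin n) ℂ := Matrix.of fun i j => v ((Pool.Agent.Y119.HZ.ix n).symm (i, j))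
    have hV0 : V ≠ 0 := by
      intro h0
      apply hv0
      funext a
      have := congrFun (congrFun h0 (Pool.Agent.Y119.HZ.ix n a).1) (Pool.Agent.Y119.HZ.ix n a).2
      show v a = 0
      rw [← (Pool.Agent.Y119.HZ.ix n).symm_apply_apply a]
      exact this
    obtain ⟨q, hq⟩ := hrat (-μ) (hyp_eig2 hQ (μ := μ) hV0 (by
      ext i j
      have h1 := congrFun hv ((Pool.Agent.Y119.HZ.ix n).symm (i, j))
      have h2 : ((Matrix.of fun a c => coeff 0 (C (γ (Pool.Agent.Y119.HZ.ix n a) (Pool.Agent.Y119.HZ.ix n c)) + C (β (Pool.Agent.Y119.HZ.ix n a) (Pool.Agent.Y119.HZ.ix n c)) *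
          (PowerSeries.mk 1 : PowerSeries ℂ))).mulVec v) ((Pool.Agent.Y119.HZ.ix n).symm (i, j)) =
          ∑ q : Fin n × Fin n, (γ (i, j) q + β (i, j) q) * V q.1 q.2 := by
        show ∑ c, coeff 0 (C (γ (Pool.Agent.Y119.HZ.ix n ((Pool.Agent.Y119.HZ.ix n).symm (i, j))) (Pool.Agent.Y119.HZ.ix n c)) + C (β (Pool.Agent.Y119.HZ.ix n ((Pool.Agent.Y119.HZ.ix n).symm (i, j))) (Pool.Agent.Y119.HZ.ix n c)) *
          (PowerSeries.mk 1 : PowerSeries ℂ)) * v c = _
        rw [Equiv.apply_symm_apply, ← Equiv.sum_comp (Pool.Agent.Y119.HZ.ix n) (fun q : Fin n × Fin n => (γ (i, j) q + β (i, j) q) * V q.1 q.2)]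
        refine Finset.sum_congr rfl fun c _ => ?_
        rw [map_add, coeff_C_mul, coeff_mk, Pi.one_apply, mul_one, coeff_C, if_pos rfl]
        show _ = _ * v ((Pool.Agent.Y119.HZ.ix n).symm ((Pool.Agent.Y119.HZ.ix n c).1, (Pool.Agent.Y119.HZ.ix n c).2))
        rw [Prod.mk.eta, Equiv.symm_apply_apply]
      rw [h2] at h1
      rw [Matrix.add_apply, Matrix.smul_apply, smul_eq_mul]
      have h3 : μ * V i j = (μ • v) ((Pool.Agent.Y119.HZ.ix n).symm (i, j)) := rfl
      rw [h3, ← h1, Matrix.mul_apply, Matrix.mul_apply]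
      have h4 : ∀ q : Fin n × Fin n, (γ (i, j) q + β (i, j) q) * V q.1 q.2 =
          (if q.2 = j then (cm (Bm n Q) - cm (Am n)) i q.1 * V q.1 q.2 else 0) +
          if q.1 = i then V q.1 q.2 * cm (Am n) q.2 j else 0 := by
        intro q
        have hbq : ((b i q.1 : ℤ) : ℂ) = D * ((Bm n Q i q.1 : ℚ) : ℂ) := by exact_mod_cast congrArg (fun x : ℚ => (x : ℂ)) (hb i q.1)
        have hA1 : ∀ i j : Fin n, cm (Am n) i j = if (j : ℕ) = i + 1 then 1 else 0 := by
          intro i j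
          rw [Pool.Agent.Y119.HY.cm_apply]
          unfold Pool.Agent.Y119.HY.Am
          rw [Matrix.of_apply]
          split_ifs <;> simp
        show (-((a0 n D (i, j) q : ℤ) : ℂ) / D + ((if q.2 = j then b i q.1 else 0 : ℤ) : ℂ) / D) * V q.1 q.2 = _
        rw [Matrix.sub_apply, Pool.Agent.Y119.HY.cm_apply, hA1, hA1]
        unfold a0 Ni
        simp only
        split_ifs <;> push_cast <;> (try rw [hbq]) <;> field_simp <;> ring
      rw [Finset.sum_congr rfl fun q _ => h4 q, Finset.sum_add_distrib]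
      congr 1
      · rw [Fintype.sum_prod_type]
        refine Finset.sum_congr rfl fun k _ => ?_
        rw [Finset.sum_eq_single j]
        · rw [if_pos rfl]
        · intro l _ hl
          rw [if_neg hl]
        · intro h
          exact absurd (Finset.mem_univ _) h
      · rw [Fintype.sum_prod_type]
        symm
        rw [Finset.sum_eq_single i]
        · refine Finset.sum_congr rfl fun k _ => ?_
          rw [if_pos rfl]
        · intro l _ hl
          refine Finset.sum_eq_zero fun k _ => ?_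
          rw [if_neg hl]
        · intro h
          exact absurd (Finset.mem_univ _) h))
    refine ⟨-q, ?_⟩
    push_cast
    rw [← hq, neg_neg]

end

end Pool.Agent.X120.GS
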