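import Pool.Agent.X120.GS.Hyc
import Pool.Agent.X120.GS.Degv
import Pool.Agent.Y123.GN.E8

/-!
# Hypergeometric families at geometric sequences: coefficients in spaces of bounded dimension
-/

set_option autoImplicit false

open Matrix Module PowerSeries Filter

namespace Pool.Agent.X120.GS

open Pool.Agent.TH127.PT Pool.Agent.Y123.ST Pool.Agent.Y123.SR Pool.Agent.Y123.GN Pool.Agent.Y113 Pool.Agent.Y113.GG
  Pool.Agent.Y120.R Pool.Agent.Y120.GH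
open Pool.Agent.Y119.HZ (Hp hf Yt)
open Pool.Agent.Y119.HY (QD Am cm Jm Ep E Ep_eval E_neg Hf Hc)

section
variable {k : ℕ} {n : Fin k → ℕ}

/-- all relations of degree at most `d` with coefficients in `V` hold for all matrices which respect the forms -/
def GoodZ (d : ℕ) (V : Submodule ℚ ℂ) (W J B : ∀ i, Matrix (Fin (n i)) (Fin (n i)) ℂ) : Prop :=
  ∀ F : MvPolynomial (Σ i, Fin (n i) × Fin (n i)) ℂ, F.totalDegree ≤ d → (∀ s, F.coeff s ∈ V) →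
    MvPolynomial.aeval (fun v : Σ i, Fin (n i) × Fin (n i) => W v.1 v.2.1 v.2.2) F = 0 →
    ∀ X : ∀ i, Matrix (Fin (n i)) (Fin (n i)) ℂ, (∀ i, X i * J i * (X i)ᵀ = B i) →
      MvPolynomial.aeval (fun v : Σ i, Fin (n i) × Fin (n i) => X v.1 v.2.1 v.2.2) F = 0

/-- **The counting theorem for hypergeometric families at geometric sequences**, coefficients in `V`. -/
theorem hyp_relV (k D d : ℕ) (n : Fin k → ℕ) (Q : Fin k → Polynomial ℚ) (hQ : ∀ i, QD (n i) (Q i))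
    (hrat : ∀ i, ∀ μ : ℂ, Polynomial.aeval μ (Q i) = 0 → ∃ q : ℚ, μ = q)
    (hH : ∀ i a b, SDc (Hp (n i) (Q i) a b)) {b : Fin k → ℕ} (hb : ∀ i, 2 ≤ b i) :
    ∃ C : ℝ, 0 ≤ C ∧ ∀ Ω : (∀ i, Matrix (Fin (n i)) (Fin (n i)) ℂ), (∀ i, IsUnit (Ω i)) →
    ∀ (V : Submodule ℚ ℂ) [Module.Finite ℚ V], Module.finrank ℚ V ≤ D → ∀ T : ℕ, 2 ≤ T →
    ∀ S : Finset (Fin k → ℕ), (∀ t ∈ S, (∀ i, 1 ≤ t i ∧ t i ≤ T) ∧
      ¬ GoodZ d V (fun i => (Yt (n i) (Q i) (b i ^ t i) * Ω i)ᵀ) (fun i => cm (Jm (n i) (Q i)))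
        (fun i => (Ω i)ᵀ * cm (Jm (n i) (Q i)) * Ω i)) →
    (S.card : ℝ) * T ≤ C * (T : ℝ) ^ k * Real.log T := by
  obtain ⟨C, hC, hmain⟩ := rel_degV k D d 1 (∑ i, n i) (fun i => n i * n i) n (fun i => hf (n i) (Q i)) hb
    (fun i δ => hyp_fam (hQ i) (hrat i) (hH i) (hb i) δ)
  refine ⟨C, hC, ?_⟩
  intro Ω hΩ V _ hV T hT S hS
  refine hmain (fun i => hypP (n i)) (fun i a b => hypP_deg a b) (fun i => Lam (Ω i)) (fun i a b =>
    (Lam_deg _ _ _).trans (Finset.single_le_sum (f := n) (fun _ _ => Nat.zero_le _) (Finset.mem_univ i))) V hV T hT S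
    fun t ht => ?_
  obtain ⟨hbox, hnot⟩ := hS t ht
  refine ⟨hbox, fun hgood => hnot ?_⟩
  have hs : ∀ i, 2 ≤ b i ^ t i := fun i => (hb i).trans (Nat.le_self_pow (by have := (hbox i).1; omega) _)
  intro F hF hFV h0 X hX
  have hper : ∀ i, lamT (fun i => Lam (Ω i)) b t i * pM (hf (n i) (Q i)) (soM (fun i => hypP (n i)) i) (tp b t i : ℝ) =
      (Yt (n i) (Q i) (b i ^ t i) * Ω i)ᵀ := by
    intro i
    refine Lam_per (Q i) (Ω i) (s := b i ^ t i) ?_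
    push_cast
    rw [Real.log_pow]
    push_cast
    rfl
  have hform : ∀ i, (Yt (n i) (Q i) (b i ^ t i) * Ω i)ᵀ * cm (Jm (n i) (Q i)) * ((Yt (n i) (Q i) (b i ^ t i) * Ω i)ᵀ)ᵀ =
      (1 : ℂ) • ((Ω i)ᵀ * cm (Jm (n i) (Q i)) * Ω i) := by
    intro i
    rw [one_smul]
    exact cM_form hQ Ω (t := fun i => b i ^ t i) hs i
  have hsp : ∀ i, Spf ((Ω i)ᵀ * cm (Jm (n i) (Q i)) * Ω i) := fun i =>
    ⟨(Matrix.isUnit_iff_isUnit_det _).2 (isUnit_iff_ne_zero.2 (PM'_det hQ hΩ i)), PM'_skew hQ Ω i⟩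
  have hWu : ∀ i, IsUnit ((Yt (n i) (Q i) (b i ^ t i) * Ω i)ᵀ) := fun i =>
    cM_unit hQ hΩ (t := fun i => b i ^ t i) hs i
  choose g hg hgX using fun i => quot_GB (μ := (1 : ℂ)) (X := (Yt (n i) (Q i) (b i ^ t i) * Ω i)ᵀ) (Y := X i)
    (Q := cm (Jm (n i) (Q i))) (B := (Ω i)ᵀ * cm (Jm (n i) (Q i)) * Ω i) one_ne_zero (hWu i) (hform i)
    (by rw [one_smul]; exact hX i) (Or.inl (hsp i))
  choose g' hg' hgg using fun i => Lam_conj (Q i) (Ω i) (hΩ i) ((t i : ℂ) * ((Real.log (b i) : ℝ) : ℂ)) (hg i)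
  have e1 : (fun v : Σ i, Fin (n i) × Fin (n i) => (lamT (fun i => Lam (Ω i)) b t v.1 *
      pM (hf (n v.1) (Q v.1)) (soM (fun i => hypP (n i)) v.1) (tp b t v.1 : ℝ)) v.2.1 v.2.2) =
      fun v => ((Yt (n v.1) (Q v.1) (b v.1 ^ t v.1) * Ω v.1)ᵀ) v.2.1 v.2.2 := by
    funext v
    rw [hper]
  have h1 := hgood F hF hFV (by rw [e1]; exact h0) g' fun i => hyp_gs (hQ i) (hg' i)
  have e2 : (fun v : Σ i, Fin (n i) × Fin (n i) => (lamT (fun i => Lam (Ω i)) b t v.1 * ((g' v.1 : Matrix (Fin (n v.1)) (Fin (n v.1)) ℂ) *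
      pM (hf (n v.1) (Q v.1)) (soM (fun i => hypP (n i)) v.1) (tp b t v.1 : ℝ))) v.2.1 v.2.2) =
      fun v => X v.1 v.2.1 v.2.2 := by
    funext v
    have h3 : lamT (fun i => Lam (Ω i)) b t v.1 * ((g' v.1 : Matrix (Fin (n v.1)) (Fin (n v.1)) ℂ) *
        pM (hf (n v.1) (Q v.1)) (soM (fun i => hypP (n i)) v.1) (tp b t v.1 : ℝ)) = X v.1 := by
      rw [← hgX v.1, ← hper v.1, ← Matrix.mul_assoc, ← Matrix.mul_assoc]
      congr 1
      exact (hgg v.1).symm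
    rw [h3]
  rw [e2] at h1
  exact h1

end

end Pool.Agent.X120.GS
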