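import Pool.Agent.X120.GS.Disc
import Pool.Agent.X120.Geo.Scale

/-!
# Linear independence of the products of the functions at several scales
-/

set_option autoImplicit false

open Filter Topology Metric Set

namespace Pool.Agent.X120.GS

open Pool.Agent.Y120.GH Pool.Agent.Y113 PowerSeries Pool.Agent.X120.Geo

section
variable {ρ : ℝ}

theorem small_rad (hρ : 0 ≤ ρ) {z : ℂ} (hz : ‖z‖ * ρ < 1) : ∃ r : ℝ, 0 < r ∧ r * ρ < 1 ∧ ‖z‖ < r := by
  have hn := norm_nonneg z
  rcases hρ.eq_or_lt with h0 | h0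
  · exact ⟨‖z‖ + 1, by linarith, by rw [← h0]; simp, by linarith⟩
  · have h1 : ‖z‖ < 1 / ρ := by rwa [lt_div_iff₀ h0]
    have h2 : 1 / ρ * ρ = 1 := by field_simp
    refine ⟨(‖z‖ + 1 / ρ) / 2, ?_, ?_, by linarith⟩
    · have : 0 < 1 / ρ := by positivity
      linarith
    · nlinarith

theorem inn_an' (hρ : 0 ≤ ρ) {f : PowerSeries ℂ} (hf : f ∈ Cw ρ) {z : ℂ} (hz : ‖z‖ * ρ < 1) : AnalyticAt ℂ (inn f) z := by
  obtain ⟨r, h1, h2, h3⟩ := small_rad hρ hz
  exact inn_an (hf r h1.le h2) z (mem_ball_zero_iff.2 h3)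

theorem inn_summable (hρ : 0 ≤ ρ) {f : PowerSeries ℂ} (hf : f ∈ Cw ρ) {z : ℂ} (hz : ‖z‖ * ρ < 1) :
    Summable fun m => ‖coeff m f * z ^ m‖ := by
  obtain ⟨r, h1, h2, h3⟩ := small_rad hρ hz
  exact summable_at (hf r h1.le h2) h3.le

theorem inn_mul (hρ : 0 ≤ ρ) {f g : PowerSeries ℂ} (hf : f ∈ Cw ρ) (hg : g ∈ Cw ρ) {z : ℂ} (hz : ‖z‖ * ρ < 1) :
    inn (f * g) z = inn f z * inn g z := by
  unfold inn
  rw [tsum_mul_tsum_eq_tsum_sum_antidiagonal_of_summable_norm (inn_summable hρ hf hz) (inn_summable hρ hg hz)]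
  refine tsum_congr fun m => ?_
  rw [PowerSeries.coeff_mul, Finset.sum_mul]
  refine Finset.sum_congr rfl fun kl hkl => ?_
  rw [← Finset.HasAntidiagonal.mem_antidiagonal.1 hkl, pow_add]
  ring

theorem inn_add (hρ : 0 ≤ ρ) {f g : PowerSeries ℂ} (hf : f ∈ Cw ρ) (hg : g ∈ Cw ρ) {z : ℂ} (hz : ‖z‖ * ρ < 1) :
    inn (f + g) z = inn f z + inn g z := by
  unfold inn
  rw [← Summable.tsum_add (inn_summable hρ hf hz).of_norm (inn_summable hρ hg hz).of_norm]
  refine tsum_congr fun m => ?_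
  rw [map_add]
  ring

theorem inn_C (c : ℂ) (z : ℂ) : inn (C c) z = c := by
  unfold inn
  rw [tsum_eq_single 0]
  · simp
  · intro m hm
    rw [PowerSeries.coeff_C, if_neg hm, zero_mul]

theorem inn_sum (hρ : 0 ≤ ρ) {ι : Type*} (s : Finset ι) {f : ι → PowerSeries ℂ} (hf : ∀ i ∈ s, f i ∈ Cw ρ) {z : ℂ}
    (hz : ‖z‖ * ρ < 1) : inn (∑ i ∈ s, f i) z = ∑ i ∈ s, inn (f i) z := by
  classical
  induction s using Finset.induction_on with
  | empty =>
    rw [Finset.sum_empty, Finset.sum_empty]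
    have := inn_C 0 z
    rwa [map_zero] at this
  | insert a s ha ih =>
    rw [Finset.sum_insert ha, Finset.sum_insert ha, inn_add hρ (hf a (Finset.mem_insert_self _ _))
      ((Cw ρ).sum_mem fun i hi => hf i (Finset.mem_insert_of_mem hi)) hz, ih fun i hi => hf i (Finset.mem_insert_of_mem hi)]

theorem inn_prod (hρ : 0 ≤ ρ) {ι : Type*} (s : Finset ι) {f : ι → PowerSeries ℂ} (hf : ∀ i ∈ s, f i ∈ Cw ρ) {z : ℂ}
    (hz : ‖z‖ * ρ < 1) : inn (∏ i ∈ s, f i) z = ∏ i ∈ s, inn (f i) z := by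
  classical
  induction s using Finset.induction_on with
  | empty =>
    rw [Finset.prod_empty, Finset.prod_empty]
    have := inn_C 1 z
    rwa [map_one] at this
  | insert a s ha ih =>
    rw [Finset.prod_insert ha, Finset.prod_insert ha, inn_mul hρ (hf a (Finset.mem_insert_self _ _))
      ((Cw ρ).prod_mem fun i hi => hf i (Finset.mem_insert_of_mem hi)) hz, ih fun i hi => hf i (Finset.mem_insert_of_mem hi)]

theorem inn_poly (P : Polynomial ℂ) (z : ℂ) : inn (P : PowerSeries ℂ) z = P.eval z := by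
  unfold inn
  rw [tsum_eq_sum (s := Finset.range (P.natDegree + 1)), Polynomial.eval_eq_sum_range]
  · refine Finset.sum_congr rfl fun m _ => ?_
    rw [Polynomial.coeff_coe]
  · intro m hm
    rw [Polynomial.coeff_coe, Polynomial.coeff_eq_zero_of_natDegree_lt (by
      rw [Finset.mem_range] at hm
      omega), zero_mul]

theorem inn_rs (g : ℕ) (f : ℚ⟦X⟧) (z : ℂ) : inn (cx (rs g f)) z = inn (cx f) (g * z) := by
  unfold inn
  refine tsum_congr fun m => ?_
  rw [coeff_cx, coeff_cx, coeff_rs, mul_pow]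
  push_cast
  ring

end

section
variable {κ : Type} [Fintype κ] {y : κ → ℚ⟦X⟧} {C R : ℝ} {Q : ℕ}

/-- independence over the entire functions -/
theorem ind_scale (hC : 1 ≤ C) (hy : ∀ i, cx (y i) ∈ Cw C) (hR : 0 < R) (hD : DiscZ R fun i => cx (y i))
    (hQ : R * C < Q) (k : ℕ) : ∀ (g : Fin k → ℕ), (∀ i, 1 ≤ g i) → (∀ i j, i < j → Q * g i ≤ g j) →
    ∀ a : (Fin k → κ) → ℂ → ℂ, (∀ b, AnalyticOnNhd ℂ (a b) univ) →
    (∀ᶠ z in 𝓝 (0 : ℂ), ∑ b, a b z * ∏ l, inn (cx (y (b l))) (g l * z) = 0) → ∀ b z, a b z = 0 := by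
  classical
  have hC0 : 0 ≤ C := by linarith
  have hQ0 : (0 : ℝ) < Q := lt_trans (mul_pos hR (by linarith)) hQ
  induction k with
  | zero =>
    intro g _ _ a ha hrel b z
    have h1 : ∀ᶠ z in 𝓝 (0 : ℂ), a b z = 0 := by
      filter_upwards [hrel] with z hz
      simp only [Finset.univ_eq_empty, Finset.prod_empty, mul_one, Finset.univ_unique, Finset.sum_singleton] at hz
      rw [Subsingleton.elim b default]
      exact hz
    exact (ha b).eqOn_zero_of_preconnected_of_eventuallyEq_zero isPreconnected_univ (mem_univ 0) h1 (mem_univ z)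
  | succ k ih =>
    intro g hg1 hgs a ha hrel
    set G : ℂ := (g (Fin.last k) : ℂ) with hG
    have hGn : ‖G‖ = g (Fin.last k) := by rw [hG, Complex.norm_natCast]
    have hG1 : (1 : ℝ) ≤ g (Fin.last k) := by exact_mod_cast hg1 _
    have hG0 : G ≠ 0 := by
      intro h
      rw [h, norm_zero] at hGn
      linarith
    let c : κ → ℂ → ℂ := fun β u => ∑ b' : Fin k → κ, a (Fin.snoc (α := fun _ => κ) b' β) (u / G) *
      ∏ l, inn (cx (y (b' l))) (g l.castSucc * (u / G))
    have hcan : ∀ β, AnalyticOnNhd ℂ (c β) (ball 0 R) := by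
      intro β u hu
      have hdiv : AnalyticAt ℂ (fun u : ℂ => u / G) u := analyticAt_id.div analyticAt_const hG0
      refine Finset.analyticAt_fun_sum _ fun b' _ => ?_
      refine AnalyticAt.mul ?_ (Finset.analyticAt_fun_prod _ fun l _ => ?_)
      · exact AnalyticAt.comp (g := a (Fin.snoc (α := fun _ => κ) b' β)) (f := fun u : ℂ => u / G) (ha _ _ (mem_univ _)) hdiv
      · refine AnalyticAt.comp (g := inn (cx (y (b' l)))) (f := fun u : ℂ => (g l.castSucc : ℂ) * (u / G)) ?_
          (analyticAt_const.mul hdiv)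
        refine inn_an' hC0 (hy _) ?_
        have h1 : (Q : ℝ) * g l.castSucc ≤ g (Fin.last k) := by exact_mod_cast hgs _ _ (Fin.castSucc_lt_last l)
        have h2 : ‖u‖ < R := mem_ball_zero_iff.1 hu
        have h3 : ‖(g l.castSucc : ℂ) * (u / G)‖ = g l.castSucc * (‖u‖ / g (Fin.last k)) := by
          rw [norm_mul, Complex.norm_natCast, norm_div, hGn]
        rw [h3]
        have h4 : (g l.castSucc : ℝ) * (‖u‖ / g (Fin.last k)) * C = (g l.castSucc * (‖u‖ * C)) / g (Fin.last k) := by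
          field_simp
        rw [h4, div_lt_one (by linarith)]
        have h5 : ‖u‖ * C < Q := lt_of_le_of_lt (mul_le_mul_of_nonneg_right h2.le hC0) hQ
        have h6 : (0 : ℝ) < g l.castSucc := by
          have := hg1 l.castSucc
          exact_mod_cast this
        calc (g l.castSucc : ℝ) * (‖u‖ * C) < g l.castSucc * Q := mul_lt_mul_of_pos_left h5 h6
          _ = Q * g l.castSucc := mul_comm _ _
          _ ≤ _ := h1
    have hsplit : ∀ z : ℂ, ∑ b, a b z * ∏ l, inn (cx (y (b l))) (g l * z) =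
        ∑ β, c β (G * z) * inn (cx (y β)) (G * z) := by
      intro z
      have hGz : G * z / G = z := by field_simp
      rw [← Equiv.sum_comp (Fin.snocEquiv fun _ => κ), Fintype.sum_prod_type]
      refine Finset.sum_congr rfl fun β _ => ?_
      show ∑ b' : Fin k → κ, a (Fin.snoc (α := fun _ => κ) b' β) z *
        ∏ l, inn (cx (y ((Fin.snoc (α := fun _ => κ) b' β : Fin (k + 1) → κ) l))) (g l * z) = _
      show _ = (∑ b' : Fin k → κ, a (Fin.snoc (α := fun _ => κ) b' β) (G * z / G) *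
        ∏ l, inn (cx (y (b' l))) (g l.castSucc * (G * z / G))) * _
      rw [Finset.sum_mul, hGz]
      refine Finset.sum_congr rfl fun b' _ => ?_
      rw [Fin.prod_univ_castSucc]
      simp only [Fin.snoc_castSucc, Fin.snoc_last]
      ring
    have hrel2 : ∀ᶠ u in 𝓝 (0 : ℂ), ∑ β, c β u * inn (cx (y β)) u = 0 := by
      have h1 : Tendsto (fun u : ℂ => u / G) (𝓝 0) (𝓝 0) := by
        have : Continuous fun u : ℂ => u / G := continuous_id.div_const G
        have := this.tendsto 0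
        rwa [zero_div] at this
      filter_upwards [h1.eventually hrel] with u hu
      rw [hsplit] at hu
      have h2 : G * (u / G) = u := by field_simp
      rwa [h2] at hu
    have hc0 := hD c hcan hrel2
    intro b z
    have hb : b = Fin.snoc (α := fun _ => κ) (fun l => b l.castSucc) (b (Fin.last k)) := by
      funext l
      refine Fin.lastCases ?_ (fun l => ?_) l
      · rw [Fin.snoc_last]
      · rw [Fin.snoc_castSucc]
    rw [hb]
    refine ih (fun l => g l.castSucc) (fun l => hg1 _) (fun i j hij => hgs _ _ (Fin.castSucc_lt_castSucc_iff.2 hij))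
      (fun b' => a (Fin.snoc (α := fun _ => κ) b' (b (Fin.last k)))) (fun b' => ha _) ?_ (fun l => b l.castSucc) z
    have h3 : Tendsto (fun z : ℂ => G * z) (𝓝 0) (𝓝 0) := by
      have : Continuous fun z : ℂ => G * z := continuous_const.mul continuous_id
      have := this.tendsto 0
      rwa [mul_zero] at this
    filter_upwards [h3.eventually (isOpen_ball.mem_nhds (mem_ball_self hR))] with z hz
    have h4 := hc0 (b (Fin.last k)) (G * z) hz
    have hGz : G * z / G = z := by field_simp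
    have h5 : c (b (Fin.last k)) (G * z) = ∑ b' : Fin k → κ, a (Fin.snoc (α := fun _ => κ) b' (b (Fin.last k))) (G * z / G) *
      ∏ l, inn (cx (y (b' l))) (g l.castSucc * (G * z / G)) := rfl
    rw [h5, hGz] at h4
    exact h4

/-- **linear independence at several scales** -/
theorem li_scale (hC : 1 ≤ C) (hsz : ∀ i m, |((coeff m (y i) : ℚ) : ℝ)| ≤ C ^ (m + 1)) (hR : 0 < R)
    (hD : DiscZ R fun i => cx (y i)) (hQ : R * C < Q) (k : ℕ) (g : Fin k → ℕ) (hg1 : ∀ i, 1 ≤ g i)
    (hgs : ∀ i j, i < j → Q * g i ≤ g j) :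
    LinearIndependent (Polynomial ℚ) (fun b : Fin k → κ => ∏ l, rs (g l) (y (b l))) := by
  classical
  have hC0 : 0 ≤ C := by linarith
  have hy : ∀ i, cx (y i) ∈ Cw C := fun i => cx_mem hC0 (hsz i)
  rw [Fintype.linearIndependent_iff]
  intro G hG b
  set ρ₁ : ℝ := ∑ l, (g l : ℝ) * C with hρ₁
  have hρ₁0 : 0 ≤ ρ₁ := Finset.sum_nonneg fun l _ => by positivity
  have hle : ∀ l, (g l : ℝ) * C ≤ ρ₁ := fun l =>
    Finset.single_le_sum (f := fun l => (g l : ℝ) * C) (fun l _ => by positivity) (Finset.mem_univ l)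
  have hm : ∀ l i, cx (rs (g l) (y i)) ∈ Cw ρ₁ := by
    intro l i
    refine Cw_mono (hle l) (cx_mem (by positivity) fun m => ?_)
    rw [coeff_rs]
    push_cast
    rw [abs_mul, abs_of_nonneg (by positivity : (0 : ℝ) ≤ (g l : ℝ) ^ m), mul_pow]
    have hg : (1 : ℝ) ≤ g l := by exact_mod_cast hg1 l
    exact mul_le_mul (pow_le_pow_right₀ hg (by omega)) (hsz i m) (abs_nonneg _) (by positivity)
  let Gc : (Fin k → κ) → Polynomial ℂ := fun b => (G b).map (algebraMap ℚ ℂ)
  have h1 : ∑ b, ((Gc b : Polynomial ℂ) : PowerSeries ℂ) * ∏ l, cx (rs (g l) (y (b l))) = 0 := by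
    have h2 := congrArg cx hG
    rw [map_sum, map_zero] at h2
    refine Eq.trans ?_ h2
    refine Finset.sum_congr rfl fun b _ => ?_
    rw [Pool.Agent.Y120.GF.psmul, map_mul, map_prod, cx_poly]
  have h2 : ∀ᶠ z in 𝓝 (0 : ℂ), ∑ b, (Gc b).eval z * ∏ l, inn (cx (y (b l))) (g l * z) = 0 := by
    have h3 : ∀ᶠ z in 𝓝 (0 : ℂ), ‖z‖ * ρ₁ < 1 := by
      have hcont : Continuous fun z : ℂ => ‖z‖ * ρ₁ := continuous_norm.mul continuous_const
      have := hcont.tendsto 0
      simp only [norm_zero, zero_mul] at this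
      exact this.eventually (gt_mem_nhds one_pos)
    filter_upwards [h3] with z hz
    have h4 := congrArg (fun f => inn f z) h1
    beta_reduce at h4
    have h5 : inn (0 : PowerSeries ℂ) z = 0 := by
      have := inn_C 0 z
      rwa [map_zero] at this
    rw [h5, inn_sum hρ₁0 _ (fun b _ => (Cw ρ₁).mul_mem (poly_mem _) ((Cw ρ₁).prod_mem fun l _ => hm l _)) hz] at h4
    refine Eq.trans ?_ h4
    refine Finset.sum_congr rfl fun b _ => ?_
    rw [inn_mul hρ₁0 (poly_mem _) ((Cw ρ₁).prod_mem fun l _ => hm l _) hz, inn_prod hρ₁0 _ (fun l _ => hm l _) hz, inn_poly]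
    congr 1
    exact Finset.prod_congr rfl fun l _ => (inn_rs _ _ _).symm
  have h3 := ind_scale hC hy hR hD hQ k g hg1 hgs (fun b z => (Gc b).eval z)
    (fun b z _ => (Gc b).differentiable.analyticAt z) h2 b
  have h4 : Gc b = 0 := Polynomial.funext fun z => by rw [h3 z, Polynomial.eval_zero]
  exact (Polynomial.map_eq_zero (algebraMap ℚ ℂ)).1 h4

end

end Pool.Agent.X120.GS
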