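import Pool.Agent.X120.GS.Rel
import Pool.Agent.Y120.R.XY

/-!
# Relations over number fields at almost all tuples of terms of geometric sequences
-/

set_option autoImplicit false

open Filter Topology Metric Set

namespace Pool.Agent.X120.GS

open Pool.Agent.Y120.GH Pool.Agent.Y120.GF Pool.Agent.Y120.R Pool.Agent.Y113 PowerSeries

section
variable {k d e : ℕ} {r n : Fin k → ℕ} {h : ∀ i, Fin (r i) → ℚ⟦X⟧}

theorem sub_io' {𝕜 : Type} [Field 𝕜] (φ : 𝕜 →+* ℂ) (q : ∀ i, Fin (n i) → MvPolynomial (Fin (r i)) ℂ)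
    (F : MvPolynomial (Σ i, Fin (n i)) 𝕜) :
    MvPolynomial.eval₂ (MvPolynomial.C.comp φ) (pf (so q)) F = MvPolynomial.rename (io r)
      (MvPolynomial.aeval (fun v : Σ i, Fin (n i) => MvPolynomial.rename (fun l => (⟨v.1, l⟩ : Σ i, Fin (r i))) (q v.1 v.2))
        (MvPolynomial.map φ F)) := by
  rw [← sub_io, MvPolynomial.eval₂_map, RingHom.comp_id]

/-- the counting theorem -/
theorem relGS (d e D : ℕ) {b : Fin k → ℕ} (hb : ∀ i, 2 ≤ b i) (hF : ∀ i, FamG (d * e) (h i) (b i)) :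
    ∃ C : ℝ, 0 ≤ C ∧ ∀ (q : ∀ i, Fin (n i) → MvPolynomial (Fin (r i)) ℂ), (∀ i j, (q i j).totalDegree ≤ e) →
      ∀ (𝕜 : Type) [Field 𝕜] [CharZero 𝕜] (φ : 𝕜 →+* ℂ) (L : Type) [Fintype L] (w : L → ℂ)
        (g : Jx (Σ i, Fin (n i)) d → Ex r → L → 𝕜), (∀ j s, (Z (so q) j).coeff s = ∑ l, w l * φ (g j s l)) →
        (∀ c : L → 𝕜, ∑ l, w l * φ (c l) = 0 → c = 0) →
      ∀ (V : Submodule ℚ ℂ) [Module.Finite ℚ V], Module.finrank ℚ V ≤ D → ∀ T : ℕ, 2 ≤ T → ∀ S : Finset (Fin k → ℕ),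
      (∀ t ∈ S, (∀ i, 1 ≤ t i ∧ t i ≤ T) ∧ ∃ F : MvPolynomial (Σ i, Fin (n i)) 𝕜, F.totalDegree ≤ d ∧
        (∀ s, φ (F.coeff s) ∈ V) ∧ MvPolynomial.eval₂ φ (pv (so q) h fun i => (tp b t i : ℝ)) F = 0 ∧
        ¬ ∃ R : MvPolynomial (Σ i, Fin (n i)) (MvPolynomial (Fin k) 𝕜), R.totalDegree ≤ d ∧ Fr (so q) h φ R ∧
          MvPolynomial.map (MvPolynomial.eval fun i => 1 / (tp b t i : 𝕜)) R = F) →
      (S.card : ℝ) * T ≤ C * (T : ℝ) ^ k * Real.log T := by
  classical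
  choose hsz B a M ha hM hOne using hF
  choose C₁ hC₁ using hsz
  set C₀ : Fin k → ℝ := fun i => |C₁ i| with hC₀d
  have hC₀ : ∀ i, 0 ≤ C₀ i := fun i => abs_nonneg _
  have hh : ∀ i j m, |((coeff m (h i j) : ℚ) : ℝ)| ≤ C₀ i ^ (m + 1) := fun i j m => by
    refine (hC₁ i j m).trans ?_
    rw [hC₀d, ← abs_pow]
    exact le_abs_self _
  obtain ⟨C, hC, hgood⟩ := goodS (δ := d * e) (D := Fintype.card (Jx (Σ i, Fin (n i)) d × Jx (Σ i, Option (Fin (r i))) (d * e)) * D)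
    hM b hOne hC₀ hh
  choose c₁ hc₁ using fun i => no_roots (ha i)
  obtain ⟨w₀, hw₀⟩ : ∃ w : ℕ, ∀ i, C₀ i ≤ w ∧ c₁ i ≤ w := by
    choose m hm using fun i => exists_nat_ge (C₀ i)
    refine ⟨∑ i, (m i + c₁ i), fun i => ⟨?_, ?_⟩⟩
    · have h1 : m i + c₁ i ≤ ∑ i, (m i + c₁ i) :=
        Finset.single_le_sum (f := fun i => m i + c₁ i) (fun _ _ => Nat.zero_le _) (Finset.mem_univ i)
      have h2 : ((m i : ℕ) : ℝ) ≤ ((∑ i, (m i + c₁ i) : ℕ) : ℝ) := by exact_mod_cast (by omega)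
      exact (hm i).trans h2
    · have h1 : m i + c₁ i ≤ ∑ i, (m i + c₁ i) :=
        Finset.single_le_sum (f := fun i => m i + c₁ i) (fun _ _ => Nat.zero_le _) (Finset.mem_univ i)
      omega
  obtain ⟨d₀, hd₀⟩ : ∃ d₀ : ℕ, ∀ i b β, (M i b β).natDegree ≤ d₀ := by
    refine ⟨∑ i, ∑ b, ∑ β, (M i b β).natDegree, fun i b β => ?_⟩
    refine le_trans ?_ (Finset.single_le_sum (f := fun i => ∑ b, ∑ β, (M i b β).natDegree) (fun _ _ => Nat.zero_le _)
      (Finset.mem_univ i))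
    refine le_trans ?_ (Finset.single_le_sum (f := fun b => ∑ β, (M i b β).natDegree) (fun _ _ => Nat.zero_le _)
      (Finset.mem_univ b))
    exact Finset.single_le_sum (f := fun β => (M i b β).natDegree) (fun _ _ => Nat.zero_le _) (Finset.mem_univ β)
  set dΔ : ℕ := Fintype.card (Jx (Σ i, Fin (n i)) d) * (k * d₀) with hdΔ
  refine ⟨C + (2 * (k * (w₀ + 1) : ℕ) + 2 * (k * dΔ : ℕ)), by positivity, ?_⟩
  intro q₀ hq₀ 𝕜 _ _ φ L _ wt g hg hw V _ hV T hT S hS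
  set q : ∀ i, Fin (n i) → MvPolynomial (Option (Fin (r i))) ℂ := so q₀ with hqd
  have hq : ∀ i j, (q i j).totalDegree ≤ e := so_deg hq₀
  obtain ⟨Δ, hΔ, hΔd, hlift⟩ := lift (mat M q g) (d := k * d₀) (fun pl j => mat_deg M q hd₀ pl j)
  set y : (Fin k → ℕ) → Fin k → 𝕜 := fun t i => 1 / (tp b t i : 𝕜) with hy
  have hfin := fV_fin (δ := d * e) (d := d) q V
  obtain ⟨S₃, hS₃c, hS₃⟩ := hgood (LinearMap.range (fV q (d * e) d V)) (fV_rank q V hV) T hT
  set S₁ := S.filter fun t => ∃ i, tp b t i ≤ w₀ with hS₁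
  set S₂ := S.filter fun t => MvPolynomial.eval (y t) Δ = 0 with hS₂
  have hcov : S ⊆ S₁ ∪ (S₂ ∪ S₃) := by
    intro t ht
    by_cases h1 : ∃ i, tp b t i ≤ w₀
    · exact Finset.mem_union_left _ (Finset.mem_filter.2 ⟨ht, h1⟩)
    · by_cases h2 : MvPolynomial.eval (y t) Δ = 0
      · exact Finset.mem_union_right _ (Finset.mem_union_left _ (Finset.mem_filter.2 ⟨ht, h2⟩))
      · refine Finset.mem_union_right _ (Finset.mem_union_right _ ?_)
        obtain ⟨hbox, F, hFd, hFV, hF0, hFR⟩ := hS t ht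
        push Not at h1
        refine hS₃ t hbox (fun i => lt_of_le_of_lt (hw₀ i).1 (by exact_mod_cast h1 i))
          ⟨MvPolynomial.aeval (fun v : Σ i, Fin (n i) => MvPolynomial.rename (fun l => (⟨v.1, l⟩ : Σ i, Fin (r i)))
            (q₀ v.1 v.2)) (MvPolynomial.map φ F), ?_, ?_, ?_, ?_⟩
        · rw [← sub_io']
          exact sub_deg q le_rfl hq φ hFd
        · rw [← sub_io']
          exact sub_mem q le_rfl hq φ hFd hFV
        · rw [← sub_io', eval_sub]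
          exact hF0
        · rw [← sub_io']
          by_contra hno
          push Not at hno
          obtain ⟨R, hRd, hRF, hRs⟩ := lift_rel M q a (δ := d * e) le_rfl hq hg hw hM hC₀ hh (τ := (w₀ : ℝ))
            (fun i => (hw₀ i).1) (fun i s hs => hc₁ i s (by
              have h1 : ((c₁ i : ℕ) : ℝ) ≤ w₀ := by exact_mod_cast (hw₀ i).2
              exact lt_of_le_of_lt h1 hs)) (y := y t) (hlift (y t) h2) F hFd (fun p => by
                have hyt : (fun i => φ (y t i)) = fun i => (1 : ℂ) / (tp b t i : ℂ) := by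
                  funext i
                  rw [hy]
                  simp
                rw [hyt]
                exact hno p)
          exact hFR ⟨R, hRd, ⟨(w₀ : ℝ), hRs⟩, hRF⟩
  have hcard : S.card ≤ S₁.card + (S₂.card + S₃.card) :=
    (Finset.card_le_card hcov).trans ((Finset.card_union_le _ _).trans (Nat.add_le_add_left (Finset.card_union_le _ _) _))
  have hb₁ : S₁.card ≤ k * (w₀ + 1) * T ^ (k - 1) := smallS hb w₀ T S₁ fun t ht =>
    ⟨(hS t (Finset.mem_filter.1 ht).1).1, (Finset.mem_filter.1 ht).2⟩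
  have hb₂ : S₂.card ≤ k * dΔ * T ^ (k - 1) := zerosS hΔ hΔd hb T (by omega) S₂ fun t ht =>
    ⟨(hS t (Finset.mem_filter.1 ht).1).1, (Finset.mem_filter.1 ht).2⟩
  have e1 := nrm hT hb₁
  have e2 := nrm hT hb₂
  have e3 : (S.card : ℝ) * T ≤ (S₁.card + (S₂.card + S₃.card)) * T := by
    have : (S.card : ℝ) ≤ S₁.card + (S₂.card + S₃.card) := by exact_mod_cast hcard
    exact mul_le_mul_of_nonneg_right this (Nat.cast_nonneg _)
  calc (S.card : ℝ) * T ≤ (S₁.card + (S₂.card + S₃.card)) * T := e3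
    _ = S₁.card * T + (S₂.card * T + S₃.card * T) := by ring
    _ ≤ 2 * (k * (w₀ + 1) : ℕ) * (T : ℝ) ^ k * Real.log T + (2 * (k * dΔ : ℕ) * (T : ℝ) ^ k * Real.log T +
        C * (T : ℝ) ^ k * Real.log T) := add_le_add e1 (add_le_add e2 hS₃c)
    _ = _ := by ring

/-- relations over a number field are specialisations of functional relations over this number field -/
theorem relYS (d e D : ℕ) {b : Fin k → ℕ} (hb : ∀ i, 2 ≤ b i) (hF : ∀ i, FamG (d * e) (h i) (b i)) :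
    ∃ C : ℝ, 0 ≤ C ∧ ∀ (q : ∀ i, Fin (n i) → MvPolynomial (Fin (r i)) ℂ), (∀ i j, (q i j).totalDegree ≤ e) →
      ∀ (K : Subfield ℂ) [FiniteDimensional ℚ K], Module.finrank ℚ K ≤ D →
      ∀ T : ℕ, 2 ≤ T → ∀ S : Finset (Fin k → ℕ),
      (∀ t ∈ S, (∀ i, 1 ≤ t i ∧ t i ≤ T) ∧ ∃ F : MvPolynomial (Σ i, Fin (n i)) K, F.totalDegree ≤ d ∧
        MvPolynomial.eval₂ (algebraMap K ℂ) (pv (so q) h fun i => (tp b t i : ℝ)) F = 0 ∧
        ¬ ∃ R : MvPolynomial (Σ i, Fin (n i)) (MvPolynomial (Fin k) K), R.totalDegree ≤ d ∧ Fr (so q) h (algebraMap K ℂ) R ∧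
          MvPolynomial.map (MvPolynomial.eval fun i => 1 / (tp b t i : K)) R = F) →
      (S.card : ℝ) * T ≤ C * (T : ℝ) ^ k * Real.log T := by
  classical
  obtain ⟨C, hC, h1⟩ := relGS (n := n) (h := h) d e D hb hF
  refine ⟨C, hC, ?_⟩
  intro q₀ hq₀ K _ hK N hN S hS
  set q : ∀ i, Fin (n i) → MvPolynomial (Option (Fin (r i))) ℂ := so q₀ with hqd
  -- a basis of the space of the coefficients
  set T : Finset ℂ := insert 0 (Finset.univ.biUnion fun j : Jx (Σ i, Fin (n i)) d => (Z q j).support.image fun s => (Z q j).coeff s) with hT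
  have hmem : ∀ (j : Jx (Σ i, Fin (n i)) d) (s : Ex r), (Z q j).coeff s ∈ (T : Set ℂ) := by
    intro j s
    by_cases h0 : (Z q j).coeff s = 0
    · rw [h0]
      exact Finset.mem_coe.2 (Finset.mem_insert_self _ _)
    · refine Finset.mem_coe.2 (Finset.mem_insert_of_mem (Finset.mem_biUnion.2 ⟨j, Finset.mem_univ _, ?_⟩))
      exact Finset.mem_image.2 ⟨s, MvPolynomial.mem_support_iff.2 h0, rfl⟩
  set W : Submodule K ℂ := Submodule.span K (T : Set ℂ) with hW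
  have hWf : Module.Finite K W := Module.Finite.span_of_finite K T.finite_toSet
  set b' := Module.finBasis K W with hb'
  let g : Jx (Σ i, Fin (n i)) d → Ex r → Fin (Module.finrank K W) → K := fun j s l =>
    b'.repr ⟨(Z q j).coeff s, Submodule.subset_span (hmem j s)⟩ l
  have hg : ∀ (j : Jx (Σ i, Fin (n i)) d) (s : Ex r), (Z q j).coeff s = ∑ l, ((b' l : W) : ℂ) * algebraMap K ℂ (g j s l) := by
    intro j s
    have h2 := congrArg (fun u : W => (u : ℂ)) (b'.sum_repr ⟨(Z q j).coeff s, Submodule.subset_span (hmem j s)⟩)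
    beta_reduce at h2
    refine Eq.trans h2.symm ?_
    rw [Submodule.coe_sum]
    refine Finset.sum_congr rfl fun l _ => ?_
    rw [Submodule.coe_smul, Algebra.smul_def, mul_comm]
  have hw : ∀ c : Fin (Module.finrank K W) → K, ∑ l, ((b' l : W) : ℂ) * algebraMap K ℂ (c l) = 0 → c = 0 := by
    intro c hc
    have h2 : ∑ l, c l • b' l = 0 := by
      apply Subtype.ext
      rw [Submodule.coe_sum, Submodule.coe_zero, ← hc]
      refine Finset.sum_congr rfl fun l _ => ?_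
      rw [Submodule.coe_smul, Algebra.smul_def, mul_comm]
    have h3 := Fintype.linearIndependent_iff.1 b'.linearIndependent c h2
    funext l
    exact h3 l
  let V : Submodule ℚ ℂ := LinearMap.range ((Algebra.linearMap K ℂ).restrictScalars ℚ)
  have hVf : Module.Finite ℚ V := inferInstance
  have hVD : Module.finrank ℚ V ≤ D := le_trans (LinearMap.finrank_range_le _) hK
  refine h1 q₀ hq₀ K (algebraMap K ℂ) (Fin (Module.finrank K W)) (fun l => ((b' l : W) : ℂ)) g hg hw V hVD N hN S fun t ht => ?_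
  obtain ⟨hbox, F, hFd, hF0, hFR⟩ := hS t ht
  exact ⟨hbox, F, hFd, fun s => ⟨F.coeff s, rfl⟩, hF0, hFR⟩

end

section
variable {k : ℕ} {r : Fin k → ℕ} {ν : Fin k → Type} {h : ∀ i, Fin (r i) → ℚ⟦X⟧}

/-- functional relations with coefficients in a field -/
def Fk {𝕜 : Type} [Field 𝕜] (φ : 𝕜 →+* ℂ) (h : ∀ i, Fin (r i) → ℚ⟦X⟧) (q : ∀ i, ν i → MvPolynomial (Option (Fin (r i))) ℂ)
    (R : MvPolynomial (Σ i, ν i) (MvPolynomial (Fin k) 𝕜)) : Prop :=
  ∃ τ : ℝ, ∀ s : Fin k → ℝ, (∀ i, τ < s i) →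
    MvPolynomial.eval₂ (MvPolynomial.eval₂Hom φ fun i => 1 / (s i : ℂ)) (pn h q s) R = 0

theorem relYS' [∀ i, Fintype (ν i)] (d e D : ℕ) {b : Fin k → ℕ} (hb : ∀ i, 2 ≤ b i) (hF : ∀ i, FamG (d * e) (h i) (b i)) :
    ∃ C : ℝ, 0 ≤ C ∧ ∀ (q : ∀ i, ν i → MvPolynomial (Fin (r i)) ℂ), (∀ i j, (q i j).totalDegree ≤ e) →
      ∀ (K : Subfield ℂ) [FiniteDimensional ℚ K], Module.finrank ℚ K ≤ D → ∀ T : ℕ, 2 ≤ T → ∀ S : Finset (Fin k → ℕ),
      (∀ t ∈ S, (∀ i, 1 ≤ t i ∧ t i ≤ T) ∧ ∃ F : MvPolynomial (Σ i, ν i) K, F.totalDegree ≤ d ∧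
        MvPolynomial.eval₂ (algebraMap K ℂ) (pn h (so q) fun i => (tp b t i : ℝ)) F = 0 ∧
        ¬ ∃ R : MvPolynomial (Σ i, ν i) (MvPolynomial (Fin k) K), R.totalDegree ≤ d ∧ Fk (algebraMap K ℂ) h (so q) R ∧
          MvPolynomial.map (MvPolynomial.eval fun i => 1 / (tp b t i : K)) R = F) →
      (S.card : ℝ) * T ≤ C * (T : ℝ) ^ k * Real.log T := by
  classical
  obtain ⟨C, hC, h1⟩ := relYS (n := fun i => Fintype.card (ν i)) d e D hb hF
  refine ⟨C, hC, ?_⟩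
  intro q₀ hq₀ K _ hK T hT S hS
  let ε : ∀ i, ν i ≃ Fin (Fintype.card (ν i)) := fun i => Fintype.equivFin (ν i)
  let q₀' : ∀ i, Fin (Fintype.card (ν i)) → MvPolynomial (Fin (r i)) ℂ := fun i j => q₀ i ((ε i).symm j)
  let σ : (Σ i, ν i) ≃ (Σ i, Fin (Fintype.card (ν i))) := Equiv.sigmaCongrRight ε
  have hpv : ∀ s : Fin k → ℝ, pv (so q₀') h s ∘ σ = pn h (so q₀) s := by
    intro s
    funext v
    obtain ⟨i, j⟩ := v
    show MvPolynomial.aeval (vp h s) (pf (so q₀') ⟨i, ε i j⟩) = MvPolynomial.aeval (p1 (h i) (s i)) (so q₀ i j)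
    unfold pf
    rw [MvPolynomial.aeval_rename]
    have h2 : (vp h s ∘ fun o : Option (Fin (r i)) => (⟨i, o⟩ : Σ i, Option (Fin (r i)))) = p1 (h i) (s i) := by
      funext o
      rcases o with _ | l
      · rfl
      · rfl
    show MvPolynomial.aeval (vp h s ∘ fun o : Option (Fin (r i)) => (⟨i, o⟩ : Σ i, Option (Fin (r i))))
      (so q₀' i (ε i j)) = _
    rw [h2]
    show MvPolynomial.aeval _ (MvPolynomial.rename some (q₀ i ((ε i).symm (ε i j)))) = _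
    rw [Equiv.symm_apply_apply]
    rfl
  refine h1 q₀' (fun i j => hq₀ i _) K hK T hT S fun t ht => ?_
  obtain ⟨hbox, F, hFd, hF0, hFR⟩ := hS t ht
  refine ⟨hbox, MvPolynomial.rename σ F, (MvPolynomial.totalDegree_rename_le _ _).trans hFd, ?_, ?_⟩
  · rw [MvPolynomial.eval₂_rename, hpv]
    exact hF0
  · rintro ⟨R, hRd, ⟨τ, hRτ⟩, hRF⟩
    refine hFR ⟨MvPolynomial.rename σ.symm R, (MvPolynomial.totalDegree_rename_le _ _).trans hRd, ⟨τ, fun s hs => ?_⟩, ?_⟩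
    · rw [MvPolynomial.eval₂_rename]
      have h3 : pn h (so q₀) s ∘ σ.symm = pv (so q₀') h s := by
        rw [← hpv]
        funext v
        simp
      rw [h3]
      exact hRτ s hs
    · rw [MvPolynomial.map_rename, hRF, MvPolynomial.rename_rename]
      simp

end

end Pool.Agent.X120.GS
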