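import Pool.Agent.X120.GS.All
import Pool.Agent.X120.GS.Cst

/-!
# Relations of bounded degree over all number fields of bounded degree, at geometric sequences
-/

set_option autoImplicit false

open Matrix Module PowerSeries Filter

namespace Pool.Agent.X120.GS

open Pool.Agent.TH127.PT Pool.Agent.Y123.ST Pool.Agent.Y123.SR Pool.Agent.Y123.GN Pool.Agent.Y113 Pool.Agent.Y113.GG
  Pool.Agent.Y120.R Pool.Agent.Y120.GH

section
variable {B₀ : Type} [Fintype B₀] [DecidableEq B₀] {k : ℕ} {n : Fin k → ℕ}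

/-- from the single blocks to all blocks, for subgroups -/
theorem blocks_mem {H : Subgroup (Matrix (IG B₀ n) (IG B₀ n) ℂ)ˣ} {g : ∀ i, (Matrix (Fin (n i)) (Fin (n i)) ℂ)ˣ}
    (h : ∀ i, em B₀ i (g i) ∈ H) : EGu B₀ n g ∈ H := by
  have h1 : g ∈ H.comap (EGu B₀ n) := by
    refine Subgroup.pi_mem_of_mulSingle_mem g fun i => ?_
    exact h i
  exact h1

/-- the conclusion: all relations of degree at most `d` over all number fields of degree at most `D` -/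
def GoodR {r : Fin k → ℕ} (D d : ℕ) (C₀ : Matrix B₀ B₀ ℂ) (h : ∀ i, Fin (r i) → ℚ⟦X⟧)
    (P : ∀ i, Fin (n i) → Fin (n i) → MvPolynomial (Option (Fin (r i))) ℂ) (t : Fin k → ℕ) : Prop :=
  ∀ K : Subfield ℂ, FiniteDimensional ℚ K → finrank ℚ K ≤ D →
    ∀ g : ∀ i, (Matrix (Fin (n i)) (Fin (n i)) ℂ)ˣ, (∀ i, g i ∈ Ug (Gs (h i) (P i))) →
      Rl K d (EG C₀ fun i => pM (h i) (P i) (t i : ℝ)) (EG 1 (fun i => (g i : Matrix (Fin (n i)) (Fin (n i)) ℂ)) *
        EG C₀ fun i => pM (h i) (P i) (t i : ℝ))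

theorem goodR_of {r : Fin k → ℕ} {D d d' : ℕ} (hdd : d * D ^ D ≤ d') {C₀ : Matrix B₀ B₀ ℂ} {h : ∀ i, Fin (r i) → ℚ⟦X⟧}
    {P : ∀ i, Fin (n i) → Fin (n i) → MvPolynomial (Option (Fin (r i))) ℂ} {t : Fin k → ℕ}
    (hrel : ∀ g : ∀ i, (Matrix (Fin (n i)) (Fin (n i)) ℂ)ˣ, (∀ i, g i ∈ Gs (h i) (P i)) →
      Rl ⊥ d' (EG C₀ fun i => pM (h i) (P i) (t i : ℝ))
        (EG 1 (fun i => (g i : Matrix (Fin (n i)) (Fin (n i)) ℂ)) *
        EG C₀ fun i => pM (h i) (P i) (t i : ℝ))) : GoodR D d C₀ h P t := by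
  intro K hK hKD g hg
  have hrelG : ∀ g ∈ Ug (GG B₀ (fun i => Gs (h i) (P i))), Rl ⊥ d' (EG C₀ fun i => pM (h i) (P i) (t i : ℝ))
      (g * EG C₀ fun i => pM (h i) (P i) (t i : ℝ)) := by
    intro g hg
    obtain ⟨g', hg', rfl⟩ := Ug_le _ hg
    exact hrel g' fun i => hg' i (Set.mem_univ i)
  have hmem : EGu B₀ n g ∈ Ug (GG B₀ (fun i => Gs (h i) (P i))) :=
    blocks_mem fun i => em_Ug ⟨g i, hg i, rfl⟩
  have h1 := Rl_all (D := D) (d := d) hK hKD (fun u hu => (hrelG u hu).mono hdd) hmem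
  exact h1

end

theorem rel_of {k r D d d' : ℕ} (hdd : d * D ^ D ≤ d') {ρ n : Fin k → ℕ} {h : ∀ i, Fin (ρ i) → ℚ⟦X⟧}
    (P : ∀ i, Fin (n i) → Fin (n i) → MvPolynomial (Option (Fin (ρ i))) ℂ) (C₀ : Matrix (Fin r) (Fin r) ℂ) (t : Fin k → ℕ)
    {W : Submodule ℚ ℂ} (hKW : ∀ x ∈ (⊥ : Subfield ℂ), x ∈ W) (hW3 : ∀ b : Fin r × Fin r, C₀ b.1 b.2 ∈ W)
    (hcon : ¬ ∃ F : MvPolynomial (Σ i, Fin (n i) × Fin (n i)) ℂ, F.totalDegree ≤ d' ∧
        (∀ s, F.coeff s ∈ W ^ (d' + 1)) ∧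
        MvPolynomial.eval (pn h (fun i (v : Fin (n i) × Fin (n i)) => P i v.1 v.2) fun i => (t i : ℝ)) F = 0 ∧
        ∃ q' : ∀ i, Fin (n i) × Fin (n i) → MvPolynomial (Option (Fin (ρ i))) ℂ,
          (∀ i, Sat (h i) (fun v : Fin (n i) × Fin (n i) => P i v.1 v.2) (q' i)) ∧
          MvPolynomial.eval (pn h q' fun i => (t i : ℝ)) F ≠ 0) : GoodR D d C₀ h P t := by
  classical
  have h1W : (1 : ℂ) ∈ W := hKW 1 (⊥ : Subfield ℂ).one_mem
  have hval : ∀ i (g : Matrix (Fin (n i)) (Fin (n i)) ℂ) (v : Fin (n i) × Fin (n i)),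
      MvPolynomial.aeval (p1 (h i) (t i : ℝ)) (tl (P i) g v) = (g * pM (h i) (P i) (t i : ℝ)) v.1 v.2 := fun i g v =>
    tl_eval (h i) (P i) g _ v
  have hrel : ∀ g : ∀ i, (Matrix (Fin (n i)) (Fin (n i)) ℂ)ˣ, (∀ i, g i ∈ Gs (h i) (P i)) →
      ∀ F : MvPolynomial (Σ i, Fin (n i) × Fin (n i)) ℂ, F.totalDegree ≤ d' → (∀ s, F.coeff s ∈ W ^ (d' + 1)) →
      MvPolynomial.aeval (fun v : Σ i, Fin (n i) × Fin (n i) => pM (h v.1) (P v.1) (t v.1 : ℝ) v.2.1 v.2.2) F = 0 →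
      MvPolynomial.aeval (fun v : Σ i, Fin (n i) × Fin (n i) =>
        ((g v.1 : Matrix (Fin (n v.1)) (Fin (n v.1)) ℂ) * pM (h v.1) (P v.1) (t v.1 : ℝ)) v.2.1 v.2.2) F = 0 := by
    intro g hg F hFd hFV hF0
    by_contra hne
    refine hcon ⟨F, hFd, hFV, ?_, fun i => tl (P i) (g i), fun i => Prs_sat (hg i).1, ?_⟩
    · rw [MvPolynomial.aeval_eq_eval] at hF0
      exact hF0
    · intro h2
      apply hne
      rw [MvPolynomial.aeval_eq_eval]
      refine Eq.trans ?_ h2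
      congr 2
      funext v
      exact (hval v.1 (g v.1) v.2).symm
  refine goodR_of hdd ?_
  intro g hg
  refine Rl_of hKW (PhiG_DC h1W fun a b => hW3 (a, b))
    (y := fun v : Σ i, Fin (n i) × Fin (n i) => pM (h v.1) (P v.1) (t v.1 : ℝ) v.2.1 v.2.2)
    (y' := fun v : Σ i, Fin (n i) × Fin (n i) =>
      ((g v.1 : Matrix (Fin (n v.1)) (Fin (n v.1)) ℂ) * pM (h v.1) (P v.1) (t v.1 : ℝ)) v.2.1 v.2.2)
    (fun F h2 h3 h4 => hrel g hg F h2 h3 h4) (fun b => PhiG_eval C₀ _ b) fun b => ?_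
  rw [EG_mul, Matrix.one_mul]
  exact PhiG_eval C₀ _ b

/-- **The counting theorem for the relations over all number fields of degree at most `D` at once.** -/
theorem rel_allS (k D d e r : ℕ) (ρ n : Fin k → ℕ) (h : ∀ i, Fin (ρ i) → ℚ⟦X⟧) {b : Fin k → ℕ} (hb : ∀ i, 2 ≤ b i)
    (hF : ∀ i δ, FamG δ (h i) (b i)) :
    ∃ C : ℝ, 0 ≤ C ∧ ∀ P : ∀ i, Fin (n i) → Fin (n i) → MvPolynomial (Fin (ρ i)) ℂ,
    (∀ i a b, (P i a b).totalDegree ≤ e) → ∀ C₀ : Matrix (Fin r) (Fin r) ℂ, ∀ T : ℕ, 2 ≤ T →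
    ∀ S : Finset (Fin k → ℕ), (∀ t ∈ S, (∀ i, 1 ≤ t i ∧ t i ≤ T) ∧ ¬ GoodR D d C₀ h (soM P) (tp b t)) →
    (S.card : ℝ) * T ≤ C * (T : ℝ) ^ k * Real.log T := by
  classical
  obtain ⟨d', hd'⟩ : ∃ d' : ℕ, d * D ^ D ≤ d' := ⟨_, le_rfl⟩
  obtain ⟨C, hC, hmain⟩ := gxS (ν := fun i => Fin (n i) × Fin (n i)) (h := h) d' e
    ((1 + r * r + 1) ^ (d' + 1)) hb (fun i => hF i _)
  refine ⟨C, hC, ?_⟩
  intro P hP C₀ T hT S hS
  obtain ⟨hbf, hb1⟩ := bot_fin
  obtain ⟨W, hW1, hW2, hKW, hW3⟩ := exists_W' (⊥ : Subfield ℂ) (fun b : Fin r × Fin r => C₀ b.1 b.2)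
  obtain ⟨hp1, hp2⟩ := finrank_pow_le W (d' + 1)
  have hWD : Module.finrank ℚ W ≤ 1 + r * r + 1 := by
    refine hW2.trans ?_
    rw [Fintype.card_prod, Fintype.card_fin]
    omega
  refine hmain (fun i v => P i v.1 v.2) (fun i v => hP i v.1 v.2) (W ^ (d' + 1)) (hp2.trans (Nat.pow_le_pow_left hWD _))
    T hT S fun t ht => ?_
  obtain ⟨hbox, hnot⟩ := hS t ht
  refine ⟨hbox, ?_⟩
  by_contra hcon
  apply hnot
  exact rel_of hd' (soM P) C₀ (tp b t) hKW hW3 hcon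

section fields
variable {k m : ℕ} {n : Fin k → ℕ} {K : Subfield ℂ}

/-- the places of the variables in the block matrix -/
def plc (n : Fin k → ℕ) (m : ℕ) : (Σ i, Fin (n i) × Fin (n i)) ⊕ Fin m → IG (Fin m) n × IG (Fin m) n
  | Sum.inl v => (Sum.inr ⟨v.1, v.2.1⟩, Sum.inr ⟨v.1, v.2.2⟩)
  | Sum.inr j => (Sum.inl j, Sum.inl j)

/-- the values of the variables -/
def vals (X : ∀ i, Matrix (Fin (n i)) (Fin (n i)) ℂ) (ξ : Fin m → ℂ) : (Σ i, Fin (n i) × Fin (n i)) ⊕ Fin m → ℂ :=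
  Sum.elim (fun v => X v.1 v.2.1 v.2.2) ξ

theorem fl_plc (X : ∀ i, Matrix (Fin (n i)) (Fin (n i)) ℂ) (ξ : Fin m → ℂ) :
    fl (EG (Matrix.diagonal ξ) X) ∘ plc n m = vals X ξ := by
  funext v
  rcases v with ⟨i, a, b⟩ | j
  · show EG (Matrix.diagonal ξ) X (Sum.inr ⟨i, a⟩) (Sum.inr ⟨i, b⟩) = X i a b
    unfold EG
    rw [Matrix.fromBlocks_apply₂₂, Matrix.blockDiagonal'_apply_eq]
  · show EG (Matrix.diagonal ξ) X (Sum.inl j) (Sum.inl j) = ξ j
    unfold EG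
    rw [Matrix.fromBlocks_apply₁₁, Matrix.diagonal_apply_eq]

/-- relations in terms of the entries -/
theorem rel_vals {d : ℕ} {X : ∀ i, Matrix (Fin (n i)) (Fin (n i)) ℂ} {ξ : Fin m → ℂ}
    {g : ∀ i, Matrix (Fin (n i)) (Fin (n i)) ℂ}
    (h : Rl K d (EG (Matrix.diagonal ξ) X) (EG 1 g * EG (Matrix.diagonal ξ) X))
    {F : MvPolynomial ((Σ i, Fin (n i) × Fin (n i)) ⊕ Fin m) K} (hF : F.totalDegree ≤ d)
    (h0 : MvPolynomial.aeval (vals X ξ) F = 0) : MvPolynomial.aeval (vals (fun i => g i * X i) ξ) F = 0 := by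
  have hK : ∀ s, (MvPolynomial.rename (plc n m) (MvPolynomial.map (algebraMap K ℂ) F)).coeff s ∈ K := by
    intro s
    rw [← MvPolynomial.map_rename, MvPolynomial.coeff_map]
    exact (MvPolynomial.coeff s (MvPolynomial.rename (plc n m) F)).2
  have hev : ∀ Y : ∀ i, Matrix (Fin (n i)) (Fin (n i)) ℂ,
      MvPolynomial.eval (fl (EG (Matrix.diagonal ξ) Y)) (MvPolynomial.rename (plc n m) (MvPolynomial.map (algebraMap K ℂ) F)) =
        MvPolynomial.aeval (vals Y ξ) F := by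
    intro Y
    rw [MvPolynomial.eval_rename, fl_plc, MvPolynomial.eval_map, MvPolynomial.aeval_def]
  have h1 := h (MvPolynomial.rename (plc n m) (MvPolynomial.map (algebraMap K ℂ) F)) hK
    ((MvPolynomial.totalDegree_rename_le _ _).trans
      (le_trans (Finset.sup_mono (MvPolynomial.support_map_subset _ _)) hF)) (by rw [hev]; exact h0)
  rw [EG_mul, Matrix.one_mul, hev] at h1
  exact h1

/-- **the relations hold on the torsor**, relative case -/
theorem rel_forms {d : ℕ} {X Y Q B : ∀ i, Matrix (Fin (n i)) (Fin (n i)) ℂ} {ξ : Fin m → ℂ} {μ : Fin k → ℂ}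
    (hst : ∀ g : ∀ i, (Matrix (Fin (n i)) (Fin (n i)) ℂ)ˣ, (∀ i, g i ∈ GB (B i)) →
      Rl K d (EG (Matrix.diagonal ξ) X) (EG 1 (fun i => (g i : Matrix (Fin (n i)) (Fin (n i)) ℂ)) * EG (Matrix.diagonal ξ) X))
    (hμ : ∀ i, μ i ≠ 0) (hu : ∀ i, IsUnit (X i)) (hX : ∀ i, X i * Q i * (X i)ᵀ = μ i • B i)
    (hY : ∀ i, Y i * Q i * (Y i)ᵀ = μ i • B i) (hd : ∀ i, Spf (B i) ∨ (X i).det = (Y i).det)
    {F : MvPolynomial ((Σ i, Fin (n i) × Fin (n i)) ⊕ Fin m) K} (hF : F.totalDegree ≤ d)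
    (h0 : MvPolynomial.aeval (vals X ξ) F = 0) : MvPolynomial.aeval (vals Y ξ) F = 0 := by
  choose g hg hgX using fun i => quot_GB (hμ i) (hu i) (hX i) (hY i) (hd i)
  have h1 := rel_vals (hst g hg) hF h0
  have h2 : (fun i => (g i : Matrix (Fin (n i)) (Fin (n i)) ℂ) * X i) = Y := by
    funext i
    exact hgX i
  rwa [h2] at h1

/-- the torsor of the isomorphisms which respect forms and determinants -/
def Tor (B Q : ∀ i, Matrix (Fin (n i)) (Fin (n i)) ℂ) (w l : Fin k → ℤ) (δ : Fin k → ℂ) :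
    Set ((∀ i, Matrix (Fin (n i)) (Fin (n i)) ℂ) × ℂ) :=
  {y | y.2 ≠ 0 ∧ ∀ i, y.1 i * Q i * (y.1 i)ᵀ = y.2 ^ w i • B i ∧ (Spf (B i) ∨ (y.1 i).det = δ i * y.2 ^ l i)}

theorem form_unit {i : Fin k} {X Q B : Matrix (Fin (n i)) (Fin (n i)) ℂ} {μ : ℂ} (hμ : μ ≠ 0) (hB : IsUnit B)
    (h : X * Q * Xᵀ = μ • B) : IsUnit X := by
  rw [Matrix.isUnit_iff_isUnit_det] at hB ⊢
  have h1 := congrArg Matrix.det h
  rw [Matrix.det_mul, Matrix.det_mul, Matrix.det_smul] at h1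
  rw [isUnit_iff_ne_zero] at hB ⊢
  intro h0
  rw [h0, zero_mul, zero_mul] at h1
  exact (mul_ne_zero (pow_ne_zero _ hμ) hB) h1.symm

/-- **the relations hold on the torsor**, absolute case -/
theorem rel_abs (hK : ∀ x ∈ K, IsAlgebraic ℚ x) {d : ℕ} {X Q B : ∀ i, Matrix (Fin (n i)) (Fin (n i)) ℂ}
    {w l : Fin k → ℤ} {δ : Fin k → ℂ} (hB : ∀ i, IsUnit (B i)) (hBK : ∀ i a b, B i a b ∈ K) (hQK : ∀ i a b, Q i a b ∈ K)
    (hδK : ∀ i, δ i ∈ K) (hwl : ∀ i, Spf (B i) ∨ 2 * l i = w i * n i)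
    (hst : ∀ g : ∀ i, (Matrix (Fin (n i)) (Fin (n i)) ℂ)ˣ, (∀ i, g i ∈ GB (B i)) →
      Rl K d (EG (Matrix.diagonal fun _ : Fin 1 => tpi) X)
        (EG 1 (fun i => (g i : Matrix (Fin (n i)) (Fin (n i)) ℂ)) * EG (Matrix.diagonal fun _ : Fin 1 => tpi) X))
    (hX : (X, tpi) ∈ Tor B Q w l δ)
    {F : MvPolynomial ((Σ i, Fin (n i) × Fin (n i)) ⊕ Fin 1) K} (hF : F.totalDegree ≤ d)
    (h0 : MvPolynomial.aeval (vals X fun _ => tpi) F = 0) :
    ∀ y ∈ Tor B Q w l δ, MvPolynomial.aeval (vals y.1 fun _ => y.2) F = 0 := by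
  have hτ : Transcendental K tpi := tpi_tr hK
  -- the value `2πi`
  have ha : ∀ Y, (Y, tpi) ∈ Tor B Q w l δ → MvPolynomial.aeval (vals Y fun _ => tpi) F = 0 := by
    intro Y hY
    refine rel_forms (μ := fun i => tpi ^ w i) hst (fun i => zpow_ne_zero _ tpi_ne)
      (fun i => form_unit (zpow_ne_zero _ tpi_ne) (hB i) (hX.2 i).1) (fun i => (hX.2 i).1) (fun i => (hY.2 i).1) (fun i => ?_) hF h0
    rcases (hX.2 i).2 with h4 | h4
    · exact Or.inl h4
    · rcases (hY.2 i).2 with h5 | h5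
      · exact Or.inl h5
      · exact Or.inr (h4.trans h5.symm)
  -- transcendental values
  have hb : ∀ Y z, Transcendental K z → (Y, z) ∈ Tor B Q w l δ → MvPolynomial.aeval (vals Y fun _ => z) F = 0 := by
    intro Y z hz hY
    obtain ⟨σ, h1, h2⟩ := Pool.Agent.H37PG.exists_aut hτ hz
    have hsK : ∀ x ∈ K, σ.symm x = x := fun x hx => by
      rw [RingEquiv.symm_apply_eq]
      exact (h1 ⟨x, hx⟩).symm
    have hsz : σ.symm z = tpi := by rw [← h2, RingEquiv.symm_apply_apply]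
    have hmK : ∀ {N : ℕ} (M : Matrix (Fin N) (Fin N) ℂ), (∀ a b, M a b ∈ K) → M.map σ.symm = M := by
      intro N M hM
      ext a b
      exact hsK _ (hM a b)
    have hY' : ((fun i => (Y i).map σ.symm), tpi) ∈ Tor B Q w l δ := by
      refine ⟨tpi_ne, fun i => ⟨?_, ?_⟩⟩
      · show (Y i).map σ.symm * Q i * ((Y i).map σ.symm)ᵀ = tpi ^ w i • B i
        have h3 := congrArg (fun M : Matrix (Fin (n i)) (Fin (n i)) ℂ => M.map σ.symm) (hY.2 i).1
        beta_reduce at h3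
        rw [Matrix.map_mul, Matrix.map_mul, hmK (Q i) (hQK i), Matrix.transpose_map] at h3
        rw [h3]
        ext a b
        show σ.symm (z ^ w i * B i a b) = tpi ^ w i * B i a b
        rw [map_mul, map_zpow₀, hsz, hsK _ (hBK i a b)]
      · rcases (hY.2 i).2 with h4 | h4
        · exact Or.inl h4
        · refine Or.inr ?_
          show ((Y i).map σ.symm).det = δ i * tpi ^ l i
          have h5 : ((Y i).map σ.symm).det = σ.symm (Y i).det := (RingEquiv.map_det σ.symm (Y i)).symm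
          have h4' : (Y i).det = δ i * z ^ l i := h4
          rw [h5, h4', map_mul, map_zpow₀, hsz, hsK _ (hδK i)]
    have h6 := congrArg σ (ha _ hY')
    rw [map_zero, MvPolynomial.aeval_def] at h6
    have h7 := MvPolynomial.eval₂_comp_left (σ : ℂ →+* ℂ) (algebraMap K ℂ) (vals (fun i => (Y i).map σ.symm) fun _ => tpi) F
    rw [← h6, MvPolynomial.aeval_def]
    refine Eq.trans ?_ h7.symm
    have h8 : (σ : ℂ →+* ℂ).comp (algebraMap K ℂ) = algebraMap K ℂ := by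
      ext c
      exact h1 c
    rw [h8]
    congr 1
    funext v
    rcases v with v | j
    · show Y v.1 v.2.1 v.2.2 = σ (σ.symm (Y v.1 v.2.1 v.2.2))
      rw [RingEquiv.apply_symm_apply]
    · exact h2.symm
  rintro ⟨Y, z⟩ hY
  show MvPolynomial.aeval (vals Y fun _ => z) F = 0
  by_cases hz : Transcendental K z
  · exact hb Y z hz hY
  have hza : IsAlgebraic K z := by
    by_contra h
    exact hz h
  have hz0 : z ≠ 0 := hY.1
  -- a curve through `(Y, z)`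
  have hcurve : ∀ t : ℂ, Transcendental K t →
      MvPolynomial.aeval (vals (fun i => t ^ w i • Y i) fun _ => t ^ 2 * z) F = 0 := by
    intro t ht
    have ht0 : t ≠ 0 := by
      rintro rfl
      exact ht (isAlgebraic_zero)
    refine hb _ _ ?_ ⟨mul_ne_zero (pow_ne_zero _ ht0) hz0, fun i => ⟨?_, ?_⟩⟩
    · intro h
      apply ht
      have h3 : t ^ 2 = z⁻¹ * (t ^ 2 * z) := by
        field_simp
      have h4 : IsAlgebraic K (t ^ 2) := by
        rw [h3]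
        exact hza.inv.mul h
      exact h4.of_pow (by norm_num)
    · show (t ^ w i • Y i) * Q i * (t ^ w i • Y i)ᵀ = (t ^ 2 * z) ^ w i • B i
      have h3 : Y i * Q i * (Y i)ᵀ = z ^ w i • B i := (hY.2 i).1
      rw [Matrix.transpose_smul, Matrix.smul_mul, Matrix.smul_mul, Matrix.mul_smul, h3, smul_smul, smul_smul, mul_zpow]
      congr 1
      have h7 : (t ^ 2) ^ w i = t ^ w i * t ^ w i := by
        rw [pow_two, mul_zpow]
      rw [h7]
    · rcases (hY.2 i).2 with h4 | h4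
      · exact Or.inl h4
      · rcases hwl i with h5 | h5
        · exact Or.inl h5
        · refine Or.inr ?_
          show (t ^ w i • Y i).det = δ i * (t ^ 2 * z) ^ l i
          have h4' : (Y i).det = δ i * z ^ l i := h4
          rw [Matrix.det_smul, h4', Fintype.card_fin, mul_zpow]
          have h6 : (t ^ w i) ^ n i = (t ^ 2) ^ l i := by
            rw [← zpow_natCast, ← zpow_natCast t 2, ← _root_.zpow_mul, ← _root_.zpow_mul, ← h5]
            rfl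
          rw [h6]
          ring
  -- continuity
  have hcount : ({x : ℂ | IsAlgebraic K x} : Set ℂ).Countable := by
    have h1 : ({x : ℂ | IsAlgebraic ℚ x} : Set ℂ).Countable := Algebraic.countable ℚ ℂ
    refine h1.mono fun x hx => ?_
    have h2 : Algebra.IsAlgebraic ℚ K := ⟨fun x => by
      have h1 := hK x x.2
      exact (isAlgebraic_algebraMap_iff (A := ℂ) (algebraMap K ℂ).injective).1 h1⟩
    exact IsAlgebraic.restrictScalars ℚ hx
  have hdense : Dense ({x : ℂ | IsAlgebraic K x}ᶜ) := hcount.dense_compl ℝ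
  have hcont : ContinuousAt (fun t : ℂ => MvPolynomial.aeval (vals (fun i => t ^ w i • Y i) fun _ : Fin 1 => t ^ 2 * z) F) 1 := by
    have h1 : (fun t : ℂ => MvPolynomial.aeval (vals (fun i => t ^ w i • Y i) fun _ : Fin 1 => t ^ 2 * z) F) =
        (fun v => MvPolynomial.eval v (MvPolynomial.map (algebraMap K ℂ) F)) ∘
          fun t : ℂ => vals (fun i => t ^ w i • Y i) fun _ : Fin 1 => t ^ 2 * z := by
      funext t
      show _ = MvPolynomial.eval _ _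
      rw [MvPolynomial.eval_map, MvPolynomial.aeval_def]
    rw [h1]
    refine ContinuousAt.comp (MvPolynomial.continuous_eval _).continuousAt ?_
    refine continuousAt_pi.2 fun v => ?_
    rcases v with v | j
    · show ContinuousAt (fun t : ℂ => t ^ w v.1 * Y v.1 v.2.1 v.2.2) 1
      exact (continuousAt_zpow₀ _ _ (Or.inl one_ne_zero)).mul continuousAt_const
    · show ContinuousAt (fun t : ℂ => t ^ 2 * z) 1
      exact (continuousAt_id.pow 2).mul continuousAt_const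
  by_contra hne
  have hne' : MvPolynomial.aeval (vals (fun i => (1 : ℂ) ^ w i • Y i) fun _ : Fin 1 => (1 : ℂ) ^ 2 * z) F ≠ 0 := by
    simpa using hne
  have hev : ∀ᶠ t : ℂ in nhds 1, MvPolynomial.aeval (vals (fun i => t ^ w i • Y i) fun _ : Fin 1 => t ^ 2 * z) F ≠ 0 :=
    hcont.eventually_ne hne'
  obtain ⟨U, hU, hUo, hU1⟩ := mem_nhds_iff.1 hev
  obtain ⟨t, htU, ht⟩ := hdense.inter_open_nonempty U hUo ⟨1, hU1⟩
  exact hU htU (hcurve t ht)

end fields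

end Pool.Agent.X120.GS
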