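import Mathlib
import Pool.Agent.H204R3.GP.FFT
import Pool.Agent.W437.HD.Darboux

/-!
# Invariant tensors of products of symplectic groups
-/

set_option autoImplicit false

open Matrix

namespace Pool.Agent.X120.GS.TT

open Pool.Agent.H204R3.SP Pool.Agent.H204R3.GP Pool.Agent.W437.HD

variable {κ : Type} [Fintype κ] [DecidableEq κ]

/-- the action of matrices on tensors -/
def act {M N : Type} [Fintype N] (g : Matrix M N ℂ) (F : (κ → N) → ℂ) : (κ → M) → ℂ :=
  fun I => ∑ J : κ → N, (∏ l, g (I l) (J l)) * F J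

theorem act_mul {L M N : Type} [Fintype M] [Fintype N] (g : Matrix L M ℂ) (h : Matrix M N ℂ) (F : (κ → N) → ℂ) :
    act (g * h) F = act g (act h F) := by
  classical
  funext I
  unfold act
  have h1 : ∀ J : κ → N, (∏ l, (g * h) (I l) (J l)) * F J =
      ∑ K : κ → M, (∏ l, g (I l) (K l)) * ((∏ l, h (K l) (J l)) * F J) := by
    intro J
    simp only [Matrix.mul_apply]
    rw [Finset.prod_univ_sum, Fintype.piFinset_univ, Finset.sum_mul]
    refine Finset.sum_congr rfl fun K _ => ?_
    rw [Finset.prod_mul_distrib, mul_assoc]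
  rw [Finset.sum_congr rfl fun J _ => h1 J, Finset.sum_comm]
  refine Finset.sum_congr rfl fun K _ => ?_
  rw [Finset.mul_sum]

theorem act_one {N : Type} [Fintype N] [DecidableEq N] (F : (κ → N) → ℂ) : act (1 : Matrix N N ℂ) F = F := by
  funext I
  unfold act
  rw [Finset.sum_eq_single I]
  · simp
  · intro J _ hJ
    obtain ⟨l, hl⟩ : ∃ l, I l ≠ J l := by
      by_contra hno
      push Not at hno
      exact hJ (funext fun l => (hno l).symm)
    have h1 : (1 : Matrix N N ℂ) (I l) (J l) = 0 := Matrix.one_apply_ne hl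
    rw [Finset.prod_eq_zero (f := fun l => (1 : Matrix N N ℂ) (I l) (J l)) (Finset.mem_univ l) h1, zero_mul]
  · intro h
    exact absurd (Finset.mem_univ _) h

theorem act_add {M N : Type} [Fintype N] (g : Matrix M N ℂ) (F G : (κ → N) → ℂ) : act g (F + G) = act g F + act g G := by
  funext I
  simp only [act, Pi.add_apply, mul_add, Finset.sum_add_distrib]

theorem act_smul {M N : Type} [Fintype N] (g : Matrix M N ℂ) (c : ℂ) (F : (κ → N) → ℂ) : act g (c • F) = c • act g F := by
  funext I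
  simp only [act, Pi.smul_apply, smul_eq_mul, Finset.mul_sum]
  exact Finset.sum_congr rfl fun J _ => by ring

theorem act_zero {M N : Type} [Fintype N] (g : Matrix M N ℂ) : act g (0 : (κ → N) → ℂ) = 0 := by
  funext I
  simp [act]

theorem act_sum {M N ι : Type} [Fintype N] (g : Matrix M N ℂ) (S : Finset ι) (F : ι → (κ → N) → ℂ) :
    act g (∑ j ∈ S, F j) = ∑ j ∈ S, act g (F j) := by
  classical
  induction S using Finset.induction_on with
  | empty => rw [Finset.sum_empty, Finset.sum_empty, act_zero]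
  | insert a S ha ih => rw [Finset.sum_insert ha, Finset.sum_insert ha, act_add, ih]

/-- the derivative of a one-parameter group which fixes a tensor -/
theorem der {R : Type} [Fintype R] [DecidableEq R] (Y : Matrix R R ℂ) (F : (κ → R) → ℂ)
    (h : ∀ s : ℂ, act (1 + s • Y) F = F) (I : κ → R) : ∑ l, ∑ x, Y (I l) x * F (Function.update I l x) = 0 := by
  have h1 : ∀ s : ℂ, ∑ J : κ → R, (∏ l, (1 + s • Y) (I l) (J l)) * F J = F I := fun s => congrFun (h s) I
  have h2 : HasDerivAt (fun s : ℂ => ∑ J : κ → R, (∏ l, (1 + s • Y) (I l) (J l)) * F J)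
      (∑ J : κ → R, (∑ l, (∏ l' ∈ Finset.univ.erase l, (1 + (0 : ℂ) • Y) (I l') (J l')) • Y (I l) (J l)) * F J) 0 := by
    refine HasDerivAt.fun_sum fun J _ => ?_
    refine HasDerivAt.mul_const ?_ _
    refine HasDerivAt.fun_finsetProd fun l _ => ?_
    have h3 : (fun s : ℂ => (1 + s • Y) (I l) (J l)) = fun s => (1 : Matrix R R ℂ) (I l) (J l) + s * Y (I l) (J l) := by
      funext s
      rw [Matrix.add_apply, Matrix.smul_apply, smul_eq_mul]
    rw [h3]
    have h4 := ((hasDerivAt_id (0 : ℂ)).mul_const (Y (I l) (J l))).const_add ((1 : Matrix R R ℂ) (I l) (J l))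
    rw [one_mul] at h4
    exact h4
  have h3 : HasDerivAt (fun s : ℂ => ∑ J : κ → R, (∏ l, (1 + s • Y) (I l) (J l)) * F J) 0 0 := by
    simp only [h1]
    exact hasDerivAt_const _ _
  have h4 := h2.unique h3
  rw [← h4]
  simp only [zero_smul, add_zero, smul_eq_mul, Finset.sum_mul]
  conv_rhs => rw [Finset.sum_comm]
  refine Finset.sum_congr rfl fun l _ => ?_
  refine Finset.sum_of_injOn (fun x => Function.update I l x) ?_ (fun _ _ => Finset.mem_coe.2 (Finset.mem_univ _)) ?_ ?_
  · intro x _ y _ hxy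
    have := congrFun hxy l
    simpa using this
  · intro J _ hJ
    obtain ⟨l', hl', hne⟩ : ∃ l', l' ≠ l ∧ I l' ≠ J l' := by
      by_contra hno
      push Not at hno
      apply hJ
      refine ⟨J l, Finset.mem_coe.2 (Finset.mem_univ _), ?_⟩
      funext l'
      by_cases hl : l' = l
      · subst hl
        simp
      · show Function.update I l (J l) l' = J l'
        rw [Function.update_of_ne hl]
        exact hno l' hl
    have h6 : (1 : Matrix R R ℂ) (I l') (J l') = 0 := Matrix.one_apply_ne hne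
    rw [Finset.prod_eq_zero (f := fun l' => (1 : Matrix R R ℂ) (I l') (J l')) (Finset.mem_erase.2 ⟨hl', Finset.mem_univ _⟩) h6,
      zero_mul, zero_mul]
  · intro x _
    have h5 : ∏ l' ∈ Finset.univ.erase l, (1 : Matrix R R ℂ) (I l') (Function.update I l x l') = 1 := by
      refine Finset.prod_eq_one fun l' hl' => ?_
      rw [Function.update_of_ne (Finset.ne_of_mem_erase hl'), Matrix.one_apply_eq]
    rw [h5, one_mul, Function.update_self]

section blocks

variable {k : ℕ} {n : Fin k → ℕ}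

/-- the product of the forms over a matching -/
def matB (B : ∀ i, Matrix (Fin (n i)) (Fin (n i)) ℂ) {m : ℕ} (e : Fin m × Fin 2 ≃ κ) (c : Fin m → Fin k) :
    (κ → Σ i, Fin (n i)) → ℂ :=
  fun I => ∏ s, if (I (e (s, 0))).1 = c s then blockDiagonal' B (I (e (s, 0))) (I (e (s, 1))) else 0

/-- the component of a type -/
def cmp {R : Fin k → Type} (t : κ → Fin k) (F : (κ → Σ i, R i) → ℂ) : (κ → Σ i, R i) → ℂ :=
  fun I => if ∀ l, (I l).1 = t l then F I else 0

theorem sum_cmp {R : Fin k → Type} (F : (κ → Σ i, R i) → ℂ) : F = ∑ t : κ → Fin k, cmp t F := by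
  funext I
  rw [Finset.sum_apply, Finset.sum_eq_single fun l => (I l).1]
  · simp [cmp]
  · intro t _ ht
    rw [cmp, if_neg]
    intro h
    exact ht (funext fun l => (h l).symm)
  · intro h
    exact absurd (Finset.mem_univ _) h

theorem act_cmp {R R' : Fin k → Type} [∀ i, Fintype (R' i)] [∀ i, DecidableEq (R' i)] (g : ∀ i, Matrix (R i) (R' i) ℂ)
    (t : κ → Fin k) (F : (κ → Σ i, R' i) → ℂ) : act (blockDiagonal' g) (cmp t F) = cmp t (act (blockDiagonal' g) F) := by
  funext I
  have h0 : ∀ J : κ → Σ i, R' i, (∃ l, (I l).1 ≠ (J l).1) → ∏ l, blockDiagonal' g (I l) (J l) = 0 := by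
    rintro J ⟨l, hl⟩
    exact Finset.prod_eq_zero (Finset.mem_univ l) (blockDiagonal'_apply_ne _ _ _ hl)
  unfold cmp act
  by_cases ht : ∀ l, (I l).1 = t l
  · rw [if_pos ht]
    refine Finset.sum_congr rfl fun J _ => ?_
    beta_reduce
    by_cases hJ : ∀ l, (J l).1 = t l
    · rw [if_pos hJ]
    · rw [if_neg hJ, h0 J, zero_mul, zero_mul]
      by_contra hno
      push Not at hno
      exact hJ fun l => (hno l).symm.trans (ht l)
  · rw [if_neg ht]
    refine Finset.sum_eq_zero fun J _ => ?_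
    beta_reduce
    by_cases hJ : ∀ l, (J l).1 = t l
    · rw [h0 J, zero_mul]
      by_contra hno
      push Not at hno
      exact ht fun l => (hno l).trans (hJ l)
    · rw [if_neg hJ, mul_zero]

/-- the action on a product over a matching -/
theorem act_prod {M N : Type} [Fintype N] (g : Matrix M N ℂ) {m : ℕ} (e : Fin m × Fin 2 ≃ κ) (f : Fin m → N → N → ℂ) :
    act g (fun J : κ → N => ∏ s, f s (J (e (s, 0))) (J (e (s, 1)))) =
      fun I => ∏ s, ∑ p : N × N, g (I (e (s, 0))) p.1 * g (I (e (s, 1))) p.2 * f s p.1 p.2 := by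
  classical
  funext I
  unfold act
  rw [Finset.prod_univ_sum, Fintype.piFinset_univ]
  let E : (κ → N) ≃ (Fin m → N × N) :=
    { toFun := fun J s => (J (e (s, 0)), J (e (s, 1)))
      invFun := fun q l => if (e.symm l).2 = 0 then (q (e.symm l).1).1 else (q (e.symm l).1).2
      left_inv := fun J => by
        funext l
        obtain ⟨⟨s, a⟩, rfl⟩ := e.surjective l
        fin_cases a <;> simp
      right_inv := fun q => by
        funext s
        simp }
  refine Fintype.sum_equiv E _ _ fun J => ?_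
  have h1 : ∏ l, g (I l) (J l) = ∏ s, (g (I (e (s, 0))) (J (e (s, 0))) * g (I (e (s, 1))) (J (e (s, 1)))) := by
    rw [← Equiv.prod_comp e, Fintype.prod_prod_type]
    refine Finset.prod_congr rfl fun s _ => ?_
    rw [Fin.prod_univ_two]
  rw [h1, ← Finset.prod_mul_distrib]
  rfl

/-- symplectic transvections -/
theorem trans_mem {R : Type} [Fintype R] [DecidableEq R] {J : Matrix R R ℂ} (hJ : Jᵀ = -J) (ψ : R → ℂ) (s : ℂ) :
    (1 + s • vecMulVec (J *ᵥ ψ) ψ) * J * (1 + s • vecMulVec (J *ᵥ ψ) ψ)ᵀ = J := by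
  set u := J *ᵥ ψ with hu
  have h0 : ψ ⬝ᵥ u = 0 := by
    have h1 : ψ ⬝ᵥ (J *ᵥ ψ) = ψ ⬝ᵥ (Jᵀ *ᵥ ψ) := by
      rw [Matrix.mulVec_transpose, dotProduct_comm ψ (ψ ᵥ* J), ← Matrix.dotProduct_mulVec]
    rw [hJ, Matrix.neg_mulVec, dotProduct_neg] at h1
    rw [hu]
    linear_combination (1 / 2 : ℂ) * h1
  have h1 : ψ ᵥ* J = -u := by
    rw [← Matrix.mulVec_transpose, hJ, Matrix.neg_mulVec]
  have h2 : vecMulVec u ψ * J = -vecMulVec u u := by
    rw [Matrix.vecMulVec_mul, h1, Matrix.vecMulVec_neg]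
  have h3 : J * (vecMulVec u ψ)ᵀ = vecMulVec u u := by
    rw [Matrix.transpose_vecMulVec, Matrix.mul_vecMulVec]
  have h4 : vecMulVec u u * (vecMulVec u ψ)ᵀ = 0 := by
    rw [Matrix.transpose_vecMulVec, Matrix.vecMulVec_mul_vecMulVec]
    have h5 : u ⬝ᵥ ψ = 0 := by rw [dotProduct_comm]; exact h0
    rw [h5, zero_smul, Matrix.vecMulVec_zero]
  rw [Matrix.transpose_add, Matrix.transpose_one, Matrix.transpose_smul, Matrix.add_mul, Matrix.one_mul, Matrix.smul_mul, h2,
    Matrix.mul_add, Matrix.mul_one, Matrix.add_mul, Matrix.mul_smul, h3, Matrix.mul_smul, Matrix.smul_mul, Matrix.neg_mul, h4]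
  rw [neg_zero, smul_zero, smul_zero, add_zero, smul_neg]
  abel

end blocks

end Pool.Agent.X120.GS.TT
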